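import Pool.Agent.Helper771.CInv.Defs

set_option linter.all false

open scoped BigOperators

namespace CInv



theorem gi_symm {n : ℕ} {A : Type} [CommRing A] {g gi : Fin n → Fin n → A} (h : IsMetric g gi) :
    (∀ i j, gi i j = gi j i) ∧ (∀ i j, ∑ k, gi i k * g k j = if i = j then 1 else 0) := by
  have h1 : (Matrix.of g) * (Matrix.of gi) = 1 := by
    ext i j
    rw [Matrix.mul_apply, Matrix.one_apply]
    exact h.inv i j
  have h2 : (Matrix.of gi) * (Matrix.of g) = 1 := mul_eq_one_comm.1 h1
  have hg : (Matrix.of g).transpose = Matrix.of g := by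
    ext i j
    exact (h.symm j i)
  have h3 : (Matrix.of gi).transpose * (Matrix.of g) = 1 := by
    have := congrArg Matrix.transpose h1
    rw [Matrix.transpose_mul, hg, Matrix.transpose_one] at this
    exact this
  have h4 : (Matrix.of gi).transpose = Matrix.of gi := by
    calc (Matrix.of gi).transpose = (Matrix.of gi).transpose * ((Matrix.of g) * (Matrix.of gi)) := by
          rw [h1, mul_one]
      _ = Matrix.of gi := by rw [← mul_assoc, h3, one_mul]
  refine ⟨fun i j => ?_, fun i j => ?_⟩
  · have := congrFun (congrFun h4 j) i
    exact this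
  · have := congrFun (congrFun h2 i) j
    rw [Matrix.mul_apply, Matrix.one_apply] at this
    exact this

end CInv
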