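import Pool.Agent.Helper771.CInv.Defs
import Pool.Agent.Helper771.CInv.P_gi_symm

set_option linter.all false

open scoped BigOperators

namespace CInv



theorem metric_compat_zero {n : ℕ} {A : Type} [CommRing A] [Algebra ℝ A] {D : Fin n → A → A}
    (hD : IsDer D) (i : Fin n) : D i 0 = 0 := by
  have := hD.smul i 0 0
  rwa [zero_smul, zero_smul] at this

theorem metric_compat_one {n : ℕ} {A : Type} [CommRing A] [Algebra ℝ A] {D : Fin n → A → A}
    (hD : IsDer D) (i : Fin n) : D i 1 = 0 := by
  have := hD.mul i 1 1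
  rw [mul_one, mul_one, one_mul] at this
  exact left_eq_add.1 this

theorem metric_compat_sum {n : ℕ} {A : Type} [CommRing A] [Algebra ℝ A] {D : Fin n → A → A}
    (hD : IsDer D) (i : Fin n) (f : Fin n → A) : D i (∑ k, f k) = ∑ k, D i (f k) := by
  let φ : A →+ A :=
    { toFun := D i
      map_zero' := metric_compat_zero hD i
      map_add' := hD.add i }
  exact map_sum φ f Finset.univ

theorem metric_compat_chr {n : ℕ} {A : Type} [CommRing A] [Algebra ℝ A] (D : Fin n → A → A)
    (g gi : Fin n → Fin n → A) (k i j : Fin n) : chr D g gi k i j =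
      ∑ l, gi k l * ((1 / 2 : ℝ) • (D i (g j l) + D j (g i l) - D l (g i j))) := by
  unfold chr
  rw [Finset.smul_sum]
  exact Finset.sum_congr rfl fun l _ => (mul_smul_comm _ _ _).symm

theorem metric_compat_low {n : ℕ} {A : Type} [CommRing A] [Algebra ℝ A] (D : Fin n → A → A)
    {g gi : Fin n → Fin n → A} (h : IsMetric g gi) (i j k : Fin n) :
    ∑ m, chr D g gi m i j * g m k =
      (1 / 2 : ℝ) • (D i (g j k) + D j (g i k) - D k (g i j)) := by
  obtain ⟨F, hF⟩ : ∃ F : Fin n → A, F = fun l =>
    (1 / 2 : ℝ) • (D i (g j l) + D j (g i l) - D l (g i j)) := ⟨_, rfl⟩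
  have h1 : ∀ m, chr D g gi m i j * g m k = ∑ l, g k m * gi m l * F l := by
    intro m
    rw [metric_compat_chr, Finset.sum_mul]
    refine Finset.sum_congr rfl fun l _ => ?_
    rw [hF, h.symm m k]
    show _ = g k m * gi m l * ((1 / 2 : ℝ) • (D i (g j l) + D j (g i l) - D l (g i j)))
    rw [mul_comm (g k m * gi m l), mul_comm (g k m) (gi m l), ← mul_assoc,
      mul_comm (gi m l) ((1 / 2 : ℝ) • _)]
  rw [Finset.sum_congr rfl (fun m _ => h1 m), Finset.sum_comm]
  have h2 : ∀ l, ∑ m, g k m * gi m l * F l = if k = l then F l else 0 := by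
    intro l
    rw [← Finset.sum_mul, h.inv k l]
    split_ifs
    · rw [one_mul]
    · rw [zero_mul]
  rw [Finset.sum_congr rfl (fun l _ => h2 l), Finset.sum_ite_eq]
  simp [hF]

theorem metric_compat_two {n : ℕ} {A : Type} [CommRing A] [Algebra ℝ A] {D : Fin n → A → A}
    {g gi : Fin n → Fin n → A} (h : IsMetric g gi) (i j k : Fin n) :
    D i (g j k) = (∑ m, chr D g gi m i j * g m k) + ∑ m, chr D g gi m i k * g j m := by
  have h1 : ∑ m, chr D g gi m i k * g j m = ∑ m, chr D g gi m i k * g m j :=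
    Finset.sum_congr rfl fun m _ => by rw [h.symm j m]
  rw [h1, metric_compat_low D h, metric_compat_low D h, ← smul_add, h.symm k j]
  have h2 : D i (g j k) + D j (g i k) - D k (g i j) + (D i (g j k) + D k (g i j) - D j (g i k)) =
      (2 : ℝ) • D i (g j k) := by
    rw [two_smul]; ring
  rw [h2, smul_smul]
  norm_num

theorem metric_compat {n : ℕ} {A : Type} [CommRing A] [Algebra ℝ A] {D : Fin n → A → A}
    (hD : IsDer D) {g gi : Fin n → Fin n → A} (h : IsMetric g gi) :
    (∀ k i j, chr D g gi k i j = chr D g gi k j i) ∧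
    (∀ i j k, D i (g j k) = (∑ m, chr D g gi m i j * g m k) + ∑ m, chr D g gi m i k * g j m) ∧
    (∀ i j k, D i (gi j k) = - (∑ m, chr D g gi j i m * gi m k) - ∑ m, chr D g gi k i m * gi j m) := by
  refine ⟨?_, fun i j k => metric_compat_two h i j k, ?_⟩
  · intro k i j
    unfold chr
    congr 1
    refine Finset.sum_congr rfl fun l _ => ?_
    rw [h.symm i j]
    ring
  · intro i j k
    obtain ⟨G, hG⟩ : ∃ G : Matrix (Fin n) (Fin n) A, G = Matrix.of g := ⟨_, rfl⟩
    obtain ⟨Gi, hGi⟩ : ∃ G : Matrix (Fin n) (Fin n) A, G = Matrix.of gi := ⟨_, rfl⟩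
    obtain ⟨DG, hDG⟩ : ∃ G : Matrix (Fin n) (Fin n) A, G = Matrix.of fun a b => D i (g a b) :=
      ⟨_, rfl⟩
    obtain ⟨DGi, hDGi⟩ : ∃ G : Matrix (Fin n) (Fin n) A, G = Matrix.of fun a b => D i (gi a b) :=
      ⟨_, rfl⟩
    obtain ⟨C, hC⟩ : ∃ C : Matrix (Fin n) (Fin n) A, C = Matrix.of fun a b => chr D g gi a i b :=
      ⟨_, rfl⟩
    have e1 : G * Gi = 1 := by
      ext a b
      rw [Matrix.mul_apply, hG, hGi, Matrix.one_apply]
      exact h.inv a b
    have e2 : Gi * G = 1 := by
      ext a b
      rw [Matrix.mul_apply, hG, hGi, Matrix.one_apply]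
      exact (gi_symm h).2 a b
    have e3 : DG = C.transpose * G + G * C := by
      ext a b
      rw [Matrix.add_apply, Matrix.mul_apply, Matrix.mul_apply, hDG, hG, hC]
      show D i (g a b) = (∑ m, chr D g gi m i a * g m b) + ∑ m, g a m * chr D g gi m i b
      rw [metric_compat_two (D := D) h i a b]
      congr 1
      exact Finset.sum_congr rfl fun m _ => mul_comm _ _
    have e4 : DG * Gi + G * DGi = 0 := by
      ext a b
      rw [Matrix.add_apply, Matrix.mul_apply, Matrix.mul_apply, hDG, hG, hGi, hDGi,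
        ← Finset.sum_add_distrib]
      show ∑ m, (D i (g a m) * gi m b + g a m * D i (gi m b)) = 0
      rw [Finset.sum_congr rfl (fun m _ => (hD.mul i (g a m) (gi m b)).symm),
        ← metric_compat_sum hD i, h.inv]
      split_ifs
      · exact metric_compat_one hD i
      · exact metric_compat_zero hD i
    have e5 : DGi = -(C * Gi) - Gi * C.transpose := by
      have e6 : Gi * (DG * Gi + G * DGi) = Gi * DG * Gi + DGi := by
        rw [mul_add, ← mul_assoc, ← mul_assoc, e2, one_mul]
      rw [e4, mul_zero, e3] at e6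
      have e7 : Gi * (C.transpose * G + G * C) * Gi = Gi * C.transpose + C * Gi := by
        rw [mul_add, add_mul, ← mul_assoc, ← mul_assoc, e2, one_mul, mul_assoc (Gi * C.transpose),
          e1, mul_one]
      rw [e7] at e6
      have e8 : DGi = - (Gi * C.transpose + C * Gi) := (eq_neg_of_add_eq_zero_right e6.symm)
      rw [e8]
      abel
    have e9 := congrFun (congrFun e5 j) k
    rw [Matrix.sub_apply, Matrix.neg_apply, Matrix.mul_apply, Matrix.mul_apply, hDGi, hC, hGi] at e9
    have e10 : D i (gi j k) = -(∑ m, chr D g gi j i m * gi m k) -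
        ∑ m, gi j m * chr D g gi k i m := e9
    rw [e10]
    congr 1
    exact Finset.sum_congr rfl fun m _ => mul_comm _ _

end CInv
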