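import Pool.Agent.Helper771.CInv.Defs
import Pool.Agent.Helper771.CInv.P_gi_symm
import Pool.Agent.Helper771.CInv.P_metric_compat
import Pool.Agent.Helper771.CInv.P_ric_symm

set_option linter.all false

open scoped BigOperators

namespace CInv



section J14363
open Matrix
variable {n : ℕ} {A : Type} [CommRing A] [Algebra ℝ A]

theorem j14363_DM_add {D : Fin n → A → A} (hD : IsDer D) (m : Fin n)
    (M N : Matrix (Fin n) (Fin n) A) : (M + N).map (D m) = M.map (D m) + N.map (D m) := by
  ext i j; simp [Matrix.map_apply, hD.add]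

theorem j14363_neg {D : Fin n → A → A} (hD : IsDer D) (m : Fin n) (x : A) :
    D m (-x) = - D m x := by
  have h1 := hD.smul m (-1) x
  simpa using h1

theorem j14363_DM_sub {D : Fin n → A → A} (hD : IsDer D) (m : Fin n)
    (M N : Matrix (Fin n) (Fin n) A) : (M - N).map (D m) = M.map (D m) - N.map (D m) := by
  ext i j; simp [Matrix.map_apply, sub_eq_add_neg, hD.add, j14363_neg hD]

theorem j14363_DM_neg {D : Fin n → A → A} (hD : IsDer D) (m : Fin n)
    (M : Matrix (Fin n) (Fin n) A) : (-M).map (D m) = - M.map (D m) := by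
  ext i j; simp [Matrix.map_apply, j14363_neg hD]

theorem j14363_zero {D : Fin n → A → A} (hD : IsDer D) (m : Fin n) : D m 0 = 0 := by
  have h1 := hD.smul m 0 0
  simpa using h1

theorem j14363_sum {D : Fin n → A → A} (hD : IsDer D) (m : Fin n) {ι : Type} (s : Finset ι)
    (f : ι → A) : D m (∑ i ∈ s, f i) = ∑ i ∈ s, D m (f i) := by
  let φ : A →+ A := ⟨⟨D m, j14363_zero hD m⟩, hD.add m⟩
  exact map_sum φ f s

theorem j14363_DM_mul {D : Fin n → A → A} (hD : IsDer D) (m : Fin n)
    (M N : Matrix (Fin n) (Fin n) A) :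
    (M * N).map (D m) = M.map (D m) * N + M * N.map (D m) := by
  ext i j
  simp only [Matrix.map_apply, Matrix.mul_apply, Matrix.add_apply]
  rw [j14363_sum hD, ← Finset.sum_add_distrib]
  exact Finset.sum_congr rfl (fun k _ => hD.mul m _ _)

theorem j14363_DM_comm {D : Fin n → A → A} (hD : IsDer D) (m i : Fin n)
    (M : Matrix (Fin n) (Fin n) A) : (M.map (D i)).map (D m) = (M.map (D m)).map (D i) := by
  ext a b; simp [Matrix.map_apply, hD.comm m i]

theorem j14363_DM_tr {D : Fin n → A → A} (m : Fin n)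
    (M : Matrix (Fin n) (Fin n) A) : (Mᵀ).map (D m) = (M.map (D m))ᵀ := by
  ext a b; simp [Matrix.map_apply]

/-- curvature matrices -/
def j14363_F (D : Fin n → A → A) (W : Fin n → Matrix (Fin n) (Fin n) A) (i j : Fin n) :
    Matrix (Fin n) (Fin n) A :=
  (W j).map (D i) - (W i).map (D j) + W i * W j - W j * W i

theorem j14363_cyc {D : Fin n → A → A} (hD : IsDer D) (W : Fin n → Matrix (Fin n) (Fin n) A)
    (m i j : Fin n) :
    ((j14363_F D W i j).map (D m) + W m * j14363_F D W i j - j14363_F D W i j * W m)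
    + ((j14363_F D W j m).map (D i) + W i * j14363_F D W j m - j14363_F D W j m * W i)
    + ((j14363_F D W m i).map (D j) + W j * j14363_F D W m i - j14363_F D W m i * W j) = 0 := by
  simp only [j14363_F, j14363_DM_add hD, j14363_DM_sub hD, j14363_DM_mul hD]
  rw [j14363_DM_comm hD m i (W j), j14363_DM_comm hD m j (W i), j14363_DM_comm hD i j (W m)]
  noncomm_ring

theorem j14363_anti {D : Fin n → A → A} (hD : IsDer D) (W : Fin n → Matrix (Fin n) (Fin n) A)
    (G : Matrix (Fin n) (Fin n) A) (hG : ∀ m, G.map (D m) = -(W m * G) - G * (W m)ᵀ)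
    (i j : Fin n) : j14363_F D W i j * G + G * (j14363_F D W i j)ᵀ = 0 := by
  have h := j14363_DM_comm hD i j G
  rw [hG, hG] at h
  simp only [j14363_DM_sub hD, j14363_DM_neg hD, j14363_DM_mul hD, j14363_DM_tr, hG] at h
  have h2 := sub_eq_zero.2 h
  rw [← neg_eq_zero, ← h2]
  simp only [j14363_F, Matrix.transpose_sub, Matrix.transpose_add, Matrix.transpose_mul]
  noncomm_ring

theorem j14363_cycU {D : Fin n → A → A} (hD : IsDer D) (W : Fin n → Matrix (Fin n) (Fin n) A)
    (G : Matrix (Fin n) (Fin n) A) (hG : ∀ m, G.map (D m) = -(W m * G) - G * (W m)ᵀ)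
    (m i j : Fin n) :
    ((j14363_F D W i j * G).map (D m) + W m * (j14363_F D W i j * G)
      + j14363_F D W i j * G * (W m)ᵀ)
    + ((j14363_F D W j m * G).map (D i) + W i * (j14363_F D W j m * G)
      + j14363_F D W j m * G * (W i)ᵀ)
    + ((j14363_F D W m i * G).map (D j) + W j * (j14363_F D W m i * G)
      + j14363_F D W m i * G * (W j)ᵀ) = 0 := by
  have h := congrArg (fun M => M * G) (j14363_cyc hD W m i j)
  simp only [zero_mul] at h
  rw [← h]
  simp only [j14363_DM_mul hD, hG]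
  noncomm_ring

theorem j14363_contract {D : Fin n → A → A} (hD : IsDer D) (Γ : Fin n → Fin n → Fin n → A)
    (hΓ : ∀ k i j, Γ k i j = Γ k j i) (u : Fin n → Fin n → Fin n → Fin n → A)
    (h1 : ∀ i j l k, u i j l k = - u j i l k) (h2 : ∀ i j l k, u i j l k = - u i j k l)
    (hB : ∀ m i j l k,
      (D m (u i j l k) + ∑ p, Γ l m p * u i j p k + ∑ p, u i j l p * Γ k m p)
      + (D i (u j m l k) + ∑ p, Γ l i p * u j m p k + ∑ p, u j m l p * Γ k i p)
      + (D j (u m i l k) + ∑ p, Γ l j p * u m i p k + ∑ p, u m i l p * Γ k j p) = 0)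
    (rc : Fin n → Fin n → A) (hrc : ∀ j k, ∑ i, u i j i k = rc k j) (m : Fin n) :
    ∑ i, D i (rc i m) + ∑ i, ∑ p, Γ i i p * rc p m - ∑ i, ∑ p, Γ i m p * rc p i
      = (1 / 2 : ℝ) • D m (∑ j, rc j j) := by
  have hz : ∀ x : A, x = -x → x = 0 := by
    intro x hx
    have h3 : (2 : ℝ) • x = 0 := by
      rw [two_smul]; nth_rewrite 2 [hx]; exact add_neg_cancel x
    have h4 : x = (1 / 2 : ℝ) • ((2 : ℝ) • x) := by rw [smul_smul]; norm_num
    rw [h4, h3, smul_zero]
  have r1 : ∀ i p, ∑ j, u i j p j = rc p i := by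
    intro i p
    rw [← hrc i p]
    refine Finset.sum_congr rfl (fun j _ => ?_)
    rw [h1 i j p j, h2 j i p j, neg_neg]
  have r2 : ∀ p, ∑ j, u j m p j = - rc p m := by
    intro p
    rw [← hrc m p, ← Finset.sum_neg_distrib]
    refine Finset.sum_congr rfl (fun j _ => ?_)
    rw [h2 j m p j]
  have r3 : ∀ p, ∑ i, u m i i p = - rc p m := by
    intro p
    rw [← hrc m p, ← Finset.sum_neg_distrib]
    refine Finset.sum_congr rfl (fun j _ => ?_)
    rw [h1 m j j p]
  have T11 : ∑ i, ∑ j, D m (u i j i j) = D m (∑ j, rc j j) := by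
    rw [Finset.sum_comm, j14363_sum hD]
    refine Finset.sum_congr rfl (fun j _ => ?_)
    rw [← hrc j j, j14363_sum hD]
  have T12 : ∑ i, ∑ j, ∑ p, Γ i m p * u i j p j = ∑ i, ∑ p, Γ i m p * rc p i := by
    refine Finset.sum_congr rfl (fun i _ => ?_)
    rw [Finset.sum_comm]
    refine Finset.sum_congr rfl (fun p _ => ?_)
    rw [← Finset.mul_sum, r1]
  have T13 : ∑ i, ∑ j, ∑ p, u i j i p * Γ j m p = ∑ i, ∑ p, Γ i m p * rc p i := by
    rw [Finset.sum_comm]
    refine Finset.sum_congr rfl (fun i _ => ?_)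
    rw [Finset.sum_comm]
    refine Finset.sum_congr rfl (fun p _ => ?_)
    rw [← Finset.sum_mul, hrc, mul_comm]
  have T21 : ∑ i, ∑ j, D i (u j m i j) = - ∑ i, D i (rc i m) := by
    rw [← Finset.sum_neg_distrib]
    refine Finset.sum_congr rfl (fun i _ => ?_)
    rw [← j14363_sum hD, r2, j14363_neg hD]
  have T22 : ∑ i, ∑ j, ∑ p, Γ i i p * u j m p j = - ∑ i, ∑ p, Γ i i p * rc p m := by
    rw [← Finset.sum_neg_distrib]
    refine Finset.sum_congr rfl (fun i _ => ?_)
    rw [Finset.sum_comm, ← Finset.sum_neg_distrib]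
    refine Finset.sum_congr rfl (fun p _ => ?_)
    rw [← Finset.mul_sum, r2, mul_neg]
  have T23 : ∑ i, ∑ j, ∑ p, u j m i p * Γ j i p = 0 := by
    apply hz
    have e1 : ∑ i, ∑ j, ∑ p, u j m i p * Γ j i p = ∑ j, ∑ i, ∑ p, u j m i p * Γ j i p :=
      Finset.sum_comm
    rw [e1, ← Finset.sum_neg_distrib]
    refine Finset.sum_congr rfl (fun j _ => ?_)
    rw [← Finset.sum_neg_distrib]
    refine Finset.sum_comm.trans ?_
    refine Finset.sum_congr rfl (fun p _ => ?_)
    rw [← Finset.sum_neg_distrib]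
    refine Finset.sum_congr rfl (fun i _ => ?_)
    rw [h2 j m i p, hΓ j i p]; ring
  have T31 : ∑ i, ∑ j, D j (u m i i j) = - ∑ i, D i (rc i m) := by
    rw [Finset.sum_comm, ← Finset.sum_neg_distrib]
    refine Finset.sum_congr rfl (fun i _ => ?_)
    rw [← j14363_sum hD, r3, j14363_neg hD]
  have T32 : ∑ i, ∑ j, ∑ p, Γ i j p * u m i p j = 0 := by
    apply hz
    rw [← Finset.sum_neg_distrib]
    refine Finset.sum_congr rfl (fun i _ => ?_)
    rw [← Finset.sum_neg_distrib]
    refine Finset.sum_comm.trans ?_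
    refine Finset.sum_congr rfl (fun p _ => ?_)
    rw [← Finset.sum_neg_distrib]
    refine Finset.sum_congr rfl (fun j _ => ?_)
    rw [h2 m i p j, hΓ i j p]; ring
  have T33 : ∑ i, ∑ j, ∑ p, u m i i p * Γ j j p = - ∑ i, ∑ p, Γ i i p * rc p m := by
    rw [Finset.sum_comm, ← Finset.sum_neg_distrib]
    refine Finset.sum_congr rfl (fun j _ => ?_)
    rw [Finset.sum_comm, ← Finset.sum_neg_distrib]
    refine Finset.sum_congr rfl (fun p _ => ?_)
    rw [← Finset.sum_mul, r3]; ring
  have hsum : ∑ i, ∑ j, ((D m (u i j i j) + ∑ p, Γ i m p * u i j p j + ∑ p, u i j i p * Γ j m p)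
      + (D i (u j m i j) + ∑ p, Γ i i p * u j m p j + ∑ p, u j m i p * Γ j i p)
      + (D j (u m i i j) + ∑ p, Γ i j p * u m i p j + ∑ p, u m i i p * Γ j j p)) = 0 :=
    Finset.sum_eq_zero (fun i _ => Finset.sum_eq_zero (fun j _ => hB m i j i j))
  simp only [Finset.sum_add_distrib] at hsum
  rw [T11, T12, T13, T21, T22, T23, T31, T32, T33] at hsum
  have h5 : D m (∑ j, rc j j) = (2 : ℝ) • (∑ i, D i (rc i m) + ∑ i, ∑ p, Γ i i p * rc p m
      - ∑ i, ∑ p, Γ i m p * rc p i) := by
    rw [two_smul]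
    linear_combination hsum
  rw [h5, smul_smul]; norm_num

end J14363

theorem bianchi {n : ℕ} {A : Type} [CommRing A] [Algebra ℝ A] {D : Fin n → A → A}
    (hD : IsDer D) {g gi : Fin n → Fin n → A} (h : IsMetric g gi) (b : Fin n) :
    ∑ a, ∑ c, gi a c * (D c (ric D g gi a b) - (∑ k, chr D g gi k c a * ric D g gi k b)
      - ∑ k, chr D g gi k c b * ric D g gi a k) = (1 / 2 : ℝ) • D b (scal D g gi) := by
  obtain ⟨hΓ, -, hgi⟩ := metric_compat hD h
  obtain ⟨hgs, -⟩ := gi_symm h
  set Γ : Fin n → Fin n → Fin n → A := chr D g gi with hΓdef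
  set W : Fin n → Matrix (Fin n) (Fin n) A := fun i => Matrix.of (fun l k => Γ l i k) with hW
  set G : Matrix (Fin n) (Fin n) A := Matrix.of gi with hGdef
  have hG : ∀ m, G.map (D m) = -(W m * G) - G * (W m).transpose := by
    intro m
    ext j k
    simp only [Matrix.map_apply, Matrix.sub_apply, Matrix.neg_apply, Matrix.mul_apply,
      Matrix.transpose_apply, hW, hGdef, Matrix.of_apply]
    rw [hgi m j k]
    congr 1
    refine Finset.sum_congr rfl (fun p _ => mul_comm _ _)
  have hGt : G.transpose = G := by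
    ext j k; simp only [Matrix.transpose_apply, hGdef, Matrix.of_apply]; exact hgs k j
  have hric : ∀ k j, ric D g gi k j = ∑ i, j14363_F D W i j i k := by
    intro k j
    simp only [ric, j14363_F, Matrix.sub_apply, Matrix.add_apply, Matrix.map_apply,
      Matrix.mul_apply, hW, Matrix.of_apply, ← hΓdef]
    rw [← Finset.sum_add_distrib]
    refine Finset.sum_congr rfl (fun i _ => ?_)
    rw [Finset.sum_sub_distrib, hΓ i k j, hΓ i k i]
    have e1 : ∑ x, Γ i i x * Γ x k j = ∑ x, Γ i i x * Γ x j k :=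
      Finset.sum_congr rfl (fun x _ => by rw [hΓ x k j])
    have e2 : ∑ x, Γ i j x * Γ x k i = ∑ x, Γ i j x * Γ x i k :=
      Finset.sum_congr rfl (fun x _ => by rw [hΓ x k i])
    rw [e1, e2]; ring
  set u : Fin n → Fin n → Fin n → Fin n → A := fun i j l k => (j14363_F D W i j * G) l k with hu
  have h1 : ∀ i j l k, u i j l k = - u j i l k := by
    intro i j l k
    have : j14363_F D W i j * G = -(j14363_F D W j i * G) := by
      simp only [j14363_F]; noncomm_ring
    simp only [hu]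
    rw [this]; rfl
  have h2 : ∀ i j l k, u i j l k = - u i j k l := by
    intro i j l k
    have h3 := j14363_anti hD W G hG i j
    have h4 : j14363_F D W i j * G = -(j14363_F D W i j * G).transpose := by
      rw [Matrix.transpose_mul, hGt]
      exact eq_neg_of_add_eq_zero_left h3
    show (j14363_F D W i j * G) l k = -(j14363_F D W i j * G) k l
    conv_lhs => rw [h4]
    rfl
  have hB : ∀ m i j l k,
      (D m (u i j l k) + ∑ p, Γ l m p * u i j p k + ∑ p, u i j l p * Γ k m p)
      + (D i (u j m l k) + ∑ p, Γ l i p * u j m p k + ∑ p, u j m l p * Γ k i p)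
      + (D j (u m i l k) + ∑ p, Γ l j p * u m i p k + ∑ p, u m i l p * Γ k j p) = 0 := by
    intro m i j l k
    have h3 := j14363_cycU hD W G hG m i j
    have h4 := congrFun (congrFun h3 l) k
    rw [Matrix.zero_apply] at h4
    rw [← h4]
    simp only [Matrix.add_apply, Matrix.map_apply]
    rw [Matrix.mul_apply (M := W m), Matrix.mul_apply (M := W i), Matrix.mul_apply (M := W j),
      Matrix.mul_apply (N := (W m).transpose), Matrix.mul_apply (N := (W i).transpose),
      Matrix.mul_apply (N := (W j).transpose)]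
    rfl
  have hrc : ∀ j k, ∑ i, u i j i k = (fun k j => ∑ q, gi k q * ric D g gi q j) k j := by
    intro j k
    simp only [hu, Matrix.mul_apply]
    rw [Finset.sum_comm]
    refine Finset.sum_congr rfl (fun q _ => ?_)
    rw [← Finset.sum_mul, hric, mul_comm]
    congr 1
    exact hgs q k
  have hfin := j14363_contract hD Γ hΓ u h1 h2 hB _ hrc b
  have hscal : scal D g gi = ∑ j, (fun k j => ∑ q, gi k q * ric D g gi q j) j j := by
    simp only [scal]
    rw [Finset.sum_comm]
    refine Finset.sum_congr rfl (fun j _ => Finset.sum_congr rfl (fun q _ => ?_))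
    rw [hgs q j]
  rw [hscal, ← hfin]
  have hD1 : ∀ i, D i (∑ q, gi i q * ric D g gi q b) =
      ∑ q, (gi i q * D i (ric D g gi q b)) - (∑ q, ∑ p, Γ i i p * gi p q * ric D g gi q b)
      - ∑ q, ∑ p, Γ q i p * gi i p * ric D g gi q b := by
    intro i
    rw [j14363_sum hD, ← Finset.sum_sub_distrib, ← Finset.sum_sub_distrib]
    refine Finset.sum_congr rfl (fun q _ => ?_)
    rw [hD.mul, hgi, sub_mul, neg_mul, Finset.sum_mul, Finset.sum_mul]
    ring
  have e1 : ∑ i, D i (∑ q, gi i q * ric D g gi q b) =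
      ∑ i, ∑ q, (gi i q * D i (ric D g gi q b))
      - ∑ i, ∑ q, ∑ p, Γ i i p * gi p q * ric D g gi q b
      - ∑ i, ∑ q, ∑ p, Γ q i p * gi i p * ric D g gi q b := by
    rw [← Finset.sum_sub_distrib, ← Finset.sum_sub_distrib]
    exact Finset.sum_congr rfl (fun i _ => hD1 i)
  have e2 : ∑ i, ∑ p, Γ i i p * ∑ q, gi p q * ric D g gi q b =
      ∑ i, ∑ q, ∑ p, Γ i i p * gi p q * ric D g gi q b := by
    refine Finset.sum_congr rfl (fun i _ => ?_)
    rw [Finset.sum_comm]
    refine Finset.sum_congr rfl (fun p _ => ?_)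
    rw [Finset.mul_sum]
    exact Finset.sum_congr rfl (fun q _ => by ring)
  rw [e1, e2]
  have e3 : ∑ a, ∑ c, gi a c * (D c (ric D g gi a b) - (∑ k, Γ k c a * ric D g gi k b)
      - ∑ k, Γ k c b * ric D g gi a k) = ∑ a, ∑ c, gi a c * D c (ric D g gi a b)
      - (∑ a, ∑ c, ∑ k, gi a c * (Γ k c a * ric D g gi k b))
      - ∑ a, ∑ c, ∑ k, gi a c * (Γ k c b * ric D g gi a k) := by
    rw [← Finset.sum_sub_distrib, ← Finset.sum_sub_distrib]
    refine Finset.sum_congr rfl (fun a _ => ?_)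
    rw [← Finset.sum_sub_distrib, ← Finset.sum_sub_distrib]
    refine Finset.sum_congr rfl (fun c _ => ?_)
    rw [← Finset.mul_sum, ← Finset.mul_sum]; ring
  rw [e3]
  have f1 : ∑ a, ∑ c, gi a c * D c (ric D g gi a b) = ∑ i, ∑ q, (gi i q * D i (ric D g gi q b)) := by
    rw [Finset.sum_comm]
    exact Finset.sum_congr rfl (fun i _ => Finset.sum_congr rfl (fun q _ => by rw [hgs q i]))
  have f2 : ∑ a, ∑ c, ∑ k, gi a c * (Γ k c a * ric D g gi k b) =
      ∑ i, ∑ q, ∑ p, Γ q i p * gi i p * ric D g gi q b := by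
    rw [Finset.sum_comm]
    refine Finset.sum_congr rfl (fun i _ => ?_)
    rw [Finset.sum_comm]
    refine Finset.sum_congr rfl (fun q _ => Finset.sum_congr rfl (fun p _ => ?_))
    rw [hgs p i]; ring
  have f3 : ∑ a, ∑ c, ∑ k, gi a c * (Γ k c b * ric D g gi a k) =
      ∑ i, ∑ p, Γ i b p * ∑ q, gi p q * ric D g gi q i := by
    calc ∑ a, ∑ c, ∑ k, gi a c * (Γ k c b * ric D g gi a k)
        = ∑ c, ∑ k, ∑ a, gi a c * (Γ k c b * ric D g gi a k) := by
          rw [Finset.sum_comm]
          exact Finset.sum_congr rfl (fun c _ => Finset.sum_comm)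
      _ = ∑ k, ∑ c, ∑ a, gi a c * (Γ k c b * ric D g gi a k) := Finset.sum_comm
      _ = _ := by
          refine Finset.sum_congr rfl (fun k _ => Finset.sum_congr rfl (fun c _ => ?_))
          rw [Finset.mul_sum]
          refine Finset.sum_congr rfl (fun a _ => ?_)
          rw [hΓ k c b, hgs a c]; ring
  rw [f1, f2, f3]
  ring

end CInv
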