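import Pool.Agent.Helper771.CInv.Defs

set_option linter.all false

open scoped BigOperators

namespace CInv


section Nat235

variable {n : ℕ} {A B : Type} [CommRing A] [Algebra ℝ A] [CommRing B] [Algebra ℝ B]
    {DA : Fin n → A → A} {DB : Fin n → B → B} {Rel : A → B → Prop}

theorem rel_zero235 (hR : RelHom DA DB Rel) : Rel 0 0 := by
  have h := hR.smul 0 hR.one
  rwa [zero_smul, zero_smul] at h

theorem rel_neg235 (hR : RelHom DA DB Rel) {a : A} {b : B} (h : Rel a b) : Rel (-a) (-b) := by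
  have h1 := hR.smul (-1) h
  rwa [neg_one_smul, neg_one_smul] at h1

theorem rel_sub235 (hR : RelHom DA DB Rel) {a a' : A} {b b' : B} (h : Rel a b) (h' : Rel a' b') :
    Rel (a - a') (b - b') := by
  rw [sub_eq_add_neg, sub_eq_add_neg]
  exact hR.add h (rel_neg235 hR h')

theorem rel_sum235 (hR : RelHom DA DB Rel) {ι : Type*} (s : Finset ι) {f : ι → A} {f' : ι → B}
    (h : ∀ i, Rel (f i) (f' i)) : Rel (∑ i ∈ s, f i) (∑ i ∈ s, f' i) := by
  classical
  induction s using Finset.induction_on with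
  | empty => simpa using rel_zero235 hR
  | insert i s hi ih =>
    rw [Finset.sum_insert hi, Finset.sum_insert hi]
    exact hR.add (h i) ih

theorem rel_prod235 (hR : RelHom DA DB Rel) {ι : Type*} (s : Finset ι) {f : ι → A} {f' : ι → B}
    (h : ∀ i, Rel (f i) (f' i)) : Rel (∏ i ∈ s, f i) (∏ i ∈ s, f' i) := by
  classical
  induction s using Finset.induction_on with
  | empty => simpa using hR.one
  | insert i s hi ih =>
    rw [Finset.prod_insert hi, Finset.prod_insert hi]
    exact hR.mul (h i) ih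

variable {gA giA : Fin n → Fin n → A} {gB giB : Fin n → Fin n → B}

theorem rel_chr235 (hR : RelHom DA DB Rel) (hg : ∀ i j, Rel (gA i j) (gB i j))
    (hgi : ∀ i j, Rel (giA i j) (giB i j)) (k i j : Fin n) :
    Rel (chr DA gA giA k i j) (chr DB gB giB k i j) := by
  unfold chr
  exact hR.smul _ (rel_sum235 hR _ fun l => hR.mul (hgi k l)
    (rel_sub235 hR (hR.add (hR.der i (hg j l)) (hR.der j (hg i l))) (hR.der l (hg i j))))

theorem rel_ric235 (hR : RelHom DA DB Rel) (hg : ∀ i j, Rel (gA i j) (gB i j))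
    (hgi : ∀ i j, Rel (giA i j) (giB i j)) (i j : Fin n) :
    Rel (ric DA gA giA i j) (ric DB gB giB i j) := by
  have hc := rel_chr235 hR hg hgi
  unfold ric
  exact hR.add (rel_sum235 hR _ fun k => rel_sub235 hR (hR.der k (hc k i j)) (hR.der j (hc k i k)))
    (rel_sum235 hR _ fun k => rel_sum235 hR _ fun l => rel_sub235 hR
      (hR.mul (hc k k l) (hc l i j)) (hR.mul (hc k j l) (hc l i k)))

theorem rel_scal235 (hR : RelHom DA DB Rel) (hg : ∀ i j, Rel (gA i j) (gB i j))
    (hgi : ∀ i j, Rel (giA i j) (giB i j)) : Rel (scal DA gA giA) (scal DB gB giB) := by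
  unfold scal
  exact rel_sum235 hR _ fun i => rel_sum235 hR _ fun j =>
    hR.mul (hgi i j) (rel_ric235 hR hg hgi i j)

theorem rel_schouten235 (hR : RelHom DA DB Rel) (hg : ∀ i j, Rel (gA i j) (gB i j))
    (hgi : ∀ i j, Rel (giA i j) (giB i j)) (i j : Fin n) :
    Rel (schouten DA gA giA i j) (schouten DB gB giB i j) := by
  unfold schouten
  exact hR.smul _ (rel_sub235 hR (rel_ric235 hR hg hgi i j)
    (hR.smul _ (hR.mul (rel_scal235 hR hg hgi) (hg i j))))

theorem rel_covD235 (hR : RelHom DA DB Rel) (hg : ∀ i j, Rel (gA i j) (gB i j))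
    (hgi : ∀ i j, Rel (giA i j) (giB i j)) {m : ℕ} {T : (Fin m → Fin n) → A}
    {T' : (Fin m → Fin n) → B} (hT : ∀ i, Rel (T i) (T' i)) (i : Fin (m + 1) → Fin n) :
    Rel (covD DA gA giA T i) (covD DB gB giB T' i) := by
  unfold covD
  exact rel_sub235 hR (hR.der _ (hT _)) (rel_sum235 hR _ fun p => rel_sum235 hR _ fun k =>
    hR.mul (rel_chr235 hR hg hgi _ _ _) (hT _))

theorem rel_nablaP235 (hR : RelHom DA DB Rel) (hg : ∀ i j, Rel (gA i j) (gB i j))
    (hgi : ∀ i j, Rel (giA i j) (giB i j)) : ∀ (l : ℕ) (i : Fin (l + 2) → Fin n),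
    Rel (nablaP DA gA giA l i) (nablaP DB gB giB l i)
  | 0, i => rel_schouten235 hR hg hgi (i 0) (i 1)
  | l + 1, i => rel_covD235 hR hg hgi (fun j => rel_nablaP235 hR hg hgi l j) i

theorem rel_eval235 (hR : RelHom DA DB Rel) (hg : ∀ i j, Rel (gA i j) (gB i j))
    (hgi : ∀ i j, Rel (giA i j) (giB i j)) (C : Contraction) :
    Rel (C.eval DA gA giA) (C.eval DB gB giB) := by
  unfold Contraction.eval
  exact rel_sum235 hR _ fun a => hR.mul (rel_prod235 hR _ fun j => hgi _ _)
    (rel_prod235 hR _ fun i => rel_nablaP235 hR hg hgi _ _)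

end Nat235

theorem nat_eval {n : ℕ} {A B : Type} [CommRing A] [Algebra ℝ A] [CommRing B] [Algebra ℝ B]
    {DA : Fin n → A → A} {DB : Fin n → B → B} {Rel : A → B → Prop} (hR : RelHom DA DB Rel)
    {gA giA : Fin n → Fin n → A} {gB giB : Fin n → Fin n → B}
    (hg : ∀ i j, Rel (gA i j) (gB i j)) (hgi : ∀ i j, Rel (giA i j) (giB i j))
    (c : Contraction →₀ ℝ) :
    (∀ i j, Rel (ric DA gA giA i j) (ric DB gB giB i j)) ∧
      Rel (inv c DA gA giA) (inv c DB gB giB) := by
  refine ⟨rel_ric235 hR hg hgi, ?_⟩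
  unfold inv Finsupp.sum
  exact rel_sum235 hR _ fun C => hR.smul _ (rel_eval235 hR hg hgi C)

end CInv
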