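import Pool.Agent.Helper771.CInv.Defs

set_option linter.all false

open scoped BigOperators

namespace CInv



theorem exp_top_taylor {V R : Type} [CommRing R] (σ : R) (hσ : σ * σ = 0) (y u : V → R)
    (p : MvPolynomial V R) :
    MvPolynomial.eval (fun v => σ * u v + y v) p =
      MvPolynomial.eval y p + σ * MvPolynomial.eval y (dd u p) := by
  induction p using MvPolynomial.induction_on with
  | C a =>
    have h : dd u (MvPolynomial.C a : MvPolynomial V R) = 0 := by
      unfold dd
      exact Derivation.map_algebraMap _ a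
    rw [h]
    simp
  | add p q hp hq =>
    rw [map_add, map_add, map_add, map_add, hp, hq]
    ring
  | mul_X p v hp =>
    have h : dd u (p * MvPolynomial.X v) =
        p * MvPolynomial.C (u v) + MvPolynomial.X v * dd u p := by
      rw [Derivation.leibniz, smul_eq_mul, smul_eq_mul]
      congr 2
      unfold dd
      rw [MvPolynomial.mkDerivation_X]
    rw [h]
    simp only [map_mul, map_add, MvPolynomial.eval_X, MvPolynomial.eval_C, hp]
    linear_combination (MvPolynomial.eval y (dd u p) * u v) * hσ

theorem ordGE_iff {V R : Type} [CommRing R] {r : ℕ} {p : MvPolynomial V R} :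
    OrdGE r p ↔ ∀ m : V →₀ ℕ, m.degree < r → MvPolynomial.coeff m p = 0 := by
  constructor
  · intro h m hm
    by_contra hne
    have := h m (MvPolynomial.mem_support_iff.2 hne)
    omega
  · intro h m hm
    by_contra hlt
    exact (MvPolynomial.mem_support_iff.1 hm) (h m (by omega))

theorem ordGE_sum {V R ι : Type} [CommRing R] {r : ℕ} (s : Finset ι) (f : ι → MvPolynomial V R)
    (h : ∀ i ∈ s, OrdGE r (f i)) : OrdGE r (∑ i ∈ s, f i) := by
  rw [ordGE_iff]
  intro m hm
  rw [MvPolynomial.coeff_sum]
  exact Finset.sum_eq_zero fun i hi => (ordGE_iff.1 (h i hi)) m hm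

theorem ordGE_monomial {V R : Type} [CommRing R] {r : ℕ} (m : V →₀ ℕ) (a : R) (h : r ≤ m.degree) :
    OrdGE r (MvPolynomial.monomial m a) := by
  classical
  rw [ordGE_iff]
  intro m' hm'
  rw [MvPolynomial.coeff_monomial, if_neg]
  rintro rfl
  omega

theorem ordGE_dd {V R : Type} [CommRing R] {r : ℕ} (u : V → R) (p : MvPolynomial V R)
    (hp : OrdGE (r + 1) p) : OrdGE r (dd u p) := by
  have h1 : dd u p = ∑ m ∈ p.support, dd u (MvPolynomial.monomial m (MvPolynomial.coeff m p)) := by
    conv_lhs => rw [MvPolynomial.as_sum p]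
    rw [map_sum]
  rw [h1]
  refine ordGE_sum _ _ fun m hm => ?_
  unfold dd
  rw [MvPolynomial.mkDerivation_monomial, Finsupp.sum, Finset.smul_sum]
  refine ordGE_sum _ _ fun i hi => ?_
  have h2 : MvPolynomial.coeff m p • (MvPolynomial.monomial (m - Finsupp.single i 1) ((m i : ℕ) : R) •
      MvPolynomial.C (u i)) = MvPolynomial.monomial (m - Finsupp.single i 1)
        (MvPolynomial.coeff m p * ((m i : ℕ) : R) * u i) := by
    rw [smul_eq_mul, mul_comm _ (MvPolynomial.C (u i)), MvPolynomial.C_mul_monomial,
      MvPolynomial.smul_monomial, smul_eq_mul]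
    congr 1
    ring
  rw [h2]
  refine ordGE_monomial _ _ ?_
  have h3 := hp m hm
  have h4 : m = (m - Finsupp.single i 1) + Finsupp.single i 1 := by
    ext j
    have hi' : 1 ≤ m i := Nat.one_le_iff_ne_zero.2 (Finsupp.mem_support_iff.1 hi)
    by_cases hj : i = j
    · subst hj
      simp
      omega
    · simp [Finsupp.single_apply, hj]
  have h5 : m.degree = (m - Finsupp.single i 1).degree + 1 := by
    conv_lhs => rw [h4]
    rw [map_add, Finsupp.degree_single]
  omega

theorem ordGE_vanish {V R : Type} [CommRing R] (r : ℕ) : ∀ (s : Fin r → R),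
    (∀ i, s i * s i = 0) → ∀ (p : MvPolynomial V R), OrdGE (r + 1) p → ∀ w : Fin r → V → R,
    MvPolynomial.eval (fun v => ∑ j, s j * w j v) p = 0 := by
  induction r with
  | zero =>
    intro s _ p hp w
    have h1 : (fun v : V => ∑ j, s j * w j v) = fun _ => (0 : R) := by
      funext v; simp
    rw [h1, MvPolynomial.eval_zero']
    rw [MvPolynomial.constantCoeff_eq]
    exact (ordGE_iff.1 hp) 0 (by simp)
  | succ r ih =>
    intro s hs p hp w
    have h1 : (fun v : V => ∑ j, s j * w j v) =
        fun v => s 0 * w 0 v + ∑ j : Fin r, s j.succ * w j.succ v := by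
      funext v; rw [Fin.sum_univ_succ]
    rw [h1, exp_top_taylor (s 0) (hs 0),
      ih (fun j => s j.succ) (fun j => hs j.succ) p (fun m hm => by have := hp m hm; omega)
        (fun j => w j.succ),
      ih (fun j => s j.succ) (fun j => hs j.succ) (dd (w 0) p) (ordGE_dd _ _ hp)
        (fun j => w j.succ), mul_zero, add_zero]

theorem exp_top {V R : Type} [CommRing R] {r : ℕ} (s : Fin r → R) (hs : ∀ i, s i * s i = 0)
    (p : MvPolynomial V R) (hp : OrdGE r p) (w : Fin r → V → R) :
    MvPolynomial.eval (fun v => ∑ j, s j * w j v) p = (∏ j, s j) * polar r p w := by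
  induction r generalizing p with
  | zero =>
    have h1 : (fun v : V => ∑ j, s j * w j v) = fun _ => (0 : R) := by
      funext v; simp
    rw [h1, MvPolynomial.eval_zero']
    simp [polar]
  | succ r ih =>
    have h1 : (fun v : V => ∑ j, s j * w j v) =
        fun v => s 0 * w 0 v + ∑ j : Fin r, s j.succ * w j.succ v := by
      funext v; rw [Fin.sum_univ_succ]
    rw [h1, exp_top_taylor (s 0) (hs 0),
      ordGE_vanish r (fun j => s j.succ) (fun j => hs j.succ) p hp (fun j => w j.succ),
      ih (fun j => s j.succ) (fun j => hs j.succ) (dd (w 0) p)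
        (ordGE_dd _ _ hp) (fun j => w j.succ), zero_add, Fin.prod_univ_succ, polar, mul_assoc]
    rfl

end CInv
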