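import Pool.Agent.Helper771.CInv.Defs
import Pool.Agent.Helper771.CInv.P_exp_top

set_option linter.all false

open scoped BigOperators

namespace CInv



theorem h170_gen_mul {r : ℕ} (j : Fin r) (w : SF (Fin r)) (S : Finset (Fin r)) :
    (SF.gen j * w).c S = if j ∈ S then w.c (S \ {j}) else 0 := by
  rw [SF.c_mul]
  by_cases h : j ∈ S
  · rw [if_pos h, Finset.sum_eq_single {j}]
    · show (if ({j} : Finset (Fin r)) = {j} then (1 : ℂ) else 0) * _ = _
      rw [if_pos rfl, one_mul]
    · intro T _ hT
      show (if T = {j} then (1 : ℂ) else 0) * _ = _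
      rw [if_neg hT, zero_mul]
    · intro hT
      exact absurd (Finset.mem_powerset.mpr (Finset.singleton_subset_iff.mpr h)) hT
  · rw [if_neg h]
    refine Finset.sum_eq_zero fun T hT => ?_
    show (if T = {j} then (1 : ℂ) else 0) * _ = _
    rw [if_neg, zero_mul]
    rintro rfl
    exact h (Finset.singleton_subset_iff.mp (Finset.mem_powerset.mp hT))

theorem h170_c_sum {r : ℕ} {κ : Type} (s : Finset κ) (f : κ → SF (Fin r)) (S : Finset (Fin r)) :
    (∑ j ∈ s, f j).c S = ∑ j ∈ s, (f j).c S := by
  have := map_sum (SF.cl S) f s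
  exact this

open Classical in
theorem h170_decomp {r : ℕ} (y : SF (Fin r)) (hy : y.c ∅ = 0) :
    ∃ w : Fin r → SF (Fin r), y = ∑ j, SF.gen j * w j ∧ ∀ j, (w j).c ∅ = y.c {j} := by
  refine ⟨fun j => ⟨fun T => if j ∉ T ∧ ∀ t ∈ T, j < t then y.c (insert j T) else 0⟩, ?_, ?_⟩
  · ext S
    rw [h170_c_sum]
    have h1 : ∀ j : Fin r, (SF.gen j * (⟨fun T => if j ∉ T ∧ ∀ t ∈ T, j < t then y.c (insert j T) else 0⟩ :
        SF (Fin r))).c S = if j ∈ S ∧ ∀ t ∈ S, j ≤ t then y.c S else 0 := by
      intro j
      rw [h170_gen_mul]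
      by_cases hj : j ∈ S
      · rw [if_pos hj]
        show (if j ∉ S \ {j} ∧ ∀ t ∈ S \ {j}, j < t then y.c (insert j (S \ {j})) else 0) = _
        have h2 : insert j (S \ {j}) = S := by
          rw [Finset.sdiff_singleton_eq_erase, Finset.insert_erase hj]
        rw [h2]
        refine if_congr ⟨fun h => ⟨hj, fun t ht => ?_⟩, fun h => ⟨by simp, fun t ht => ?_⟩⟩ rfl rfl
        · by_cases htj : t = j
          · exact htj.ge
          · exact (h.2 t (by simp [ht, htj])).le
        · rw [Finset.mem_sdiff, Finset.mem_singleton] at ht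
          exact lt_of_le_of_ne (h.2 t ht.1) (Ne.symm ht.2)
      · rw [if_neg hj, if_neg (fun h => hj h.1)]
    rw [Finset.sum_congr rfl fun j _ => h1 j]
    rcases S.eq_empty_or_nonempty with hS | hS
    · subst hS
      rw [hy]
      symm
      refine Finset.sum_eq_zero fun j _ => ?_
      rw [if_neg (fun h => absurd h.1 (Finset.notMem_empty _))]
    · rw [Finset.sum_eq_single (S.min' hS)]
      · rw [if_pos ⟨Finset.min'_mem S hS, fun t ht => Finset.min'_le S t ht⟩]
      · intro j _ hj
        rw [if_neg]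
        rintro ⟨h2, h3⟩
        exact hj (le_antisymm (h3 _ (Finset.min'_mem S hS)) (Finset.min'_le S j h2))
      · intro h; exact absurd (Finset.mem_univ _) h
  · intro j
    show (if j ∉ (∅ : Finset (Fin r)) ∧ ∀ t ∈ (∅ : Finset (Fin r)), j < t then y.c (insert j ∅) else 0) = _
    rw [if_pos ⟨Finset.notMem_empty _, fun t ht => absurd ht (Finset.notMem_empty _)⟩]
    rfl

theorem h170_prod {r : ℕ} (U : Finset (Fin r)) (S : Finset (Fin r)) :
    (∏ j ∈ U, SF.gen j : SF (Fin r)).c S = if S = U then 1 else 0 := by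
  classical
  induction U using Finset.induction_on generalizing S with
  | empty => rw [Finset.prod_empty, SF.c_one]
  | insert a U ha ih =>
    rw [Finset.prod_insert ha, h170_gen_mul, ih]
    by_cases h : a ∈ S
    · rw [if_pos h]
      refine if_congr ⟨fun h2 => ?_, fun h2 => ?_⟩ rfl rfl
      · rw [← h2, Finset.sdiff_singleton_eq_erase, Finset.insert_erase h]
      · rw [h2, Finset.sdiff_singleton_eq_erase, Finset.erase_insert ha]
    · rw [if_neg h, if_neg]
      rintro rfl
      exact h (Finset.mem_insert_self _ _)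

theorem h170_prod_mul {r : ℕ} (x : SF (Fin r)) :
    ((∏ j, SF.gen j : SF (Fin r)) * x).c Finset.univ = x.c ∅ := by
  rw [SF.c_mul, Finset.sum_eq_single Finset.univ]
  · rw [h170_prod, if_pos rfl, one_mul, Finset.sdiff_self]
  · intro T _ hT
    rw [h170_prod, if_neg hT, zero_mul]
  · intro h
    exact absurd (Finset.mem_powerset.mpr (Finset.Subset.refl _)) h

theorem h170_gen_sq {r : ℕ} (j : Fin r) : (SF.gen j * SF.gen j : SF (Fin r)) = 0 := by
  ext S
  rw [h170_gen_mul, SF.c_zero]
  by_cases h : j ∈ S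
  · rw [if_pos h]
    show (if S \ {j} = {j} then (1 : ℂ) else 0) = 0
    rw [if_neg]
    intro h2
    have : j ∈ S \ {j} := by rw [h2]; exact Finset.mem_singleton_self j
    simp at this
  · rw [if_neg h]

/-- the augmentation -/
noncomputable def h170_eps (r : ℕ) : SF (Fin r) →+* ℂ where
  toFun x := x.c ∅
  map_one' := by rw [SF.c_one, if_pos rfl]
  map_mul' x y := by
    rw [SF.c_mul, Finset.powerset_empty, Finset.sum_singleton, Finset.sdiff_self]
  map_zero' := rfl
  map_add' x y := rfl

theorem h170_map_dd {V R S : Type} [CommRing R] [CommRing S] (f : R →+* S) (u : V → R)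
    (p : MvPolynomial V R) :
    MvPolynomial.map f (dd u p) = dd (fun v => f (u v)) (MvPolynomial.map f p) := by
  induction p using MvPolynomial.induction_on with
  | C a =>
    have h1 : ∀ (T : Type) [CommRing T] (u' : V → T) (b : T), dd u' (MvPolynomial.C b) = 0 := by
      intro T _ u' b
      exact (dd u').map_algebraMap b
    rw [h1, map_zero, MvPolynomial.map_C, h1]
  | add p q hp hq => rw [map_add, map_add, map_add, map_add, hp, hq]
  | mul_X p v hp =>
    have h1 : dd u (MvPolynomial.X v) = MvPolynomial.C (u v) := by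
      unfold dd; rw [MvPolynomial.mkDerivation_X]
    have h2 : dd (fun v => f (u v)) (MvPolynomial.X v) = MvPolynomial.C (f (u v)) := by
      unfold dd; rw [MvPolynomial.mkDerivation_X]
    rw [Derivation.leibniz, map_add, map_mul, Derivation.leibniz, MvPolynomial.map_X, h1, h2, ← hp,
      smul_eq_mul, smul_eq_mul, smul_eq_mul, smul_eq_mul, map_mul, map_mul, MvPolynomial.map_C,
      MvPolynomial.map_X]

theorem h170_polar_map {V R S : Type} [CommRing R] [CommRing S] (f : R →+* S) (r : ℕ)
    (p : MvPolynomial V R) (w : Fin r → V → R) :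
    f (polar r p w) = polar r (MvPolynomial.map f p) (fun j v => f (w j v)) := by
  induction r generalizing p with
  | zero =>
    show f (MvPolynomial.constantCoeff p) = MvPolynomial.constantCoeff (MvPolynomial.map f p)
    rw [MvPolynomial.constantCoeff_map]
  | succ r ih =>
    show f (polar r (dd (w 0) p) (Fin.tail w)) = polar r (dd (fun v => f (w 0 v)) (MvPolynomial.map f p)) _
    rw [ih, h170_map_dd]
    rfl

theorem top_coef {V : Type} {r : ℕ} {Φ : MvPolynomial V ℝ} (hΦ : OrdGE r Φ)
    (y : V → SF (Fin r)) (hy : ∀ v, (y v).c ∅ = 0) :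
    (MvPolynomial.aeval y Φ).c Finset.univ
      = polar r (MvPolynomial.map (algebraMap ℝ ℂ) Φ) (fun j v => (y v).c {j}) := by
  choose w hw1 hw2 using fun v => h170_decomp (y v) (hy v)
  have h1 : MvPolynomial.aeval y Φ =
      MvPolynomial.eval (fun v => ∑ j, SF.gen j * w v j) (MvPolynomial.map (algebraMap ℝ (SF (Fin r))) Φ) := by
    rw [MvPolynomial.aeval_def, MvPolynomial.eval_map]
    congr 1
    funext v
    exact hw1 v
  have hord : OrdGE r (MvPolynomial.map (algebraMap ℝ (SF (Fin r))) Φ) := by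
    intro m hm
    exact hΦ m (MvPolynomial.support_map_subset _ _ hm)
  have h2 := exp_top (V := V) (r := r) (fun j => (SF.gen j : SF (Fin r))) h170_gen_sq
    (MvPolynomial.map (algebraMap ℝ (SF (Fin r))) Φ) hord (fun j v => w v j)
  rw [h1, h2, h170_prod_mul]
  have h3 := h170_polar_map (h170_eps r) r (MvPolynomial.map (algebraMap ℝ (SF (Fin r))) Φ) (fun j v => w v j)
  have h4 : (h170_eps r) (polar r (MvPolynomial.map (algebraMap ℝ (SF (Fin r))) Φ) (fun j v => w v j))
      = (polar r (MvPolynomial.map (algebraMap ℝ (SF (Fin r))) Φ) (fun j v => w v j)).c ∅ := rfl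
  rw [← h4, h3, MvPolynomial.map_map]
  have h5 : (h170_eps r).comp (algebraMap ℝ (SF (Fin r))) = algebraMap ℝ ℂ := by
    ext x
    show ((algebraMap ℝ (SF (Fin r))) x).c ∅ = _
    rw [Algebra.algebraMap_eq_smul_one, SF.c_rsmul, SF.c_one, if_pos rfl, mul_one]
    rfl
  rw [h5]
  congr 1
  funext j v
  exact hw2 v j

end CInv
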