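import Pool.Agent.Helper771.CInv.Defs

set_option linter.all false

open scoped BigOperators

namespace CInv



theorem pdv_leg {n r : ℕ} (i : Fin n) (q : Fin r → MvPolynomial (Fin n) ℂ) :
    pdv i (∑ j, MvPolynomial.C (SF.gen j) * MvPolynomial.map (algebraMap ℂ (SF (Fin r))) (q j)) =
      ∑ j, MvPolynomial.C (SF.gen j) *
        MvPolynomial.map (algebraMap ℂ (SF (Fin r))) (pdv i (q j)) := by
  unfold pdv
  rw [map_sum]
  refine Finset.sum_congr rfl fun j _ => ?_
  rw [MvPolynomial.pderiv_C_mul, MvPolynomial.pderiv_map]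

theorem Dw_leg {n r : ℕ} (w : List (Fin n)) (q : Fin r → MvPolynomial (Fin n) ℂ) :
    Dw pdv w (∑ j, MvPolynomial.C (SF.gen j) *
      MvPolynomial.map (algebraMap ℂ (SF (Fin r))) (q j)) =
      ∑ j, MvPolynomial.C (SF.gen j) *
        MvPolynomial.map (algebraMap ℂ (SF (Fin r))) (Dw pdv w (q j)) := by
  induction w with
  | nil => rfl
  | cons i w ih =>
    show pdv i (Dw pdv w _) = _
    rw [ih, pdv_leg]
    rfl

theorem j0_legs {n r : ℕ} (h : Fin r → Mx n) (v : JV n) :
    J0 (legs h) v = ∑ j, SF.gen j * algebraMap ℂ (SF (Fin r)) (J0 (h j) v) := by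
  unfold J0 legs
  rw [Dw_leg, map_sum]
  refine Finset.sum_congr rfl fun j _ => ?_
  rw [map_mul, MvPolynomial.constantCoeff_C, MvPolynomial.constantCoeff_map]

end CInv
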