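import Pool.Agent.Helper771.CInv.Defs

set_option linter.all false

open scoped BigOperators

namespace CInv



theorem j14633_dd_add {V R : Type} [CommRing R] (u u' : V → R) (p : MvPolynomial V R) :
    dd (u + u') p = dd u p + dd u' p := by
  have h : dd (u + u') = dd u + dd u' := by
    refine MvPolynomial.derivation_ext fun v => ?_
    rw [Derivation.add_apply]
    unfold dd
    rw [MvPolynomial.mkDerivation_X, MvPolynomial.mkDerivation_X, MvPolynomial.mkDerivation_X,
      Pi.add_apply, map_add]
  rw [h, Derivation.add_apply]

theorem j14633_dd_smul {V R : Type} [CommRing R] (c : R) (u : V → R) (p : MvPolynomial V R) :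
    dd (c • u) p = c • dd u p := by
  have h : dd (c • u) = c • dd u := by
    refine MvPolynomial.derivation_ext fun v => ?_
    rw [Derivation.smul_apply]
    unfold dd
    rw [MvPolynomial.mkDerivation_X, MvPolynomial.mkDerivation_X, Pi.smul_apply, smul_eq_mul,
      MvPolynomial.C_mul, MvPolynomial.smul_eq_C_mul]
  rw [h, Derivation.smul_apply]

theorem j14633_polar_add {V R : Type} [CommRing R] (r : ℕ) :
    ∀ (p q : MvPolynomial V R) (u : Fin r → V → R),
      polar r (p + q) u = polar r p u + polar r q u := by
  induction r with
  | zero => intro p q u; simp only [polar, map_add]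
  | succ r ih => intro p q u; simp only [polar, map_add, ih]

theorem j14633_polar_smul {V R : Type} [CommRing R] (r : ℕ) :
    ∀ (c : R) (p : MvPolynomial V R) (u : Fin r → V → R),
      polar r (c • p) u = c • polar r p u := by
  induction r with
  | zero =>
    intro c p u
    simp only [polar]
    rw [MvPolynomial.smul_eq_C_mul, map_mul, MvPolynomial.constantCoeff_C, smul_eq_mul]
  | succ r ih => intro c p u; simp only [polar, Derivation.map_smul, ih]

theorem j14633_update_add {V R : Type} [CommRing R] (r : ℕ) :
    ∀ (p : MvPolynomial V R) (u : Fin r → V → R) (i : Fin r) (x y : V → R),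
      polar r p (Function.update u i (x + y)) =
        polar r p (Function.update u i x) + polar r p (Function.update u i y) := by
  induction r with
  | zero => intro p u i; exact i.elim0
  | succ r ih =>
    intro p u i x y
    simp only [polar]
    refine Fin.cases ?_ (fun j => ?_) i
    · rw [Function.update_self, Function.update_self, Function.update_self, Fin.tail_update_zero,
        Fin.tail_update_zero, Fin.tail_update_zero, j14633_dd_add, j14633_polar_add]
    · rw [Function.update_of_ne (Fin.succ_ne_zero j).symm,
        Function.update_of_ne (Fin.succ_ne_zero j).symm,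
        Function.update_of_ne (Fin.succ_ne_zero j).symm, Fin.tail_update_succ,
        Fin.tail_update_succ, Fin.tail_update_succ, ih]

theorem j14633_update_smul {V R : Type} [CommRing R] (r : ℕ) :
    ∀ (p : MvPolynomial V R) (u : Fin r → V → R) (i : Fin r) (c : R) (x : V → R),
      polar r p (Function.update u i (c • x)) = c • polar r p (Function.update u i x) := by
  induction r with
  | zero => intro p u i; exact i.elim0
  | succ r ih =>
    intro p u i c x
    simp only [polar]
    refine Fin.cases ?_ (fun j => ?_) i
    · rw [Function.update_self, Function.update_self, Fin.tail_update_zero,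
        Fin.tail_update_zero, j14633_dd_smul, j14633_polar_smul]
    · rw [Function.update_of_ne (Fin.succ_ne_zero j).symm,
        Function.update_of_ne (Fin.succ_ne_zero j).symm, Fin.tail_update_succ,
        Fin.tail_update_succ, ih]

theorem polar_multilin {V R : Type} [CommRing R] (r : ℕ) (p : MvPolynomial V R) :
    ∃ B : MultilinearMap R (fun _ : Fin r => (V → R)) R, ∀ u, B u = polar r p u := by
  exact ⟨MultilinearMap.mk' (polar r p) (fun u i x y => j14633_update_add r p u i x y)
    (fun u i c x => j14633_update_smul r p u i c x), fun u => rfl⟩

end CInv
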