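import Pool.Agent.Helper771.CInv.Defs
import Pool.Agent.Helper771.CInv.P_gi_symm

set_option linter.all false

open scoped BigOperators

namespace CInv



theorem cc_metric {n : ℕ} {A B : Type} [CommRing A] [Algebra ℝ A] [CommRing B] [Algebra ℝ B]
    {D : Fin n → A → A} {D' : Fin n → B → B} {φ : A →+* B} {J K : Fin n → Fin n → B}
    (hc : CoordChange D D' φ J K) {g gi : Fin n → Fin n → A} (h : IsMetric g gi) :
    IsMetric (pull φ J g) (pullInv φ K gi) := by
  classical
  have hJK : (Matrix.of J) * (Matrix.of K) = (1 : Matrix (Fin n) (Fin n) B) := by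
    ext i j
    rw [Matrix.mul_apply, Matrix.one_apply]
    exact hc.jk i j
  have hKJ : (Matrix.of K) * (Matrix.of J) = (1 : Matrix (Fin n) (Fin n) B) := by
    ext i j
    rw [Matrix.mul_apply, Matrix.one_apply]
    exact hc.kj i j
  have hG : (Matrix.of fun a b => φ (g a b)) * (Matrix.of fun a b => φ (gi a b)) =
      (1 : Matrix (Fin n) (Fin n) B) := by
    ext i j
    rw [Matrix.mul_apply, Matrix.one_apply]
    have := congrArg φ (h.inv i j)
    rw [map_sum] at this
    simp only [Matrix.of_apply]
    simpa [apply_ite φ] using this
  have hp : Matrix.of (pull φ J g) = (Matrix.of J) * (Matrix.of fun a b => φ (g a b)) *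
      (Matrix.of J).transpose := by
    ext i j
    simp only [Matrix.mul_apply, Matrix.of_apply, Matrix.transpose_apply, pull, Finset.sum_mul]
    rw [Finset.sum_comm]
    refine Finset.sum_congr rfl fun b _ => Finset.sum_congr rfl fun a _ => ?_
    ring
  have hq : Matrix.of (pullInv φ K gi) = (Matrix.of K).transpose *
      (Matrix.of fun a b => φ (gi a b)) * (Matrix.of K) := by
    ext i j
    simp only [Matrix.mul_apply, Matrix.of_apply, Matrix.transpose_apply, pullInv, Finset.sum_mul]
    rw [Finset.sum_comm]
    refine Finset.sum_congr rfl fun b _ => Finset.sum_congr rfl fun a _ => ?_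
    ring
  have hT : (Matrix.of J).transpose * (Matrix.of K).transpose =
      (1 : Matrix (Fin n) (Fin n) B) := by
    rw [← Matrix.transpose_mul, hKJ, Matrix.transpose_one]
  constructor
  · intro i j
    unfold pull
    rw [Finset.sum_comm]
    refine Finset.sum_congr rfl fun b _ => Finset.sum_congr rfl fun a _ => ?_
    rw [h.symm a b]
    ring
  · intro i j
    have hprod : Matrix.of (pull φ J g) * Matrix.of (pullInv φ K gi) = 1 := by
      rw [hp, hq]
      calc _ = (Matrix.of J) * (Matrix.of fun a b => φ (g a b)) *
            ((Matrix.of J).transpose * (Matrix.of K).transpose) *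
            (Matrix.of fun a b => φ (gi a b)) * (Matrix.of K) := by
              simp only [Matrix.mul_assoc]
        _ = (Matrix.of J) * ((Matrix.of fun a b => φ (g a b)) *
            (Matrix.of fun a b => φ (gi a b))) * (Matrix.of K) := by
              rw [hT]; simp only [Matrix.mul_assoc, Matrix.mul_one]
        _ = 1 := by rw [hG, Matrix.mul_one, hJK]
    have := congrFun (congrFun hprod i) j
    rw [Matrix.mul_apply, Matrix.one_apply] at this
    exact this

end CInv
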