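import Pool.Agent.Helper771.CInv.Defs
import Pool.Agent.Helper771.CInv.P_gi_symm
import Pool.Agent.Helper771.CInv.P_metric_compat
import Pool.Agent.Helper771.CInv.P_cc_metric

set_option linter.all false

open scoped BigOperators

namespace CInv



section cc836

variable {n : ℕ} {B : Type} [CommRing B] [Algebra ℝ B]

/-- derivative on the first Jacobian -/
noncomputable def cc836P (D' : Fin n → B → B) (J G : Fin n → Fin n → B) (i j l : Fin n) : B :=
  ∑ a, ∑ b, D' i (J j a) * J l b * G a b

/-- derivative on the second Jacobian -/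
noncomputable def cc836Q (D' : Fin n → B → B) (J G : Fin n → Fin n → B) (i j l : Fin n) : B :=
  ∑ a, ∑ b, J j a * D' i (J l b) * G a b

/-- derivative on the metric -/
noncomputable def cc836R (J : Fin n → Fin n → B) (dG : Fin n → Fin n → Fin n → B)
    (i j l : Fin n) : B :=
  ∑ a, ∑ b, ∑ e, J i e * J j a * J l b * dG e a b

omit [CommRing B] [Algebra ℝ B] in
theorem cc836_cyc [AddCommMonoid B] (f : Fin n → Fin n → Fin n → B) :
    ∑ a, ∑ b, ∑ e, f e a b = ∑ a, ∑ b, ∑ e, f a b e := by
  have h1 : ∀ a, ∑ b, ∑ e, f e a b = ∑ e, ∑ b, f e a b := fun a => Finset.sum_comm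
  simp only [h1]
  rw [Finset.sum_comm]

omit [CommRing B] [Algebra ℝ B] in
theorem cc836_sw [AddCommMonoid B] (f : Fin n → Fin n → Fin n → B) :
    ∑ a, ∑ b, ∑ e, f e a b = ∑ a, ∑ b, ∑ e, f b a e := by
  apply Finset.sum_congr rfl
  intro a _
  rw [Finset.sum_comm]

omit [CommRing B] [Algebra ℝ B] in
theorem cc836_out [AddCommMonoid B] (f : Fin n → Fin n → Fin n → B) :
    ∑ a, ∑ b, ∑ e, f a b e = ∑ e, ∑ a, ∑ b, f a b e := by
  have h1 : ∀ a, ∑ b, ∑ e, f a b e = ∑ e, ∑ b, f a b e := fun a => Finset.sum_comm
  simp only [h1]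
  rw [Finset.sum_comm]

theorem cc836_der {D' : Fin n → B → B} (hD' : IsDer D') (J G : Fin n → Fin n → B)
    (dG : Fin n → Fin n → Fin n → B) (hder : ∀ i a b, D' i (G a b) = ∑ e, J i e * dG e a b)
    (i j l : Fin n) :
    D' i (∑ a, ∑ b, J j a * J l b * G a b) =
      cc836P D' J G i j l + cc836Q D' J G i j l + cc836R J dG i j l := by
  have hs : ∀ f : Fin n → B, D' i (∑ a, f a) = ∑ a, D' i (f a) := fun f =>
    map_sum (AddMonoidHom.mk' (D' i) (hD'.add i)) f Finset.univ
  unfold cc836P cc836Q cc836R
  rw [hs, ← Finset.sum_add_distrib, ← Finset.sum_add_distrib]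
  apply Finset.sum_congr rfl
  intro a _
  rw [hs, ← Finset.sum_add_distrib, ← Finset.sum_add_distrib]
  apply Finset.sum_congr rfl
  intro b _
  rw [hD'.mul, hD'.mul, hder, Finset.mul_sum]
  have e : ∑ e, J j a * J l b * (J i e * dG e a b) = ∑ e, J i e * J j a * J l b * dG e a b := by
    apply Finset.sum_congr rfl
    intro e _
    ring
  rw [e]
  ring

theorem cc836_P_closed {D' : Fin n → B → B} {J : Fin n → Fin n → B}
    (hcl : ∀ i j k, D' i (J j k) = D' j (J i k)) (G : Fin n → Fin n → B) (i j l : Fin n) :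
    cc836P D' J G i j l = cc836P D' J G j i l := by
  unfold cc836P
  apply Finset.sum_congr rfl
  intro a _
  rw [hcl i j a]

theorem cc836_Q_eq {D' : Fin n → B → B} {J G : Fin n → Fin n → B}
    (hG : ∀ a b, G a b = G b a) (i j l : Fin n) :
    cc836Q D' J G i j l = cc836P D' J G i l j := by
  unfold cc836P cc836Q
  rw [Finset.sum_comm]
  apply Finset.sum_congr rfl
  intro a _
  apply Finset.sum_congr rfl
  intro b _
  rw [hG b a]
  ring

theorem cc836_S {D' : Fin n → B → B} {J G : Fin n → Fin n → B}
    (hcl : ∀ i j k, D' i (J j k) = D' j (J i k)) (hG : ∀ a b, G a b = G b a)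
    (dG : Fin n → Fin n → Fin n → B) (i j l : Fin n) :
    (cc836P D' J G i j l + cc836Q D' J G i j l + cc836R J dG i j l) +
      (cc836P D' J G j i l + cc836Q D' J G j i l + cc836R J dG j i l) -
      (cc836P D' J G l i j + cc836Q D' J G l i j + cc836R J dG l i j) =
    ∑ e, J l e * (2 * (∑ a, D' i (J j a) * G a e) +
      ∑ a, ∑ b, J i a * J j b * (dG a b e + dG b a e - dG e a b)) := by
  have q1 : cc836Q D' J G i j l = cc836P D' J G l i j := by
    rw [cc836_Q_eq hG, cc836_P_closed hcl]
  have q2 : cc836Q D' J G j i l = cc836Q D' J G l i j := by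
    rw [cc836_Q_eq hG, cc836_Q_eq hG, cc836_P_closed hcl]
  have p1 : cc836P D' J G j i l = cc836P D' J G i j l := cc836_P_closed hcl G j i l
  have r1 : cc836R J dG i j l = ∑ a, ∑ b, ∑ e, J i a * J j b * J l e * dG a b e := by
    unfold cc836R
    exact cc836_cyc (fun x y z => J i x * J j y * J l z * dG x y z)
  have r2 : cc836R J dG j i l = ∑ a, ∑ b, ∑ e, J i a * J j b * J l e * dG b a e := by
    unfold cc836R
    rw [cc836_sw (fun x y z => J j x * J i y * J l z * dG x y z)]
    apply Finset.sum_congr rfl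
    intro a _
    apply Finset.sum_congr rfl
    intro b _
    apply Finset.sum_congr rfl
    intro e _
    ring
  have r3 : cc836R J dG l i j = ∑ a, ∑ b, ∑ e, J i a * J j b * J l e * dG e a b := by
    unfold cc836R
    apply Finset.sum_congr rfl
    intro a _
    apply Finset.sum_congr rfl
    intro b _
    apply Finset.sum_congr rfl
    intro e _
    ring
  have p2 : cc836P D' J G i j l = ∑ e, J l e * ∑ a, D' i (J j a) * G a e := by
    unfold cc836P
    rw [Finset.sum_comm]
    apply Finset.sum_congr rfl
    intro e _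
    rw [Finset.mul_sum]
    apply Finset.sum_congr rfl
    intro a _
    ring
  have r4 : cc836R J dG i j l + cc836R J dG j i l - cc836R J dG l i j =
      ∑ e, J l e * ∑ a, ∑ b, J i a * J j b * (dG a b e + dG b a e - dG e a b) := by
    rw [r1, r2, r3, ← Finset.sum_add_distrib, ← Finset.sum_sub_distrib]
    have h1 : ∀ a, (∑ b, ∑ e, J i a * J j b * J l e * dG a b e) +
        (∑ b, ∑ e, J i a * J j b * J l e * dG b a e) -
        (∑ b, ∑ e, J i a * J j b * J l e * dG e a b) =
        ∑ b, ∑ e, J l e * (J i a * J j b * (dG a b e + dG b a e - dG e a b)) := by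
      intro a
      rw [← Finset.sum_add_distrib, ← Finset.sum_sub_distrib]
      apply Finset.sum_congr rfl
      intro b _
      rw [← Finset.sum_add_distrib, ← Finset.sum_sub_distrib]
      apply Finset.sum_congr rfl
      intro e _
      ring
    rw [Finset.sum_congr rfl (fun a _ => h1 a)]
    rw [cc836_out]
    apply Finset.sum_congr rfl
    intro e _
    rw [Finset.mul_sum]
    apply Finset.sum_congr rfl
    intro a _
    rw [Finset.mul_sum]
  have e1 : ∑ e, J l e * (2 * (∑ a, D' i (J j a) * G a e) +
      ∑ a, ∑ b, J i a * J j b * (dG a b e + dG b a e - dG e a b)) =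
      2 * cc836P D' J G i j l +
        (cc836R J dG i j l + cc836R J dG j i l - cc836R J dG l i j) := by
    rw [r4, p2, Finset.mul_sum, ← Finset.sum_add_distrib]
    apply Finset.sum_congr rfl
    intro e _
    ring
  rw [e1, q1, q2, p1]
  ring

end cc836

theorem cc_chr {n : ℕ} {A B : Type} [CommRing A] [Algebra ℝ A] [CommRing B] [Algebra ℝ B]
    {D : Fin n → A → A} {D' : Fin n → B → B} (hD : IsDer D) (hD' : IsDer D')
    {φ : A →+* B} {J K : Fin n → Fin n → B}
    (hc : CoordChange D D' φ J K) {g gi : Fin n → Fin n → A} (h : IsMetric g gi) (i j c : Fin n) :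
    ∑ k, chr D' (pull φ J g) (pullInv φ K gi) k i j * J k c
      = (∑ a, ∑ b, J i a * J j b * φ (chr D g gi c a b)) + D' i (J j c) := by
  have hgs := gi_symm h
  -- contraction of the inverse metric with the Jacobian
  have hM : ∀ l, ∑ k, pullInv φ K gi k l * J k c = ∑ b, K b l * φ (gi c b) := by
    intro l
    have h1 : ∀ k, pullInv φ K gi k l * J k c =
        ∑ b, ∑ a, (K a k * J k c) * (K b l * φ (gi a b)) := by
      intro k
      unfold pullInv
      rw [Finset.sum_comm, Finset.sum_mul]
      apply Finset.sum_congr rfl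
      intro b _
      rw [Finset.sum_mul]
      apply Finset.sum_congr rfl
      intro a _
      ring
    rw [Finset.sum_congr rfl (fun k _ => h1 k), Finset.sum_comm]
    apply Finset.sum_congr rfl
    intro b _
    rw [Finset.sum_comm]
    have h2 : ∀ a, ∑ k, (K a k * J k c) * (K b l * φ (gi a b)) =
        if a = c then K b l * φ (gi a b) else 0 := by
      intro a
      rw [← Finset.sum_mul, hc.kj]
      split_ifs
      · rw [one_mul]
      · rw [zero_mul]
    rw [Finset.sum_congr rfl (fun a _ => h2 a)]
    simp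
  have hM2 : ∀ e, ∑ l, (∑ b, K b l * φ (gi c b)) * J l e = φ (gi c e) := by
    intro e
    have h1 : ∀ l, (∑ b, K b l * φ (gi c b)) * J l e = ∑ b, (K b l * J l e) * φ (gi c b) := by
      intro l
      rw [Finset.sum_mul]
      apply Finset.sum_congr rfl
      intro b _
      ring
    rw [Finset.sum_congr rfl (fun l _ => h1 l), Finset.sum_comm]
    have h2 : ∀ b, ∑ l, (K b l * J l e) * φ (gi c b) = if b = e then φ (gi c b) else 0 := by
      intro b
      rw [← Finset.sum_mul, hc.kj]
      split_ifs
      · rw [one_mul]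
      · rw [zero_mul]
    rw [Finset.sum_congr rfl (fun b _ => h2 b)]
    simp
  -- the symbols of the first kind
  have hder : ∀ i a b, D' i (φ (g a b)) = ∑ e, J i e * φ (D e (g a b)) :=
    fun i a b => hc.der i (g a b)
  have hS : ∀ l, D' i (pull φ J g j l) + D' j (pull φ J g i l) - D' l (pull φ J g i j) =
      ∑ e, J l e * (2 * (∑ a, D' i (J j a) * φ (g a e)) +
        ∑ a, ∑ b, J i a * J j b *
          (φ (D a (g b e)) + φ (D b (g a e)) - φ (D e (g a b)))) := by
    intro l
    have h1 := cc836_der hD' J (fun a b => φ (g a b)) (fun e a b => φ (D e (g a b))) hder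
    have h2 := cc836_S (D' := D') (J := J) (G := fun a b => φ (g a b)) hc.closed
      (fun a b => by change φ (g a b) = φ (g b a); rw [h.symm]) (fun e a b => φ (D e (g a b))) i j l
    rw [← h1 i j l, ← h1 j i l, ← h1 l i j] at h2
    exact h2
  have hLHS : ∑ k, chr D' (pull φ J g) (pullInv φ K gi) k i j * J k c =
      (1 / 2 : ℝ) • ∑ e, φ (gi c e) * (2 * (∑ a, D' i (J j a) * φ (g a e)) +
        ∑ a, ∑ b, J i a * J j b *
          (φ (D a (g b e)) + φ (D b (g a e)) - φ (D e (g a b)))) := by
    unfold chr
    have h1 : ∀ k, ((1 / 2 : ℝ) • ∑ l, pullInv φ K gi k l * (D' i (pull φ J g j l) +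
        D' j (pull φ J g i l) - D' l (pull φ J g i j))) * J k c =
        (1 / 2 : ℝ) • ∑ l, (pullInv φ K gi k l * J k c) * (∑ e, J l e *
          (2 * (∑ a, D' i (J j a) * φ (g a e)) + ∑ a, ∑ b, J i a * J j b *
          (φ (D a (g b e)) + φ (D b (g a e)) - φ (D e (g a b))))) := by
      intro k
      rw [smul_mul_assoc, Finset.sum_mul]
      congr 1
      apply Finset.sum_congr rfl
      intro l _
      rw [hS l]
      ring
    rw [Finset.sum_congr rfl (fun k _ => h1 k), ← Finset.smul_sum, Finset.sum_comm]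
    congr 1
    have h2 : ∀ l, ∑ k, (pullInv φ K gi k l * J k c) * (∑ e, J l e *
          (2 * (∑ a, D' i (J j a) * φ (g a e)) + ∑ a, ∑ b, J i a * J j b *
          (φ (D a (g b e)) + φ (D b (g a e)) - φ (D e (g a b))))) =
        ∑ e, ((∑ b, K b l * φ (gi c b)) * J l e) *
          (2 * (∑ a, D' i (J j a) * φ (g a e)) + ∑ a, ∑ b, J i a * J j b *
          (φ (D a (g b e)) + φ (D b (g a e)) - φ (D e (g a b)))) := by
      intro l
      rw [← Finset.sum_mul, hM l, Finset.mul_sum]
      apply Finset.sum_congr rfl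
      intro e _
      rw [mul_assoc]
    rw [Finset.sum_congr rfl (fun l _ => h2 l), Finset.sum_comm]
    apply Finset.sum_congr rfl
    intro e _
    rw [← Finset.sum_mul, hM2 e]
  rw [hLHS]
  have hA : ∑ e, φ (gi c e) * (2 * (∑ a, D' i (J j a) * φ (g a e)) +
        ∑ a, ∑ b, J i a * J j b *
          (φ (D a (g b e)) + φ (D b (g a e)) - φ (D e (g a b)))) =
      2 * D' i (J j c) + ∑ a, ∑ b, J i a * J j b *
        φ (∑ e, gi c e * (D a (g b e) + D b (g a e) - D e (g a b))) := by
    have h1 : ∀ e, φ (gi c e) * (2 * (∑ a, D' i (J j a) * φ (g a e)) +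
        ∑ a, ∑ b, J i a * J j b *
          (φ (D a (g b e)) + φ (D b (g a e)) - φ (D e (g a b)))) =
        2 * (∑ a, D' i (J j a) * (φ (gi c e) * φ (g a e))) +
        ∑ a, ∑ b, J i a * J j b *
          (φ (gi c e) * (φ (D a (g b e)) + φ (D b (g a e)) - φ (D e (g a b)))) := by
      intro e
      rw [mul_add]
      congr 1
      · rw [mul_left_comm, Finset.mul_sum]
        congr 1
        apply Finset.sum_congr rfl
        intro a _
        ring
      · rw [Finset.mul_sum]
        apply Finset.sum_congr rfl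
        intro a _
        rw [Finset.mul_sum]
        apply Finset.sum_congr rfl
        intro b _
        ring
    rw [Finset.sum_congr rfl (fun e _ => h1 e), Finset.sum_add_distrib]
    congr 1
    · rw [← Finset.mul_sum, Finset.sum_comm]
      congr 1
      have h2 : ∀ a, ∑ e, D' i (J j a) * (φ (gi c e) * φ (g a e)) =
          if c = a then D' i (J j a) else 0 := by
        intro a
        rw [← Finset.mul_sum]
        have h3 : ∑ e, φ (gi c e) * φ (g a e) = φ (∑ e, gi c e * g e a) := by
          rw [map_sum]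
          apply Finset.sum_congr rfl
          intro e _
          rw [map_mul, h.symm a e]
        rw [h3, hgs.2 c a]
        split_ifs
        · rw [map_one, mul_one]
        · rw [map_zero, mul_zero]
      rw [Finset.sum_congr rfl (fun a _ => h2 a)]
      simp
    · rw [← cc836_out]
      apply Finset.sum_congr rfl
      intro a _
      apply Finset.sum_congr rfl
      intro b _
      rw [map_sum, Finset.mul_sum]
      apply Finset.sum_congr rfl
      intro e _
      rw [map_mul, map_sub, map_add]
  rw [hA, smul_add, add_comm]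
  congr 1
  · rw [Finset.smul_sum]
    apply Finset.sum_congr rfl
    intro a _
    rw [Finset.smul_sum]
    apply Finset.sum_congr rfl
    intro b _
    unfold chr
    rw [hc.smul, mul_smul_comm]
  · rw [two_mul, smul_add, ← add_smul]
    norm_num

end CInv
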