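import Pool.Agent.Helper771.CInv.Defs
import Pool.Agent.Helper771.CInv.P_gi_symm
import Pool.Agent.Helper771.CInv.P_metric_compat
import Pool.Agent.Helper771.CInv.P_cc_metric
import Pool.Agent.Helper771.CInv.P_cc_chr

set_option linter.all false

open scoped BigOperators

namespace CInv



theorem ccRic_zero {n : ℕ} {A : Type} [CommRing A] [Algebra ℝ A] {D : Fin n → A → A}
    (hD : IsDer D) (i : Fin n) : D i 0 = 0 := by
  have h := hD.smul i 0 0
  simpa using h

theorem ccRic_sum {n : ℕ} {A : Type} [CommRing A] [Algebra ℝ A] {D : Fin n → A → A}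
    (hD : IsDer D) (i : Fin n) {ι : Type} (s : Finset ι)
    (f : ι → A) : D i (∑ k ∈ s, f k) = ∑ k ∈ s, D i (f k) := by
  classical
  induction s using Finset.induction_on with
  | empty => simpa using ccRic_zero hD i
  | insert a s ha ih => rw [Finset.sum_insert ha, Finset.sum_insert ha, hD.add, ih]

theorem ccRic_mapmul {n : ℕ} {A : Type} [CommRing A] [Algebra ℝ A] {D : Fin n → A → A}
    (hD : IsDer D) (i : Fin n) (M N : Matrix (Fin n) (Fin n) A) :
    (M * N).map (D i) = M.map (D i) * N + M * N.map (D i) := by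
  ext p q
  simp only [Matrix.map_apply, Matrix.mul_apply, Matrix.add_apply, ccRic_sum hD, hD.mul,
    Finset.sum_add_distrib]

theorem ccRic_mapadd {n : ℕ} {A : Type} [CommRing A] [Algebra ℝ A] {D : Fin n → A → A}
    (hD : IsDer D) (i : Fin n) (M N : Matrix (Fin n) (Fin n) A) :
    (M + N).map (D i) = M.map (D i) + N.map (D i) := by
  ext p q
  simp only [Matrix.map_apply, Matrix.add_apply, hD.add]

/-- curvature of connection matrices -/
def ccRicF {n : ℕ} {A : Type} [CommRing A] (D : Fin n → A → A)
    (w : Fin n → Matrix (Fin n) (Fin n) A) (i j : Fin n) : Matrix (Fin n) (Fin n) A :=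
  (w j).map (D i) - (w i).map (D j) - (w i * w j - w j * w i)

/-- connection matrices -/
noncomputable def ccRicW {n : ℕ} {A : Type} [CommRing A] [Algebra ℝ A] (D : Fin n → A → A)
    (g gi : Fin n → Fin n → A) (i : Fin n) : Matrix (Fin n) (Fin n) A :=
  Matrix.of fun j c => chr D g gi c i j

theorem ccRic_eq {n : ℕ} {A : Type} [CommRing A] [Algebra ℝ A] {D : Fin n → A → A}
    (hD : IsDer D) {g gi : Fin n → Fin n → A} (h : IsMetric g gi) (i j : Fin n) :
    ric D g gi i j = ∑ k, ccRicF D (ccRicW D g gi) k j i k := by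
  have hs := (metric_compat hD h).1
  simp only [ric, ccRicF, ccRicW, Matrix.sub_apply, Matrix.map_apply, Matrix.mul_apply,
    Matrix.of_apply]
  rw [← Finset.sum_add_distrib]
  refine Finset.sum_congr rfl fun k _ => ?_
  rw [Finset.sum_sub_distrib, hs k i j, hs k i k]
  have e1 : ∑ l, chr D g gi k k l * chr D g gi l i j = ∑ l, chr D g gi l j i * chr D g gi k k l :=
    Finset.sum_congr rfl fun l _ => by rw [hs l i j, mul_comm]
  have e2 : ∑ l, chr D g gi k j l * chr D g gi l i k = ∑ l, chr D g gi l k i * chr D g gi k j l :=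
    Finset.sum_congr rfl fun l _ => by rw [hs l i k, mul_comm]
  rw [e1, e2]
  ring

theorem cc_ric {n : ℕ} {A B : Type} [CommRing A] [Algebra ℝ A] [CommRing B] [Algebra ℝ B]
    {D : Fin n → A → A} {D' : Fin n → B → B} (hD : IsDer D) (hD' : IsDer D')
    {φ : A →+* B} {J K : Fin n → Fin n → B}
    (hc : CoordChange D D' φ J K) {g gi : Fin n → Fin n → A} (h : IsMetric g gi) (i j : Fin n) :
    ric D' (pull φ J g) (pullInv φ K gi) i j = ∑ a, ∑ b, J i a * J j b * φ (ric D g gi a b) := by
  set w := ccRicW D g gi with hw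
  set w' := ccRicW D' (pull φ J g) (pullInv φ K gi) with hw'
  set Jm : Matrix (Fin n) (Fin n) B := Matrix.of J with hJm
  set Km : Matrix (Fin n) (Fin n) B := Matrix.of K with hKm
  set wt : Fin n → Matrix (Fin n) (Fin n) B := fun i => ∑ a, J i a • (w a).map φ with hwt
  have hJK : Jm * Km = 1 := by
    ext p q
    rw [Matrix.mul_apply, Matrix.one_apply]
    exact hc.jk p q
  -- transformation of the connection
  have h4 : ∀ i, w' i * Jm = Jm * wt i + Jm.map (D' i) := by
    intro i
    ext p q
    rw [Matrix.mul_apply, Matrix.add_apply, Matrix.mul_apply, Matrix.map_apply]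
    have h5 := cc_chr hD hD' hc h i p q
    change ∑ k, chr D' (pull φ J g) (pullInv φ K gi) k i p * J k q = _ + D' i (J p q)
    rw [h5]
    congr 1
    simp only [hwt, Matrix.sum_apply, Matrix.smul_apply, Matrix.map_apply, smul_eq_mul,
      Finset.mul_sum]
    rw [Finset.sum_comm]
    refine Finset.sum_congr rfl fun b _ => Finset.sum_congr rfl fun a _ => ?_
    change J i a * J p b * φ (chr D g gi q a b) = J p b * (J i a * φ (chr D g gi q a b))
    ring
  -- curvature
  have hcurv : ∀ i j, ccRicF D' w' i j * Jm = Jm * ccRicF D' wt i j := by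
    intro i j
    have h1 : (w' j).map (D' i) * Jm + w' j * Jm.map (D' i) =
        (Jm.map (D' i) * wt j + Jm * (wt j).map (D' i)) + (Jm.map (D' j)).map (D' i) := by
      rw [← ccRic_mapmul hD', ← ccRic_mapmul hD', ← ccRic_mapadd hD', h4]
    have h2 : (w' i).map (D' j) * Jm + w' i * Jm.map (D' j) =
        (Jm.map (D' j) * wt i + Jm * (wt i).map (D' j)) + (Jm.map (D' i)).map (D' j) := by
      rw [← ccRic_mapmul hD', ← ccRic_mapmul hD', ← ccRic_mapadd hD', h4]
    have h3 : (Jm.map (D' j)).map (D' i) = (Jm.map (D' i)).map (D' j) := by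
      ext p q
      simp only [Matrix.map_apply]
      exact hD'.comm i j _
    have e1 := eq_sub_of_add_eq h1
    have e2 := eq_sub_of_add_eq h2
    have e3 : w' i * w' j * Jm = (Jm * wt i + Jm.map (D' i)) * wt j + w' i * Jm.map (D' j) := by
      rw [Matrix.mul_assoc, h4 j, Matrix.mul_add, ← Matrix.mul_assoc, h4 i]
    have e4 : w' j * w' i * Jm = (Jm * wt j + Jm.map (D' j)) * wt i + w' j * Jm.map (D' i) := by
      rw [Matrix.mul_assoc, h4 i, Matrix.mul_add, ← Matrix.mul_assoc, h4 j]
    unfold ccRicF
    rw [Matrix.sub_mul, Matrix.sub_mul, Matrix.sub_mul, e1, e2, e3, e4, h3]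
    noncomm_ring
  have hFt : ∀ i j, ccRicF D' wt i j = ∑ a, ∑ b, (J i a * J j b) • (ccRicF D w a b).map φ := by
    intro i j
    have hder : ∀ i j, (wt j).map (D' i) = (∑ b, D' i (J j b) • (w b).map φ) +
        ∑ a, ∑ b, (J i a * J j b) • ((w b).map (D a)).map φ := by
      intro i j
      ext p q
      simp only [hwt, Matrix.map_apply, Matrix.add_apply, Matrix.sum_apply, Matrix.smul_apply,
        smul_eq_mul, ccRic_sum hD', hD'.mul, hc.der, Finset.sum_add_distrib, Finset.mul_sum]
      congr 1
      rw [Finset.sum_comm]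
      refine Finset.sum_congr rfl fun a _ => Finset.sum_congr rfl fun b _ => ?_
      ring
    have hprod : ∀ i j, wt i * wt j = ∑ a, ∑ b, (J i a * J j b) • ((w a).map φ * (w b).map φ) := by
      intro i j
      simp only [hwt, Finset.sum_mul_sum, smul_mul_smul_comm]
    have hsw : ∀ (M : Fin n → Fin n → Matrix (Fin n) (Fin n) B), ∑ a, ∑ b, (J j a * J i b) • M a b =
        ∑ a, ∑ b, (J i a * J j b) • M b a := by
      intro M
      rw [Finset.sum_comm]
      refine Finset.sum_congr rfl fun a _ => Finset.sum_congr rfl fun b _ => ?_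
      rw [mul_comm]
    have hcl : ∑ b, D' i (J j b) • (w b).map φ = ∑ b, D' j (J i b) • (w b).map φ :=
      Finset.sum_congr rfl fun b _ => by rw [hc.closed i j b]
    have hlast : ∀ a b, (ccRicF D w a b).map φ = ((w b).map (D a)).map φ - ((w a).map (D b)).map φ -
        ((w a).map φ * (w b).map φ - (w b).map φ * (w a).map φ) := by
      intro a b
      ext p q
      simp only [ccRicF, Matrix.map_apply, Matrix.sub_apply, Matrix.mul_apply, map_sub, map_sum,
        map_mul]
    unfold ccRicF at hlast ⊢
    rw [hder i j, hder j i, hprod i j, hprod j i, hsw, hsw, hcl]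
    simp only [hlast, smul_sub, Finset.sum_sub_distrib]
    abel
  have hF' : ∀ i j, ccRicF D' w' i j = Jm * ccRicF D' wt i j * Km := by
    intro i j
    rw [← hcurv, Matrix.mul_assoc, hJK, Matrix.mul_one]
  have hsum : ∀ d, ∑ k, K d k • ccRicF D' wt k j = ∑ b, J j b • (ccRicF D w d b).map φ := by
    intro d
    simp only [hFt, Finset.smul_sum, smul_smul]
    rw [Finset.sum_comm]
    have : ∀ a, ∑ k, ∑ b, (K d k * (J k a * J j b)) • (ccRicF D w a b).map φ =
        (if d = a then (1 : B) else 0) • ∑ b, J j b • (ccRicF D w a b).map φ := by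
      intro a
      rw [← hc.kj d a, Finset.sum_smul]
      refine Finset.sum_congr rfl fun k _ => ?_
      rw [Finset.smul_sum]
      refine Finset.sum_congr rfl fun b _ => ?_
      rw [smul_smul, mul_assoc]
    rw [Finset.sum_congr rfl fun a _ => this a]
    simp
  rw [ccRic_eq hD' (cc_metric hc h)]
  calc ∑ k, ccRicF D' w' k j i k
      = ∑ k, ∑ d, (Jm * (K d k • ccRicF D' wt k j)) i d := by
        refine Finset.sum_congr rfl fun k _ => ?_
        rw [hF', Matrix.mul_apply]
        refine Finset.sum_congr rfl fun d _ => ?_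
        rw [Matrix.mul_smul, Matrix.smul_apply, smul_eq_mul, mul_comm]
        rfl
    _ = ∑ d, (Jm * ∑ k, K d k • ccRicF D' wt k j) i d := by
        rw [Finset.sum_comm]
        refine Finset.sum_congr rfl fun d _ => ?_
        rw [Matrix.mul_sum, Matrix.sum_apply]
    _ = ∑ d, ∑ a, ∑ b, J i a * (J j b * φ (ccRicF D w d b a d)) := by
        refine Finset.sum_congr rfl fun d _ => ?_
        rw [hsum, Matrix.mul_apply]
        refine Finset.sum_congr rfl fun a _ => ?_
        rw [Matrix.sum_apply, Finset.mul_sum]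
        rfl
    _ = ∑ a, ∑ b, J i a * J j b * φ (ric D g gi a b) := by
        rw [Finset.sum_comm]
        refine Finset.sum_congr rfl fun a _ => ?_
        rw [Finset.sum_comm]
        refine Finset.sum_congr rfl fun b _ => ?_
        rw [ccRic_eq hD h, map_sum, Finset.mul_sum]
        refine Finset.sum_congr rfl fun d _ => ?_
        ring

end CInv
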