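import Pool.Agent.Helper771.CInv.Defs
import Pool.Agent.Helper771.CInv.P_gi_symm
import Pool.Agent.Helper771.CInv.P_metric_compat
import Pool.Agent.Helper771.CInv.P_cc_metric
import Pool.Agent.Helper771.CInv.P_cc_chr

set_option linter.all false

open scoped BigOperators

namespace CInv



theorem ccovD_zero {n : ℕ} {B : Type} [CommRing B] [Algebra ℝ B] {D' : Fin n → B → B}
    (hD' : IsDer D') (s : Fin n) : D' s 0 = 0 := by
  have := hD'.add s 0 0
  simpa using this

theorem ccovD_one {n : ℕ} {B : Type} [CommRing B] [Algebra ℝ B] {D' : Fin n → B → B}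
    (hD' : IsDer D') (s : Fin n) : D' s 1 = 0 := by
  have := hD'.mul s 1 1
  simp only [mul_one, one_mul] at this
  simpa using this

theorem ccovD_sum {n : ℕ} {B : Type} [CommRing B] [Algebra ℝ B] {D' : Fin n → B → B}
    (hD' : IsDer D') (s : Fin n) {ι : Type} (S : Finset ι) (f : ι → B) :
    D' s (∑ i ∈ S, f i) = ∑ i ∈ S, D' s (f i) := by
  classical
  induction S using Finset.induction_on with
  | empty => simp [ccovD_zero hD']
  | insert a S ha ih => rw [Finset.sum_insert ha, Finset.sum_insert ha, hD'.add, ih]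

theorem ccovD_prod {n : ℕ} {B : Type} [CommRing B] [Algebra ℝ B] {D' : Fin n → B → B}
    (hD' : IsDer D') (s : Fin n) {ι : Type} [DecidableEq ι] (S : Finset ι) (f : ι → B) :
    D' s (∏ i ∈ S, f i) = ∑ i ∈ S, D' s (f i) * ∏ j ∈ S.erase i, f j := by
  induction S using Finset.induction_on with
  | empty => simp [ccovD_one hD']
  | insert a S ha ih =>
    rw [Finset.prod_insert ha, Finset.sum_insert ha, hD'.mul, ih, Finset.erase_insert ha,
      Finset.mul_sum]
    congr 1
    refine Finset.sum_congr rfl fun i hi => ?_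
    have hai : a ≠ i := fun h => ha (h ▸ hi)
    rw [Finset.erase_insert_of_ne hai, Finset.prod_insert]
    · ring
    · intro h
      exact ha (Finset.mem_of_mem_erase h)

theorem ccovD_swap {n m : ℕ} {B : Type} [AddCommMonoid B] (p : Fin m)
    (F : (Fin m → Fin n) → Fin n → B) :
    ∑ a : Fin m → Fin n, ∑ k, F a k = ∑ a : Fin m → Fin n, ∑ b, F (Function.update a p b) (a p) := by
  rw [← Fintype.sum_prod_type' F,
    ← Fintype.sum_prod_type' (fun (a : Fin m → Fin n) b => F (Function.update a p b) (a p))]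
  refine Fintype.sum_bijective (fun x : (Fin m → Fin n) × Fin n => (Function.update x.1 p x.2, x.1 p))
    ?_ _ _ ?_
  · apply Function.Involutive.bijective
    intro x
    obtain ⟨a, b⟩ := x
    simp
  · rintro ⟨a, b⟩
    simp

theorem cc_covD {n : ℕ} {A B : Type} [CommRing A] [Algebra ℝ A] [CommRing B] [Algebra ℝ B]
    {D : Fin n → A → A} {D' : Fin n → B → B} (hD : IsDer D) (hD' : IsDer D')
    {φ : A →+* B} {J K : Fin n → Fin n → B}
    (hc : CoordChange D D' φ J K) {g gi : Fin n → Fin n → A} (h : IsMetric g gi)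
    {m : ℕ} (T : (Fin m → Fin n) → A) (T' : (Fin m → Fin n) → B)
    (hT : ∀ i, T' i = ∑ a : Fin m → Fin n, (∏ p, J (i p) (a p)) * φ (T a))
    (i : Fin (m + 1) → Fin n) :
    covD D' (pull φ J g) (pullInv φ K gi) T' i
      = ∑ a : Fin (m + 1) → Fin n, (∏ p, J (i p) (a p)) * φ (covD D g gi T a) := by
  classical
  set s : Fin n := i 0 with hs
  set t : Fin m → Fin n := Fin.tail i with ht
  have htp : ∀ p : Fin m, i p.succ = t p := fun p => rfl
  set G' : Fin n → Fin n → Fin n → B := chr D' (pull φ J g) (pullInv φ K gi) with hG'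
  set G : Fin n → Fin n → Fin n → A := chr D g gi with hG
  set P : Fin m → (Fin m → Fin n) → B := fun p a => ∏ q ∈ Finset.univ.erase p, J (t q) (a q) with hP
  have hP1 : ∀ p a, ∏ q, J (t q) (a q) = J (t p) (a p) * P p a := fun p a =>
    (Finset.mul_prod_erase Finset.univ _ (Finset.mem_univ p)).symm
  have hP2 : ∀ p k a, ∏ q, J (Function.update t p k q) (a q) = J k (a p) * P p a := by
    intro p k a
    rw [← Finset.mul_prod_erase Finset.univ _ (Finset.mem_univ p)]
    simp only [Function.update_self, hP]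
    congr 1
    refine Finset.prod_congr rfl fun q hq => ?_
    rw [Function.update_of_ne (Finset.ne_of_mem_erase hq)]
  have hP3 : ∀ p b a, P p (Function.update a p b) = P p a := by
    intro p b a
    simp only [hP]
    refine Finset.prod_congr rfl fun q hq => ?_
    rw [Function.update_of_ne (Finset.ne_of_mem_erase hq)]
  have hchr : ∀ j c, ∑ k, G' k s j * J k c
      = (∑ a, ∑ b, J s a * J j b * φ (G c a b)) + D' s (J j c) := fun j c =>
    cc_chr hD hD' hc h s j c
  -- step A
  have hA : D' s (T' t) = (∑ p, ∑ a, D' s (J (t p) (a p)) * P p a * φ (T a))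
      + ∑ a, (∏ q, J (t q) (a q)) * ∑ j, J s j * φ (D j (T a)) := by
    rw [hT t, ccovD_sum hD', Finset.sum_comm (s := Finset.univ) (t := Finset.univ)
      (f := fun p a => D' s (J (t p) (a p)) * P p a * φ (T a)), ← Finset.sum_add_distrib]
    refine Finset.sum_congr rfl fun a _ => ?_
    rw [hD'.mul, ccovD_prod hD', Finset.sum_mul, hc.der]
  -- step B
  have hB : (∑ p, ∑ k, G' k s (t p) * T' (Function.update t p k))
      = (∑ p, ∑ a, (∑ c, ∑ b, J s c * J (t p) b * φ (G (a p) c b)) * P p a * φ (T a))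
        + ∑ p, ∑ a, D' s (J (t p) (a p)) * P p a * φ (T a) := by
    rw [← Finset.sum_add_distrib]
    refine Finset.sum_congr rfl fun p _ => ?_
    rw [← Finset.sum_add_distrib]
    have e1 : ∀ k, G' k s (t p) * T' (Function.update t p k)
        = ∑ a, G' k s (t p) * J k (a p) * (P p a * φ (T a)) := by
      intro k
      rw [hT, Finset.mul_sum]
      refine Finset.sum_congr rfl fun a _ => ?_
      rw [hP2]
      ring
    rw [Finset.sum_congr rfl fun k _ => e1 k, Finset.sum_comm]
    refine Finset.sum_congr rfl fun a _ => ?_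
    rw [← Finset.sum_mul, hchr]
    ring
  -- left side
  have hL : covD D' (pull φ J g) (pullInv φ K gi) T' i
      = (∑ a, (∏ q, J (t q) (a q)) * ∑ j, J s j * φ (D j (T a)))
        - ∑ p, ∑ a, (∑ c, ∑ b, J s c * J (t p) b * φ (G (a p) c b)) * P p a * φ (T a) := by
    have : covD D' (pull φ J g) (pullInv φ K gi) T' i
        = D' s (T' t) - ∑ p, ∑ k, G' k s (t p) * T' (Function.update t p k) := rfl
    rw [this, hA, hB]
    ring
  rw [hL]
  -- right side
  rw [← (Fin.consEquiv (fun _ : Fin (m + 1) => Fin n)).sum_comp, Fintype.sum_prod_type]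
  have hR : ∀ (a0 : Fin n) (a' : Fin m → Fin n),
      (∏ p, J (i p) ((Fin.consEquiv (fun _ : Fin (m + 1) => Fin n)) (a0, a') p))
        * φ (covD D g gi T ((Fin.consEquiv (fun _ : Fin (m + 1) => Fin n)) (a0, a')))
      = J s a0 * (∏ q, J (t q) (a' q)) * φ (D a0 (T a'))
        - ∑ p, ∑ k, J s a0 * ((J (t p) (a' p) * P p a') * φ (G k a0 (a' p))
            * φ (T (Function.update a' p k))) := by
    intro a0 a'
    have e1 : (∏ p, J (i p) ((Fin.consEquiv (fun _ : Fin (m + 1) => Fin n)) (a0, a') p))
        = J s a0 * ∏ q, J (t q) (a' q) := by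
      rw [Fin.prod_univ_succ]
      rfl
    have e2 : covD D g gi T ((Fin.consEquiv (fun _ : Fin (m + 1) => Fin n)) (a0, a'))
        = D a0 (T a') - ∑ p, ∑ k, G k a0 (a' p) * T (Function.update a' p k) := rfl
    rw [e1, e2, map_sub, map_sum, mul_sub, Finset.mul_sum]
    congr 1
    refine Finset.sum_congr rfl fun p _ => ?_
    rw [map_sum, Finset.mul_sum]
    refine Finset.sum_congr rfl fun k _ => ?_
    rw [map_mul, hP1 p a']
    ring
  rw [Finset.sum_congr rfl fun a0 _ => Finset.sum_congr rfl fun a' _ => hR a0 a']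
  simp only [Finset.sum_sub_distrib]
  congr 1
  · rw [Finset.sum_comm]
    refine Finset.sum_congr rfl fun a _ => ?_
    rw [Finset.mul_sum]
    refine Finset.sum_congr rfl fun j _ => ?_
    ring
  · symm
    have e3 : ∀ a0 : Fin n, ∑ a' : Fin m → Fin n, ∑ p, ∑ k, J s a0 * ((J (t p) (a' p) * P p a')
          * φ (G k a0 (a' p)) * φ (T (Function.update a' p k)))
        = ∑ p, ∑ a : Fin m → Fin n, ∑ b, J s a0 * ((J (t p) b * P p a) * φ (G (a p) a0 b) * φ (T a)) := by
      intro a0
      rw [Finset.sum_comm]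
      refine Finset.sum_congr rfl fun p _ => ?_
      rw [ccovD_swap p]
      refine Finset.sum_congr rfl fun a _ => ?_
      refine Finset.sum_congr rfl fun b _ => ?_
      rw [hP3, Function.update_self, Function.update_idem, Function.update_eq_self]
    rw [Finset.sum_congr rfl fun a0 _ => e3 a0, Finset.sum_comm]
    refine Finset.sum_congr rfl fun p _ => ?_
    rw [Finset.sum_comm]
    refine Finset.sum_congr rfl fun a _ => ?_
    rw [Finset.sum_mul, Finset.sum_mul]
    refine Finset.sum_congr rfl fun c _ => ?_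
    rw [Finset.sum_mul, Finset.sum_mul]
    refine Finset.sum_congr rfl fun b _ => ?_
    ring

end CInv
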