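import Pool.Agent.Helper771.CInv.Defs

set_option linter.all false

open scoped BigOperators

namespace CInv



theorem dw_perm {n : ℕ} {A : Type} [CommRing A] [Algebra ℝ A] {D : Fin n → A → A}
    (hD : IsDer D) {w w' : List (Fin n)} (h : w.Perm w') (a : A) : Dw D w a = Dw D w' a := by
  induction h with
  | nil => rfl
  | cons x _ ih => show D x _ = D x _; rw [ih]
  | swap x y l => show D y (D x _) = D x (D y _); exact hD.comm y x _
  | trans _ _ ih1 ih2 => exact ih1.trans ih2

end CInv
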