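import Pool.Agent.Helper771.CInv.Defs

set_option linter.all false

open scoped BigOperators

namespace CInv



theorem pd_smooth_step {n : ℕ} {U : Set (Fin n → ℝ)} (hU : IsOpen U) {f : (Fin n → ℝ) → ℝ}
    (hf : ContDiffOn ℝ (⊤ : ℕ∞) f U) : ContDiffOn ℝ (⊤ : ℕ∞) (fderiv ℝ f) U :=
  hf.fderiv_of_isOpen hU (by simp)

theorem pd_smooth_symm {n : ℕ} {U : Set (Fin n → ℝ)} (hU : IsOpen U) {f : (Fin n → ℝ) → ℝ}
    (hf : ContDiffOn ℝ (⊤ : ℕ∞) f U) (i j : Fin n) (x : Fin n → ℝ) (hx : x ∈ U) :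
    pd i (pd j f) x = pd j (pd i f) x := by
  have hat : ContDiffAt ℝ (⊤ : ℕ∞) f x := hf.contDiffAt (hU.mem_nhds hx)
  have hsym : IsSymmSndFDerivAt ℝ f x := hat.isSymmSndFDerivAt (by simp only [minSmoothness_of_isRCLikeNormedField]; exact (WithTop.coe_le_coe.2 (le_top : (2:ℕ∞) ≤ ⊤)))
  have hd : DifferentiableAt ℝ (fderiv ℝ f) x :=
    ((pd_smooth_step hU hf).contDiffAt (hU.mem_nhds hx)).differentiableAt (by simp)
  have key : ∀ i j : Fin n, pd i (pd j f) x = fderiv ℝ (fderiv ℝ f) x (Pi.single i 1) (Pi.single j 1) := by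
    intro i j
    have h1 : fderiv ℝ (fun y => fderiv ℝ f y (Pi.single j 1)) x =
        (fderiv ℝ (fderiv ℝ f) x).flip (Pi.single j 1) := by
      rw [fderiv_clm_apply hd (differentiableAt_const _)]
      simp
    show fderiv ℝ (fun y => fderiv ℝ f y (Pi.single j 1)) x (Pi.single i 1) = _
    rw [h1]
    rfl
  rw [key, key]
  exact hsym _ _

theorem pd_smooth {n : ℕ} {U : Set (Fin n → ℝ)} (hU : IsOpen U) {f : (Fin n → ℝ) → ℝ}
    (hf : ContDiffOn ℝ (⊤ : ℕ∞) f U) (w : List (Fin n)) :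
    ContDiffOn ℝ (⊤ : ℕ∞) (Dw pd w f) U ∧
      ∀ i j, ∀ x ∈ U, pd i (pd j (Dw pd w f)) x = pd j (pd i (Dw pd w f)) x := by
  have h1 : ContDiffOn ℝ (⊤ : ℕ∞) (Dw pd w f) U := by
    induction w with
    | nil => exact hf
    | cons i w ih =>
      show ContDiffOn ℝ (⊤ : ℕ∞) (fun x => fderiv ℝ (Dw pd w f) x (Pi.single i 1)) U
      exact (pd_smooth_step hU ih).clm_apply contDiffOn_const
  exact ⟨h1, fun i j x hx => pd_smooth_symm hU h1 i j x hx⟩

end CInv
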