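import Pool.Agent.Helper771.CInv.Defs
import Pool.Agent.Helper771.CInv.P_pd_smooth

set_option linter.all false

open scoped BigOperators

namespace CInv



theorem dw_perm_fn {n : ℕ} {U : Set (Fin n → ℝ)} (hU : IsOpen U) {f : (Fin n → ℝ) → ℝ}
    (hf : ContDiffOn ℝ (⊤ : ℕ∞) f U) {w w' : List (Fin n)} (h : w.Perm w') :
    ∀ x ∈ U, Dw pd w f x = Dw pd w' f x := by
  induction h with
  | nil => intro x _; rfl
  | @cons a l₁ l₂ h ih =>
    intro x hx
    show pd a (Dw pd l₁ f) x = pd a (Dw pd l₂ f) x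
    have h1 : Dw pd l₁ f =ᶠ[nhds x] Dw pd l₂ f := by
      filter_upwards [hU.mem_nhds hx] with y hy
      exact ih y hy
    show fderiv ℝ (Dw pd l₁ f) x (Pi.single a 1) = fderiv ℝ (Dw pd l₂ f) x (Pi.single a 1)
    rw [h1.fderiv_eq]
  | swap a b l =>
    intro x hx
    show pd b (pd a (Dw pd l f)) x = pd a (pd b (Dw pd l f)) x
    exact (pd_smooth hU hf l).2 b a x hx
  | trans _ _ ih1 ih2 =>
    intro x hx
    exact (ih1 x hx).trans (ih2 x hx)

end CInv
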