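import Pool.Agent.Helper771.CInv.Defs

set_option linter.all false

open scoped BigOperators

namespace CInv



/-- the generic matrix -/
noncomputable def ucM (n : ℕ) :
    Matrix (Fin n) (Fin n) (MvPolynomial (Fin n × Fin n × List (Fin n)) ℝ) :=
  Matrix.of (fun i j => MvPolynomial.X (i, j, []))

theorem ucM_map {n : ℕ} (A : Type) [CommRing A] [Algebra ℝ A]
    (y : Fin n × Fin n × List (Fin n) → A) :
    (MvPolynomial.aeval y : MvPolynomial (Fin n × Fin n × List (Fin n)) ℝ →ₐ[ℝ] A).mapMatrix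
      (ucM n) = Matrix.of (fun i j => y (i, j, [])) := by
  ext i j
  simp [ucM]

theorem ucM_det {n : ℕ} (A : Type) [CommRing A] [Algebra ℝ A]
    (y : Fin n × Fin n × List (Fin n) → A) :
    MvPolynomial.aeval y (ucM n).det = (Matrix.of (fun i j => y (i, j, []))).det := by
  rw [AlgHom.map_det, ucM_map]

theorem ucM_adj {n : ℕ} (A : Type) [CommRing A] [Algebra ℝ A]
    (y : Fin n × Fin n × List (Fin n) → A) (i j : Fin n) :
    MvPolynomial.aeval y ((ucM n).adjugate i j)
      = (Matrix.of (fun i j => y (i, j, []))).adjugate i j := by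
  have h := AlgHom.map_adjugate (MvPolynomial.aeval y :
    MvPolynomial (Fin n × Fin n × List (Fin n)) ℝ →ₐ[ℝ] A) (ucM n)
  rw [ucM_map] at h
  rw [← h]
  rfl

theorem uc_inv {n : ℕ} {A : Type} [CommRing A] (M : Matrix (Fin n) (Fin n) A)
    (z : Fin n → Fin n → A) (h : ∀ i j, ∑ k, M i k * z k j = if i = j then 1 else 0)
    (i j : Fin n) : M.adjugate i j = M.det * z i j := by
  have h1 : M * Matrix.of z = 1 := by
    ext a b
    rw [Matrix.mul_apply, Matrix.one_apply]
    exact h a b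
  have h2 : M.adjugate = M.det • Matrix.of z := by
    calc M.adjugate = M.adjugate * (M * Matrix.of z) := by rw [h1, mul_one]
      _ = (M.adjugate * M) * Matrix.of z := by rw [mul_assoc]
      _ = M.det • Matrix.of z := by rw [Matrix.adjugate_mul, smul_mul_assoc, one_mul]
  rw [h2]
  rfl

theorem uni_clear {n : ℕ} (p : MvPolynomial (UV n) ℝ) :
    ∃ (N : ℕ) (Φ : MvPolynomial (Fin n × Fin n × List (Fin n)) ℝ),
      ∀ (A : Type) [CommRing A] [Algebra ℝ A] (y : Fin n × Fin n × List (Fin n) → A)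
        (z : Fin n → Fin n → A),
        (∀ i j, ∑ k, y (i, k, []) * z k j = if i = j then 1 else 0) →
        MvPolynomial.aeval y Φ = (Matrix.of (fun i j => y (i, j, []))).det ^ N
          * MvPolynomial.aeval (Sum.elim y (fun v : Fin n × Fin n => z v.1 v.2)) p := by
  induction p using MvPolynomial.induction_on with
  | C r =>
    refine ⟨0, MvPolynomial.C r, ?_⟩
    intro A _ _ y z _
    rw [pow_zero, one_mul, MvPolynomial.aeval_C, MvPolynomial.aeval_C]
  | add p q hp hq =>
    obtain ⟨N₁, Φ₁, h₁⟩ := hp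
    obtain ⟨N₂, Φ₂, h₂⟩ := hq
    refine ⟨N₁ + N₂, (ucM n).det ^ N₂ * Φ₁ + (ucM n).det ^ N₁ * Φ₂, ?_⟩
    intro A _ _ y z hz
    rw [map_add, map_mul, map_mul, map_pow, map_pow, ucM_det, h₁ A y z hz, h₂ A y z hz, map_add]
    ring
  | mul_X p v hp =>
    obtain ⟨N₁, Φ₁, h₁⟩ := hp
    rcases v with v | ⟨i, j⟩
    · refine ⟨N₁, Φ₁ * MvPolynomial.X v, ?_⟩
      intro A _ _ y z hz
      rw [map_mul, h₁ A y z hz, map_mul, MvPolynomial.aeval_X, MvPolynomial.aeval_X, Sum.elim_inl]
      ring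
    · refine ⟨N₁ + 1, Φ₁ * (ucM n).adjugate i j, ?_⟩
      intro A _ _ y z hz
      rw [map_mul, h₁ A y z hz, map_mul, MvPolynomial.aeval_X, ucM_adj, Sum.elim_inr,
        uc_inv (Matrix.of (fun i j => y (i, j, []))) z hz i j]
      ring

end CInv
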