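import Pool.Agent.Helper771.CInv.Defs

set_option linter.all false

open scoped BigOperators

namespace CInv



theorem pdv_isder_comm_aux {n : ℕ} {R : Type} [CommRing R] (i j : Fin n) (a : MvPolynomial (Fin n) R) :
    MvPolynomial.pderiv i (MvPolynomial.pderiv j a) = MvPolynomial.pderiv j (MvPolynomial.pderiv i a) := by
  have h : ⁅(MvPolynomial.pderiv i : Derivation R (MvPolynomial (Fin n) R) (MvPolynomial (Fin n) R)), (MvPolynomial.pderiv j : Derivation R (MvPolynomial (Fin n) R) (MvPolynomial (Fin n) R))⁆ = 0 := by
    apply MvPolynomial.derivation_ext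
    intro k
    rw [Derivation.commutator_apply]
    rw [MvPolynomial.pderiv_X, MvPolynomial.pderiv_X]
    by_cases hj : j = k
    · subst hj
      by_cases hi : i = j
      · subst hi; simp
      · simp [Pi.single_apply, hi, Ne.symm hi]
    · by_cases hi : i = k
      · subst hi
        simp [Pi.single_apply, hj, Ne.symm hj]
      · simp [Pi.single_apply, hi, Ne.symm hi, hj, Ne.symm hj]
  have := congrArg (fun d => d a) h
  simp only [Derivation.commutator_apply, Derivation.coe_zero, Pi.zero_apply] at this
  exact sub_eq_zero.1 this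

theorem pdv_isder_smul_aux {n : ℕ} {R : Type} [CommRing R] [Algebra ℝ R] (i : Fin n) (r : ℝ) (a : MvPolynomial (Fin n) R) :
    MvPolynomial.pderiv i (r • a) = r • MvPolynomial.pderiv i a := by
  rw [Algebra.smul_def, Algebra.smul_def, MvPolynomial.algebraMap_apply, MvPolynomial.pderiv_C_mul]

theorem pdv_isder {n : ℕ} {R : Type} [CommRing R] [Algebra ℝ R] :
    IsDer (A := MvPolynomial (Fin n) R) (fun i => pdv i) := by
  refine ⟨?_, ?_, ?_, ?_⟩
  · intro i a b
    exact map_add (MvPolynomial.pderiv i) a b
  · intro i a b
    exact MvPolynomial.pderiv_mul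
  · intro i r a
    exact pdv_isder_smul_aux i r a
  · intro i j a
    exact pdv_isder_comm_aux i j a

end CInv
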