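import Pool.Agent.Helper771.CInv.Defs

set_option linter.all false

open scoped BigOperators

namespace CInv



theorem curve_poly {n : ℕ} (L : Mx n →ₗ[ℂ] ℂ)
    (Θ : Fin n → Fin n → Polynomial (MvPolynomial (Fin n) ℂ))
    (h : {σ : ℂ | L (fun i j => (Θ i j).eval (MvPolynomial.C σ)) = 0}.Infinite) (m : ℕ) :
    L (fun i j => (Θ i j).coeff m) = 0 := by
  obtain ⟨N, hN⟩ : ∃ N : ℕ, ∀ i j, (Θ i j).natDegree < N := by
    refine ⟨(∑ i, ∑ j, (Θ i j).natDegree) + 1, fun i j => Nat.lt_succ_of_le ?_⟩
    calc (Θ i j).natDegree ≤ ∑ j, (Θ i j).natDegree :=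
          Finset.single_le_sum (f := fun j => (Θ i j).natDegree) (fun _ _ => Nat.zero_le _)
            (Finset.mem_univ j)
      _ ≤ _ := Finset.single_le_sum (f := fun i => ∑ j, (Θ i j).natDegree)
            (fun _ _ => Nat.zero_le _) (Finset.mem_univ i)
  have hev : ∀ σ : ℂ, L (fun i j => (Θ i j).eval (MvPolynomial.C σ)) =
      (∑ k ∈ Finset.range N, Polynomial.C (L (fun i j => (Θ i j).coeff k)) * Polynomial.X ^ k).eval σ := by
    intro σ
    have e1 : (fun i j => (Θ i j).eval (MvPolynomial.C σ) : Mx n) =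
        ∑ k ∈ Finset.range N, σ ^ k • (fun i j => (Θ i j).coeff k : Mx n) := by
      funext i j
      rw [Polynomial.eval_eq_sum_range' (hN i j), Finset.sum_apply, Finset.sum_apply]
      refine Finset.sum_congr rfl (fun k _ => ?_)
      show (Θ i j).coeff k * MvPolynomial.C σ ^ k = σ ^ k • (Θ i j).coeff k
      rw [← map_pow, mul_comm, ← MvPolynomial.smul_eq_C_mul]
    rw [e1, map_sum, Polynomial.eval_finsetSum]
    refine Finset.sum_congr rfl (fun k _ => ?_)
    rw [map_smul, smul_eq_mul, Polynomial.eval_mul, Polynomial.eval_C, Polynomial.eval_pow,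
      Polynomial.eval_X, mul_comm]
  have hP : (∑ k ∈ Finset.range N, Polynomial.C (L (fun i j => (Θ i j).coeff k)) *
      Polynomial.X ^ k) = 0 := by
    apply Polynomial.eq_zero_of_infinite_isRoot
    refine h.mono (fun σ hσ => ?_)
    have hσ' : L (fun i j => (Θ i j).eval (MvPolynomial.C σ)) = 0 := hσ
    rw [hev] at hσ'
    exact hσ'
  by_cases hm : m < N
  · have h1 := congrArg (fun p => Polynomial.coeff p m) hP
    simp only [Polynomial.finsetSum_coeff, Polynomial.coeff_C_mul_X_pow, Polynomial.coeff_zero] at h1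
    rw [Finset.sum_ite_eq] at h1
    rw [if_pos (Finset.mem_range.2 hm)] at h1
    exact h1
  · have e : (fun i j => (Θ i j).coeff m : Mx n) = 0 := by
      funext i j
      exact Polynomial.coeff_eq_zero_of_natDegree_lt (lt_of_lt_of_le (hN i j) (not_lt.1 hm))
    rw [e, map_zero]

end CInv
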