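import Pool.Agent.Helper771.CInv.Defs

set_option linter.all false

open scoped BigOperators

namespace CInv



theorem fams_comm {n : ℕ} (u v : Fin n → ℂ) : dot u v = dot v u := by
  unfold dot; exact Finset.sum_congr rfl fun i _ => mul_comm _ _
theorem fams_addl {n : ℕ} (u v w : Fin n → ℂ) : dot (u + v) w = dot u w + dot v w := by
  unfold dot; rw [← Finset.sum_add_distrib]; exact Finset.sum_congr rfl fun i _ => by
    rw [Pi.add_apply]; ring
theorem fams_subl {n : ℕ} (u v w : Fin n → ℂ) : dot (u - v) w = dot u w - dot v w := by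
  unfold dot; rw [← Finset.sum_sub_distrib]; exact Finset.sum_congr rfl fun i _ => by
    rw [Pi.sub_apply]; ring
theorem fams_smull {n : ℕ} (c : ℂ) (u w : Fin n → ℂ) : dot (c • u) w = c * dot u w := by
  unfold dot; rw [Finset.mul_sum]; exact Finset.sum_congr rfl fun i _ => by
    rw [Pi.smul_apply, smul_eq_mul]; ring
theorem fams_addr {n : ℕ} (u v w : Fin n → ℂ) : dot w (u + v) = dot w u + dot w v := by
  rw [fams_comm, fams_addl, fams_comm u, fams_comm v]
theorem fams_subr {n : ℕ} (u v w : Fin n → ℂ) : dot w (u - v) = dot w u - dot w v := by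
  rw [fams_comm, fams_subl, fams_comm u, fams_comm v]
theorem fams_smulr {n : ℕ} (c : ℂ) (u w : Fin n → ℂ) : dot w (c • u) = c * dot w u := by
  rw [fams_comm, fams_smull, fams_comm u]

theorem fams_sum {n m : ℕ} (f : Fin m → Fin n → ℂ) (α : Fin m) (c : ℂ) (u : Fin n → ℂ)
    (i j : Fin n) : ∑ β, (if β = α then f β - c • u else f β) i *
      (if β = α then f β - c • u else f β) j =
      ∑ β, f β i * f β j - c * u j * f α i - c * u i * f α j + c ^ 2 * u i * u j := by
  have h : ∀ β, (if β = α then f β - c • u else f β) i * (if β = α then f β - c • u else f β) j =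
      f β i * f β j + (if β = α then (- c * u j * f β i - c * u i * f β j + c ^ 2 * u i * u j)
        else 0) := by
    intro β
    by_cases hβ : β = α
    · rw [if_pos hβ, if_pos hβ, Pi.sub_apply, Pi.sub_apply, Pi.smul_apply, Pi.smul_apply,
        smul_eq_mul, smul_eq_mul]
      ring
    · rw [if_neg hβ, if_neg hβ, add_zero]
  rw [Finset.sum_congr rfl fun β _ => h β, Finset.sum_add_distrib, Finset.sum_ite_eq' Finset.univ α]
  rw [if_pos (Finset.mem_univ _)]
  ring

theorem fams {n : ℕ} (F : Frame n) (σ : ℂ) :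
    (∀ α, ∃ F' : Frame n, F'.k = F.k + σ • F.f α - σ ^ 2 • F.l ∧ F'.l = F.l ∧ F'.e = F.e
      ∧ F'.e' = F.e') ∧
    (∃ F' : Frame n, F'.k = F.k + σ • F.e' ∧ F'.l = F.l ∧ F'.e = F.e - σ • F.l ∧ F'.e' = F.e'
      ∧ F'.f = F.f) ∧
    (∃ F' : Frame n, F'.k = F.k + σ • F.e ∧ F'.l = F.l ∧ F'.e = F.e ∧ F'.e' = F.e' - σ • F.l
      ∧ F'.f = F.f) ∧
    (∃ F' : Frame n, F'.k = F.k ∧ F'.l = F.l - σ • F.e' ∧ F'.e = F.e + σ • F.k ∧ F'.e' = F.e'
      ∧ F'.f = F.f) ∧
    (∀ α, ∃ F' : Frame n, F'.k = F.k ∧ F'.l = F.l ∧ F'.e = F.e + σ • F.f α - σ ^ 2 • F.e'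
      ∧ F'.e' = F.e') ∧
    (∃ F' : Frame n, F'.k = F.l ∧ F'.l = F.k ∧ F'.e = F.e ∧ F'.e' = F.e' ∧ F'.f = F.f) := by
  classical
  have lk : dot F.l F.k = 1 / 2 := by rw [fams_comm]; exact F.kl
  have e'e : dot F.e' F.e = 1 / 2 := by rw [fams_comm]; exact F.hee'
  have ek : dot F.e F.k = 0 := by rw [fams_comm]; exact F.ke
  have e'k : dot F.e' F.k = 0 := by rw [fams_comm]; exact F.ke'
  have el : dot F.e F.l = 0 := by rw [fams_comm]; exact F.le
  have e'l : dot F.e' F.l = 0 := by rw [fams_comm]; exact F.le'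
  have fk : ∀ α, dot (F.f α) F.k = 0 := fun α => by rw [fams_comm]; exact F.kf α
  have fl : ∀ α, dot (F.f α) F.l = 0 := fun α => by rw [fams_comm]; exact F.lf α
  have fe : ∀ α, dot (F.f α) F.e = 0 := fun α => by rw [fams_comm]; exact F.ef α
  have fe' : ∀ α, dot (F.f α) F.e' = 0 := fun α => by rw [fams_comm]; exact F.e'f α
  have h1 : ∀ α, dot (F.f α) (F.f α) = 1 := fun α => by rw [F.ff, if_pos rfl]
  have h0 : ∀ α β, α ≠ β → dot (F.f α) (F.f β) = 0 := fun α β h => by rw [F.ff, if_neg h]
  refine ⟨fun α => ?_, ?_, ?_, ?_, fun α => ?_, ?_⟩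
  · exact ⟨{
         k := F.k + σ • F.f α - σ ^ 2 • F.l
         l := F.l
         e := F.e
         e' := F.e'
         f := fun β => if β = α then F.f β - (2 * σ) • F.l else F.f β
         kk := by
           show dot (F.k + σ • F.f α - σ ^ 2 • F.l) (F.k + σ • F.f α - σ ^ 2 • F.l) = 0
           first
             | (simp only [fams_addl, fams_subl, fams_smull, fams_addr, fams_subr, fams_smulr, F.kk, F.ll, F.ee, F.ee', F.kl, F.hee', F.ke, F.ke', F.le, F.le', F.kf, F.lf, F.ef, F.e'f, lk, e'e, ek, e'k, el, e'l, fk, fl, fe, fe', h1]; done)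
             | (simp only [fams_addl, fams_subl, fams_smull, fams_addr, fams_subr, fams_smulr, F.kk, F.ll, F.ee, F.ee', F.kl, F.hee', F.ke, F.ke', F.le, F.le', F.kf, F.lf, F.ef, F.e'f, lk, e'e, ek, e'k, el, e'l, fk, fl, fe, fe', h1]; ring)
         ll := by
           show dot (F.l) (F.l) = 0
           first
             | (simp only [fams_addl, fams_subl, fams_smull, fams_addr, fams_subr, fams_smulr, F.kk, F.ll, F.ee, F.ee', F.kl, F.hee', F.ke, F.ke', F.le, F.le', F.kf, F.lf, F.ef, F.e'f, lk, e'e, ek, e'k, el, e'l, fk, fl, fe, fe', h1]; done)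
             | (simp only [fams_addl, fams_subl, fams_smull, fams_addr, fams_subr, fams_smulr, F.kk, F.ll, F.ee, F.ee', F.kl, F.hee', F.ke, F.ke', F.le, F.le', F.kf, F.lf, F.ef, F.e'f, lk, e'e, ek, e'k, el, e'l, fk, fl, fe, fe', h1]; ring)
         ee := by
           show dot (F.e) (F.e) = 0
           first
             | (simp only [fams_addl, fams_subl, fams_smull, fams_addr, fams_subr, fams_smulr, F.kk, F.ll, F.ee, F.ee', F.kl, F.hee', F.ke, F.ke', F.le, F.le', F.kf, F.lf, F.ef, F.e'f, lk, e'e, ek, e'k, el, e'l, fk, fl, fe, fe', h1]; done)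
             | (simp only [fams_addl, fams_subl, fams_smull, fams_addr, fams_subr, fams_smulr, F.kk, F.ll, F.ee, F.ee', F.kl, F.hee', F.ke, F.ke', F.le, F.le', F.kf, F.lf, F.ef, F.e'f, lk, e'e, ek, e'k, el, e'l, fk, fl, fe, fe', h1]; ring)
         ee' := by
           show dot (F.e') (F.e') = 0
           first
             | (simp only [fams_addl, fams_subl, fams_smull, fams_addr, fams_subr, fams_smulr, F.kk, F.ll, F.ee, F.ee', F.kl, F.hee', F.ke, F.ke', F.le, F.le', F.kf, F.lf, F.ef, F.e'f, lk, e'e, ek, e'k, el, e'l, fk, fl, fe, fe', h1]; done)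
             | (simp only [fams_addl, fams_subl, fams_smull, fams_addr, fams_subr, fams_smulr, F.kk, F.ll, F.ee, F.ee', F.kl, F.hee', F.ke, F.ke', F.le, F.le', F.kf, F.lf, F.ef, F.e'f, lk, e'e, ek, e'k, el, e'l, fk, fl, fe, fe', h1]; ring)
         kl := by
           show dot (F.k + σ • F.f α - σ ^ 2 • F.l) (F.l) = 1 / 2
           first
             | (simp only [fams_addl, fams_subl, fams_smull, fams_addr, fams_subr, fams_smulr, F.kk, F.ll, F.ee, F.ee', F.kl, F.hee', F.ke, F.ke', F.le, F.le', F.kf, F.lf, F.ef, F.e'f, lk, e'e, ek, e'k, el, e'l, fk, fl, fe, fe', h1]; done)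
             | (simp only [fams_addl, fams_subl, fams_smull, fams_addr, fams_subr, fams_smulr, F.kk, F.ll, F.ee, F.ee', F.kl, F.hee', F.ke, F.ke', F.le, F.le', F.kf, F.lf, F.ef, F.e'f, lk, e'e, ek, e'k, el, e'l, fk, fl, fe, fe', h1]; ring)
         hee' := by
           show dot (F.e) (F.e') = 1 / 2
           first
             | (simp only [fams_addl, fams_subl, fams_smull, fams_addr, fams_subr, fams_smulr, F.kk, F.ll, F.ee, F.ee', F.kl, F.hee', F.ke, F.ke', F.le, F.le', F.kf, F.lf, F.ef, F.e'f, lk, e'e, ek, e'k, el, e'l, fk, fl, fe, fe', h1]; done)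
             | (simp only [fams_addl, fams_subl, fams_smull, fams_addr, fams_subr, fams_smulr, F.kk, F.ll, F.ee, F.ee', F.kl, F.hee', F.ke, F.ke', F.le, F.le', F.kf, F.lf, F.ef, F.e'f, lk, e'e, ek, e'k, el, e'l, fk, fl, fe, fe', h1]; ring)
         ke := by
           show dot (F.k + σ • F.f α - σ ^ 2 • F.l) (F.e) = 0
           first
             | (simp only [fams_addl, fams_subl, fams_smull, fams_addr, fams_subr, fams_smulr, F.kk, F.ll, F.ee, F.ee', F.kl, F.hee', F.ke, F.ke', F.le, F.le', F.kf, F.lf, F.ef, F.e'f, lk, e'e, ek, e'k, el, e'l, fk, fl, fe, fe', h1]; done)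
             | (simp only [fams_addl, fams_subl, fams_smull, fams_addr, fams_subr, fams_smulr, F.kk, F.ll, F.ee, F.ee', F.kl, F.hee', F.ke, F.ke', F.le, F.le', F.kf, F.lf, F.ef, F.e'f, lk, e'e, ek, e'k, el, e'l, fk, fl, fe, fe', h1]; ring)
         ke' := by
           show dot (F.k + σ • F.f α - σ ^ 2 • F.l) (F.e') = 0
           first
             | (simp only [fams_addl, fams_subl, fams_smull, fams_addr, fams_subr, fams_smulr, F.kk, F.ll, F.ee, F.ee', F.kl, F.hee', F.ke, F.ke', F.le, F.le', F.kf, F.lf, F.ef, F.e'f, lk, e'e, ek, e'k, el, e'l, fk, fl, fe, fe', h1]; done)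
             | (simp only [fams_addl, fams_subl, fams_smull, fams_addr, fams_subr, fams_smulr, F.kk, F.ll, F.ee, F.ee', F.kl, F.hee', F.ke, F.ke', F.le, F.le', F.kf, F.lf, F.ef, F.e'f, lk, e'e, ek, e'k, el, e'l, fk, fl, fe, fe', h1]; ring)
         le := by
           show dot (F.l) (F.e) = 0
           first
             | (simp only [fams_addl, fams_subl, fams_smull, fams_addr, fams_subr, fams_smulr, F.kk, F.ll, F.ee, F.ee', F.kl, F.hee', F.ke, F.ke', F.le, F.le', F.kf, F.lf, F.ef, F.e'f, lk, e'e, ek, e'k, el, e'l, fk, fl, fe, fe', h1]; done)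
             | (simp only [fams_addl, fams_subl, fams_smull, fams_addr, fams_subr, fams_smulr, F.kk, F.ll, F.ee, F.ee', F.kl, F.hee', F.ke, F.ke', F.le, F.le', F.kf, F.lf, F.ef, F.e'f, lk, e'e, ek, e'k, el, e'l, fk, fl, fe, fe', h1]; ring)
         le' := by
           show dot (F.l) (F.e') = 0
           first
             | (simp only [fams_addl, fams_subl, fams_smull, fams_addr, fams_subr, fams_smulr, F.kk, F.ll, F.ee, F.ee', F.kl, F.hee', F.ke, F.ke', F.le, F.le', F.kf, F.lf, F.ef, F.e'f, lk, e'e, ek, e'k, el, e'l, fk, fl, fe, fe', h1]; done)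
             | (simp only [fams_addl, fams_subl, fams_smull, fams_addr, fams_subr, fams_smulr, F.kk, F.ll, F.ee, F.ee', F.kl, F.hee', F.ke, F.ke', F.le, F.le', F.kf, F.lf, F.ef, F.e'f, lk, e'e, ek, e'k, el, e'l, fk, fl, fe, fe', h1]; ring)
         kf := fun β => by
           show dot (F.k + σ • F.f α - σ ^ 2 • F.l) (if β = α then F.f β - (2 * σ) • F.l else F.f β) = 0
           by_cases hβ : β = α
           · rw [if_pos hβ, hβ]
             first
             | (simp only [fams_addl, fams_subl, fams_smull, fams_addr, fams_subr, fams_smulr, F.kk, F.ll, F.ee, F.ee', F.kl, F.hee', F.ke, F.ke', F.le, F.le', F.kf, F.lf, F.ef, F.e'f, lk, e'e, ek, e'k, el, e'l, fk, fl, fe, fe', h1]; done)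
             | (simp only [fams_addl, fams_subl, fams_smull, fams_addr, fams_subr, fams_smulr, F.kk, F.ll, F.ee, F.ee', F.kl, F.hee', F.ke, F.ke', F.le, F.le', F.kf, F.lf, F.ef, F.e'f, lk, e'e, ek, e'k, el, e'l, fk, fl, fe, fe', h1]; ring)
           · rw [if_neg hβ]
             have h0' := h0 α β (Ne.symm hβ)
             first
             | (simp only [fams_addl, fams_subl, fams_smull, fams_addr, fams_subr, fams_smulr, F.kk, F.ll, F.ee, F.ee', F.kl, F.hee', F.ke, F.ke', F.le, F.le', F.kf, F.lf, F.ef, F.e'f, lk, e'e, ek, e'k, el, e'l, fk, fl, fe, fe', h1, h0']; done)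
             | (simp only [fams_addl, fams_subl, fams_smull, fams_addr, fams_subr, fams_smulr, F.kk, F.ll, F.ee, F.ee', F.kl, F.hee', F.ke, F.ke', F.le, F.le', F.kf, F.lf, F.ef, F.e'f, lk, e'e, ek, e'k, el, e'l, fk, fl, fe, fe', h1, h0']; ring)
         lf := fun β => by
           show dot (F.l) (if β = α then F.f β - (2 * σ) • F.l else F.f β) = 0
           by_cases hβ : β = α
           · rw [if_pos hβ, hβ]
             first
             | (simp only [fams_addl, fams_subl, fams_smull, fams_addr, fams_subr, fams_smulr, F.kk, F.ll, F.ee, F.ee', F.kl, F.hee', F.ke, F.ke', F.le, F.le', F.kf, F.lf, F.ef, F.e'f, lk, e'e, ek, e'k, el, e'l, fk, fl, fe, fe', h1]; done)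
             | (simp only [fams_addl, fams_subl, fams_smull, fams_addr, fams_subr, fams_smulr, F.kk, F.ll, F.ee, F.ee', F.kl, F.hee', F.ke, F.ke', F.le, F.le', F.kf, F.lf, F.ef, F.e'f, lk, e'e, ek, e'k, el, e'l, fk, fl, fe, fe', h1]; ring)
           · rw [if_neg hβ]
             have h0' := h0 α β (Ne.symm hβ)
             first
             | (simp only [fams_addl, fams_subl, fams_smull, fams_addr, fams_subr, fams_smulr, F.kk, F.ll, F.ee, F.ee', F.kl, F.hee', F.ke, F.ke', F.le, F.le', F.kf, F.lf, F.ef, F.e'f, lk, e'e, ek, e'k, el, e'l, fk, fl, fe, fe', h1, h0']; done)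
             | (simp only [fams_addl, fams_subl, fams_smull, fams_addr, fams_subr, fams_smulr, F.kk, F.ll, F.ee, F.ee', F.kl, F.hee', F.ke, F.ke', F.le, F.le', F.kf, F.lf, F.ef, F.e'f, lk, e'e, ek, e'k, el, e'l, fk, fl, fe, fe', h1, h0']; ring)
         ef := fun β => by
           show dot (F.e) (if β = α then F.f β - (2 * σ) • F.l else F.f β) = 0
           by_cases hβ : β = α
           · rw [if_pos hβ, hβ]
             first
             | (simp only [fams_addl, fams_subl, fams_smull, fams_addr, fams_subr, fams_smulr, F.kk, F.ll, F.ee, F.ee', F.kl, F.hee', F.ke, F.ke', F.le, F.le', F.kf, F.lf, F.ef, F.e'f, lk, e'e, ek, e'k, el, e'l, fk, fl, fe, fe', h1]; done)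
             | (simp only [fams_addl, fams_subl, fams_smull, fams_addr, fams_subr, fams_smulr, F.kk, F.ll, F.ee, F.ee', F.kl, F.hee', F.ke, F.ke', F.le, F.le', F.kf, F.lf, F.ef, F.e'f, lk, e'e, ek, e'k, el, e'l, fk, fl, fe, fe', h1]; ring)
           · rw [if_neg hβ]
             have h0' := h0 α β (Ne.symm hβ)
             first
             | (simp only [fams_addl, fams_subl, fams_smull, fams_addr, fams_subr, fams_smulr, F.kk, F.ll, F.ee, F.ee', F.kl, F.hee', F.ke, F.ke', F.le, F.le', F.kf, F.lf, F.ef, F.e'f, lk, e'e, ek, e'k, el, e'l, fk, fl, fe, fe', h1, h0']; done)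
             | (simp only [fams_addl, fams_subl, fams_smull, fams_addr, fams_subr, fams_smulr, F.kk, F.ll, F.ee, F.ee', F.kl, F.hee', F.ke, F.ke', F.le, F.le', F.kf, F.lf, F.ef, F.e'f, lk, e'e, ek, e'k, el, e'l, fk, fl, fe, fe', h1, h0']; ring)
         e'f := fun β => by
           show dot (F.e') (if β = α then F.f β - (2 * σ) • F.l else F.f β) = 0
           by_cases hβ : β = α
           · rw [if_pos hβ, hβ]
             first
             | (simp only [fams_addl, fams_subl, fams_smull, fams_addr, fams_subr, fams_smulr, F.kk, F.ll, F.ee, F.ee', F.kl, F.hee', F.ke, F.ke', F.le, F.le', F.kf, F.lf, F.ef, F.e'f, lk, e'e, ek, e'k, el, e'l, fk, fl, fe, fe', h1]; done)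
             | (simp only [fams_addl, fams_subl, fams_smull, fams_addr, fams_subr, fams_smulr, F.kk, F.ll, F.ee, F.ee', F.kl, F.hee', F.ke, F.ke', F.le, F.le', F.kf, F.lf, F.ef, F.e'f, lk, e'e, ek, e'k, el, e'l, fk, fl, fe, fe', h1]; ring)
           · rw [if_neg hβ]
             have h0' := h0 α β (Ne.symm hβ)
             first
             | (simp only [fams_addl, fams_subl, fams_smull, fams_addr, fams_subr, fams_smulr, F.kk, F.ll, F.ee, F.ee', F.kl, F.hee', F.ke, F.ke', F.le, F.le', F.kf, F.lf, F.ef, F.e'f, lk, e'e, ek, e'k, el, e'l, fk, fl, fe, fe', h1, h0']; done)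
             | (simp only [fams_addl, fams_subl, fams_smull, fams_addr, fams_subr, fams_smulr, F.kk, F.ll, F.ee, F.ee', F.kl, F.hee', F.ke, F.ke', F.le, F.le', F.kf, F.lf, F.ef, F.e'f, lk, e'e, ek, e'k, el, e'l, fk, fl, fe, fe', h1, h0']; ring)
         ff := fun β γ => by
           show dot (if β = α then F.f β - (2 * σ) • F.l else F.f β) (if γ = α then F.f γ - (2 * σ) • F.l else F.f γ) = _
           by_cases hβ : β = α
           · by_cases hγ : γ = α
             · rw [if_pos hβ, if_pos hγ, hβ, hγ, if_pos rfl]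
               simp only [fams_addl, fams_subl, fams_smull, fams_addr, fams_subr, fams_smulr, F.kk, F.ll, F.ee, F.ee', F.kl, F.hee', F.ke, F.ke', F.le, F.le', F.kf, F.lf, F.ef, F.e'f, lk, e'e, ek, e'k, el, e'l, fk, fl, fe, fe', h1]
               ring
             · rw [if_pos hβ, if_neg hγ, hβ, if_neg (Ne.symm hγ)]
               have h0' := h0 α γ (Ne.symm hγ)
               simp only [fams_addl, fams_subl, fams_smull, fams_addr, fams_subr, fams_smulr, F.kk, F.ll, F.ee, F.ee', F.kl, F.hee', F.ke, F.ke', F.le, F.le', F.kf, F.lf, F.ef, F.e'f, lk, e'e, ek, e'k, el, e'l, fk, fl, fe, fe', h1, h0']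
               ring
           · by_cases hγ : γ = α
             · rw [if_neg hβ, if_pos hγ, hγ, if_neg hβ]
               have h0' := h0 β α hβ
               simp only [fams_addl, fams_subl, fams_smull, fams_addr, fams_subr, fams_smulr, F.kk, F.ll, F.ee, F.ee', F.kl, F.hee', F.ke, F.ke', F.le, F.le', F.kf, F.lf, F.ef, F.e'f, lk, e'e, ek, e'k, el, e'l, fk, fl, fe, fe', h1, h0']
               ring
             · rw [if_neg hβ, if_neg hγ, F.ff]
         compl := fun i j => by
           have hc := F.compl i j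
           rw [fams_sum F.f α (2 * σ) F.l i j, ← hc]
           simp only [Pi.add_apply, Pi.sub_apply, Pi.smul_apply, smul_eq_mul]
           ring }, rfl, rfl, rfl, rfl⟩
  · exact ⟨{
         k := F.k + σ • F.e'
         l := F.l
         e := F.e - σ • F.l
         e' := F.e'
         f := F.f
         kk := by
           show dot (F.k + σ • F.e') (F.k + σ • F.e') = 0
           first
             | (simp only [fams_addl, fams_subl, fams_smull, fams_addr, fams_subr, fams_smulr, F.kk, F.ll, F.ee, F.ee', F.kl, F.hee', F.ke, F.ke', F.le, F.le', F.kf, F.lf, F.ef, F.e'f, lk, e'e, ek, e'k, el, e'l, fk, fl, fe, fe', h1]; done)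
             | (simp only [fams_addl, fams_subl, fams_smull, fams_addr, fams_subr, fams_smulr, F.kk, F.ll, F.ee, F.ee', F.kl, F.hee', F.ke, F.ke', F.le, F.le', F.kf, F.lf, F.ef, F.e'f, lk, e'e, ek, e'k, el, e'l, fk, fl, fe, fe', h1]; ring)
         ll := by
           show dot (F.l) (F.l) = 0
           first
             | (simp only [fams_addl, fams_subl, fams_smull, fams_addr, fams_subr, fams_smulr, F.kk, F.ll, F.ee, F.ee', F.kl, F.hee', F.ke, F.ke', F.le, F.le', F.kf, F.lf, F.ef, F.e'f, lk, e'e, ek, e'k, el, e'l, fk, fl, fe, fe', h1]; done)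
             | (simp only [fams_addl, fams_subl, fams_smull, fams_addr, fams_subr, fams_smulr, F.kk, F.ll, F.ee, F.ee', F.kl, F.hee', F.ke, F.ke', F.le, F.le', F.kf, F.lf, F.ef, F.e'f, lk, e'e, ek, e'k, el, e'l, fk, fl, fe, fe', h1]; ring)
         ee := by
           show dot (F.e - σ • F.l) (F.e - σ • F.l) = 0
           first
             | (simp only [fams_addl, fams_subl, fams_smull, fams_addr, fams_subr, fams_smulr, F.kk, F.ll, F.ee, F.ee', F.kl, F.hee', F.ke, F.ke', F.le, F.le', F.kf, F.lf, F.ef, F.e'f, lk, e'e, ek, e'k, el, e'l, fk, fl, fe, fe', h1]; done)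
             | (simp only [fams_addl, fams_subl, fams_smull, fams_addr, fams_subr, fams_smulr, F.kk, F.ll, F.ee, F.ee', F.kl, F.hee', F.ke, F.ke', F.le, F.le', F.kf, F.lf, F.ef, F.e'f, lk, e'e, ek, e'k, el, e'l, fk, fl, fe, fe', h1]; ring)
         ee' := by
           show dot (F.e') (F.e') = 0
           first
             | (simp only [fams_addl, fams_subl, fams_smull, fams_addr, fams_subr, fams_smulr, F.kk, F.ll, F.ee, F.ee', F.kl, F.hee', F.ke, F.ke', F.le, F.le', F.kf, F.lf, F.ef, F.e'f, lk, e'e, ek, e'k, el, e'l, fk, fl, fe, fe', h1]; done)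
             | (simp only [fams_addl, fams_subl, fams_smull, fams_addr, fams_subr, fams_smulr, F.kk, F.ll, F.ee, F.ee', F.kl, F.hee', F.ke, F.ke', F.le, F.le', F.kf, F.lf, F.ef, F.e'f, lk, e'e, ek, e'k, el, e'l, fk, fl, fe, fe', h1]; ring)
         kl := by
           show dot (F.k + σ • F.e') (F.l) = 1 / 2
           first
             | (simp only [fams_addl, fams_subl, fams_smull, fams_addr, fams_subr, fams_smulr, F.kk, F.ll, F.ee, F.ee', F.kl, F.hee', F.ke, F.ke', F.le, F.le', F.kf, F.lf, F.ef, F.e'f, lk, e'e, ek, e'k, el, e'l, fk, fl, fe, fe', h1]; done)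
             | (simp only [fams_addl, fams_subl, fams_smull, fams_addr, fams_subr, fams_smulr, F.kk, F.ll, F.ee, F.ee', F.kl, F.hee', F.ke, F.ke', F.le, F.le', F.kf, F.lf, F.ef, F.e'f, lk, e'e, ek, e'k, el, e'l, fk, fl, fe, fe', h1]; ring)
         hee' := by
           show dot (F.e - σ • F.l) (F.e') = 1 / 2
           first
             | (simp only [fams_addl, fams_subl, fams_smull, fams_addr, fams_subr, fams_smulr, F.kk, F.ll, F.ee, F.ee', F.kl, F.hee', F.ke, F.ke', F.le, F.le', F.kf, F.lf, F.ef, F.e'f, lk, e'e, ek, e'k, el, e'l, fk, fl, fe, fe', h1]; done)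
             | (simp only [fams_addl, fams_subl, fams_smull, fams_addr, fams_subr, fams_smulr, F.kk, F.ll, F.ee, F.ee', F.kl, F.hee', F.ke, F.ke', F.le, F.le', F.kf, F.lf, F.ef, F.e'f, lk, e'e, ek, e'k, el, e'l, fk, fl, fe, fe', h1]; ring)
         ke := by
           show dot (F.k + σ • F.e') (F.e - σ • F.l) = 0
           first
             | (simp only [fams_addl, fams_subl, fams_smull, fams_addr, fams_subr, fams_smulr, F.kk, F.ll, F.ee, F.ee', F.kl, F.hee', F.ke, F.ke', F.le, F.le', F.kf, F.lf, F.ef, F.e'f, lk, e'e, ek, e'k, el, e'l, fk, fl, fe, fe', h1]; done)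
             | (simp only [fams_addl, fams_subl, fams_smull, fams_addr, fams_subr, fams_smulr, F.kk, F.ll, F.ee, F.ee', F.kl, F.hee', F.ke, F.ke', F.le, F.le', F.kf, F.lf, F.ef, F.e'f, lk, e'e, ek, e'k, el, e'l, fk, fl, fe, fe', h1]; ring)
         ke' := by
           show dot (F.k + σ • F.e') (F.e') = 0
           first
             | (simp only [fams_addl, fams_subl, fams_smull, fams_addr, fams_subr, fams_smulr, F.kk, F.ll, F.ee, F.ee', F.kl, F.hee', F.ke, F.ke', F.le, F.le', F.kf, F.lf, F.ef, F.e'f, lk, e'e, ek, e'k, el, e'l, fk, fl, fe, fe', h1]; done)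
             | (simp only [fams_addl, fams_subl, fams_smull, fams_addr, fams_subr, fams_smulr, F.kk, F.ll, F.ee, F.ee', F.kl, F.hee', F.ke, F.ke', F.le, F.le', F.kf, F.lf, F.ef, F.e'f, lk, e'e, ek, e'k, el, e'l, fk, fl, fe, fe', h1]; ring)
         le := by
           show dot (F.l) (F.e - σ • F.l) = 0
           first
             | (simp only [fams_addl, fams_subl, fams_smull, fams_addr, fams_subr, fams_smulr, F.kk, F.ll, F.ee, F.ee', F.kl, F.hee', F.ke, F.ke', F.le, F.le', F.kf, F.lf, F.ef, F.e'f, lk, e'e, ek, e'k, el, e'l, fk, fl, fe, fe', h1]; done)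
             | (simp only [fams_addl, fams_subl, fams_smull, fams_addr, fams_subr, fams_smulr, F.kk, F.ll, F.ee, F.ee', F.kl, F.hee', F.ke, F.ke', F.le, F.le', F.kf, F.lf, F.ef, F.e'f, lk, e'e, ek, e'k, el, e'l, fk, fl, fe, fe', h1]; ring)
         le' := by
           show dot (F.l) (F.e') = 0
           first
             | (simp only [fams_addl, fams_subl, fams_smull, fams_addr, fams_subr, fams_smulr, F.kk, F.ll, F.ee, F.ee', F.kl, F.hee', F.ke, F.ke', F.le, F.le', F.kf, F.lf, F.ef, F.e'f, lk, e'e, ek, e'k, el, e'l, fk, fl, fe, fe', h1]; done)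
             | (simp only [fams_addl, fams_subl, fams_smull, fams_addr, fams_subr, fams_smulr, F.kk, F.ll, F.ee, F.ee', F.kl, F.hee', F.ke, F.ke', F.le, F.le', F.kf, F.lf, F.ef, F.e'f, lk, e'e, ek, e'k, el, e'l, fk, fl, fe, fe', h1]; ring)
         kf := fun β => by
           show dot (F.k + σ • F.e') (F.f β) = 0
           first
             | (simp only [fams_addl, fams_subl, fams_smull, fams_addr, fams_subr, fams_smulr, F.kk, F.ll, F.ee, F.ee', F.kl, F.hee', F.ke, F.ke', F.le, F.le', F.kf, F.lf, F.ef, F.e'f, lk, e'e, ek, e'k, el, e'l, fk, fl, fe, fe', h1]; done)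
             | (simp only [fams_addl, fams_subl, fams_smull, fams_addr, fams_subr, fams_smulr, F.kk, F.ll, F.ee, F.ee', F.kl, F.hee', F.ke, F.ke', F.le, F.le', F.kf, F.lf, F.ef, F.e'f, lk, e'e, ek, e'k, el, e'l, fk, fl, fe, fe', h1]; ring)
         lf := fun β => by
           show dot (F.l) (F.f β) = 0
           first
             | (simp only [fams_addl, fams_subl, fams_smull, fams_addr, fams_subr, fams_smulr, F.kk, F.ll, F.ee, F.ee', F.kl, F.hee', F.ke, F.ke', F.le, F.le', F.kf, F.lf, F.ef, F.e'f, lk, e'e, ek, e'k, el, e'l, fk, fl, fe, fe', h1]; done)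
             | (simp only [fams_addl, fams_subl, fams_smull, fams_addr, fams_subr, fams_smulr, F.kk, F.ll, F.ee, F.ee', F.kl, F.hee', F.ke, F.ke', F.le, F.le', F.kf, F.lf, F.ef, F.e'f, lk, e'e, ek, e'k, el, e'l, fk, fl, fe, fe', h1]; ring)
         ef := fun β => by
           show dot (F.e - σ • F.l) (F.f β) = 0
           first
             | (simp only [fams_addl, fams_subl, fams_smull, fams_addr, fams_subr, fams_smulr, F.kk, F.ll, F.ee, F.ee', F.kl, F.hee', F.ke, F.ke', F.le, F.le', F.kf, F.lf, F.ef, F.e'f, lk, e'e, ek, e'k, el, e'l, fk, fl, fe, fe', h1]; done)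
             | (simp only [fams_addl, fams_subl, fams_smull, fams_addr, fams_subr, fams_smulr, F.kk, F.ll, F.ee, F.ee', F.kl, F.hee', F.ke, F.ke', F.le, F.le', F.kf, F.lf, F.ef, F.e'f, lk, e'e, ek, e'k, el, e'l, fk, fl, fe, fe', h1]; ring)
         e'f := fun β => by
           show dot (F.e') (F.f β) = 0
           first
             | (simp only [fams_addl, fams_subl, fams_smull, fams_addr, fams_subr, fams_smulr, F.kk, F.ll, F.ee, F.ee', F.kl, F.hee', F.ke, F.ke', F.le, F.le', F.kf, F.lf, F.ef, F.e'f, lk, e'e, ek, e'k, el, e'l, fk, fl, fe, fe', h1]; done)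
             | (simp only [fams_addl, fams_subl, fams_smull, fams_addr, fams_subr, fams_smulr, F.kk, F.ll, F.ee, F.ee', F.kl, F.hee', F.ke, F.ke', F.le, F.le', F.kf, F.lf, F.ef, F.e'f, lk, e'e, ek, e'k, el, e'l, fk, fl, fe, fe', h1]; ring)
         ff := F.ff
         compl := fun i j => by
           have hc := F.compl i j
           rw [← hc]
           first
             | (simp only [Pi.add_apply, Pi.sub_apply, Pi.smul_apply, smul_eq_mul]; ring)
             | ring }, rfl, rfl, rfl, rfl, rfl⟩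
  · exact ⟨{
         k := F.k + σ • F.e
         l := F.l
         e := F.e
         e' := F.e' - σ • F.l
         f := F.f
         kk := by
           show dot (F.k + σ • F.e) (F.k + σ • F.e) = 0
           first
             | (simp only [fams_addl, fams_subl, fams_smull, fams_addr, fams_subr, fams_smulr, F.kk, F.ll, F.ee, F.ee', F.kl, F.hee', F.ke, F.ke', F.le, F.le', F.kf, F.lf, F.ef, F.e'f, lk, e'e, ek, e'k, el, e'l, fk, fl, fe, fe', h1]; done)
             | (simp only [fams_addl, fams_subl, fams_smull, fams_addr, fams_subr, fams_smulr, F.kk, F.ll, F.ee, F.ee', F.kl, F.hee', F.ke, F.ke', F.le, F.le', F.kf, F.lf, F.ef, F.e'f, lk, e'e, ek, e'k, el, e'l, fk, fl, fe, fe', h1]; ring)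
         ll := by
           show dot (F.l) (F.l) = 0
           first
             | (simp only [fams_addl, fams_subl, fams_smull, fams_addr, fams_subr, fams_smulr, F.kk, F.ll, F.ee, F.ee', F.kl, F.hee', F.ke, F.ke', F.le, F.le', F.kf, F.lf, F.ef, F.e'f, lk, e'e, ek, e'k, el, e'l, fk, fl, fe, fe', h1]; done)
             | (simp only [fams_addl, fams_subl, fams_smull, fams_addr, fams_subr, fams_smulr, F.kk, F.ll, F.ee, F.ee', F.kl, F.hee', F.ke, F.ke', F.le, F.le', F.kf, F.lf, F.ef, F.e'f, lk, e'e, ek, e'k, el, e'l, fk, fl, fe, fe', h1]; ring)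
         ee := by
           show dot (F.e) (F.e) = 0
           first
             | (simp only [fams_addl, fams_subl, fams_smull, fams_addr, fams_subr, fams_smulr, F.kk, F.ll, F.ee, F.ee', F.kl, F.hee', F.ke, F.ke', F.le, F.le', F.kf, F.lf, F.ef, F.e'f, lk, e'e, ek, e'k, el, e'l, fk, fl, fe, fe', h1]; done)
             | (simp only [fams_addl, fams_subl, fams_smull, fams_addr, fams_subr, fams_smulr, F.kk, F.ll, F.ee, F.ee', F.kl, F.hee', F.ke, F.ke', F.le, F.le', F.kf, F.lf, F.ef, F.e'f, lk, e'e, ek, e'k, el, e'l, fk, fl, fe, fe', h1]; ring)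
         ee' := by
           show dot (F.e' - σ • F.l) (F.e' - σ • F.l) = 0
           first
             | (simp only [fams_addl, fams_subl, fams_smull, fams_addr, fams_subr, fams_smulr, F.kk, F.ll, F.ee, F.ee', F.kl, F.hee', F.ke, F.ke', F.le, F.le', F.kf, F.lf, F.ef, F.e'f, lk, e'e, ek, e'k, el, e'l, fk, fl, fe, fe', h1]; done)
             | (simp only [fams_addl, fams_subl, fams_smull, fams_addr, fams_subr, fams_smulr, F.kk, F.ll, F.ee, F.ee', F.kl, F.hee', F.ke, F.ke', F.le, F.le', F.kf, F.lf, F.ef, F.e'f, lk, e'e, ek, e'k, el, e'l, fk, fl, fe, fe', h1]; ring)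
         kl := by
           show dot (F.k + σ • F.e) (F.l) = 1 / 2
           first
             | (simp only [fams_addl, fams_subl, fams_smull, fams_addr, fams_subr, fams_smulr, F.kk, F.ll, F.ee, F.ee', F.kl, F.hee', F.ke, F.ke', F.le, F.le', F.kf, F.lf, F.ef, F.e'f, lk, e'e, ek, e'k, el, e'l, fk, fl, fe, fe', h1]; done)
             | (simp only [fams_addl, fams_subl, fams_smull, fams_addr, fams_subr, fams_smulr, F.kk, F.ll, F.ee, F.ee', F.kl, F.hee', F.ke, F.ke', F.le, F.le', F.kf, F.lf, F.ef, F.e'f, lk, e'e, ek, e'k, el, e'l, fk, fl, fe, fe', h1]; ring)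
         hee' := by
           show dot (F.e) (F.e' - σ • F.l) = 1 / 2
           first
             | (simp only [fams_addl, fams_subl, fams_smull, fams_addr, fams_subr, fams_smulr, F.kk, F.ll, F.ee, F.ee', F.kl, F.hee', F.ke, F.ke', F.le, F.le', F.kf, F.lf, F.ef, F.e'f, lk, e'e, ek, e'k, el, e'l, fk, fl, fe, fe', h1]; done)
             | (simp only [fams_addl, fams_subl, fams_smull, fams_addr, fams_subr, fams_smulr, F.kk, F.ll, F.ee, F.ee', F.kl, F.hee', F.ke, F.ke', F.le, F.le', F.kf, F.lf, F.ef, F.e'f, lk, e'e, ek, e'k, el, e'l, fk, fl, fe, fe', h1]; ring)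
         ke := by
           show dot (F.k + σ • F.e) (F.e) = 0
           first
             | (simp only [fams_addl, fams_subl, fams_smull, fams_addr, fams_subr, fams_smulr, F.kk, F.ll, F.ee, F.ee', F.kl, F.hee', F.ke, F.ke', F.le, F.le', F.kf, F.lf, F.ef, F.e'f, lk, e'e, ek, e'k, el, e'l, fk, fl, fe, fe', h1]; done)
             | (simp only [fams_addl, fams_subl, fams_smull, fams_addr, fams_subr, fams_smulr, F.kk, F.ll, F.ee, F.ee', F.kl, F.hee', F.ke, F.ke', F.le, F.le', F.kf, F.lf, F.ef, F.e'f, lk, e'e, ek, e'k, el, e'l, fk, fl, fe, fe', h1]; ring)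
         ke' := by
           show dot (F.k + σ • F.e) (F.e' - σ • F.l) = 0
           first
             | (simp only [fams_addl, fams_subl, fams_smull, fams_addr, fams_subr, fams_smulr, F.kk, F.ll, F.ee, F.ee', F.kl, F.hee', F.ke, F.ke', F.le, F.le', F.kf, F.lf, F.ef, F.e'f, lk, e'e, ek, e'k, el, e'l, fk, fl, fe, fe', h1]; done)
             | (simp only [fams_addl, fams_subl, fams_smull, fams_addr, fams_subr, fams_smulr, F.kk, F.ll, F.ee, F.ee', F.kl, F.hee', F.ke, F.ke', F.le, F.le', F.kf, F.lf, F.ef, F.e'f, lk, e'e, ek, e'k, el, e'l, fk, fl, fe, fe', h1]; ring)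
         le := by
           show dot (F.l) (F.e) = 0
           first
             | (simp only [fams_addl, fams_subl, fams_smull, fams_addr, fams_subr, fams_smulr, F.kk, F.ll, F.ee, F.ee', F.kl, F.hee', F.ke, F.ke', F.le, F.le', F.kf, F.lf, F.ef, F.e'f, lk, e'e, ek, e'k, el, e'l, fk, fl, fe, fe', h1]; done)
             | (simp only [fams_addl, fams_subl, fams_smull, fams_addr, fams_subr, fams_smulr, F.kk, F.ll, F.ee, F.ee', F.kl, F.hee', F.ke, F.ke', F.le, F.le', F.kf, F.lf, F.ef, F.e'f, lk, e'e, ek, e'k, el, e'l, fk, fl, fe, fe', h1]; ring)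
         le' := by
           show dot (F.l) (F.e' - σ • F.l) = 0
           first
             | (simp only [fams_addl, fams_subl, fams_smull, fams_addr, fams_subr, fams_smulr, F.kk, F.ll, F.ee, F.ee', F.kl, F.hee', F.ke, F.ke', F.le, F.le', F.kf, F.lf, F.ef, F.e'f, lk, e'e, ek, e'k, el, e'l, fk, fl, fe, fe', h1]; done)
             | (simp only [fams_addl, fams_subl, fams_smull, fams_addr, fams_subr, fams_smulr, F.kk, F.ll, F.ee, F.ee', F.kl, F.hee', F.ke, F.ke', F.le, F.le', F.kf, F.lf, F.ef, F.e'f, lk, e'e, ek, e'k, el, e'l, fk, fl, fe, fe', h1]; ring)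
         kf := fun β => by
           show dot (F.k + σ • F.e) (F.f β) = 0
           first
             | (simp only [fams_addl, fams_subl, fams_smull, fams_addr, fams_subr, fams_smulr, F.kk, F.ll, F.ee, F.ee', F.kl, F.hee', F.ke, F.ke', F.le, F.le', F.kf, F.lf, F.ef, F.e'f, lk, e'e, ek, e'k, el, e'l, fk, fl, fe, fe', h1]; done)
             | (simp only [fams_addl, fams_subl, fams_smull, fams_addr, fams_subr, fams_smulr, F.kk, F.ll, F.ee, F.ee', F.kl, F.hee', F.ke, F.ke', F.le, F.le', F.kf, F.lf, F.ef, F.e'f, lk, e'e, ek, e'k, el, e'l, fk, fl, fe, fe', h1]; ring)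
         lf := fun β => by
           show dot (F.l) (F.f β) = 0
           first
             | (simp only [fams_addl, fams_subl, fams_smull, fams_addr, fams_subr, fams_smulr, F.kk, F.ll, F.ee, F.ee', F.kl, F.hee', F.ke, F.ke', F.le, F.le', F.kf, F.lf, F.ef, F.e'f, lk, e'e, ek, e'k, el, e'l, fk, fl, fe, fe', h1]; done)
             | (simp only [fams_addl, fams_subl, fams_smull, fams_addr, fams_subr, fams_smulr, F.kk, F.ll, F.ee, F.ee', F.kl, F.hee', F.ke, F.ke', F.le, F.le', F.kf, F.lf, F.ef, F.e'f, lk, e'e, ek, e'k, el, e'l, fk, fl, fe, fe', h1]; ring)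
         ef := fun β => by
           show dot (F.e) (F.f β) = 0
           first
             | (simp only [fams_addl, fams_subl, fams_smull, fams_addr, fams_subr, fams_smulr, F.kk, F.ll, F.ee, F.ee', F.kl, F.hee', F.ke, F.ke', F.le, F.le', F.kf, F.lf, F.ef, F.e'f, lk, e'e, ek, e'k, el, e'l, fk, fl, fe, fe', h1]; done)
             | (simp only [fams_addl, fams_subl, fams_smull, fams_addr, fams_subr, fams_smulr, F.kk, F.ll, F.ee, F.ee', F.kl, F.hee', F.ke, F.ke', F.le, F.le', F.kf, F.lf, F.ef, F.e'f, lk, e'e, ek, e'k, el, e'l, fk, fl, fe, fe', h1]; ring)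
         e'f := fun β => by
           show dot (F.e' - σ • F.l) (F.f β) = 0
           first
             | (simp only [fams_addl, fams_subl, fams_smull, fams_addr, fams_subr, fams_smulr, F.kk, F.ll, F.ee, F.ee', F.kl, F.hee', F.ke, F.ke', F.le, F.le', F.kf, F.lf, F.ef, F.e'f, lk, e'e, ek, e'k, el, e'l, fk, fl, fe, fe', h1]; done)
             | (simp only [fams_addl, fams_subl, fams_smull, fams_addr, fams_subr, fams_smulr, F.kk, F.ll, F.ee, F.ee', F.kl, F.hee', F.ke, F.ke', F.le, F.le', F.kf, F.lf, F.ef, F.e'f, lk, e'e, ek, e'k, el, e'l, fk, fl, fe, fe', h1]; ring)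
         ff := F.ff
         compl := fun i j => by
           have hc := F.compl i j
           rw [← hc]
           first
             | (simp only [Pi.add_apply, Pi.sub_apply, Pi.smul_apply, smul_eq_mul]; ring)
             | ring }, rfl, rfl, rfl, rfl, rfl⟩
  · exact ⟨{
         k := F.k
         l := F.l - σ • F.e'
         e := F.e + σ • F.k
         e' := F.e'
         f := F.f
         kk := by
           show dot (F.k) (F.k) = 0
           first
             | (simp only [fams_addl, fams_subl, fams_smull, fams_addr, fams_subr, fams_smulr, F.kk, F.ll, F.ee, F.ee', F.kl, F.hee', F.ke, F.ke', F.le, F.le', F.kf, F.lf, F.ef, F.e'f, lk, e'e, ek, e'k, el, e'l, fk, fl, fe, fe', h1]; done)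
             | (simp only [fams_addl, fams_subl, fams_smull, fams_addr, fams_subr, fams_smulr, F.kk, F.ll, F.ee, F.ee', F.kl, F.hee', F.ke, F.ke', F.le, F.le', F.kf, F.lf, F.ef, F.e'f, lk, e'e, ek, e'k, el, e'l, fk, fl, fe, fe', h1]; ring)
         ll := by
           show dot (F.l - σ • F.e') (F.l - σ • F.e') = 0
           first
             | (simp only [fams_addl, fams_subl, fams_smull, fams_addr, fams_subr, fams_smulr, F.kk, F.ll, F.ee, F.ee', F.kl, F.hee', F.ke, F.ke', F.le, F.le', F.kf, F.lf, F.ef, F.e'f, lk, e'e, ek, e'k, el, e'l, fk, fl, fe, fe', h1]; done)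
             | (simp only [fams_addl, fams_subl, fams_smull, fams_addr, fams_subr, fams_smulr, F.kk, F.ll, F.ee, F.ee', F.kl, F.hee', F.ke, F.ke', F.le, F.le', F.kf, F.lf, F.ef, F.e'f, lk, e'e, ek, e'k, el, e'l, fk, fl, fe, fe', h1]; ring)
         ee := by
           show dot (F.e + σ • F.k) (F.e + σ • F.k) = 0
           first
             | (simp only [fams_addl, fams_subl, fams_smull, fams_addr, fams_subr, fams_smulr, F.kk, F.ll, F.ee, F.ee', F.kl, F.hee', F.ke, F.ke', F.le, F.le', F.kf, F.lf, F.ef, F.e'f, lk, e'e, ek, e'k, el, e'l, fk, fl, fe, fe', h1]; done)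
             | (simp only [fams_addl, fams_subl, fams_smull, fams_addr, fams_subr, fams_smulr, F.kk, F.ll, F.ee, F.ee', F.kl, F.hee', F.ke, F.ke', F.le, F.le', F.kf, F.lf, F.ef, F.e'f, lk, e'e, ek, e'k, el, e'l, fk, fl, fe, fe', h1]; ring)
         ee' := by
           show dot (F.e') (F.e') = 0
           first
             | (simp only [fams_addl, fams_subl, fams_smull, fams_addr, fams_subr, fams_smulr, F.kk, F.ll, F.ee, F.ee', F.kl, F.hee', F.ke, F.ke', F.le, F.le', F.kf, F.lf, F.ef, F.e'f, lk, e'e, ek, e'k, el, e'l, fk, fl, fe, fe', h1]; done)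
             | (simp only [fams_addl, fams_subl, fams_smull, fams_addr, fams_subr, fams_smulr, F.kk, F.ll, F.ee, F.ee', F.kl, F.hee', F.ke, F.ke', F.le, F.le', F.kf, F.lf, F.ef, F.e'f, lk, e'e, ek, e'k, el, e'l, fk, fl, fe, fe', h1]; ring)
         kl := by
           show dot (F.k) (F.l - σ • F.e') = 1 / 2
           first
             | (simp only [fams_addl, fams_subl, fams_smull, fams_addr, fams_subr, fams_smulr, F.kk, F.ll, F.ee, F.ee', F.kl, F.hee', F.ke, F.ke', F.le, F.le', F.kf, F.lf, F.ef, F.e'f, lk, e'e, ek, e'k, el, e'l, fk, fl, fe, fe', h1]; done)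
             | (simp only [fams_addl, fams_subl, fams_smull, fams_addr, fams_subr, fams_smulr, F.kk, F.ll, F.ee, F.ee', F.kl, F.hee', F.ke, F.ke', F.le, F.le', F.kf, F.lf, F.ef, F.e'f, lk, e'e, ek, e'k, el, e'l, fk, fl, fe, fe', h1]; ring)
         hee' := by
           show dot (F.e + σ • F.k) (F.e') = 1 / 2
           first
             | (simp only [fams_addl, fams_subl, fams_smull, fams_addr, fams_subr, fams_smulr, F.kk, F.ll, F.ee, F.ee', F.kl, F.hee', F.ke, F.ke', F.le, F.le', F.kf, F.lf, F.ef, F.e'f, lk, e'e, ek, e'k, el, e'l, fk, fl, fe, fe', h1]; done)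
             | (simp only [fams_addl, fams_subl, fams_smull, fams_addr, fams_subr, fams_smulr, F.kk, F.ll, F.ee, F.ee', F.kl, F.hee', F.ke, F.ke', F.le, F.le', F.kf, F.lf, F.ef, F.e'f, lk, e'e, ek, e'k, el, e'l, fk, fl, fe, fe', h1]; ring)
         ke := by
           show dot (F.k) (F.e + σ • F.k) = 0
           first
             | (simp only [fams_addl, fams_subl, fams_smull, fams_addr, fams_subr, fams_smulr, F.kk, F.ll, F.ee, F.ee', F.kl, F.hee', F.ke, F.ke', F.le, F.le', F.kf, F.lf, F.ef, F.e'f, lk, e'e, ek, e'k, el, e'l, fk, fl, fe, fe', h1]; done)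
             | (simp only [fams_addl, fams_subl, fams_smull, fams_addr, fams_subr, fams_smulr, F.kk, F.ll, F.ee, F.ee', F.kl, F.hee', F.ke, F.ke', F.le, F.le', F.kf, F.lf, F.ef, F.e'f, lk, e'e, ek, e'k, el, e'l, fk, fl, fe, fe', h1]; ring)
         ke' := by
           show dot (F.k) (F.e') = 0
           first
             | (simp only [fams_addl, fams_subl, fams_smull, fams_addr, fams_subr, fams_smulr, F.kk, F.ll, F.ee, F.ee', F.kl, F.hee', F.ke, F.ke', F.le, F.le', F.kf, F.lf, F.ef, F.e'f, lk, e'e, ek, e'k, el, e'l, fk, fl, fe, fe', h1]; done)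
             | (simp only [fams_addl, fams_subl, fams_smull, fams_addr, fams_subr, fams_smulr, F.kk, F.ll, F.ee, F.ee', F.kl, F.hee', F.ke, F.ke', F.le, F.le', F.kf, F.lf, F.ef, F.e'f, lk, e'e, ek, e'k, el, e'l, fk, fl, fe, fe', h1]; ring)
         le := by
           show dot (F.l - σ • F.e') (F.e + σ • F.k) = 0
           first
             | (simp only [fams_addl, fams_subl, fams_smull, fams_addr, fams_subr, fams_smulr, F.kk, F.ll, F.ee, F.ee', F.kl, F.hee', F.ke, F.ke', F.le, F.le', F.kf, F.lf, F.ef, F.e'f, lk, e'e, ek, e'k, el, e'l, fk, fl, fe, fe', h1]; done)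
             | (simp only [fams_addl, fams_subl, fams_smull, fams_addr, fams_subr, fams_smulr, F.kk, F.ll, F.ee, F.ee', F.kl, F.hee', F.ke, F.ke', F.le, F.le', F.kf, F.lf, F.ef, F.e'f, lk, e'e, ek, e'k, el, e'l, fk, fl, fe, fe', h1]; ring)
         le' := by
           show dot (F.l - σ • F.e') (F.e') = 0
           first
             | (simp only [fams_addl, fams_subl, fams_smull, fams_addr, fams_subr, fams_smulr, F.kk, F.ll, F.ee, F.ee', F.kl, F.hee', F.ke, F.ke', F.le, F.le', F.kf, F.lf, F.ef, F.e'f, lk, e'e, ek, e'k, el, e'l, fk, fl, fe, fe', h1]; done)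
             | (simp only [fams_addl, fams_subl, fams_smull, fams_addr, fams_subr, fams_smulr, F.kk, F.ll, F.ee, F.ee', F.kl, F.hee', F.ke, F.ke', F.le, F.le', F.kf, F.lf, F.ef, F.e'f, lk, e'e, ek, e'k, el, e'l, fk, fl, fe, fe', h1]; ring)
         kf := fun β => by
           show dot (F.k) (F.f β) = 0
           first
             | (simp only [fams_addl, fams_subl, fams_smull, fams_addr, fams_subr, fams_smulr, F.kk, F.ll, F.ee, F.ee', F.kl, F.hee', F.ke, F.ke', F.le, F.le', F.kf, F.lf, F.ef, F.e'f, lk, e'e, ek, e'k, el, e'l, fk, fl, fe, fe', h1]; done)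
             | (simp only [fams_addl, fams_subl, fams_smull, fams_addr, fams_subr, fams_smulr, F.kk, F.ll, F.ee, F.ee', F.kl, F.hee', F.ke, F.ke', F.le, F.le', F.kf, F.lf, F.ef, F.e'f, lk, e'e, ek, e'k, el, e'l, fk, fl, fe, fe', h1]; ring)
         lf := fun β => by
           show dot (F.l - σ • F.e') (F.f β) = 0
           first
             | (simp only [fams_addl, fams_subl, fams_smull, fams_addr, fams_subr, fams_smulr, F.kk, F.ll, F.ee, F.ee', F.kl, F.hee', F.ke, F.ke', F.le, F.le', F.kf, F.lf, F.ef, F.e'f, lk, e'e, ek, e'k, el, e'l, fk, fl, fe, fe', h1]; done)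
             | (simp only [fams_addl, fams_subl, fams_smull, fams_addr, fams_subr, fams_smulr, F.kk, F.ll, F.ee, F.ee', F.kl, F.hee', F.ke, F.ke', F.le, F.le', F.kf, F.lf, F.ef, F.e'f, lk, e'e, ek, e'k, el, e'l, fk, fl, fe, fe', h1]; ring)
         ef := fun β => by
           show dot (F.e + σ • F.k) (F.f β) = 0
           first
             | (simp only [fams_addl, fams_subl, fams_smull, fams_addr, fams_subr, fams_smulr, F.kk, F.ll, F.ee, F.ee', F.kl, F.hee', F.ke, F.ke', F.le, F.le', F.kf, F.lf, F.ef, F.e'f, lk, e'e, ek, e'k, el, e'l, fk, fl, fe, fe', h1]; done)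
             | (simp only [fams_addl, fams_subl, fams_smull, fams_addr, fams_subr, fams_smulr, F.kk, F.ll, F.ee, F.ee', F.kl, F.hee', F.ke, F.ke', F.le, F.le', F.kf, F.lf, F.ef, F.e'f, lk, e'e, ek, e'k, el, e'l, fk, fl, fe, fe', h1]; ring)
         e'f := fun β => by
           show dot (F.e') (F.f β) = 0
           first
             | (simp only [fams_addl, fams_subl, fams_smull, fams_addr, fams_subr, fams_smulr, F.kk, F.ll, F.ee, F.ee', F.kl, F.hee', F.ke, F.ke', F.le, F.le', F.kf, F.lf, F.ef, F.e'f, lk, e'e, ek, e'k, el, e'l, fk, fl, fe, fe', h1]; done)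
             | (simp only [fams_addl, fams_subl, fams_smull, fams_addr, fams_subr, fams_smulr, F.kk, F.ll, F.ee, F.ee', F.kl, F.hee', F.ke, F.ke', F.le, F.le', F.kf, F.lf, F.ef, F.e'f, lk, e'e, ek, e'k, el, e'l, fk, fl, fe, fe', h1]; ring)
         ff := F.ff
         compl := fun i j => by
           have hc := F.compl i j
           rw [← hc]
           first
             | (simp only [Pi.add_apply, Pi.sub_apply, Pi.smul_apply, smul_eq_mul]; ring)
             | ring }, rfl, rfl, rfl, rfl, rfl⟩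
  · exact ⟨{
         k := F.k
         l := F.l
         e := F.e + σ • F.f α - σ ^ 2 • F.e'
         e' := F.e'
         f := fun β => if β = α then F.f β - (2 * σ) • F.e' else F.f β
         kk := by
           show dot (F.k) (F.k) = 0
           first
             | (simp only [fams_addl, fams_subl, fams_smull, fams_addr, fams_subr, fams_smulr, F.kk, F.ll, F.ee, F.ee', F.kl, F.hee', F.ke, F.ke', F.le, F.le', F.kf, F.lf, F.ef, F.e'f, lk, e'e, ek, e'k, el, e'l, fk, fl, fe, fe', h1]; done)
             | (simp only [fams_addl, fams_subl, fams_smull, fams_addr, fams_subr, fams_smulr, F.kk, F.ll, F.ee, F.ee', F.kl, F.hee', F.ke, F.ke', F.le, F.le', F.kf, F.lf, F.ef, F.e'f, lk, e'e, ek, e'k, el, e'l, fk, fl, fe, fe', h1]; ring)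
         ll := by
           show dot (F.l) (F.l) = 0
           first
             | (simp only [fams_addl, fams_subl, fams_smull, fams_addr, fams_subr, fams_smulr, F.kk, F.ll, F.ee, F.ee', F.kl, F.hee', F.ke, F.ke', F.le, F.le', F.kf, F.lf, F.ef, F.e'f, lk, e'e, ek, e'k, el, e'l, fk, fl, fe, fe', h1]; done)
             | (simp only [fams_addl, fams_subl, fams_smull, fams_addr, fams_subr, fams_smulr, F.kk, F.ll, F.ee, F.ee', F.kl, F.hee', F.ke, F.ke', F.le, F.le', F.kf, F.lf, F.ef, F.e'f, lk, e'e, ek, e'k, el, e'l, fk, fl, fe, fe', h1]; ring)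
         ee := by
           show dot (F.e + σ • F.f α - σ ^ 2 • F.e') (F.e + σ • F.f α - σ ^ 2 • F.e') = 0
           first
             | (simp only [fams_addl, fams_subl, fams_smull, fams_addr, fams_subr, fams_smulr, F.kk, F.ll, F.ee, F.ee', F.kl, F.hee', F.ke, F.ke', F.le, F.le', F.kf, F.lf, F.ef, F.e'f, lk, e'e, ek, e'k, el, e'l, fk, fl, fe, fe', h1]; done)
             | (simp only [fams_addl, fams_subl, fams_smull, fams_addr, fams_subr, fams_smulr, F.kk, F.ll, F.ee, F.ee', F.kl, F.hee', F.ke, F.ke', F.le, F.le', F.kf, F.lf, F.ef, F.e'f, lk, e'e, ek, e'k, el, e'l, fk, fl, fe, fe', h1]; ring)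
         ee' := by
           show dot (F.e') (F.e') = 0
           first
             | (simp only [fams_addl, fams_subl, fams_smull, fams_addr, fams_subr, fams_smulr, F.kk, F.ll, F.ee, F.ee', F.kl, F.hee', F.ke, F.ke', F.le, F.le', F.kf, F.lf, F.ef, F.e'f, lk, e'e, ek, e'k, el, e'l, fk, fl, fe, fe', h1]; done)
             | (simp only [fams_addl, fams_subl, fams_smull, fams_addr, fams_subr, fams_smulr, F.kk, F.ll, F.ee, F.ee', F.kl, F.hee', F.ke, F.ke', F.le, F.le', F.kf, F.lf, F.ef, F.e'f, lk, e'e, ek, e'k, el, e'l, fk, fl, fe, fe', h1]; ring)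
         kl := by
           show dot (F.k) (F.l) = 1 / 2
           first
             | (simp only [fams_addl, fams_subl, fams_smull, fams_addr, fams_subr, fams_smulr, F.kk, F.ll, F.ee, F.ee', F.kl, F.hee', F.ke, F.ke', F.le, F.le', F.kf, F.lf, F.ef, F.e'f, lk, e'e, ek, e'k, el, e'l, fk, fl, fe, fe', h1]; done)
             | (simp only [fams_addl, fams_subl, fams_smull, fams_addr, fams_subr, fams_smulr, F.kk, F.ll, F.ee, F.ee', F.kl, F.hee', F.ke, F.ke', F.le, F.le', F.kf, F.lf, F.ef, F.e'f, lk, e'e, ek, e'k, el, e'l, fk, fl, fe, fe', h1]; ring)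
         hee' := by
           show dot (F.e + σ • F.f α - σ ^ 2 • F.e') (F.e') = 1 / 2
           first
             | (simp only [fams_addl, fams_subl, fams_smull, fams_addr, fams_subr, fams_smulr, F.kk, F.ll, F.ee, F.ee', F.kl, F.hee', F.ke, F.ke', F.le, F.le', F.kf, F.lf, F.ef, F.e'f, lk, e'e, ek, e'k, el, e'l, fk, fl, fe, fe', h1]; done)
             | (simp only [fams_addl, fams_subl, fams_smull, fams_addr, fams_subr, fams_smulr, F.kk, F.ll, F.ee, F.ee', F.kl, F.hee', F.ke, F.ke', F.le, F.le', F.kf, F.lf, F.ef, F.e'f, lk, e'e, ek, e'k, el, e'l, fk, fl, fe, fe', h1]; ring)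
         ke := by
           show dot (F.k) (F.e + σ • F.f α - σ ^ 2 • F.e') = 0
           first
             | (simp only [fams_addl, fams_subl, fams_smull, fams_addr, fams_subr, fams_smulr, F.kk, F.ll, F.ee, F.ee', F.kl, F.hee', F.ke, F.ke', F.le, F.le', F.kf, F.lf, F.ef, F.e'f, lk, e'e, ek, e'k, el, e'l, fk, fl, fe, fe', h1]; done)
             | (simp only [fams_addl, fams_subl, fams_smull, fams_addr, fams_subr, fams_smulr, F.kk, F.ll, F.ee, F.ee', F.kl, F.hee', F.ke, F.ke', F.le, F.le', F.kf, F.lf, F.ef, F.e'f, lk, e'e, ek, e'k, el, e'l, fk, fl, fe, fe', h1]; ring)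
         ke' := by
           show dot (F.k) (F.e') = 0
           first
             | (simp only [fams_addl, fams_subl, fams_smull, fams_addr, fams_subr, fams_smulr, F.kk, F.ll, F.ee, F.ee', F.kl, F.hee', F.ke, F.ke', F.le, F.le', F.kf, F.lf, F.ef, F.e'f, lk, e'e, ek, e'k, el, e'l, fk, fl, fe, fe', h1]; done)
             | (simp only [fams_addl, fams_subl, fams_smull, fams_addr, fams_subr, fams_smulr, F.kk, F.ll, F.ee, F.ee', F.kl, F.hee', F.ke, F.ke', F.le, F.le', F.kf, F.lf, F.ef, F.e'f, lk, e'e, ek, e'k, el, e'l, fk, fl, fe, fe', h1]; ring)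
         le := by
           show dot (F.l) (F.e + σ • F.f α - σ ^ 2 • F.e') = 0
           first
             | (simp only [fams_addl, fams_subl, fams_smull, fams_addr, fams_subr, fams_smulr, F.kk, F.ll, F.ee, F.ee', F.kl, F.hee', F.ke, F.ke', F.le, F.le', F.kf, F.lf, F.ef, F.e'f, lk, e'e, ek, e'k, el, e'l, fk, fl, fe, fe', h1]; done)
             | (simp only [fams_addl, fams_subl, fams_smull, fams_addr, fams_subr, fams_smulr, F.kk, F.ll, F.ee, F.ee', F.kl, F.hee', F.ke, F.ke', F.le, F.le', F.kf, F.lf, F.ef, F.e'f, lk, e'e, ek, e'k, el, e'l, fk, fl, fe, fe', h1]; ring)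
         le' := by
           show dot (F.l) (F.e') = 0
           first
             | (simp only [fams_addl, fams_subl, fams_smull, fams_addr, fams_subr, fams_smulr, F.kk, F.ll, F.ee, F.ee', F.kl, F.hee', F.ke, F.ke', F.le, F.le', F.kf, F.lf, F.ef, F.e'f, lk, e'e, ek, e'k, el, e'l, fk, fl, fe, fe', h1]; done)
             | (simp only [fams_addl, fams_subl, fams_smull, fams_addr, fams_subr, fams_smulr, F.kk, F.ll, F.ee, F.ee', F.kl, F.hee', F.ke, F.ke', F.le, F.le', F.kf, F.lf, F.ef, F.e'f, lk, e'e, ek, e'k, el, e'l, fk, fl, fe, fe', h1]; ring)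
         kf := fun β => by
           show dot (F.k) (if β = α then F.f β - (2 * σ) • F.e' else F.f β) = 0
           by_cases hβ : β = α
           · rw [if_pos hβ, hβ]
             first
             | (simp only [fams_addl, fams_subl, fams_smull, fams_addr, fams_subr, fams_smulr, F.kk, F.ll, F.ee, F.ee', F.kl, F.hee', F.ke, F.ke', F.le, F.le', F.kf, F.lf, F.ef, F.e'f, lk, e'e, ek, e'k, el, e'l, fk, fl, fe, fe', h1]; done)
             | (simp only [fams_addl, fams_subl, fams_smull, fams_addr, fams_subr, fams_smulr, F.kk, F.ll, F.ee, F.ee', F.kl, F.hee', F.ke, F.ke', F.le, F.le', F.kf, F.lf, F.ef, F.e'f, lk, e'e, ek, e'k, el, e'l, fk, fl, fe, fe', h1]; ring)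
           · rw [if_neg hβ]
             have h0' := h0 α β (Ne.symm hβ)
             first
             | (simp only [fams_addl, fams_subl, fams_smull, fams_addr, fams_subr, fams_smulr, F.kk, F.ll, F.ee, F.ee', F.kl, F.hee', F.ke, F.ke', F.le, F.le', F.kf, F.lf, F.ef, F.e'f, lk, e'e, ek, e'k, el, e'l, fk, fl, fe, fe', h1, h0']; done)
             | (simp only [fams_addl, fams_subl, fams_smull, fams_addr, fams_subr, fams_smulr, F.kk, F.ll, F.ee, F.ee', F.kl, F.hee', F.ke, F.ke', F.le, F.le', F.kf, F.lf, F.ef, F.e'f, lk, e'e, ek, e'k, el, e'l, fk, fl, fe, fe', h1, h0']; ring)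
         lf := fun β => by
           show dot (F.l) (if β = α then F.f β - (2 * σ) • F.e' else F.f β) = 0
           by_cases hβ : β = α
           · rw [if_pos hβ, hβ]
             first
             | (simp only [fams_addl, fams_subl, fams_smull, fams_addr, fams_subr, fams_smulr, F.kk, F.ll, F.ee, F.ee', F.kl, F.hee', F.ke, F.ke', F.le, F.le', F.kf, F.lf, F.ef, F.e'f, lk, e'e, ek, e'k, el, e'l, fk, fl, fe, fe', h1]; done)
             | (simp only [fams_addl, fams_subl, fams_smull, fams_addr, fams_subr, fams_smulr, F.kk, F.ll, F.ee, F.ee', F.kl, F.hee', F.ke, F.ke', F.le, F.le', F.kf, F.lf, F.ef, F.e'f, lk, e'e, ek, e'k, el, e'l, fk, fl, fe, fe', h1]; ring)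
           · rw [if_neg hβ]
             have h0' := h0 α β (Ne.symm hβ)
             first
             | (simp only [fams_addl, fams_subl, fams_smull, fams_addr, fams_subr, fams_smulr, F.kk, F.ll, F.ee, F.ee', F.kl, F.hee', F.ke, F.ke', F.le, F.le', F.kf, F.lf, F.ef, F.e'f, lk, e'e, ek, e'k, el, e'l, fk, fl, fe, fe', h1, h0']; done)
             | (simp only [fams_addl, fams_subl, fams_smull, fams_addr, fams_subr, fams_smulr, F.kk, F.ll, F.ee, F.ee', F.kl, F.hee', F.ke, F.ke', F.le, F.le', F.kf, F.lf, F.ef, F.e'f, lk, e'e, ek, e'k, el, e'l, fk, fl, fe, fe', h1, h0']; ring)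
         ef := fun β => by
           show dot (F.e + σ • F.f α - σ ^ 2 • F.e') (if β = α then F.f β - (2 * σ) • F.e' else F.f β) = 0
           by_cases hβ : β = α
           · rw [if_pos hβ, hβ]
             first
             | (simp only [fams_addl, fams_subl, fams_smull, fams_addr, fams_subr, fams_smulr, F.kk, F.ll, F.ee, F.ee', F.kl, F.hee', F.ke, F.ke', F.le, F.le', F.kf, F.lf, F.ef, F.e'f, lk, e'e, ek, e'k, el, e'l, fk, fl, fe, fe', h1]; done)
             | (simp only [fams_addl, fams_subl, fams_smull, fams_addr, fams_subr, fams_smulr, F.kk, F.ll, F.ee, F.ee', F.kl, F.hee', F.ke, F.ke', F.le, F.le', F.kf, F.lf, F.ef, F.e'f, lk, e'e, ek, e'k, el, e'l, fk, fl, fe, fe', h1]; ring)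
           · rw [if_neg hβ]
             have h0' := h0 α β (Ne.symm hβ)
             first
             | (simp only [fams_addl, fams_subl, fams_smull, fams_addr, fams_subr, fams_smulr, F.kk, F.ll, F.ee, F.ee', F.kl, F.hee', F.ke, F.ke', F.le, F.le', F.kf, F.lf, F.ef, F.e'f, lk, e'e, ek, e'k, el, e'l, fk, fl, fe, fe', h1, h0']; done)
             | (simp only [fams_addl, fams_subl, fams_smull, fams_addr, fams_subr, fams_smulr, F.kk, F.ll, F.ee, F.ee', F.kl, F.hee', F.ke, F.ke', F.le, F.le', F.kf, F.lf, F.ef, F.e'f, lk, e'e, ek, e'k, el, e'l, fk, fl, fe, fe', h1, h0']; ring)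
         e'f := fun β => by
           show dot (F.e') (if β = α then F.f β - (2 * σ) • F.e' else F.f β) = 0
           by_cases hβ : β = α
           · rw [if_pos hβ, hβ]
             first
             | (simp only [fams_addl, fams_subl, fams_smull, fams_addr, fams_subr, fams_smulr, F.kk, F.ll, F.ee, F.ee', F.kl, F.hee', F.ke, F.ke', F.le, F.le', F.kf, F.lf, F.ef, F.e'f, lk, e'e, ek, e'k, el, e'l, fk, fl, fe, fe', h1]; done)
             | (simp only [fams_addl, fams_subl, fams_smull, fams_addr, fams_subr, fams_smulr, F.kk, F.ll, F.ee, F.ee', F.kl, F.hee', F.ke, F.ke', F.le, F.le', F.kf, F.lf, F.ef, F.e'f, lk, e'e, ek, e'k, el, e'l, fk, fl, fe, fe', h1]; ring)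
           · rw [if_neg hβ]
             have h0' := h0 α β (Ne.symm hβ)
             first
             | (simp only [fams_addl, fams_subl, fams_smull, fams_addr, fams_subr, fams_smulr, F.kk, F.ll, F.ee, F.ee', F.kl, F.hee', F.ke, F.ke', F.le, F.le', F.kf, F.lf, F.ef, F.e'f, lk, e'e, ek, e'k, el, e'l, fk, fl, fe, fe', h1, h0']; done)
             | (simp only [fams_addl, fams_subl, fams_smull, fams_addr, fams_subr, fams_smulr, F.kk, F.ll, F.ee, F.ee', F.kl, F.hee', F.ke, F.ke', F.le, F.le', F.kf, F.lf, F.ef, F.e'f, lk, e'e, ek, e'k, el, e'l, fk, fl, fe, fe', h1, h0']; ring)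
         ff := fun β γ => by
           show dot (if β = α then F.f β - (2 * σ) • F.e' else F.f β) (if γ = α then F.f γ - (2 * σ) • F.e' else F.f γ) = _
           by_cases hβ : β = α
           · by_cases hγ : γ = α
             · rw [if_pos hβ, if_pos hγ, hβ, hγ, if_pos rfl]
               simp only [fams_addl, fams_subl, fams_smull, fams_addr, fams_subr, fams_smulr, F.kk, F.ll, F.ee, F.ee', F.kl, F.hee', F.ke, F.ke', F.le, F.le', F.kf, F.lf, F.ef, F.e'f, lk, e'e, ek, e'k, el, e'l, fk, fl, fe, fe', h1]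
               ring
             · rw [if_pos hβ, if_neg hγ, hβ, if_neg (Ne.symm hγ)]
               have h0' := h0 α γ (Ne.symm hγ)
               simp only [fams_addl, fams_subl, fams_smull, fams_addr, fams_subr, fams_smulr, F.kk, F.ll, F.ee, F.ee', F.kl, F.hee', F.ke, F.ke', F.le, F.le', F.kf, F.lf, F.ef, F.e'f, lk, e'e, ek, e'k, el, e'l, fk, fl, fe, fe', h1, h0']
               ring
           · by_cases hγ : γ = α
             · rw [if_neg hβ, if_pos hγ, hγ, if_neg hβ]
               have h0' := h0 β α hβ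
               simp only [fams_addl, fams_subl, fams_smull, fams_addr, fams_subr, fams_smulr, F.kk, F.ll, F.ee, F.ee', F.kl, F.hee', F.ke, F.ke', F.le, F.le', F.kf, F.lf, F.ef, F.e'f, lk, e'e, ek, e'k, el, e'l, fk, fl, fe, fe', h1, h0']
               ring
             · rw [if_neg hβ, if_neg hγ, F.ff]
         compl := fun i j => by
           have hc := F.compl i j
           rw [fams_sum F.f α (2 * σ) F.e' i j, ← hc]
           simp only [Pi.add_apply, Pi.sub_apply, Pi.smul_apply, smul_eq_mul]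
           ring }, rfl, rfl, rfl, rfl⟩
  · exact ⟨{
         k := F.l
         l := F.k
         e := F.e
         e' := F.e'
         f := F.f
         kk := by
           show dot (F.l) (F.l) = 0
           first
             | (simp only [fams_addl, fams_subl, fams_smull, fams_addr, fams_subr, fams_smulr, F.kk, F.ll, F.ee, F.ee', F.kl, F.hee', F.ke, F.ke', F.le, F.le', F.kf, F.lf, F.ef, F.e'f, lk, e'e, ek, e'k, el, e'l, fk, fl, fe, fe', h1]; done)
             | (simp only [fams_addl, fams_subl, fams_smull, fams_addr, fams_subr, fams_smulr, F.kk, F.ll, F.ee, F.ee', F.kl, F.hee', F.ke, F.ke', F.le, F.le', F.kf, F.lf, F.ef, F.e'f, lk, e'e, ek, e'k, el, e'l, fk, fl, fe, fe', h1]; ring)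
         ll := by
           show dot (F.k) (F.k) = 0
           first
             | (simp only [fams_addl, fams_subl, fams_smull, fams_addr, fams_subr, fams_smulr, F.kk, F.ll, F.ee, F.ee', F.kl, F.hee', F.ke, F.ke', F.le, F.le', F.kf, F.lf, F.ef, F.e'f, lk, e'e, ek, e'k, el, e'l, fk, fl, fe, fe', h1]; done)
             | (simp only [fams_addl, fams_subl, fams_smull, fams_addr, fams_subr, fams_smulr, F.kk, F.ll, F.ee, F.ee', F.kl, F.hee', F.ke, F.ke', F.le, F.le', F.kf, F.lf, F.ef, F.e'f, lk, e'e, ek, e'k, el, e'l, fk, fl, fe, fe', h1]; ring)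
         ee := by
           show dot (F.e) (F.e) = 0
           first
             | (simp only [fams_addl, fams_subl, fams_smull, fams_addr, fams_subr, fams_smulr, F.kk, F.ll, F.ee, F.ee', F.kl, F.hee', F.ke, F.ke', F.le, F.le', F.kf, F.lf, F.ef, F.e'f, lk, e'e, ek, e'k, el, e'l, fk, fl, fe, fe', h1]; done)
             | (simp only [fams_addl, fams_subl, fams_smull, fams_addr, fams_subr, fams_smulr, F.kk, F.ll, F.ee, F.ee', F.kl, F.hee', F.ke, F.ke', F.le, F.le', F.kf, F.lf, F.ef, F.e'f, lk, e'e, ek, e'k, el, e'l, fk, fl, fe, fe', h1]; ring)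
         ee' := by
           show dot (F.e') (F.e') = 0
           first
             | (simp only [fams_addl, fams_subl, fams_smull, fams_addr, fams_subr, fams_smulr, F.kk, F.ll, F.ee, F.ee', F.kl, F.hee', F.ke, F.ke', F.le, F.le', F.kf, F.lf, F.ef, F.e'f, lk, e'e, ek, e'k, el, e'l, fk, fl, fe, fe', h1]; done)
             | (simp only [fams_addl, fams_subl, fams_smull, fams_addr, fams_subr, fams_smulr, F.kk, F.ll, F.ee, F.ee', F.kl, F.hee', F.ke, F.ke', F.le, F.le', F.kf, F.lf, F.ef, F.e'f, lk, e'e, ek, e'k, el, e'l, fk, fl, fe, fe', h1]; ring)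
         kl := by
           show dot (F.l) (F.k) = 1 / 2
           first
             | (simp only [fams_addl, fams_subl, fams_smull, fams_addr, fams_subr, fams_smulr, F.kk, F.ll, F.ee, F.ee', F.kl, F.hee', F.ke, F.ke', F.le, F.le', F.kf, F.lf, F.ef, F.e'f, lk, e'e, ek, e'k, el, e'l, fk, fl, fe, fe', h1]; done)
             | (simp only [fams_addl, fams_subl, fams_smull, fams_addr, fams_subr, fams_smulr, F.kk, F.ll, F.ee, F.ee', F.kl, F.hee', F.ke, F.ke', F.le, F.le', F.kf, F.lf, F.ef, F.e'f, lk, e'e, ek, e'k, el, e'l, fk, fl, fe, fe', h1]; ring)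
         hee' := by
           show dot (F.e) (F.e') = 1 / 2
           first
             | (simp only [fams_addl, fams_subl, fams_smull, fams_addr, fams_subr, fams_smulr, F.kk, F.ll, F.ee, F.ee', F.kl, F.hee', F.ke, F.ke', F.le, F.le', F.kf, F.lf, F.ef, F.e'f, lk, e'e, ek, e'k, el, e'l, fk, fl, fe, fe', h1]; done)
             | (simp only [fams_addl, fams_subl, fams_smull, fams_addr, fams_subr, fams_smulr, F.kk, F.ll, F.ee, F.ee', F.kl, F.hee', F.ke, F.ke', F.le, F.le', F.kf, F.lf, F.ef, F.e'f, lk, e'e, ek, e'k, el, e'l, fk, fl, fe, fe', h1]; ring)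
         ke := by
           show dot (F.l) (F.e) = 0
           first
             | (simp only [fams_addl, fams_subl, fams_smull, fams_addr, fams_subr, fams_smulr, F.kk, F.ll, F.ee, F.ee', F.kl, F.hee', F.ke, F.ke', F.le, F.le', F.kf, F.lf, F.ef, F.e'f, lk, e'e, ek, e'k, el, e'l, fk, fl, fe, fe', h1]; done)
             | (simp only [fams_addl, fams_subl, fams_smull, fams_addr, fams_subr, fams_smulr, F.kk, F.ll, F.ee, F.ee', F.kl, F.hee', F.ke, F.ke', F.le, F.le', F.kf, F.lf, F.ef, F.e'f, lk, e'e, ek, e'k, el, e'l, fk, fl, fe, fe', h1]; ring)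
         ke' := by
           show dot (F.l) (F.e') = 0
           first
             | (simp only [fams_addl, fams_subl, fams_smull, fams_addr, fams_subr, fams_smulr, F.kk, F.ll, F.ee, F.ee', F.kl, F.hee', F.ke, F.ke', F.le, F.le', F.kf, F.lf, F.ef, F.e'f, lk, e'e, ek, e'k, el, e'l, fk, fl, fe, fe', h1]; done)
             | (simp only [fams_addl, fams_subl, fams_smull, fams_addr, fams_subr, fams_smulr, F.kk, F.ll, F.ee, F.ee', F.kl, F.hee', F.ke, F.ke', F.le, F.le', F.kf, F.lf, F.ef, F.e'f, lk, e'e, ek, e'k, el, e'l, fk, fl, fe, fe', h1]; ring)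
         le := by
           show dot (F.k) (F.e) = 0
           first
             | (simp only [fams_addl, fams_subl, fams_smull, fams_addr, fams_subr, fams_smulr, F.kk, F.ll, F.ee, F.ee', F.kl, F.hee', F.ke, F.ke', F.le, F.le', F.kf, F.lf, F.ef, F.e'f, lk, e'e, ek, e'k, el, e'l, fk, fl, fe, fe', h1]; done)
             | (simp only [fams_addl, fams_subl, fams_smull, fams_addr, fams_subr, fams_smulr, F.kk, F.ll, F.ee, F.ee', F.kl, F.hee', F.ke, F.ke', F.le, F.le', F.kf, F.lf, F.ef, F.e'f, lk, e'e, ek, e'k, el, e'l, fk, fl, fe, fe', h1]; ring)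
         le' := by
           show dot (F.k) (F.e') = 0
           first
             | (simp only [fams_addl, fams_subl, fams_smull, fams_addr, fams_subr, fams_smulr, F.kk, F.ll, F.ee, F.ee', F.kl, F.hee', F.ke, F.ke', F.le, F.le', F.kf, F.lf, F.ef, F.e'f, lk, e'e, ek, e'k, el, e'l, fk, fl, fe, fe', h1]; done)
             | (simp only [fams_addl, fams_subl, fams_smull, fams_addr, fams_subr, fams_smulr, F.kk, F.ll, F.ee, F.ee', F.kl, F.hee', F.ke, F.ke', F.le, F.le', F.kf, F.lf, F.ef, F.e'f, lk, e'e, ek, e'k, el, e'l, fk, fl, fe, fe', h1]; ring)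
         kf := fun β => by
           show dot (F.l) (F.f β) = 0
           first
             | (simp only [fams_addl, fams_subl, fams_smull, fams_addr, fams_subr, fams_smulr, F.kk, F.ll, F.ee, F.ee', F.kl, F.hee', F.ke, F.ke', F.le, F.le', F.kf, F.lf, F.ef, F.e'f, lk, e'e, ek, e'k, el, e'l, fk, fl, fe, fe', h1]; done)
             | (simp only [fams_addl, fams_subl, fams_smull, fams_addr, fams_subr, fams_smulr, F.kk, F.ll, F.ee, F.ee', F.kl, F.hee', F.ke, F.ke', F.le, F.le', F.kf, F.lf, F.ef, F.e'f, lk, e'e, ek, e'k, el, e'l, fk, fl, fe, fe', h1]; ring)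
         lf := fun β => by
           show dot (F.k) (F.f β) = 0
           first
             | (simp only [fams_addl, fams_subl, fams_smull, fams_addr, fams_subr, fams_smulr, F.kk, F.ll, F.ee, F.ee', F.kl, F.hee', F.ke, F.ke', F.le, F.le', F.kf, F.lf, F.ef, F.e'f, lk, e'e, ek, e'k, el, e'l, fk, fl, fe, fe', h1]; done)
             | (simp only [fams_addl, fams_subl, fams_smull, fams_addr, fams_subr, fams_smulr, F.kk, F.ll, F.ee, F.ee', F.kl, F.hee', F.ke, F.ke', F.le, F.le', F.kf, F.lf, F.ef, F.e'f, lk, e'e, ek, e'k, el, e'l, fk, fl, fe, fe', h1]; ring)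
         ef := fun β => by
           show dot (F.e) (F.f β) = 0
           first
             | (simp only [fams_addl, fams_subl, fams_smull, fams_addr, fams_subr, fams_smulr, F.kk, F.ll, F.ee, F.ee', F.kl, F.hee', F.ke, F.ke', F.le, F.le', F.kf, F.lf, F.ef, F.e'f, lk, e'e, ek, e'k, el, e'l, fk, fl, fe, fe', h1]; done)
             | (simp only [fams_addl, fams_subl, fams_smull, fams_addr, fams_subr, fams_smulr, F.kk, F.ll, F.ee, F.ee', F.kl, F.hee', F.ke, F.ke', F.le, F.le', F.kf, F.lf, F.ef, F.e'f, lk, e'e, ek, e'k, el, e'l, fk, fl, fe, fe', h1]; ring)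
         e'f := fun β => by
           show dot (F.e') (F.f β) = 0
           first
             | (simp only [fams_addl, fams_subl, fams_smull, fams_addr, fams_subr, fams_smulr, F.kk, F.ll, F.ee, F.ee', F.kl, F.hee', F.ke, F.ke', F.le, F.le', F.kf, F.lf, F.ef, F.e'f, lk, e'e, ek, e'k, el, e'l, fk, fl, fe, fe', h1]; done)
             | (simp only [fams_addl, fams_subl, fams_smull, fams_addr, fams_subr, fams_smulr, F.kk, F.ll, F.ee, F.ee', F.kl, F.hee', F.ke, F.ke', F.le, F.le', F.kf, F.lf, F.ef, F.e'f, lk, e'e, ek, e'k, el, e'l, fk, fl, fe, fe', h1]; ring)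
         ff := F.ff
         compl := fun i j => by
           have hc := F.compl i j
           rw [← hc]
           first
             | (simp only [Pi.add_apply, Pi.sub_apply, Pi.smul_apply, smul_eq_mul]; ring)
             | ring }, rfl, rfl, rfl, rfl, rfl⟩

end CInv
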