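import Pool.Agent.Helper771.CInv.Defs

set_option linter.all false

open scoped BigOperators

namespace CInv



theorem frame_decomp {n : ℕ} (F : Frame n) (v : Fin n → ℂ) :
    v = (2 * dot v F.l) • F.k + (2 * dot v F.k) • F.l + (2 * dot v F.e') • F.e
      + (2 * dot v F.e) • F.e' + ∑ α, dot v (F.f α) • F.f α := by
  funext i
  have h1 : v i = ∑ j, (if i = j then (1:ℂ) else 0) * v j := by
    simp
  have h2 : ∀ j, (if i = j then (1:ℂ) else 0) * v j =
      (2 * F.k i) * (v j * F.l j) + (2 * F.l i) * (v j * F.k j) + (2 * F.e i) * (v j * F.e' j)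
        + (2 * F.e' i) * (v j * F.e j) + ∑ α, F.f α i * (v j * F.f α j) := by
    intro j
    rw [← F.compl i j, add_mul, Finset.sum_mul]
    have h3 : ∑ α, F.f α i * F.f α j * v j = ∑ α, F.f α i * (v j * F.f α j) := by
      apply Finset.sum_congr rfl
      intro α _
      ring
    rw [h3]
    ring
  have h4 : ∑ j, ∑ α, F.f α i * (v j * F.f α j) = ∑ α, F.f α i * dot v (F.f α) := by
    rw [Finset.sum_comm]
    apply Finset.sum_congr rfl
    intro α _
    unfold dot
    rw [Finset.mul_sum]
  rw [h1, Finset.sum_congr rfl (fun j _ => h2 j)]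
  simp only [Finset.sum_add_distrib, h4, ← Finset.mul_sum]
  simp only [Pi.add_apply, Pi.smul_apply, smul_eq_mul, Finset.sum_apply]
  have h5 : ∑ α, F.f α i * dot v (F.f α) = ∑ α, dot v (F.f α) * F.f α i := by
    apply Finset.sum_congr rfl
    intro α _
    ring
  rw [h5]
  unfold dot
  ring

end CInv
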