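import Pool.Agent.Helper771.CInv.Defs
import Pool.Agent.Helper771.CInv.P_fams
import Pool.Agent.Helper771.CInv.P_curve_poly

set_option linter.all false

open scoped BigOperators

namespace CInv



section CoreRelAux

/-- quadratic polynomial with given coefficients -/
noncomputable def crP {R : Type} [CommRing R] (p0 p1 p2 : R) : Polynomial R :=
  Polynomial.C p0 + Polynomial.C p1 * Polynomial.X + Polynomial.C p2 * Polynomial.X ^ 2

variable {R : Type} [CommRing R]

theorem crP_eval (p0 p1 p2 s : R) : (crP p0 p1 p2).eval s = p0 + p1 * s + p2 * s ^ 2 := by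
  simp [crP]

theorem crP_0 (p0 p1 p2 : R) : (crP p0 p1 p2).coeff 0 = p0 := by
  simp [crP]

theorem crP_1 (p0 p1 p2 : R) : (crP p0 p1 p2).coeff 1 = p1 := by
  simp [crP, Polynomial.coeff_X_pow, Polynomial.coeff_C]

theorem crP_2 (p0 p1 p2 : R) : (crP p0 p1 p2).coeff 2 = p2 := by
  simp [crP, Polynomial.coeff_X, Polynomial.coeff_C]

theorem cr_mul2 (p q : Polynomial R) : (p * q).coeff 2 =
    p.coeff 0 * q.coeff 2 + p.coeff 1 * q.coeff 1 + p.coeff 2 * q.coeff 0 := by
  rw [Polynomial.coeff_mul,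
    Finset.Nat.sum_antidiagonal_eq_sum_range_succ (fun i j => p.coeff i * q.coeff j)]
  simp [Finset.sum_range_succ]

theorem cr_pow0 (p : Polynomial R) (N : ℕ) : (p ^ N).coeff 0 = p.coeff 0 ^ N := by
  induction N with
  | zero => simp
  | succ N ih => rw [pow_succ, Polynomial.mul_coeff_zero, ih, pow_succ]

theorem cr_pow1 (p : Polynomial R) (N : ℕ) :
    (p ^ N).coeff 1 = N * p.coeff 0 ^ (N - 1) * p.coeff 1 := by
  induction N with
  | zero => simp [Polynomial.coeff_one]
  | succ N ih =>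
    rw [pow_succ, Polynomial.mul_coeff_one, ih, cr_pow0]
    cases N with
    | zero => simp
    | succ N =>
      simp only [Nat.add_sub_cancel]
      push_cast
      ring

theorem cr_pow2 (p : Polynomial R) (a : ℕ) :
    2 * (p ^ (a + 1)).coeff 2 = 2 * (a + 1) * p.coeff 0 ^ a * p.coeff 2
      + (a + 1) * a * p.coeff 0 ^ (a - 1) * p.coeff 1 ^ 2 := by
  induction a with
  | zero => simp
  | succ a ih =>
    rw [pow_succ, cr_mul2, mul_add, mul_add, cr_pow0, cr_pow1]
    have h1 : 2 * ((p ^ (a + 1)).coeff 2 * p.coeff 0) =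
        (2 * (p ^ (a + 1)).coeff 2) * p.coeff 0 := by ring
    rw [h1, ih]
    cases a with
    | zero => simp; ring
    | succ a =>
      simp only [Nat.add_sub_cancel]
      push_cast
      ring

theorem cr_lin_add {n : ℕ} (u v : Fin n → ℂ) : lin (u + v) = lin u + lin v := by
  unfold lin
  rw [← Finset.sum_add_distrib]
  refine Finset.sum_congr rfl fun i _ => ?_
  simp [add_mul]

theorem cr_lin_sub {n : ℕ} (u v : Fin n → ℂ) : lin (u - v) = lin u - lin v := by
  unfold lin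
  rw [← Finset.sum_sub_distrib]
  refine Finset.sum_congr rfl fun i _ => ?_
  simp [sub_mul]

theorem cr_lin_smul {n : ℕ} (c : ℂ) (u : Fin n → ℂ) :
    lin (c • u) = MvPolynomial.C c * lin u := by
  unfold lin
  rw [Finset.mul_sum]
  refine Finset.sum_congr rfl fun i _ => ?_
  simp [mul_assoc]

/-- the polynomial curve of a constant times `tens` components -/
noncomputable def crV {n : ℕ} (u0 u1 : Fin n → ℂ) (i : Fin n) :
    Polynomial (MvPolynomial (Fin n) ℂ) :=
  crP (MvPolynomial.C (u0 i)) (MvPolynomial.C (u1 i)) 0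

variable {n : ℕ} (L : Mx n →ₗ[ℂ] ℂ)

theorem cr_univ {S : Set ℂ} (h : ∀ σ, σ ∈ S) : S.Infinite := by
  have : S = Set.univ := Set.eq_univ_of_forall h
  rw [this]; exact Set.infinite_univ

theorem cr_R12 (m a : ℕ)
    (hN : ∀ F : Frame n, L (nu F.k F.l F.e (a + 1) m) = 0) (F : Frame n) (α : Fin (n - 4)) :
    L (tens (lin F.k ^ a * lin (F.f α) * lin F.l ^ m) F.e F.e) = 0 ∧
    (a : ℂ) * L (tens (lin F.k ^ (a - 1) * lin (F.f α) ^ 2 * lin F.l ^ m) F.e F.e)
      = 2 * L (nu F.k F.l F.e a (m + 1)) := by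
  let Θ : Fin n → Fin n → Polynomial (MvPolynomial (Fin n) ℂ) := fun i j =>
    crP (lin F.k) (lin (F.f α)) (- lin F.l) ^ (a + 1) *
      Polynomial.C (lin F.l ^ m * MvPolynomial.C (F.e i * F.e j))
  have hinf : {σ : ℂ | L (fun i j => (Θ i j).eval (MvPolynomial.C σ)) = 0}.Infinite := by
    apply cr_univ
    intro σ
    obtain ⟨F', h1, h2, h3, -⟩ := (fams F σ).1 α
    have := hN F'
    rw [h1, h2, h3] at this
    show L _ = 0
    rw [← this]
    congr 1
    funext i j
    simp only [Θ, nu, tens, Polynomial.eval_mul, Polynomial.eval_pow, crP_eval, Polynomial.eval_C,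
      cr_lin_add, cr_lin_sub, cr_lin_smul, MvPolynomial.C_pow]
    ring
  have c1 := curve_poly L Θ hinf 1
  have c2 := curve_poly L Θ hinf 2
  have hne : ((a : ℂ) + 1) ≠ 0 := by exact_mod_cast Nat.succ_ne_zero a
  constructor
  · have e1 : (fun i j => (Θ i j).coeff 1) =
        ((a : ℂ) + 1) • tens (lin F.k ^ a * lin (F.f α) * lin F.l ^ m) F.e F.e := by
      funext i j
      simp only [Θ, Polynomial.coeff_mul_C, cr_pow1, crP_0, crP_1, Nat.add_sub_cancel,
        Pi.smul_apply, tens, MvPolynomial.smul_eq_C_mul]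
      push_cast
      simp only [map_add, map_natCast, map_one]
      ring
    rw [e1, map_smul, smul_eq_mul] at c1
    exact (mul_eq_zero.1 c1).resolve_left hne
  · have e2 : (2 : ℂ) • (fun i j => (Θ i j).coeff 2) =
        (((a : ℂ) + 1) * a) • tens (lin F.k ^ (a - 1) * lin (F.f α) ^ 2 * lin F.l ^ m) F.e F.e
        - (2 * ((a : ℂ) + 1)) • nu F.k F.l F.e a (m + 1) := by
      funext i j
      have h2 := cr_pow2 (crP (lin F.k) (lin (F.f α)) (- lin F.l)) a
      rw [crP_0, crP_1, crP_2] at h2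
      simp only [Θ, Polynomial.coeff_mul_C, Pi.smul_apply, Pi.sub_apply, tens, nu,
        MvPolynomial.smul_eq_C_mul]
      simp only [map_add, map_mul, map_natCast, map_one, map_ofNat]
      linear_combination (lin F.l ^ m * (MvPolynomial.C (F.e i) * MvPolynomial.C (F.e j))) * h2
    have h3 := congrArg L e2
    rw [map_smul, c2, smul_zero, map_sub, map_smul, map_smul, smul_eq_mul, smul_eq_mul] at h3
    have h4 : ((a : ℂ) + 1) * ((a : ℂ) * L (tens (lin F.k ^ (a - 1) * lin (F.f α) ^ 2 *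
        lin F.l ^ m) F.e F.e) - 2 * L (nu F.k F.l F.e a (m + 1))) = 0 := by
      linear_combination -h3
    have h5 := (mul_eq_zero.1 h4).resolve_left hne
    linear_combination h5

theorem cr_R4 (m a : ℕ)
    (hN : ∀ F : Frame n, L (nu F.k F.l F.e (a + 1) m) = 0) (F : Frame n) :
    L (tens (lin F.k ^ a * lin F.e * lin F.l ^ m) F.e F.e) = 0 := by
  let Θ : Fin n → Fin n → Polynomial (MvPolynomial (Fin n) ℂ) := fun i j =>
    crP (lin F.k) (lin F.e) 0 ^ (a + 1) *
      Polynomial.C (lin F.l ^ m * MvPolynomial.C (F.e i * F.e j))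
  have hinf : {σ : ℂ | L (fun i j => (Θ i j).eval (MvPolynomial.C σ)) = 0}.Infinite := by
    apply cr_univ
    intro σ
    obtain ⟨F', h1, h2, h3, -⟩ := (fams F σ).2.2.1
    have := hN F'
    rw [h1, h2, h3] at this
    show L _ = 0
    rw [← this]
    congr 1
    funext i j
    simp only [Θ, nu, tens, Polynomial.eval_mul, Polynomial.eval_pow, crP_eval, Polynomial.eval_C,
      cr_lin_add, cr_lin_sub, cr_lin_smul, MvPolynomial.C_pow]
    ring
  have c1 := curve_poly L Θ hinf 1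
  have hne : ((a : ℂ) + 1) ≠ 0 := by exact_mod_cast Nat.succ_ne_zero a
  have e1 : (fun i j => (Θ i j).coeff 1) =
      ((a : ℂ) + 1) • tens (lin F.k ^ a * lin F.e * lin F.l ^ m) F.e F.e := by
    funext i j
    simp only [Θ, Polynomial.coeff_mul_C, cr_pow1, crP_0, crP_1, Nat.add_sub_cancel,
      Pi.smul_apply, tens, MvPolynomial.smul_eq_C_mul]
    push_cast
    simp only [map_add, map_natCast, map_one]
    ring
  rw [e1, map_smul, smul_eq_mul] at c1
  exact (mul_eq_zero.1 c1).resolve_left hne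

theorem cr_R3 (m a : ℕ)
    (hN : ∀ F : Frame n, L (nu F.k F.l F.e (a + 1) m) = 0) (F : Frame n) :
    (a : ℂ) * L (tens (lin F.k ^ (a - 1) * lin F.e * lin F.e' * lin F.l ^ m) F.e F.e)
      - L (tens (lin F.k ^ a * lin F.e * lin F.l ^ m) F.l F.e)
      - L (tens (lin F.k ^ a * lin F.e * lin F.l ^ m) F.e F.l) = L (nu F.k F.l F.e a (m + 1)) := by
  let Θ : Fin n → Fin n → Polynomial (MvPolynomial (Fin n) ℂ) := fun i j =>
    crP (lin F.k) (lin F.e') 0 ^ a * crP (lin F.e) (- lin F.l) 0 *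
      Polynomial.C (lin F.l ^ m) * crV F.e (-F.l) i * crV F.e (-F.l) j
  have hinf : {σ : ℂ | L (fun i j => (Θ i j).eval (MvPolynomial.C σ)) = 0}.Infinite := by
    apply cr_univ
    intro σ
    obtain ⟨F', h1, h2, h3, -⟩ := (fams F σ).2.1
    have := cr_R4 L m a hN F'
    rw [h1, h2, h3] at this
    show L _ = 0
    rw [← this]
    congr 1
    funext i j
    simp only [Θ, crV, nu, tens, Polynomial.eval_mul, Polynomial.eval_pow, crP_eval,
      Polynomial.eval_C, cr_lin_add, cr_lin_sub, cr_lin_smul, MvPolynomial.C_pow, Pi.sub_apply,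
      Pi.smul_apply, Pi.neg_apply, smul_eq_mul, map_sub, map_mul, map_neg]
    ring
  have c1 := curve_poly L Θ hinf 1
  have e1 : (fun i j => (Θ i j).coeff 1) =
      (a : ℂ) • tens (lin F.k ^ (a - 1) * lin F.e * lin F.e' * lin F.l ^ m) F.e F.e
      - tens (lin F.k ^ a * lin F.e * lin F.l ^ m) F.l F.e
      - tens (lin F.k ^ a * lin F.e * lin F.l ^ m) F.e F.l
      - nu F.k F.l F.e a (m + 1) := by
    funext i j
    simp only [Θ, crV, Polynomial.mul_coeff_one, Polynomial.mul_coeff_zero, cr_pow1, cr_pow0,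
      crP_0, crP_1, Polynomial.coeff_C_zero, Pi.smul_apply, Pi.sub_apply, tens, nu,
      MvPolynomial.smul_eq_C_mul, Pi.neg_apply]
    rw [Polynomial.coeff_C_ne_zero one_ne_zero]
    simp only [map_mul, map_neg, map_natCast]
    ring
  rw [e1, map_sub, map_sub, map_sub, map_smul, smul_eq_mul] at c1
  linear_combination c1

theorem cr_R5 (m a : ℕ)
    (hN : ∀ F : Frame n, L (nu F.k F.l F.e (a + 1) m) = 0) (F : Frame n) :
    - (m : ℂ) * L (tens (lin F.k ^ a * lin F.e * lin F.e' * lin F.l ^ (m - 1)) F.e F.e)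
      + L (tens (lin F.k ^ a * lin F.e * lin F.l ^ m) F.k F.e)
      + L (tens (lin F.k ^ a * lin F.e * lin F.l ^ m) F.e F.k) = 0 := by
  let Θ : Fin n → Fin n → Polynomial (MvPolynomial (Fin n) ℂ) := fun i j =>
    Polynomial.C (lin F.k ^ a) * crP (lin F.e) (lin F.k) 0 *
      crP (lin F.l) (- lin F.e') 0 ^ m * crV F.e F.k i * crV F.e F.k j
  have hinf : {σ : ℂ | L (fun i j => (Θ i j).eval (MvPolynomial.C σ)) = 0}.Infinite := by
    apply cr_univ
    intro σ
    obtain ⟨F', h1, h2, h3, -⟩ := (fams F σ).2.2.2.1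
    have := cr_R4 L m a hN F'
    rw [h1, h2, h3] at this
    show L _ = 0
    rw [← this]
    congr 1
    funext i j
    simp only [Θ, crV, nu, tens, Polynomial.eval_mul, Polynomial.eval_pow, crP_eval,
      Polynomial.eval_C, cr_lin_add, cr_lin_sub, cr_lin_smul, MvPolynomial.C_pow, Pi.sub_apply,
      Pi.add_apply, Pi.smul_apply, Pi.neg_apply, smul_eq_mul, map_sub, map_add, map_mul, map_neg]
    ring
  have c1 := curve_poly L Θ hinf 1
  have e1 : (fun i j => (Θ i j).coeff 1) =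
      (-(m : ℂ)) • tens (lin F.k ^ a * lin F.e * lin F.e' * lin F.l ^ (m - 1)) F.e F.e
      + tens (lin F.k ^ a * lin F.e * lin F.l ^ m) F.k F.e
      + tens (lin F.k ^ a * lin F.e * lin F.l ^ m) F.e F.k
      + nu F.k F.l F.e (a + 1) m := by
    funext i j
    simp only [Θ, crV, Polynomial.mul_coeff_one, Polynomial.mul_coeff_zero, cr_pow1, cr_pow0,
      crP_0, crP_1, Polynomial.coeff_C_zero, Pi.smul_apply, Pi.sub_apply, Pi.add_apply, tens, nu,
      MvPolynomial.smul_eq_C_mul, Pi.neg_apply]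
    rw [Polynomial.coeff_C_ne_zero one_ne_zero]
    simp only [map_mul, map_neg, map_natCast]
    ring
  rw [e1, map_add, map_add, map_add, map_smul, smul_eq_mul, hN F] at c1
  linear_combination c1

theorem cr_R6 (m a : ℕ)
    (hN : ∀ F : Frame n, L (nu F.k F.l F.e (a + 1) m) = 0) (F : Frame n) (α : Fin (n - 4)) :
    L (tens (lin F.k ^ a * lin F.e * lin F.l ^ m) (F.f α) F.e)
      + L (tens (lin F.k ^ a * lin F.e * lin F.l ^ m) F.e (F.f α)) = 0 := by
  let Θ : Fin n → Fin n → Polynomial (MvPolynomial (Fin n) ℂ) := fun i j =>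
    Polynomial.C (lin F.k ^ a) * crP (lin F.e) (lin (F.f α)) (- lin F.e') *
      Polynomial.C (lin F.l ^ m) *
      crP (MvPolynomial.C (F.e i)) (MvPolynomial.C (F.f α i)) (- MvPolynomial.C (F.e' i)) *
      crP (MvPolynomial.C (F.e j)) (MvPolynomial.C (F.f α j)) (- MvPolynomial.C (F.e' j))
  have hinf : {σ : ℂ | L (fun i j => (Θ i j).eval (MvPolynomial.C σ)) = 0}.Infinite := by
    apply cr_univ
    intro σ
    obtain ⟨F', h1, h2, h3, -⟩ := (fams F σ).2.2.2.2.1 α
    have := cr_R4 L m a hN F'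
    rw [h1, h2, h3] at this
    show L _ = 0
    rw [← this]
    congr 1
    funext i j
    simp only [Θ, nu, tens, Polynomial.eval_mul, Polynomial.eval_pow, crP_eval,
      Polynomial.eval_C, cr_lin_add, cr_lin_sub, cr_lin_smul, MvPolynomial.C_pow, Pi.sub_apply,
      Pi.add_apply, Pi.smul_apply, Pi.neg_apply, smul_eq_mul, map_sub, map_add, map_mul, map_neg,
      map_pow]
    ring
  have c1 := curve_poly L Θ hinf 1
  have e1 : (fun i j => (Θ i j).coeff 1) =
      tens (lin F.k ^ a * lin (F.f α) * lin F.l ^ m) F.e F.e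
      + tens (lin F.k ^ a * lin F.e * lin F.l ^ m) (F.f α) F.e
      + tens (lin F.k ^ a * lin F.e * lin F.l ^ m) F.e (F.f α) := by
    funext i j
    simp only [Θ, Polynomial.mul_coeff_one, Polynomial.mul_coeff_zero, cr_pow1, cr_pow0,
      crP_0, crP_1, Polynomial.coeff_C_zero, Pi.smul_apply, Pi.sub_apply, Pi.add_apply, tens, nu,
      MvPolynomial.smul_eq_C_mul, Pi.neg_apply]
    rw [Polynomial.coeff_C_ne_zero one_ne_zero, Polynomial.coeff_C_ne_zero one_ne_zero]
    simp only [map_mul, map_neg, map_natCast]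
    ring
  rw [e1, map_add, map_add, (cr_R12 L m a hN F α).1] at c1
  linear_combination c1

end CoreRelAux

theorem core_rel {n : ℕ} (L : Mx n →ₗ[ℂ] ℂ) (m a : ℕ)
    (hN : ∀ F : Frame n, ∀ j ≤ m, ∀ b, b + j = a + m + 1 → L (nu F.k F.l F.e b j) = 0)
    (F : Frame n) :
    (∀ α, L (tens (lin F.k ^ a * lin (F.f α) * lin F.l ^ m) F.e F.e) = 0) ∧
    (∀ α, (a : ℂ) * L (tens (lin F.k ^ (a - 1) * lin (F.f α) ^ 2 * lin F.l ^ m) F.e F.e)
      = 2 * L (nu F.k F.l F.e a (m + 1))) ∧
    ((a : ℂ) * L (tens (lin F.k ^ (a - 1) * lin F.e * lin F.e' * lin F.l ^ m) F.e F.e)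
      - L (tens (lin F.k ^ a * lin F.e * lin F.l ^ m) F.l F.e)
      - L (tens (lin F.k ^ a * lin F.e * lin F.l ^ m) F.e F.l) = L (nu F.k F.l F.e a (m + 1))) ∧
    L (tens (lin F.k ^ a * lin F.e * lin F.l ^ m) F.e F.e) = 0 ∧
    (- (m : ℂ) * L (tens (lin F.k ^ a * lin F.e * lin F.e' * lin F.l ^ (m - 1)) F.e F.e)
      + L (tens (lin F.k ^ a * lin F.e * lin F.l ^ m) F.k F.e)
      + L (tens (lin F.k ^ a * lin F.e * lin F.l ^ m) F.e F.k) = 0) ∧
    (∀ α, L (tens (lin F.k ^ a * lin F.e * lin F.l ^ m) (F.f α) F.e)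
      + L (tens (lin F.k ^ a * lin F.e * lin F.l ^ m) F.e (F.f α)) = 0) ∧
    (∀ α, 1 ≤ m → L (tens (lin F.k ^ a * lin (F.f α) ^ 2 * lin F.l ^ (m - 1)) F.e F.e) = 0) := by
  have hN' : ∀ F : Frame n, L (nu F.k F.l F.e (a + 1) m) = 0 := fun F =>
    hN F m le_rfl (a + 1) (by omega)
  refine ⟨fun α => (cr_R12 L m a hN' F α).1, fun α => (cr_R12 L m a hN' F α).2,
    cr_R3 L m a hN' F, cr_R4 L m a hN' F, cr_R5 L m a hN' F, fun α => cr_R6 L m a hN' F α, ?_⟩
  intro α hm
  have hN'' : ∀ F : Frame n, L (nu F.k F.l F.e (a + 1 + 1) (m - 1)) = 0 := fun F =>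
    hN F (m - 1) (by omega) (a + 1 + 1) (by omega)
  have h := (cr_R12 L (m - 1) (a + 1) hN'' F α).2
  have h1 : m - 1 + 1 = m := by omega
  rw [h1, hN' F, mul_zero, Nat.add_sub_cancel] at h
  have hne : ((a + 1 : ℕ) : ℂ) ≠ 0 := by exact_mod_cast Nat.succ_ne_zero a
  exact (mul_eq_zero.1 h).resolve_left hne

end CInv
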