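import Pool.Agent.Helper771.CInv.Defs

set_option linter.all false

open scoped BigOperators

namespace CInv



theorem kb_nu_dlin {n : ℕ} (c : Fin n) (k : Fin n → ℂ) :
    pdv c (lin k) = MvPolynomial.C (k c) := by
  unfold pdv lin
  rw [map_sum]
  rw [Finset.sum_eq_single c]
  · rw [MvPolynomial.pderiv_C_mul, MvPolynomial.pderiv_X_self, mul_one]
  · intro d _ hd
    rw [MvPolynomial.pderiv_C_mul, MvPolynomial.pderiv_X_of_ne hd, mul_zero]
  · intro h; exact absurd (Finset.mem_univ c) h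

theorem kb_nu_dxsq {n : ℕ} (c : Fin n) : pdv c (xsq n) = 2 * MvPolynomial.X c := by
  unfold pdv xsq
  rw [map_sum]
  rw [Finset.sum_eq_single c]
  · rw [MvPolynomial.pderiv_pow, MvPolynomial.pderiv_X_self]; push_cast; ring
  · intro d _ hd
    rw [MvPolynomial.pderiv_pow, MvPolynomial.pderiv_X_of_ne hd, mul_zero]
  · intro h; exact absurd (Finset.mem_univ c) h

theorem kb_nu_xlin {n : ℕ} (k : Fin n → ℂ) :
    ∑ c, MvPolynomial.X c * MvPolynomial.C (k c) = lin k := by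
  unfold lin
  exact Finset.sum_congr rfl fun _ _ => mul_comm _ _

theorem kb_nu_dot {n : ℕ} (b k : Fin n → ℂ) :
    ∑ c, (MvPolynomial.C (b c) * MvPolynomial.C (k c) : MvPolynomial (Fin n) ℂ) =
      MvPolynomial.C (dot b k) := by
  unfold dot
  rw [map_sum]
  exact Finset.sum_congr rfl fun _ _ => (map_mul _ _ _).symm

theorem kb_nu_dmul {n : ℕ} (c : Fin n) (p q : MvPolynomial (Fin n) ℂ) :
    pdv c (p * q) = pdv c p * q + p * pdv c q := by
  unfold pdv
  rw [MvPolynomial.pderiv_mul]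

theorem kb_nu_dC {n : ℕ} (c : Fin n) (t : ℂ) :
    pdv c (MvPolynomial.C t : MvPolynomial (Fin n) ℂ) = 0 := by
  unfold pdv
  exact MvPolynomial.pderiv_C

theorem kb_nu_dscX {n : ℕ} (b : Fin n → ℂ) (i c : Fin n) :
    pdv i (scX b c) = 2 * MvPolynomial.C (b i) * MvPolynomial.X c +
      (if c = i then 2 * lin b else 0) - 2 * MvPolynomial.X i * MvPolynomial.C (b c) := by
  have h1 : pdv i (scX b c) = pdv i (2 * lin b * MvPolynomial.X c) -
      pdv i (xsq n * MvPolynomial.C (b c)) := by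
    unfold scX pdv; rw [map_sub]
  have h2 : pdv i (2 : MvPolynomial (Fin n) ℂ) = 0 := by
    have : (2 : MvPolynomial (Fin n) ℂ) = MvPolynomial.C 2 := (map_ofNat MvPolynomial.C 2).symm
    rw [this, kb_nu_dC]
  have h3 : pdv i (MvPolynomial.X c : MvPolynomial (Fin n) ℂ) = if c = i then 1 else 0 := by
    unfold pdv
    split_ifs with h
    · rw [h, MvPolynomial.pderiv_X_self]
    · rw [MvPolynomial.pderiv_X_of_ne h]
  rw [h1, kb_nu_dmul, kb_nu_dmul, kb_nu_dmul, h2, h3, kb_nu_dlin, kb_nu_dxsq, kb_nu_dC]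
  split_ifs <;> ring

theorem kb_nu_dp {n : ℕ} (k l : Fin n → ℂ) (a m : ℕ) (c : Fin n) :
    pdv c (lin k ^ a * lin l ^ m) =
      (MvPolynomial.C (a : ℂ) * lin k ^ (a - 1) * lin l ^ m) * MvPolynomial.C (k c) +
      (MvPolynomial.C (m : ℂ) * lin k ^ a * lin l ^ (m - 1)) * MvPolynomial.C (l c) := by
  have hp : ∀ (q : Fin n → ℂ) (s : ℕ), pdv c (lin q ^ s) =
      MvPolynomial.C (s : ℂ) * lin q ^ (s - 1) * MvPolynomial.C (q c) := by
    intro q s
    have h1 : pdv c (lin q ^ s) = (s : MvPolynomial (Fin n) ℂ) * lin q ^ (s - 1) * pdv c (lin q) := by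
      unfold pdv; exact MvPolynomial.pderiv_pow
    rw [h1, kb_nu_dlin, map_natCast]
  rw [kb_nu_dmul, hp, hp]
  ring

theorem kb_nu_pw {n : ℕ} (k : Fin n → ℂ) (a : ℕ) :
    MvPolynomial.C (a : ℂ) * lin k ^ (a - 1) * lin k = MvPolynomial.C (a : ℂ) * lin k ^ a := by
  cases a with
  | zero => simp
  | succ a => rw [Nat.add_sub_cancel, pow_succ, mul_assoc]

theorem kb_nu_S1 {n : ℕ} (b k l : Fin n → ℂ) (a m : ℕ) (t : ℂ) :
    ∑ c, scX b c * pdv c ((lin k ^ a * lin l ^ m) * MvPolynomial.C t) =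
      (2 * MvPolynomial.C ((a : ℂ) + (m : ℂ)) * lin b * lin k ^ a * lin l ^ m
        - xsq n * (MvPolynomial.C ((a : ℂ) * dot b k) * lin k ^ (a - 1) * lin l ^ m
          + MvPolynomial.C ((m : ℂ) * dot b l) * lin k ^ a * lin l ^ (m - 1)))
        * MvPolynomial.C t := by
  obtain ⟨α, hα⟩ : ∃ α, α = MvPolynomial.C (a : ℂ) * lin k ^ (a - 1) * lin l ^ m := ⟨_, rfl⟩
  obtain ⟨β, hβ⟩ : ∃ β, β = MvPolynomial.C (m : ℂ) * lin k ^ a * lin l ^ (m - 1) := ⟨_, rfl⟩
  have h1 : ∀ c, scX b c * pdv c ((lin k ^ a * lin l ^ m) * MvPolynomial.C t) =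
      (2 * lin b * α * MvPolynomial.C t) * (MvPolynomial.X c * MvPolynomial.C (k c)) +
      (2 * lin b * β * MvPolynomial.C t) * (MvPolynomial.X c * MvPolynomial.C (l c)) -
      (xsq n * α * MvPolynomial.C t) * (MvPolynomial.C (b c) * MvPolynomial.C (k c)) -
      (xsq n * β * MvPolynomial.C t) * (MvPolynomial.C (b c) * MvPolynomial.C (l c)) := by
    intro c
    rw [kb_nu_dmul, kb_nu_dp, kb_nu_dC, ← hα, ← hβ]
    unfold scX
    ring
  rw [Finset.sum_congr rfl fun c _ => h1 c, Finset.sum_sub_distrib, Finset.sum_sub_distrib,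
    Finset.sum_add_distrib, ← Finset.mul_sum, ← Finset.mul_sum, ← Finset.mul_sum,
    ← Finset.mul_sum, kb_nu_xlin, kb_nu_xlin, kb_nu_dot, kb_nu_dot]
  have h2 : α * lin k = MvPolynomial.C (a : ℂ) * (lin k ^ a * lin l ^ m) := by
    rw [hα, ← mul_assoc, ← kb_nu_pw]; ring
  have h3 : β * lin l = MvPolynomial.C (m : ℂ) * (lin k ^ a * lin l ^ m) := by
    have := kb_nu_pw l m
    rw [hβ]
    linear_combination lin k ^ a * this
  have h4 : (MvPolynomial.C ((a : ℂ) + (m : ℂ)) : MvPolynomial (Fin n) ℂ) =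
      MvPolynomial.C (a : ℂ) + MvPolynomial.C (m : ℂ) := map_add _ _ _
  have h5 : (MvPolynomial.C ((a : ℂ) * dot b k) : MvPolynomial (Fin n) ℂ) =
      MvPolynomial.C (a : ℂ) * MvPolynomial.C (dot b k) := map_mul _ _ _
  have h6 : (MvPolynomial.C ((m : ℂ) * dot b l) : MvPolynomial (Fin n) ℂ) =
      MvPolynomial.C (m : ℂ) * MvPolynomial.C (dot b l) := map_mul _ _ _
  rw [h4, h5, h6]
  linear_combination (2 * lin b * MvPolynomial.C t) * h2 + (2 * lin b * MvPolynomial.C t) * h3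
    - (xsq n * MvPolynomial.C t * MvPolynomial.C (dot b k)) * hα
    - (xsq n * MvPolynomial.C t * MvPolynomial.C (dot b l)) * hβ

theorem kb_nu_S2 {n : ℕ} (b e : Fin n → ℂ) (hb : dot b e = 0) (p : MvPolynomial (Fin n) ℂ)
    (i : Fin n) (t : ℂ) :
    ∑ c, pdv i (scX b c) * (p * (MvPolynomial.C (e c) * MvPolynomial.C t)) =
      2 * MvPolynomial.C (b i) * p * MvPolynomial.C t * lin e +
        2 * lin b * p * (MvPolynomial.C (e i) * MvPolynomial.C t) := by
  have h1 : ∀ c, pdv i (scX b c) * (p * (MvPolynomial.C (e c) * MvPolynomial.C t)) =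
      (2 * MvPolynomial.C (b i) * p * MvPolynomial.C t) *
        (MvPolynomial.X c * MvPolynomial.C (e c)) +
      (if c = i then 2 * lin b * (p * (MvPolynomial.C (e c) * MvPolynomial.C t)) else 0) -
      (2 * MvPolynomial.X i * p * MvPolynomial.C t) *
        (MvPolynomial.C (b c) * MvPolynomial.C (e c)) := by
    intro c
    rw [kb_nu_dscX]
    split_ifs <;> ring
  rw [Finset.sum_congr rfl fun c _ => h1 c, Finset.sum_sub_distrib, Finset.sum_add_distrib,
    ← Finset.mul_sum, ← Finset.mul_sum, kb_nu_xlin, kb_nu_dot, hb, map_zero, mul_zero, sub_zero,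
    Finset.sum_ite_eq' Finset.univ i, if_pos (Finset.mem_univ i)]
  ring

theorem kb_nu {n : ℕ} (b k l e : Fin n → ℂ) (hb : dot b e = 0) (a m : ℕ) :
    Kb b (nu k l e a m) =
      tens (2 * MvPolynomial.C ((a : ℂ) + (m : ℂ)) * lin b * lin k ^ a * lin l ^ m
        - xsq n * (MvPolynomial.C ((a : ℂ) * dot b k) * lin k ^ (a - 1) * lin l ^ m
          + MvPolynomial.C ((m : ℂ) * dot b l) * lin k ^ a * lin l ^ (m - 1))) e e
      + tens (2 * lin k ^ a * lin l ^ m * lin e) b e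
      + tens (2 * lin k ^ a * lin l ^ m * lin e) e b := by
  funext i j
  have e1 : Kb b (nu k l e a m) i j =
      (∑ c, scX b c * pdv c ((lin k ^ a * lin l ^ m) * MvPolynomial.C (e i * e j))) +
      (∑ c, pdv i (scX b c) * ((lin k ^ a * lin l ^ m) * MvPolynomial.C (e c * e j))) +
      (∑ c, pdv j (scX b c) * ((lin k ^ a * lin l ^ m) * MvPolynomial.C (e i * e c))) -
      2 * (2 * lin b) * ((lin k ^ a * lin l ^ m) * MvPolynomial.C (e i * e j)) := rfl
  have e2 : ∀ c, (MvPolynomial.C (e c * e j) : MvPolynomial (Fin n) ℂ) =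
      MvPolynomial.C (e c) * MvPolynomial.C (e j) := fun c => map_mul _ _ _
  have e3 : ∀ c, (MvPolynomial.C (e i * e c) : MvPolynomial (Fin n) ℂ) =
      MvPolynomial.C (e c) * MvPolynomial.C (e i) := fun c => by
    rw [← map_mul, mul_comm]
  have e4 : (∑ c, pdv i (scX b c) * ((lin k ^ a * lin l ^ m) * MvPolynomial.C (e c * e j))) =
      ∑ c, pdv i (scX b c) * ((lin k ^ a * lin l ^ m) *
        (MvPolynomial.C (e c) * MvPolynomial.C (e j))) :=
    Finset.sum_congr rfl fun c _ => by rw [e2]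
  have e5 : (∑ c, pdv j (scX b c) * ((lin k ^ a * lin l ^ m) * MvPolynomial.C (e i * e c))) =
      ∑ c, pdv j (scX b c) * ((lin k ^ a * lin l ^ m) *
        (MvPolynomial.C (e c) * MvPolynomial.C (e i))) :=
    Finset.sum_congr rfl fun c _ => by rw [e3]
  rw [e1, kb_nu_S1, e4, e5, kb_nu_S2 b e hb, kb_nu_S2 b e hb]
  simp only [Pi.add_apply, tens, map_mul]
  ring

end CInv
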