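import Pool.Agent.Helper771.CInv.Defs

set_option linter.all false

open scoped BigOperators

namespace CInv



theorem xsq_frame_mul {n : ℕ} (u v : Fin n → ℂ) : lin u * lin v =
    ∑ i, ∑ j, MvPolynomial.C (u i * v j) * (MvPolynomial.X i * MvPolynomial.X j) := by
  unfold lin
  rw [Finset.sum_mul_sum]
  refine Finset.sum_congr rfl fun i _ => Finset.sum_congr rfl fun j _ => ?_
  rw [MvPolynomial.C_mul]
  ring

theorem xsq_frame {n : ℕ} (F : Frame n) :
    xsq n = 4 * lin F.k * lin F.l + 4 * lin F.e * lin F.e' + ∑ α, lin (F.f α) ^ 2 := by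
  have h1 : 4 * lin F.k * lin F.l + 4 * lin F.e * lin F.e' + ∑ α, lin (F.f α) ^ 2 =
      2 * (lin F.k * lin F.l + lin F.l * lin F.k) + 2 * (lin F.e * lin F.e' + lin F.e' * lin F.e) +
      ∑ α, lin (F.f α) * lin (F.f α) := by
    have : ∑ α, lin (F.f α) ^ 2 = ∑ α, lin (F.f α) * lin (F.f α) :=
      Finset.sum_congr rfl fun α _ => pow_two _
    rw [this]
    ring
  rw [h1]
  simp only [xsq_frame_mul]
  have h2 : ∑ α, ∑ i, ∑ j, MvPolynomial.C (F.f α i * F.f α j) *
      (MvPolynomial.X i * MvPolynomial.X j) =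
      ∑ i, ∑ j, ∑ α, MvPolynomial.C (F.f α i * F.f α j) *
      (MvPolynomial.X i * MvPolynomial.X j : MvPolynomial (Fin n) ℂ) := by
    rw [Finset.sum_comm]
    refine Finset.sum_congr rfl fun i _ => ?_
    rw [Finset.sum_comm]
  rw [h2]
  simp only [← Finset.sum_add_distrib, Finset.mul_sum]
  unfold xsq
  refine Finset.sum_congr rfl fun i _ => ?_
  have h3 : ∀ j : Fin n, 2 * (MvPolynomial.C (F.k i * F.l j) *
        (MvPolynomial.X i * MvPolynomial.X j : MvPolynomial (Fin n) ℂ) +
      MvPolynomial.C (F.l i * F.k j) * (MvPolynomial.X i * MvPolynomial.X j)) +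
      2 * (MvPolynomial.C (F.e i * F.e' j) * (MvPolynomial.X i * MvPolynomial.X j) +
      MvPolynomial.C (F.e' i * F.e j) * (MvPolynomial.X i * MvPolynomial.X j)) +
      ∑ α, MvPolynomial.C (F.f α i * F.f α j) * (MvPolynomial.X i * MvPolynomial.X j) =
      MvPolynomial.C (if i = j then 1 else 0) * (MvPolynomial.X i * MvPolynomial.X j) := by
    intro j
    rw [← F.compl i j, ← Finset.sum_mul]
    have e2 : (2 : MvPolynomial (Fin n) ℂ) = MvPolynomial.C (2 : ℂ) := by
      rw [map_ofNat]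
    simp only [map_add, map_mul, map_sum, e2]
    ring
  simp only [h3]
  rw [Finset.sum_eq_single i]
  · rw [if_pos rfl, map_one, one_mul, pow_two]
  · intro j _ hj
    rw [if_neg (Ne.symm hj), map_zero, zero_mul]
  · intro h
    exact absurd (Finset.mem_univ i) h

end CInv
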