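import Pool.Agent.Helper771.CInv.Defs
import Pool.Agent.Helper771.CInv.P_xsq_frame
import Pool.Agent.Helper771.CInv.P_kb_nu
import Pool.Agent.Helper771.CInv.P_core_rel

set_option linter.all false

open scoped BigOperators

namespace CInv



theorem ck_dot_comm {n : ℕ} (u v : Fin n → ℂ) : dot u v = dot v u := by
  unfold dot
  exact Finset.sum_congr rfl fun i _ => mul_comm _ _

/-- `tens` as a linear map in the polynomial -/
noncomputable def ckT {n : ℕ} (L : Mx n →ₗ[ℂ] ℂ) (u w : Fin n → ℂ) :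
    MvPolynomial (Fin n) ℂ →ₗ[ℂ] ℂ where
  toFun p := L (tens p u w)
  map_add' p q := by
    rw [← map_add]
    congr 1
    funext i j
    simp only [tens, Pi.add_apply, add_mul]
  map_smul' c p := by
    rw [RingHom.id_apply, ← map_smul]
    congr 1
    funext i j
    simp only [tens, Pi.smul_apply, smul_mul_assoc]

theorem ckT_apply {n : ℕ} (L : Mx n →ₗ[ℂ] ℂ) (u w : Fin n → ℂ) (p : MvPolynomial (Fin n) ℂ) :
    L (tens p u w) = ckT L u w p := rfl

theorem ckT_C {n : ℕ} (L : Mx n →ₗ[ℂ] ℂ) (u w : Fin n → ℂ) (c : ℂ)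
    (p : MvPolynomial (Fin n) ℂ) : ckT L u w (MvPolynomial.C c * p) = c * ckT L u w p := by
  rw [← MvPolynomial.smul_eq_C_mul, map_smul, smul_eq_mul]

theorem ckT_two {n : ℕ} (L : Mx n →ₗ[ℂ] ℂ) (u w : Fin n → ℂ)
    (p : MvPolynomial (Fin n) ℂ) : ckT L u w (2 * p) = 2 * ckT L u w p := by
  rw [← ckT_C, map_ofNat]

theorem ck_pow {n : ℕ} (a : ℕ) (p : MvPolynomial (Fin n) ℂ) :
    (MvPolynomial.C (a : ℂ)) * (p * p ^ (a - 1)) = MvPolynomial.C (a : ℂ) * p ^ a := by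
  cases a with
  | zero => simp
  | succ a => rw [Nat.add_sub_cancel, ← pow_succ']

theorem core_K {n : ℕ} (hn : 4 ≤ n) (L : Mx n →ₗ[ℂ] ℂ) (m a : ℕ)
    (hN : ∀ F : Frame n, ∀ j ≤ m, ∀ b, b + j = a + m + 1 → L (nu F.k F.l F.e b j) = 0)
    (F : Frame n) :
    L (Kb F.l (nu F.k F.l F.e a m)) = (2 * ((m : ℂ) + 1) - n) * L (nu F.k F.l F.e a (m + 1)) ∧
    L (Kb F.k (nu F.k F.l F.e a m)) = 0 ∧ L (Kb F.e (nu F.k F.l F.e a m)) = 0 ∧
    ∀ α, L (Kb (F.f α) (nu F.k F.l F.e a m)) = 0 := by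
  obtain ⟨R1, R2, R3, R4, R5, R6, R7⟩ := core_rel L m a hN F
  have hN0 := hN F m le_rfl (a + 1) (by omega)
  unfold nu at R2 R3 hN0
  simp only [ckT_apply] at R1 R2 R3 R4 R5 R6 R7 hN0
  obtain ⟨X, hX⟩ : ∃ X, X = ckT L F.e F.e (lin F.k ^ a * lin F.l ^ (m + 1)) := ⟨_, rfl⟩
  have h2 : (2 : MvPolynomial (Fin n) ℂ) * MvPolynomial.C (1 / 2 : ℂ) = 1 := by
    rw [← map_ofNat (MvPolynomial.C : ℂ →+* MvPolynomial (Fin n) ℂ) 2, ← map_mul]
    norm_num
  refine ⟨?_, ?_, ?_, ?_⟩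
  · rw [kb_nu _ _ _ _ F.le, map_add, map_add, ckT_apply, ckT_apply, ckT_apply]
    have hp : (2 * MvPolynomial.C ((a : ℂ) + (m : ℂ)) * lin F.l * lin F.k ^ a * lin F.l ^ m
        - xsq n * (MvPolynomial.C ((a : ℂ) * dot F.l F.k) * lin F.k ^ (a - 1) * lin F.l ^ m
          + MvPolynomial.C ((m : ℂ) * dot F.l F.l) * lin F.k ^ a * lin F.l ^ (m - 1))) =
        MvPolynomial.C (2 * (m : ℂ)) * (lin F.k ^ a * lin F.l ^ (m + 1))
        - MvPolynomial.C (2 * (a : ℂ)) * (lin F.k ^ (a - 1) * lin F.e * lin F.e' * lin F.l ^ m)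
        - ∑ α, MvPolynomial.C ((1 / 2 : ℂ) * (a : ℂ)) *
          (lin F.k ^ (a - 1) * lin (F.f α) ^ 2 * lin F.l ^ m) := by
      have hS : ∑ α, MvPolynomial.C ((1 / 2 : ℂ) * (a : ℂ)) *
          (lin F.k ^ (a - 1) * lin (F.f α) ^ 2 * lin F.l ^ m) =
          (∑ α, lin (F.f α) ^ 2) * (MvPolynomial.C ((1 / 2 : ℂ) * (a : ℂ)) *
            lin F.k ^ (a - 1) * lin F.l ^ m) := by
        rw [Finset.sum_mul]
        exact Finset.sum_congr rfl fun α _ => by ring
      rw [hS, xsq_frame F, ck_dot_comm F.l F.k, F.kl, F.ll, mul_zero, map_zero, zero_mul, zero_mul,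
        add_zero, pow_succ]
      simp only [map_mul, map_add, map_ofNat]
      have hk := ck_pow a (lin F.k)
      linear_combination (-(4 : MvPolynomial (Fin n) ℂ)) * MvPolynomial.C (1 / 2 : ℂ) * lin F.l * lin F.l ^ m * hk
        - (2 * MvPolynomial.C (a : ℂ) * lin F.l * lin F.l ^ m * lin F.k ^ a
          + 2 * lin F.e * lin F.e' * MvPolynomial.C (a : ℂ) * lin F.k ^ (a - 1) * lin F.l ^ m) * h2
    rw [hp, map_sub, map_sub, map_sum, ckT_C, ckT_C]
    simp only [ckT_C]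
    have hq : ∀ u w : Fin n → ℂ, ckT L u w (2 * lin F.k ^ a * lin F.l ^ m * lin F.e) =
        2 * ckT L u w (lin F.k ^ a * lin F.e * lin F.l ^ m) := by
      intro u w
      rw [← ckT_two]
      congr 1
      ring
    rw [hq, hq]
    have hsum : ∑ α, (1 / 2 : ℂ) * (a : ℂ) *
        ckT L F.e F.e (lin F.k ^ (a - 1) * lin (F.f α) ^ 2 * lin F.l ^ m) =
        ((n : ℂ) - 4) * X := by
      have h3 : ∀ α, (1 / 2 : ℂ) * (a : ℂ) *
          ckT L F.e F.e (lin F.k ^ (a - 1) * lin (F.f α) ^ 2 * lin F.l ^ m) = X := by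
        intro α
        have := R2 α
        rw [hX]
        linear_combination (1 / 2 : ℂ) * this
      rw [Finset.sum_congr rfl (fun α _ => h3 α), Finset.sum_const, Finset.card_univ,
        Fintype.card_fin, nsmul_eq_mul, Nat.cast_sub hn]
      norm_num
    rw [hsum]
    unfold nu
    rw [ckT_apply, ← hX]
    rw [← hX] at R3
    linear_combination (-2 : ℂ) * R3
  · rw [kb_nu _ _ _ _ F.ke, map_add, map_add, ckT_apply, ckT_apply, ckT_apply]
    have hp : (2 * MvPolynomial.C ((a : ℂ) + (m : ℂ)) * lin F.k * lin F.k ^ a * lin F.l ^ m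
        - xsq n * (MvPolynomial.C ((a : ℂ) * dot F.k F.k) * lin F.k ^ (a - 1) * lin F.l ^ m
          + MvPolynomial.C ((m : ℂ) * dot F.k F.l) * lin F.k ^ a * lin F.l ^ (m - 1))) =
        MvPolynomial.C (2 * (a : ℂ)) * (lin F.k ^ (a + 1) * lin F.l ^ m)
        - MvPolynomial.C (2 * (m : ℂ)) * (lin F.k ^ a * lin F.e * lin F.e' * lin F.l ^ (m - 1))
        - ∑ α, MvPolynomial.C ((1 / 2 : ℂ) * (m : ℂ)) *
          (lin F.k ^ a * lin (F.f α) ^ 2 * lin F.l ^ (m - 1)) := by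
      have hS : ∑ α, MvPolynomial.C ((1 / 2 : ℂ) * (m : ℂ)) *
          (lin F.k ^ a * lin (F.f α) ^ 2 * lin F.l ^ (m - 1)) =
          (∑ α, lin (F.f α) ^ 2) * (MvPolynomial.C ((1 / 2 : ℂ) * (m : ℂ)) *
            lin F.k ^ a * lin F.l ^ (m - 1)) := by
        rw [Finset.sum_mul]
        exact Finset.sum_congr rfl fun α _ => by ring
      rw [hS, xsq_frame F, F.kl, F.kk, mul_zero, map_zero, zero_mul, zero_mul,
        zero_add, pow_succ]
      simp only [map_mul, map_add, map_ofNat]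
      have hk := ck_pow m (lin F.l)
      linear_combination (-(4 : MvPolynomial (Fin n) ℂ)) * MvPolynomial.C (1 / 2 : ℂ) * lin F.k * lin F.k ^ a * hk
        - (2 * MvPolynomial.C (m : ℂ) * lin F.k * lin F.l ^ m * lin F.k ^ a
          + 2 * lin F.e * lin F.e' * MvPolynomial.C (m : ℂ) * lin F.k ^ a * lin F.l ^ (m - 1)) * h2
    rw [hp, map_sub, map_sub, map_sum, ckT_C, ckT_C]
    simp only [ckT_C]
    have hq : ∀ u w : Fin n → ℂ, ckT L u w (2 * lin F.k ^ a * lin F.l ^ m * lin F.e) =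
        2 * ckT L u w (lin F.k ^ a * lin F.e * lin F.l ^ m) := by
      intro u w
      rw [← ckT_two]
      congr 1
      ring
    rw [hq, hq]
    have hsum : ∑ α, (1 / 2 : ℂ) * (m : ℂ) *
        ckT L F.e F.e (lin F.k ^ a * lin (F.f α) ^ 2 * lin F.l ^ (m - 1)) = 0 := by
      apply Finset.sum_eq_zero
      intro α _
      rcases Nat.eq_zero_or_pos m with h0 | h0
      · rw [h0]; simp
      · rw [R7 α h0, mul_zero]
    rw [hsum, hN0]
    linear_combination (2 : ℂ) * R5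
  · rw [kb_nu _ _ _ _ F.ee, map_add, map_add, ckT_apply, ckT_apply]
    have hp : (2 * MvPolynomial.C ((a : ℂ) + (m : ℂ)) * lin F.e * lin F.k ^ a * lin F.l ^ m
        - xsq n * (MvPolynomial.C ((a : ℂ) * dot F.e F.k) * lin F.k ^ (a - 1) * lin F.l ^ m
          + MvPolynomial.C ((m : ℂ) * dot F.e F.l) * lin F.k ^ a * lin F.l ^ (m - 1))) =
        MvPolynomial.C (2 * ((a : ℂ) + (m : ℂ))) * (lin F.k ^ a * lin F.e * lin F.l ^ m) := by
      rw [ck_dot_comm F.e F.k, ck_dot_comm F.e F.l, F.ke, F.le, mul_zero, mul_zero, map_zero]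
      simp only [map_mul, map_ofNat]
      ring
    have hq : ckT L F.e F.e (2 * lin F.k ^ a * lin F.l ^ m * lin F.e) =
        2 * ckT L F.e F.e (lin F.k ^ a * lin F.e * lin F.l ^ m) := by
      rw [← ckT_two]
      congr 1
      ring
    rw [hp, ckT_C, hq, R4]
    ring
  · intro α
    have hfe : dot (F.f α) F.e = 0 := by rw [ck_dot_comm]; exact F.ef α
    rw [kb_nu _ _ _ _ hfe, map_add, map_add, ckT_apply, ckT_apply, ckT_apply]
    have hp : (2 * MvPolynomial.C ((a : ℂ) + (m : ℂ)) * lin (F.f α) * lin F.k ^ a * lin F.l ^ m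
        - xsq n * (MvPolynomial.C ((a : ℂ) * dot (F.f α) F.k) * lin F.k ^ (a - 1) * lin F.l ^ m
          + MvPolynomial.C ((m : ℂ) * dot (F.f α) F.l) * lin F.k ^ a * lin F.l ^ (m - 1))) =
        MvPolynomial.C (2 * ((a : ℂ) + (m : ℂ))) * (lin F.k ^ a * lin (F.f α) * lin F.l ^ m) := by
      rw [ck_dot_comm (F.f α) F.k, ck_dot_comm (F.f α) F.l, F.kf, F.lf, mul_zero, mul_zero,
        map_zero]
      simp only [map_mul, map_ofNat]
      ring
    have hq : ∀ u w : Fin n → ℂ, ckT L u w (2 * lin F.k ^ a * lin F.l ^ m * lin F.e) =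
        2 * ckT L u w (lin F.k ^ a * lin F.e * lin F.l ^ m) := by
      intro u w
      rw [← ckT_two]
      congr 1
      ring
    rw [hp, ckT_C, hq, hq, R1 α]
    linear_combination (2 : ℂ) * R6 α

end CInv
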