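import Pool.Agent.Helper771.CInv.Defs
import Pool.Agent.Helper771.CInv.P_fams
import Pool.Agent.Helper771.CInv.P_frame_decomp
import Pool.Agent.Helper771.CInv.P_curve_poly

set_option linter.all false

open scoped BigOperators

namespace CInv



theorem gd_lin_add {n : ℕ} (u v : Fin n → ℂ) : lin (u + v) = lin u + lin v := by
  unfold lin
  rw [← Finset.sum_add_distrib]
  apply Finset.sum_congr rfl
  intro i _
  rw [Pi.add_apply, map_add, add_mul]

theorem gd_lin_smul {n : ℕ} (c : ℂ) (v : Fin n → ℂ) :
    lin (c • v) = MvPolynomial.C c * lin v := by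
  unfold lin
  rw [Finset.mul_sum]
  apply Finset.sum_congr rfl
  intro i _
  rw [Pi.smul_apply, smul_eq_mul, map_mul, mul_assoc]

theorem gd_lin_sub {n : ℕ} (u v : Fin n → ℂ) : lin (u - v) = lin u - lin v := by
  have h : u - v = u + (-1 : ℂ) • v := by
    rw [neg_one_smul, sub_eq_add_neg]
  rw [h, gd_lin_add, gd_lin_smul, map_neg, map_one, neg_one_mul, sub_eq_add_neg]

theorem gd_dot_add {n : ℕ} (u v w : Fin n → ℂ) : dot (u + v) w = dot u w + dot v w := by
  unfold dot
  rw [← Finset.sum_add_distrib]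
  apply Finset.sum_congr rfl
  intro i _
  rw [Pi.add_apply, add_mul]

theorem gd_dot_smul {n : ℕ} (c : ℂ) (v w : Fin n → ℂ) : dot (c • v) w = c * dot v w := by
  unfold dot
  rw [Finset.mul_sum]
  apply Finset.sum_congr rfl
  intro i _
  rw [Pi.smul_apply, smul_eq_mul, mul_assoc]

theorem gd_dot_comm {n : ℕ} (v w : Fin n → ℂ) : dot v w = dot w v := by
  unfold dot
  apply Finset.sum_congr rfl
  intro i _
  rw [mul_comm]

theorem gen_density {n : ℕ} (hn : 5 ≤ n) (L : Mx n →ₗ[ℂ] ℂ) (a m : ℕ)
    (Z : Submodule ℂ (Fin n → ℂ)) (hZ : Module.finrank ℂ Z + 2 ≤ n)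
    (h : ∀ F : Frame n, F.k ∉ Z ⊔ Submodule.span ℂ {F.e} → L (nu F.k F.l F.e a m) = 0)
    (F : Frame n) : L (nu F.k F.l F.e a m) = 0 := by
  classical
  set Y : Submodule ℂ (Fin n → ℂ) := Z ⊔ Submodule.span ℂ {F.e} with hY
  by_cases hk : F.k ∈ Y
  swap
  · exact h F hk
  have he : F.e ∈ Y := by
    rw [hY]
    exact Submodule.mem_sup_right (Submodule.mem_span_singleton_self _)
  by_cases hA : ∃ α, ¬ (F.f α ∈ Y ∧ F.l ∈ Y)
  · obtain ⟨α, hα⟩ := hA
    have hinf : {σ : ℂ | F.k + σ • F.f α - σ ^ 2 • F.l ∉ Y}.Infinite := by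
      have hfin : ({σ : ℂ | F.k + σ • F.f α - σ ^ 2 • F.l ∈ Y}).Finite := by
        have hsub : {σ : ℂ | F.k + σ • F.f α - σ ^ 2 • F.l ∈ Y} ⊆
            {0} ∪ {σ : ℂ | σ ≠ 0 ∧ F.f α - σ • F.l ∈ Y} := by
          intro σ hσ
          by_cases h0 : σ = 0
          · left; exact h0
          · right
            refine ⟨h0, ?_⟩
            have h1 : F.k + σ • F.f α - σ ^ 2 • F.l - F.k ∈ Y := Y.sub_mem hσ hk
            have h2 : F.k + σ • F.f α - σ ^ 2 • F.l - F.k = σ • (F.f α - σ • F.l) := by
              rw [smul_sub, smul_smul, ← sq]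
              abel
            rw [h2] at h1
            exact (Y.smul_mem_iff h0).1 h1
        refine (Set.Finite.union (Set.finite_singleton 0) ?_).subset hsub
        apply Set.Subsingleton.finite
        rintro σ ⟨h0, h1⟩ τ ⟨h0', h1'⟩
        by_contra hne
        apply hα
        have h2 : (τ - σ) • F.l ∈ Y := by
          have h3 := Y.sub_mem h1 h1'
          have h4 : F.f α - σ • F.l - (F.f α - τ • F.l) = (τ - σ) • F.l := by
            rw [sub_smul]
            abel
          rwa [h4] at h3
        have h5 : F.l ∈ Y := (Y.smul_mem_iff (sub_ne_zero.2 (Ne.symm hne))).1 h2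
        refine ⟨?_, h5⟩
        have h6 := Y.add_mem h1 (Y.smul_mem σ h5)
        rwa [sub_add_cancel] at h6
      exact hfin.infinite_compl
    let Θ : Fin n → Fin n → Polynomial (MvPolynomial (Fin n) ℂ) := fun i j =>
      (Polynomial.C (lin F.k) + Polynomial.X * Polynomial.C (lin (F.f α)) -
        Polynomial.X ^ 2 * Polynomial.C (lin F.l)) ^ a * Polynomial.C (lin F.l ^ m) *
        Polynomial.C (MvPolynomial.C (F.e i * F.e j))
    have hc := curve_poly L Θ (hinf.mono ?_) 0
    · have e1 : (fun i j => (Θ i j).coeff 0) = nu F.k F.l F.e a m := by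
        funext i j
        rw [Polynomial.coeff_zero_eq_eval_zero]
        simp [Θ, nu, tens]
      rw [e1] at hc
      exact hc
    · intro σ hσ
      show L (fun i j => (Θ i j).eval (MvPolynomial.C σ)) = 0
      obtain ⟨F', hk', hl', he', _⟩ := (fams F σ).1 α
      have h1 := h F' (by rw [hk', he']; exact hσ)
      rw [hk', hl', he'] at h1
      have e1 : (fun i j => (Θ i j).eval (MvPolynomial.C σ)) =
          nu (F.k + σ • F.f α - σ ^ 2 • F.l) F.l F.e a m := by
        funext i j
        simp only [Θ, nu, tens, gd_lin_sub, gd_lin_add, gd_lin_smul, Polynomial.eval_mul,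
          Polynomial.eval_pow, Polynomial.eval_sub, Polynomial.eval_add, Polynomial.eval_C,
          Polynomial.eval_X, map_pow]
      rw [e1]
      exact h1
  · push Not at hA
    have hl : F.l ∈ Y := (hA ⟨0, by omega⟩).2
    have hf : ∀ α, F.f α ∈ Y := fun α => (hA α).1
    have he0 : F.e ≠ 0 := by
      intro h0
      have := F.hee'
      rw [h0] at this
      unfold dot at this
      simp at this
    have hfr : Module.finrank ℂ Y < n := by
      have h1 := Submodule.finrank_add_le_finrank_add_finrank Z (Submodule.span ℂ {F.e})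
      rw [finrank_span_singleton he0, ← hY] at h1
      omega
    have horth : ∀ y ∈ Y, dot y F.e = 0 := by
      intro y hy
      by_contra hne
      have hdec := frame_decomp F y
      have hs : ∑ α, dot y (F.f α) • F.f α ∈ Y :=
        Submodule.sum_mem _ fun α _ => Y.smul_mem _ (hf α)
      have h1 : (2 * dot y F.e) • F.e' ∈ Y := by
        have h2 : (2 * dot y F.e) • F.e' = y - (2 * dot y F.l) • F.k - (2 * dot y F.k) • F.l -
            (2 * dot y F.e') • F.e - ∑ α, dot y (F.f α) • F.f α := by
          nth_rewrite 2 [hdec]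
          abel
        rw [h2]
        exact Y.sub_mem (Y.sub_mem (Y.sub_mem (Y.sub_mem hy (Y.smul_mem _ hk))
          (Y.smul_mem _ hl)) (Y.smul_mem _ he)) hs
      have he' : F.e' ∈ Y :=
        (Y.smul_mem_iff (mul_ne_zero two_ne_zero hne)).1 h1
      have htop : Y = ⊤ := by
        rw [eq_top_iff]
        intro v _
        rw [frame_decomp F v]
        refine Y.add_mem (Y.add_mem (Y.add_mem (Y.add_mem (Y.smul_mem _ hk) (Y.smul_mem _ hl))
          (Y.smul_mem _ he)) (Y.smul_mem _ he')) (Submodule.sum_mem _ fun α _ =>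
          Y.smul_mem _ (hf α))
      rw [htop, finrank_top, Module.finrank_fin_fun] at hfr
      exact lt_irrefl _ hfr
    have hZo : ∀ z ∈ Z, dot z F.e = 0 := fun z hz => horth z (by
      rw [hY]; exact Submodule.mem_sup_left hz)
    have hnot : ∀ σ : ℂ, σ ≠ 0 →
        F.k + σ • F.e' ∉ Z ⊔ Submodule.span ℂ {F.e - σ • F.l} := by
      intro σ hσ hmem
      obtain ⟨z, hz, w, hw, hzw⟩ := Submodule.mem_sup.1 hmem
      obtain ⟨c, rfl⟩ := Submodule.mem_span_singleton.1 hw
      have h1 : dot (z + c • (F.e - σ • F.l)) F.e = dot (F.k + σ • F.e') F.e := by rw [hzw]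
      have h2 : F.e - σ • F.l = F.e + (-σ) • F.l := by
        rw [neg_smul, sub_eq_add_neg]
      rw [h2, gd_dot_add, gd_dot_smul, gd_dot_add, gd_dot_smul, hZo z hz, F.ee, F.le,
        gd_dot_add, gd_dot_smul, F.ke, gd_dot_comm F.e' F.e, F.hee'] at h1
      apply hσ
      linear_combination (-2) * h1
    let Θ : Fin n → Fin n → Polynomial (MvPolynomial (Fin n) ℂ) := fun i j =>
      (Polynomial.C (lin F.k) + Polynomial.X * Polynomial.C (lin F.e')) ^ a *
        Polynomial.C (lin F.l ^ m) *
        ((Polynomial.C (MvPolynomial.C (F.e i)) - Polynomial.X * Polynomial.C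
          (MvPolynomial.C (F.l i))) * (Polynomial.C (MvPolynomial.C (F.e j)) -
          Polynomial.X * Polynomial.C (MvPolynomial.C (F.l j))))
    have hinf : ({σ : ℂ | σ ≠ 0}).Infinite := by
      have := (Set.finite_singleton (0:ℂ)).infinite_compl
      exact this
    have hc := curve_poly L Θ (hinf.mono ?_) 0
    · have e1 : (fun i j => (Θ i j).coeff 0) = nu F.k F.l F.e a m := by
        funext i j
        rw [Polynomial.coeff_zero_eq_eval_zero]
        simp [Θ, nu, tens]
      rw [e1] at hc
      exact hc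
    · intro σ hσ
      show L (fun i j => (Θ i j).eval (MvPolynomial.C σ)) = 0
      obtain ⟨F', hk', hl', he', _⟩ := (fams F σ).2.1
      have h1 := h F' (by rw [hk', he']; exact hnot σ hσ)
      rw [hk', hl', he'] at h1
      have e1 : (fun i j => (Θ i j).eval (MvPolynomial.C σ)) =
          nu (F.k + σ • F.e') F.l (F.e - σ • F.l) a m := by
        funext i j
        simp only [Θ, nu, tens, gd_lin_sub, gd_lin_add, gd_lin_smul, Polynomial.eval_mul,
          Polynomial.eval_pow, Polynomial.eval_sub, Polynomial.eval_add, Polynomial.eval_C,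
          Polynomial.eval_X, Pi.sub_apply, Pi.smul_apply, smul_eq_mul, map_mul, map_sub]
      rw [e1]
      exact h1

end CInv
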