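import Pool.Agent.Helper771.CInv.Defs

set_option linter.all false

open scoped BigOperators

namespace CInv



theorem aux_lin_add {n : ℕ} (b b' : Fin n → ℂ) : lin (b + b') = lin b + lin b' := by
  unfold lin
  rw [← Finset.sum_add_distrib]
  apply Finset.sum_congr rfl
  intro i _
  rw [Pi.add_apply, map_add]
  ring

theorem aux_lin_smul {n : ℕ} (z : ℂ) (b : Fin n → ℂ) : lin (z • b) = MvPolynomial.C z * lin b := by
  unfold lin
  rw [Finset.mul_sum]
  apply Finset.sum_congr rfl
  intro i _
  rw [Pi.smul_apply, smul_eq_mul, map_mul]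
  ring

theorem aux_scX_add {n : ℕ} (b b' : Fin n → ℂ) (a : Fin n) :
    scX (b + b') a = scX b a + scX b' a := by
  unfold scX
  rw [aux_lin_add, Pi.add_apply, map_add]
  ring

theorem aux_scX_smul {n : ℕ} (z : ℂ) (b : Fin n → ℂ) (a : Fin n) :
    scX (z • b) a = MvPolynomial.C z * scX b a := by
  unfold scX
  rw [aux_lin_smul, Pi.smul_apply, smul_eq_mul, map_mul]
  ring

theorem aux_pdv_add {n : ℕ} (i : Fin n) (p p' : MvPolynomial (Fin n) ℂ) :
    pdv i (p + p') = pdv i p + pdv i p' := by
  unfold pdv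
  rw [map_add]

theorem aux_pdv_C {n : ℕ} (i : Fin n) (z : ℂ) (p : MvPolynomial (Fin n) ℂ) :
    pdv i (MvPolynomial.C z * p) = MvPolynomial.C z * pdv i p := by
  unfold pdv
  rw [MvPolynomial.pderiv_C_mul]

theorem kb_lin {n : ℕ} (h : Mx n) :
    (∀ b b' : Fin n → ℂ, Kb (b + b') h = Kb b h + Kb b' h) ∧
    (∀ (z : ℂ) (b : Fin n → ℂ), Kb (z • b) h = z • Kb b h) := by
  constructor
  · intro b b'
    funext i j
    show KX (scX (b + b')) (2 * lin (b + b')) h i j =
      KX (scX b) (2 * lin b) h i j + KX (scX b') (2 * lin b') h i j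
    unfold KX Lie
    simp only [aux_scX_add, aux_lin_add, aux_pdv_add, add_mul, mul_add, Finset.sum_add_distrib]
    ring
  · intro z b
    funext i j
    show KX (scX (z • b)) (2 * lin (z • b)) h i j = z • KX (scX b) (2 * lin b) h i j
    rw [MvPolynomial.smul_eq_C_mul]
    unfold KX Lie
    simp only [aux_scX_smul, aux_lin_smul, aux_pdv_C]
    have e : ∀ (f g : Fin n → MvPolynomial (Fin n) ℂ),
        ∑ a, MvPolynomial.C z * f a * g a = MvPolynomial.C z * ∑ a, f a * g a := by
      intro f g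
      rw [Finset.mul_sum]
      exact Finset.sum_congr rfl (fun a _ => by ring)
    rw [e, e, e]
    ring

end CInv
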