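import Pool.Agent.Helper771.CInv.Defs

set_option linter.all false

open scoped BigOperators

namespace CInv



theorem xi_exists {n : ℕ} (Z : Submodule ℂ (Fin n → ℂ)) (F : Frame n)
    (hk : F.k ∉ Z ⊔ Submodule.span ℂ {F.e}) :
    ∃ ξ : Fin n → ℂ, (∀ z ∈ Z, dot ξ z = 0) ∧ dot ξ F.e = 0 ∧ dot ξ F.k = 1 / 2 := by
  obtain ⟨φ, hφ2, hφ1⟩ := Submodule.exists_le_ker_of_notMem hk
  have hdot : ∀ v : Fin n → ℂ,
      dot (fun i => (1 / (2 * φ F.k)) * φ (Pi.single i 1)) v = (1 / (2 * φ F.k)) * φ v := by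
    intro v
    have h1 : v = ∑ i, v i • (Pi.single i (1 : ℂ) : Fin n → ℂ) := by
      funext j
      rw [Finset.sum_apply, Finset.sum_eq_single j]
      · simp
      · intro b _ hb
        simp [Pi.single_apply, Ne.symm hb]
      · intro h
        exact absurd (Finset.mem_univ j) h
    conv_rhs => rw [h1]
    rw [map_sum, Finset.mul_sum]
    unfold dot
    apply Finset.sum_congr rfl
    intro i _
    rw [map_smul, smul_eq_mul]
    ring
  refine ⟨fun i => (1 / (2 * φ F.k)) * φ (Pi.single i 1), ?_, ?_, ?_⟩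
  · intro z hz
    rw [hdot]
    have h1 : φ z = 0 := hφ1 (Submodule.mem_sup_left hz)
    rw [h1, mul_zero]
  · rw [hdot]
    have h1 : φ F.e = 0 := hφ1 (Submodule.mem_sup_right (Submodule.mem_span_singleton_self _))
    rw [h1, mul_zero]
  · rw [hdot]
    have h1 : φ F.k ≠ 0 := hφ2
    field_simp

end CInv
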