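import Pool.Agent.Helper771.CInv.Defs

set_option linter.all false

open scoped BigOperators

namespace CInv



theorem ord_nil {V A : Type} [CommRing A] [Algebra ℝ A] {r : ℕ} {I : Ideal A} (hI : I ^ r = ⊥)
    {Φ : MvPolynomial V ℝ} (hΦ : OrdGE r Φ) (y : V → A) (hy : ∀ v, y v ∈ I) :
    MvPolynomial.aeval y Φ = 0 := by
  rw [MvPolynomial.aeval_def, MvPolynomial.eval₂_eq]
  apply Finset.sum_eq_zero
  intro m hm
  have h1 : (∏ i ∈ m.support, y i ^ m i) ∈ ∏ i ∈ m.support, I ^ m i :=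
    Ideal.prod_mem_prod (fun i _ => Ideal.pow_mem_pow (hy i) (m i))
  have h2 : (∏ i ∈ m.support, I ^ m i) = I ^ m.degree := by
    rw [Finset.prod_pow_eq_pow_sum]
    rfl
  rw [h2] at h1
  have h3 := Ideal.pow_le_pow_right (hΦ m hm) h1
  rw [hI] at h3
  rw [(Submodule.mem_bot _).1 h3, mul_zero]

end CInv
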