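import Pool.Agent.Helper771.CInv.Defs
import Pool.Agent.Helper771.CInv.P_gi_symm
import Pool.Agent.Helper771.CInv.P_metric_compat
import Pool.Agent.Helper771.CInv.P_cc_metric
import Pool.Agent.Helper771.CInv.P_cc_chr
import Pool.Agent.Helper771.CInv.P_cc_ric
import Pool.Agent.Helper771.CInv.P_cc_covD

set_option linter.all false

open scoped BigOperators

namespace CInv



theorem cc_scal_aux {n : ℕ} {A B : Type} [CommRing A] [Algebra ℝ A] [CommRing B] [Algebra ℝ B]
    {D : Fin n → A → A} {D' : Fin n → B → B} (hD : IsDer D) (hD' : IsDer D')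
    {φ : A →+* B} {J K : Fin n → Fin n → B}
    (hc : CoordChange D D' φ J K) {g gi : Fin n → Fin n → A} (h : IsMetric g gi) :
    scal D' (pull φ J g) (pullInv φ K gi) = φ (scal D g gi) := by
  let Jm : Matrix (Fin n) (Fin n) B := Matrix.of J
  let Km : Matrix (Fin n) (Fin n) B := Matrix.of K
  let M : Matrix (Fin n) (Fin n) B := Matrix.of (fun i j => φ (gi i j))
  let N : Matrix (Fin n) (Fin n) B := Matrix.of (fun i j => φ (ric D g gi i j))
  have hKJ : Km * Jm = 1 := by
    ext i j
    rw [Matrix.mul_apply, Matrix.one_apply]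
    exact hc.kj i j
  have hX : ∀ i j, pullInv φ K gi i j = (Km.transpose * M * Km) i j := by
    intro i j
    rw [Matrix.mul_apply]
    simp only [Matrix.mul_apply, Matrix.transpose_apply, Finset.sum_mul]
    rw [Finset.sum_comm]
    unfold pullInv
    refine Finset.sum_congr rfl fun a _ => Finset.sum_congr rfl fun b _ => ?_
    simp only [Km, M, Matrix.of_apply]
    ring
  have hY : ∀ i j, ric D' (pull φ J g) (pullInv φ K gi) i j
      = (Jm * N.transpose * Jm.transpose) j i := by
    intro i j
    rw [cc_ric hD hD' hc h i j, Matrix.mul_apply]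
    simp only [Matrix.mul_apply, Matrix.transpose_apply, Finset.sum_mul]
    refine Finset.sum_congr rfl fun a _ => Finset.sum_congr rfl fun b _ => ?_
    simp only [Jm, N, Matrix.of_apply]
    ring
  have h1 : scal D' (pull φ J g) (pullInv φ K gi)
      = Matrix.trace ((Km.transpose * M * Km) * (Jm * N.transpose * Jm.transpose)) := by
    unfold scal Matrix.trace
    refine Finset.sum_congr rfl fun i _ => ?_
    rw [Matrix.diag_apply, Matrix.mul_apply]
    refine Finset.sum_congr rfl fun j _ => ?_
    rw [hX, hY]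
  have h2 : Matrix.trace ((Km.transpose * M * Km) * (Jm * N.transpose * Jm.transpose))
      = Matrix.trace (M * N.transpose) := by
    have e1 : (Km.transpose * M * Km) * (Jm * N.transpose * Jm.transpose)
        = Km.transpose * (M * (Km * Jm) * N.transpose * Jm.transpose) := by
      simp only [Matrix.mul_assoc]
    rw [e1, hKJ, Matrix.mul_one, Matrix.trace_mul_comm, Matrix.mul_assoc,
      ← Matrix.transpose_mul, hKJ, Matrix.transpose_one, Matrix.mul_one]
  rw [h1, h2]
  unfold scal Matrix.trace
  rw [map_sum]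
  refine Finset.sum_congr rfl fun i _ => ?_
  rw [Matrix.diag_apply, Matrix.mul_apply, map_sum]
  refine Finset.sum_congr rfl fun j _ => ?_
  simp only [M, N, Matrix.transpose_apply, Matrix.of_apply, map_mul]

theorem cc_schouten_aux {n : ℕ} {A B : Type} [CommRing A] [Algebra ℝ A] [CommRing B] [Algebra ℝ B]
    {D : Fin n → A → A} {D' : Fin n → B → B} (hD : IsDer D) (hD' : IsDer D')
    {φ : A →+* B} {J K : Fin n → Fin n → B}
    (hc : CoordChange D D' φ J K) {g gi : Fin n → Fin n → A} (h : IsMetric g gi) (i j : Fin n) :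
    schouten D' (pull φ J g) (pullInv φ K gi) i j
      = ∑ a, ∑ b, J i a * J j b * φ (schouten D g gi a b) := by
  unfold schouten
  rw [cc_scal_aux hD hD' hc h, cc_ric hD hD' hc h i j]
  have hp : pull φ J g i j = ∑ a, ∑ b, J i a * J j b * φ (g a b) := rfl
  rw [hp]
  simp only [hc.smul, map_sub, map_mul]
  simp only [Algebra.smul_def, Finset.mul_sum, ← Finset.sum_sub_distrib]
  refine Finset.sum_congr rfl fun a _ => Finset.sum_congr rfl fun b _ => ?_
  ring

theorem cc_nablaP {n : ℕ} {A B : Type} [CommRing A] [Algebra ℝ A] [CommRing B] [Algebra ℝ B]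
    {D : Fin n → A → A} {D' : Fin n → B → B} (hD : IsDer D) (hD' : IsDer D')
    {φ : A →+* B} {J K : Fin n → Fin n → B}
    (hc : CoordChange D D' φ J K) {g gi : Fin n → Fin n → A} (h : IsMetric g gi)
    (l : ℕ) (i : Fin (l + 2) → Fin n) :
    nablaP D' (pull φ J g) (pullInv φ K gi) l i
      = ∑ a : Fin (l + 2) → Fin n, (∏ p, J (i p) (a p)) * φ (nablaP D g gi l a) := by
  induction l with
  | zero =>
    show schouten D' (pull φ J g) (pullInv φ K gi) (i 0) (i 1)
      = ∑ a : Fin 2 → Fin n, (∏ p, J (i p) (a p)) * φ (schouten D g gi (a 0) (a 1))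
    rw [cc_schouten_aux hD hD' hc h, ← Fintype.sum_prod_type']
    refine (Fintype.sum_equiv (finTwoArrowEquiv (Fin n)) _ _ fun a => ?_).symm
    rw [Fin.prod_univ_two]
    rfl
  | succ l ih =>
    exact cc_covD hD hD' hc h (nablaP D g gi l) (nablaP D' (pull φ J g) (pullInv φ K gi) l) ih i

end CInv
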