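import Pool.Agent.Helper771.CInv.Defs

set_option linter.all false

open scoped BigOperators

namespace CInv



theorem sf_ideal_gen_sq {ι : Type} [DecidableEq ι] (i : ι) :
    (SF.gen i : SF ι) * SF.gen i = 0 := by
  apply SF.ext
  funext S
  rw [SF.c_mul, SF.c_zero]
  apply Finset.sum_eq_zero
  intro T _
  show (if T = {i} then (1 : ℂ) else 0) * (if S \ T = {i} then (1 : ℂ) else 0) = 0
  by_cases h1 : T = {i}
  · by_cases h2 : S \ T = {i}
    · exfalso
      have h3 : i ∈ S \ T := by rw [h2]; simp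
      rw [Finset.mem_sdiff] at h3
      apply h3.2
      rw [h1]; simp
    · rw [if_neg h2, mul_zero]
  · rw [if_neg h1, zero_mul]

theorem sf_ideal_aux {A : Type} [CommRing A] {ι : Type} [DecidableEq ι] (x : ι → A)
    (hx : ∀ i, x i * x i = 0) (j : Finset ι) :
    (Ideal.span (x '' (j : Set ι))) ^ (j.card + 1) = ⊥ := by
  induction j using Finset.induction_on with
  | empty => simp
  | insert i j hi ih =>
    have e : Ideal.span (x '' ((insert i j : Finset ι) : Set ι)) =
        Ideal.span {x i} + Ideal.span (x '' (j : Set ι)) := by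
      rw [Finset.coe_insert, Set.image_insert_eq, Ideal.span_insert]
      rfl
    have hA : (Ideal.span {x i}) ^ 2 = (0 : Ideal A) := by
      rw [Ideal.span_singleton_pow, sq, hx]
      simp
    have hB : (Ideal.span (x '' (j : Set ι))) ^ (j.card + 1) = (0 : Ideal A) := ih
    rw [e, Finset.card_insert_of_notMem hi, add_pow]
    show _ = (0 : Ideal A)
    apply Finset.sum_eq_zero
    intro m hm
    by_cases h2 : 2 ≤ m
    · obtain ⟨k, rfl⟩ := Nat.exists_eq_add_of_le h2
      rw [pow_add (Ideal.span {x i}), hA, zero_mul, zero_mul, zero_mul]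
    · have h3 : j.card + 1 ≤ j.card + 1 + 1 - m := by omega
      obtain ⟨k, hk⟩ := Nat.exists_eq_add_of_le h3
      rw [hk, pow_add (Ideal.span (x '' (j : Set ι))), hB, zero_mul, mul_zero, zero_mul]

theorem sf_ideal {n : ℕ} {ι : Type} [DecidableEq ι] [Fintype ι] (j : Finset ι) :
    ∃ I : Ideal (MvPolynomial (Fin n) (SF ι)), I ^ (j.card + 1) = ⊥ ∧
      ∀ i ∈ j, ∀ p : MvPolynomial (Fin n) (SF ι), MvPolynomial.C (SF.gen i) * p ∈ I := by
  refine ⟨Ideal.span ((fun i => MvPolynomial.C (SF.gen i)) '' (j : Set ι)),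
    sf_ideal_aux _ (fun i => ?_) j, fun i hi p => ?_⟩
  · show MvPolynomial.C (SF.gen i) * MvPolynomial.C (SF.gen i) = 0
    rw [← MvPolynomial.C_mul, sf_ideal_gen_sq, MvPolynomial.C_0]
  · apply Ideal.mul_mem_right
    exact Ideal.subset_span ⟨i, hi, rfl⟩

end CInv
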