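import Pool.Agent.Helper771.CInv.Defs

set_option linter.all false

open scoped BigOperators

namespace CInv



theorem sf_pow_c {ι : Type} [DecidableEq ι] (x : SF ι) (hx : x.c ∅ = 0) :
    ∀ (m : ℕ) (T : Finset ι), T.card < m → (x ^ m).c T = 0 := by
  intro m
  induction m with
  | zero => intro T hT; omega
  | succ m ih =>
    intro T hT
    rw [pow_succ, SF.c_mul]
    apply Finset.sum_eq_zero
    intro U hU
    rw [Finset.mem_powerset] at hU
    by_cases hUT : U = T
    · subst hUT
      rw [Finset.sdiff_self, hx, mul_zero]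
    · have hlt : U.card < T.card := Finset.card_lt_card (lt_of_le_of_ne hU hUT)
      rw [ih U (by omega), zero_mul]

theorem sf_nil {ι : Type} [DecidableEq ι] [Fintype ι] (x : SF ι) (hx : x.c ∅ = 0) :
    IsNilpotent x := by
  refine ⟨Fintype.card ι + 1, ?_⟩
  apply SF.ext
  funext T
  rw [sf_pow_c x hx _ T (Nat.lt_succ_of_le (Finset.card_le_univ T))]
  rfl

theorem det_one_add_unit {R : Type} [CommRing R] {n : ℕ} (S : Matrix (Fin n) (Fin n) R)
    (hS : ∀ i j, IsNilpotent (S i j)) : IsUnit (1 + S).det := by
  have h : IsNilpotent ((1 + S).det - 1) := by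
    rw [← mem_nilradical, ← Ideal.Quotient.eq_zero_iff_mem, map_sub, RingHom.map_det, map_one]
    have h1 : (Ideal.Quotient.mk (nilradical R)).mapMatrix (1 + S) = 1 := by
      rw [map_add, map_one]
      have h2 : (Ideal.Quotient.mk (nilradical R)).mapMatrix S = 0 := by
        ext i j
        simp only [RingHom.mapMatrix_apply, Matrix.map_apply, Matrix.zero_apply]
        rw [Ideal.Quotient.eq_zero_iff_mem, mem_nilradical]
        exact hS i j
      rw [h2, add_zero]
    rw [h1, Matrix.det_one, sub_self]
  have h3 := h.isUnit_add_one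
  rwa [sub_add_cancel] at h3

theorem sf_inverse {n : ℕ} {ι : Type} [DecidableEq ι] [Fintype ι]
    (H : Fin n → Fin n → MvPolynomial (Fin n) (SF ι))
    (hH : ∀ i j m, (MvPolynomial.coeff m (H i j)).c ∅ = 0) :
    ∃ gi, IsMetric (met H) gi := by
  have hM : Matrix.of (met H) = 1 + Matrix.of (fun i j => (1 / 2 : ℝ) • (H i j + H j i)) := by
    ext1 i j
    simp only [Matrix.of_apply, Matrix.add_apply, met, flat, Matrix.one_apply]
  have hS : ∀ i j, IsNilpotent ((Matrix.of (fun i j => (1 / 2 : ℝ) • (H i j + H j i))) i j) := by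
    intro i j
    rw [MvPolynomial.isNilpotent_iff]
    intro m
    apply sf_nil
    rw [Matrix.of_apply, MvPolynomial.coeff_smul, SF.c_rsmul, MvPolynomial.coeff_add, SF.c_add,
      hH, hH, add_zero, mul_zero]
  have hu : IsUnit (Matrix.of (met H)).det := by
    rw [hM]
    exact det_one_add_unit _ hS
  refine ⟨fun i j => ((Matrix.of (met H))⁻¹ : Matrix (Fin n) (Fin n) _) i j, ?_, ?_⟩
  · intro i j
    simp only [met, flat, eq_comm (a := i) (b := j), add_comm (H i j) (H j i)]
  · intro i j
    have h := Matrix.mul_nonsing_inv _ hu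
    have h2 := congrFun (congrFun h i) j
    rw [Matrix.mul_apply, Matrix.one_apply] at h2
    exact h2

end CInv
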