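import Pool.Agent.Helper771.CInv.Defs

set_option linter.all false

open scoped BigOperators

namespace CInv



theorem dk_c {n : ℕ} {ι : Type} [DecidableEq ι] (k : ι → Fin n → ℂ) (a : Fin n) (x : SF ι)
    (S : Finset ι) : (SF.DK k a x).c S = (∑ i ∈ S, k i a) * x.c S := rfl

theorem dk_isder {n : ℕ} {ι : Type} [DecidableEq ι] (k : ι → Fin n → ℂ) :
    IsDer (A := SF ι) (SF.DK k) ∧ ∀ i (z : ℂ) a, SF.DK k i (z • a) = z • SF.DK k i a := by
  refine ⟨⟨?_, ?_, ?_, ?_⟩, ?_⟩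
  · intro i a b
    ext S
    rw [dk_c, SF.c_add, SF.c_add, dk_c, dk_c]
    ring
  · intro i a b
    ext S
    rw [dk_c, SF.c_add, SF.c_mul, SF.c_mul, SF.c_mul, Finset.mul_sum, ← Finset.sum_add_distrib]
    apply Finset.sum_congr rfl
    intro T hT
    rw [Finset.mem_powerset] at hT
    rw [dk_c, dk_c, ← Finset.sum_sdiff hT]
    ring
  · intro i r a
    ext S
    rw [dk_c, SF.c_rsmul, SF.c_rsmul, dk_c]
    ring
  · intro i j a
    ext S
    rw [dk_c, dk_c, dk_c, dk_c]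
    ring
  · intro i z a
    ext S
    rw [dk_c, SF.c_smul, SF.c_smul, dk_c]
    ring

end CInv
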