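import Pool.Agent.Helper771.CInv.Defs
import Pool.Agent.Helper771.CInv.P_gi_symm
import Pool.Agent.Helper771.CInv.P_bianchi

set_option linter.all false

open scoped BigOperators

namespace CInv



theorem bsq_flat_sum {n : ℕ} {A : Type} [CommRing A] (f : Fin n → A) (i : Fin n) :
    ∑ k, flat A i k * f k = f i := by
  rw [Finset.sum_eq_single i]
  · simp [flat]
  · intro k _ hk
    simp [flat, Ne.symm hk]
  · intro h; exact absurd (Finset.mem_univ i) h

theorem bianchi_sq {n : ℕ} {A : Type} [CommRing A] [Algebra ℝ A] [Algebra ℂ A]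
    [IsScalarTower ℝ ℂ A] {D : Fin n → A → A} (hD : IsDer D)
    (hDC : ∀ i (z : ℂ) a, D i (z • a) = z • D i a)
    {g gi : Fin n → Fin n → A} (h : IsMetric g gi) (κ : Fin n → ℂ) (e : A)
    (he : ∀ i, D i e = κ i • e) (h0 : ∀ i j, e * g i j = e * flat A i j)
    (ρ : Fin n → Fin n → ℂ) (hρ : ∀ i j, ric D g gi i j = ρ i j • e) (b : Fin n) :
    ((∑ a, κ a * ρ a b) - 1 / 2 * κ b * ∑ a, ρ a a) • e = 0 := by
  have hD0 : ∀ c, D c 0 = 0 := by
    intro c
    have := hD.add c 0 0
    simpa using this
  have hD1 : ∀ c, D c 1 = 0 := by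
    intro c
    have := hD.mul c 1 1
    simpa using this
  have hDflat : ∀ (c i j : Fin n), D c (flat A i j) = 0 := by
    intro c i j
    unfold flat
    split_ifs
    · exact hD1 c
    · exact hD0 c
  have h1 : ∀ c i j, e * D c (g i j) = 0 := by
    intro c i j
    have h2 : D c (e * g i j) = D c (e * flat A i j) := by rw [h0]
    rw [hD.mul, hD.mul, hDflat, he, mul_zero, add_zero, smul_mul_assoc, smul_mul_assoc, h0] at h2
    exact add_eq_left.1 h2
  have h2 : ∀ k i j, e * chr D g gi k i j = 0 := by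
    intro k i j
    unfold chr
    rw [mul_smul_comm, Finset.mul_sum]
    have hz : ∀ z : A, z = 0 → (1 / 2 : ℝ) • z = 0 := by
      intro z hz; rw [hz, Algebra.smul_def, mul_zero]
    apply hz
    refine Finset.sum_eq_zero ?_
    intro l _
    have : e * (gi k l * (D i (g j l) + D j (g i l) - D l (g i j)))
        = gi k l * (e * D i (g j l) + e * D j (g i l) - e * D l (g i j)) := by ring
    rw [this, h1, h1, h1]
    ring
  have h3 : ∀ i j, e * gi i j = e * flat A i j := by
    intro i j
    have h4 : e * gi i j = ∑ k, (e * flat A i k) * gi k j := by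
      rw [← bsq_flat_sum (fun k => gi k j) i, Finset.mul_sum]
      exact Finset.sum_congr rfl (fun k _ => by ring)
    rw [h4]
    have h5 : ∑ k, (e * flat A i k) * gi k j = e * ∑ k, g i k * gi k j := by
      rw [Finset.mul_sum]
      refine Finset.sum_congr rfl (fun k _ => ?_)
      rw [← h0]
      ring
    rw [h5, h.inv]
    rfl
  have hfs : ∀ (z : Fin n → ℂ) (a : Fin n),
      ∑ c, z c • (e * flat A a c) = z a • e := by
    intro z a
    rw [Finset.sum_eq_single a]
    · simp [flat]
    · intro k _ hk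
      simp [flat, Ne.symm hk]
    · intro h; exact absurd (Finset.mem_univ a) h
  have hL : ∑ a, ∑ c, gi a c * (D c (ric D g gi a b) - (∑ k, chr D g gi k c a * ric D g gi k b)
      - ∑ k, chr D g gi k c b * ric D g gi a k) = (∑ a, κ a * ρ a b) • e := by
    rw [Finset.sum_smul]
    refine Finset.sum_congr rfl (fun a _ => ?_)
    have h5 : ∀ c, gi a c * (D c (ric D g gi a b) - (∑ k, chr D g gi k c a * ric D g gi k b)
        - ∑ k, chr D g gi k c b * ric D g gi a k) = (κ c * ρ a b) • (e * flat A a c) := by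
      intro c
      have h6 : ∑ k, chr D g gi k c a * ric D g gi k b = 0 := by
        refine Finset.sum_eq_zero (fun k _ => ?_)
        rw [hρ, mul_smul_comm, mul_comm, h2, smul_zero]
      have h7 : ∑ k, chr D g gi k c b * ric D g gi a k = 0 := by
        refine Finset.sum_eq_zero (fun k _ => ?_)
        rw [hρ, mul_smul_comm, mul_comm, h2, smul_zero]
      rw [h6, h7, hρ, hDC, he, sub_zero, sub_zero, smul_smul, mul_smul_comm, mul_comm (gi a c) e, h3,
        mul_comm (ρ a b)]
    rw [Finset.sum_congr rfl (fun c _ => h5 c)]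
    exact hfs (fun c => κ c * ρ a b) a
  have hS : scal D g gi = (∑ a, ρ a a) • e := by
    unfold scal
    rw [Finset.sum_smul]
    refine Finset.sum_congr rfl (fun a _ => ?_)
    have h5 : ∀ c, gi a c * ric D g gi a c = ρ a c • (e * flat A a c) := by
      intro c
      rw [hρ, mul_smul_comm, mul_comm (gi a c) e, h3]
    rw [Finset.sum_congr rfl (fun c _ => h5 c)]
    exact hfs (fun c => ρ a c) a
  have hB := bianchi hD h b
  rw [hL, hS, hDC, he] at hB
  have hR : (1 / 2 : ℝ) • (∑ a, ρ a a) • κ b • e = (1 / 2 * κ b * ∑ a, ρ a a) • e := by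
    have h8 : ∀ (r : ℝ) (x : A), r • x = (r : ℂ) • x := by
      intro r x
      rw [← one_smul ℂ x, ← smul_assoc r (1 : ℂ) x, smul_smul]
      simp
    rw [h8, smul_smul, smul_smul]
    congr 1
    push_cast
    ring
  rw [hR] at hB
  rw [sub_smul, hB, sub_self]

end CInv
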