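import Pool.Agent.Helper771.CInv.Defs
import Pool.Agent.Helper771.CInv.P_gi_symm

set_option linter.all false

open scoped BigOperators

namespace CInv



theorem half_smul_eq {A : Type} [CommRing A] (iR : Algebra ℝ A) (iC : Algebra ℂ A) (x : A) :
    @HSMul.hSMul ℝ A A (@instHSMul ℝ A (@Algebra.toSMul ℝ A _ _ iR)) (1 / 2 : ℝ) x =
    @HSMul.hSMul ℂ A A (@instHSMul ℂ A (@Algebra.toSMul ℂ A _ _ iC)) (1 / 2 : ℂ) x := by
  rw [@Algebra.smul_def ℝ A _ _ iR, @Algebra.smul_def ℂ A _ _ iC]
  congr 1
  have h1 : (2 : A) * (@algebraMap ℝ A _ _ iR (1 / 2)) = 1 := by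
    have h2 : @algebraMap ℝ A _ _ iR 2 = 2 := map_ofNat _ 2
    rw [← h2, ← map_mul]
    norm_num
  have h3 : (2 : A) * (@algebraMap ℂ A _ _ iC (1 / 2)) = 1 := by
    have h2 : @algebraMap ℂ A _ _ iC 2 = 2 := map_ofNat _ 2
    rw [← h2, ← map_mul]
    norm_num
  linear_combination (@algebraMap ℂ A _ _ iC (1 / 2)) * h1 - (@algebraMap ℝ A _ _ iR (1 / 2)) * h3

theorem ric_add_aux {n : ℕ} {A : Type} [CommRing A] [Algebra ℝ A] [Algebra ℂ A]
    [IsScalarTower ℝ ℂ A] {D : Fin n → A → A} (hD : IsDer D)
    (hDC : ∀ i (z : ℂ) a, D i (z • a) = z • D i a)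
    {g gi : Fin n → Fin n → A} (h : IsMetric g gi) (κ : Fin n → ℂ) (e : A) (hee : e * e = 0)
    (he : ∀ i, D i e = κ i • e) (h0 : ∀ i j, e * g i j = e * flat A i j) :
    (∀ i j, e * gi i j = e * flat A i j) ∧ (∀ c i j, e * D c (g i j) = 0) ∧
    (∀ k i j, e * chr D g gi k i j = 0) := by
  have hz : ∀ c, D c (0 : A) = 0 := by
    intro c
    have := hDC c 0 (0 : A)
    simpa using this
  have h1 : ∀ i j, e * gi i j = e * flat A i j := by
    intro i j
    have h2 := congrArg (fun x => e * x) (h.inv i j)
    simp only [Finset.mul_sum] at h2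
    have h3 : ∀ k, e * (g i k * gi k j) = if i = k then e * gi k j else 0 := by
      intro k
      rw [← mul_assoc, h0]
      unfold flat
      split_ifs <;> simp
    rw [Finset.sum_congr rfl (fun k _ => h3 k), Finset.sum_ite_eq Finset.univ i] at h2
    simpa [flat] using h2
  have h2 : ∀ c i j, e * D c (g i j) = 0 := by
    intro c i j
    have h3 := congrArg (D c) (h0 i j)
    rw [hD.mul, he, smul_mul_assoc, h0] at h3
    have h4 : D c (e * flat A i j) = κ c • (e * flat A i j) := by
      unfold flat
      split_ifs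
      · rw [mul_one, he]
      · rw [mul_zero, hz, smul_zero]
    rw [h4] at h3
    have : κ c • (e * flat A i j) + e * D c (g i j) = κ c • (e * flat A i j) + 0 := by
      rw [add_zero]; exact h3
    exact add_left_cancel this
  refine ⟨h1, h2, ?_⟩
  intro k i j
  unfold chr
  rw [half_smul_eq _ ‹Algebra ℂ A›, mul_smul_comm, Finset.mul_sum, Finset.sum_eq_zero, smul_zero]
  intro l _
  have : e * (gi k l * (D i (g j l) + D j (g i l) - D l (g i j))) =
      gi k l * (e * D i (g j l) + e * D j (g i l) - e * D l (g i j)) := by ring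
  rw [this, h2, h2, h2]
  simp

theorem ric_add {n : ℕ} {A : Type} [CommRing A] [Algebra ℝ A] [Algebra ℂ A]
    [IsScalarTower ℝ ℂ A] {D : Fin n → A → A} (hD : IsDer D)
    (hDC : ∀ i (z : ℂ) a, D i (z • a) = z • D i a)
    {g gi : Fin n → Fin n → A} (h : IsMetric g gi) (κ : Fin n → ℂ) (e : A) (hee : e * e = 0)
    (he : ∀ i, D i e = κ i • e) (h0 : ∀ i j, e * g i j = e * flat A i j)
    (M : Fin n → Fin n → ℂ) (hM : ∀ i j, M i j = M j i) :
    IsMetric (fun i j => g i j + M i j • e) (fun i j => gi i j - M i j • e) ∧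
    ∀ i j, ric D (fun i j => g i j + M i j • e) (fun i j => gi i j - M i j • e) i j
      = ric D g gi i j + (1 / 2 * (κ i * (∑ a, κ a * M a j) + κ j * (∑ a, κ a * M a i)
          - (∑ a, κ a * κ a) * M i j - κ i * κ j * ∑ a, M a a)) • e := by
  obtain ⟨hgi, hdg, hchr⟩ := ric_add_aux hD hDC h κ e hee he h0
  have hz : ∀ c, D c (0 : A) = 0 := by
    intro c
    have := hDC c 0 (0 : A)
    simpa using this
  have hDadd := hD.add
  refine ⟨⟨?_, ?_⟩, ?_⟩
  · intro i j
    show g i j + M i j • e = g j i + M j i • e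
    rw [h.symm i j, hM i j]
  · intro i j
    show ∑ k, (g i k + M i k • e) * (gi k j - M k j • e) = _
    have h1 : ∀ k, (g i k + M i k • e) * (gi k j - M k j • e) =
        g i k * gi k j + ((if k = j then M i k • e else 0) - (if i = k then M k j • e else 0)) := by
      intro k
      have e1 : (g i k + M i k • e) * (gi k j - M k j • e) =
          g i k * gi k j + (M i k • (e * gi k j) - M k j • (e * g i k)) - (M i k * M k j) • (e * e) := by
        simp only [Algebra.smul_def, map_mul]
        ring
      rw [e1, hee, hgi, h0, smul_zero, sub_zero]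
      unfold flat
      congr 1
      split_ifs <;> simp
    rw [Finset.sum_congr rfl (fun k _ => h1 k), Finset.sum_add_distrib, Finset.sum_sub_distrib,
      Finset.sum_ite_eq' Finset.univ j, Finset.sum_ite_eq Finset.univ i, h.inv]
    simp
  · have hG : ∀ k i j, chr D (fun i j => g i j + M i j • e) (fun i j => gi i j - M i j • e) k i j =
        chr D g gi k i j + ((1 / 2 : ℂ) * (κ i * M j k + κ j * M i k - κ k * M i j)) • e := by
      intro k i j
      unfold chr
      have h1 : ∀ l, (gi k l - M k l • e) * (D i (g j l + M j l • e) + D j (g i l + M i l • e)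
          - D l (g i j + M i j • e)) = gi k l * (D i (g j l) + D j (g i l) - D l (g i j)) +
          (if k = l then (κ i * M j l + κ j * M i l - κ l * M i j) • e else 0) := by
        intro l
        rw [hD.add, hD.add, hD.add, hDC, hDC, hDC, he, he, he]
        have hx := hdg i j l
        have hy := hdg j i l
        have hw := hdg l i j
        have ha := hgi k l
        have e2 : (if k = l then (κ i * M j l + κ j * M i l - κ l * M i j) • e else 0) =
            algebraMap ℂ A (κ i * M j l + κ j * M i l - κ l * M i j) * (e * flat A k l) := by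
          unfold flat
          split_ifs
          · rw [mul_one, Algebra.smul_def]
          · simp
        rw [e2]
        simp only [Algebra.smul_def, map_mul, map_add, map_sub]
        linear_combination (-(algebraMap ℂ A (M k l))) * hx - algebraMap ℂ A (M k l) * hy +
          algebraMap ℂ A (M k l) * hw - algebraMap ℂ A (M k l) * (algebraMap ℂ A (κ i) * algebraMap ℂ A (M j l) +
            algebraMap ℂ A (κ j) * algebraMap ℂ A (M i l) - algebraMap ℂ A (κ l) * algebraMap ℂ A (M i j)) * hee +
          (algebraMap ℂ A (κ i) * algebraMap ℂ A (M j l) +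
            algebraMap ℂ A (κ j) * algebraMap ℂ A (M i l) - algebraMap ℂ A (κ l) * algebraMap ℂ A (M i j)) * ha
      rw [half_smul_eq _ ‹Algebra ℂ A›, half_smul_eq _ ‹Algebra ℂ A›,
        Finset.sum_congr rfl (fun l _ => h1 l), Finset.sum_add_distrib, Finset.sum_ite_eq Finset.univ k,
        smul_add, if_pos (Finset.mem_univ k), smul_smul]
    have hchrD : ∀ a k i j, D a (chr D (fun i j => g i j + M i j • e) (fun i j => gi i j - M i j • e) k i j) =
        D a (chr D g gi k i j) + (κ a * ((1 / 2 : ℂ) * (κ i * M j k + κ j * M i k - κ k * M i j))) • e := by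
      intro a k i j
      rw [hG, hD.add, hDC, he, smul_smul, mul_comm (κ a)]
    have hprod : ∀ k i j k' i' j', chr D (fun i j => g i j + M i j • e) (fun i j => gi i j - M i j • e) k i j *
        chr D (fun i j => g i j + M i j • e) (fun i j => gi i j - M i j • e) k' i' j' =
        chr D g gi k i j * chr D g gi k' i' j' := by
      intro k i j k' i' j'
      rw [hG, hG]
      have c1 := hchr k i j
      have c2 := hchr k' i' j'
      simp only [Algebra.smul_def]
      linear_combination (algebraMap ℂ A ((1 / 2 : ℂ) * (κ i' * M j' k' + κ j' * M i' k' - κ k' * M i' j'))) * c1 +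
        (algebraMap ℂ A ((1 / 2 : ℂ) * (κ i * M j k + κ j * M i k - κ k * M i j))) * c2 +
        (algebraMap ℂ A ((1 / 2 : ℂ) * (κ i' * M j' k' + κ j' * M i' k' - κ k' * M i' j'))) *
        (algebraMap ℂ A ((1 / 2 : ℂ) * (κ i * M j k + κ j * M i k - κ k * M i j))) * hee
    intro i j
    unfold ric
    simp only [hchrD, hprod]
    have e1 : ∑ k, (D k (chr D g gi k i j) + (κ k * ((1 / 2 : ℂ) * (κ i * M j k + κ j * M i k - κ k * M i j))) • e
        - (D j (chr D g gi k i k) + (κ j * ((1 / 2 : ℂ) * (κ i * M k k + κ k * M i k - κ k * M i k))) • e)) =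
        (∑ k, (D k (chr D g gi k i j) - D j (chr D g gi k i k))) +
        (∑ k, (κ k * ((1 / 2 : ℂ) * (κ i * M j k + κ j * M i k - κ k * M i j)) -
          κ j * ((1 / 2 : ℂ) * (κ i * M k k + κ k * M i k - κ k * M i k)))) • e := by
      rw [Finset.sum_smul, ← Finset.sum_add_distrib]
      apply Finset.sum_congr rfl
      intro k _
      rw [sub_smul]
      abel
    rw [e1]
    have e2 : (∑ k, (κ k * ((1 / 2 : ℂ) * (κ i * M j k + κ j * M i k - κ k * M i j)) -
          κ j * ((1 / 2 : ℂ) * (κ i * M k k + κ k * M i k - κ k * M i k)))) =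
        (1 / 2 * (κ i * (∑ a, κ a * M a j) + κ j * (∑ a, κ a * M a i)
          - (∑ a, κ a * κ a) * M i j - κ i * κ j * ∑ a, M a a)) := by
      rw [mul_sub, mul_sub, mul_add]
      simp only [Finset.mul_sum, Finset.sum_mul]
      rw [← Finset.sum_add_distrib, ← Finset.sum_sub_distrib, ← Finset.sum_sub_distrib]
      apply Finset.sum_congr rfl
      intro k _
      rw [hM k j, hM k i]
      ring
    rw [e2]
    abel

end CInv
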