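import Pool.Agent.Helper771.CInv.Defs
import Pool.Agent.Helper771.CInv.P_nat_eval
import Pool.Agent.Helper771.CInv.P_gi_symm
import Pool.Agent.Helper771.CInv.P_ric_symm
import Pool.Agent.Helper771.CInv.P_bianchi_sq
import Pool.Agent.Helper771.CInv.P_ric_add
import Pool.Agent.Helper771.CInv.P_dk_isder

set_option linter.all false

open scoped BigOperators

namespace CInv



section rfaux

variable {ι : Type} [DecidableEq ι]

noncomputable def rf_tg (T : Finset ι) : SF ι := ⟨fun S => if S = T then 1 else 0⟩

noncomputable def rf_res (T : Finset ι) (x : SF ι) : SF ι := ⟨fun S => if S ⊆ T then x.c S else 0⟩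

theorem rf_res_one (T : Finset ι) : rf_res T (1 : SF ι) = 1 := by
  ext S
  show (if S ⊆ T then (1 : SF ι).c S else 0) = (1 : SF ι).c S
  rw [SF.c_one]
  by_cases hS : S = ∅
  · subst hS; simp
  · simp [hS]

theorem rf_res_zero (T : Finset ι) : rf_res T (0 : SF ι) = 0 := by
  ext S
  show (if S ⊆ T then (0 : SF ι).c S else 0) = (0 : SF ι).c S
  rw [SF.c_zero]
  simp

theorem rf_res_add (T : Finset ι) (x y : SF ι) : rf_res T (x + y) = rf_res T x + rf_res T y := by
  ext S
  rw [SF.c_add]
  show (if S ⊆ T then (x + y).c S else 0) = (if S ⊆ T then x.c S else 0) +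
    (if S ⊆ T then y.c S else 0)
  rw [SF.c_add]
  split_ifs <;> simp

theorem rf_res_mul (T : Finset ι) (x y : SF ι) : rf_res T (x * y) = rf_res T x * rf_res T y := by
  ext S
  rw [SF.c_mul]
  show (if S ⊆ T then (x * y).c S else 0) = ∑ U ∈ S.powerset, (if U ⊆ T then x.c U else 0) *
    (if S \ U ⊆ T then y.c (S \ U) else 0)
  rw [SF.c_mul]
  by_cases hS : S ⊆ T
  · rw [if_pos hS]
    apply Finset.sum_congr rfl
    intro U hU
    rw [Finset.mem_powerset] at hU
    rw [if_pos (hU.trans hS), if_pos (Finset.sdiff_subset.trans hS)]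
  · rw [if_neg hS]
    symm
    apply Finset.sum_eq_zero
    intro U hU
    rw [Finset.mem_powerset] at hU
    by_cases h1 : U ⊆ T
    · have h2 : ¬ (S \ U ⊆ T) := by
        intro h2
        apply hS
        intro a ha
        by_cases haU : a ∈ U
        · exact h1 haU
        · exact h2 (Finset.mem_sdiff.2 ⟨ha, haU⟩)
      rw [if_neg h2, mul_zero]
    · rw [if_neg h1, zero_mul]

theorem rf_res_smul (T : Finset ι) (t : ℝ) (x : SF ι) : rf_res T (t • x) = t • rf_res T x := by
  ext S
  rw [SF.c_rsmul]
  show (if S ⊆ T then (t • x).c S else 0) = (t : ℂ) * (if S ⊆ T then x.c S else 0)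
  rw [SF.c_rsmul]
  split_ifs <;> simp

theorem rf_res_D {n : ℕ} (k : ι → Fin n → ℂ) (T : Finset ι) (a : Fin n) (x : SF ι) :
    rf_res T (SF.DK k a x) = SF.DK k a (rf_res T x) := by
  ext S
  show (if S ⊆ T then (∑ i ∈ S, k i a) * x.c S else 0) =
    (∑ i ∈ S, k i a) * (if S ⊆ T then x.c S else 0)
  split_ifs <;> simp

theorem rf_relhom {n : ℕ} (k : ι → Fin n → ℂ) (T : Finset ι) :
    RelHom (SF.DK k) (SF.DK k) (fun a b : SF ι => b = rf_res T a) where
  one := (rf_res_one T).symm
  add := by
    intro a a' b b' h h'
    subst h; subst h'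
    exact (rf_res_add T a a').symm
  mul := by
    intro a a' b b' h h'
    subst h; subst h'
    exact (rf_res_mul T a a').symm
  smul := by
    intro t a b h
    subst h
    exact (rf_res_smul T t a).symm
  der := by
    intro i a b h
    subst h
    exact (rf_res_D k T i a).symm

/-- augmentation -/
noncomputable def rf_aug : SF ι →+* ℂ where
  toFun x := x.c ∅
  map_one' := by rw [SF.c_one, if_pos rfl]
  map_mul' x y := by rw [SF.c_mul]; simp
  map_zero' := rfl
  map_add' _ _ := rfl

theorem rf_nil (x : SF ι) (hx : x.c ∅ = 0) (m : ℕ) : ∀ S : Finset ι, S.card < m →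
    (x ^ m).c S = 0 := by
  induction m with
  | zero => intro S hS; omega
  | succ m ih =>
    intro S hS
    rw [pow_succ, mul_comm, SF.c_mul]
    apply Finset.sum_eq_zero
    intro T hT
    rw [Finset.mem_powerset] at hT
    by_cases hT0 : T = ∅
    · rw [hT0, hx, zero_mul]
    · have h1 : (S \ T).card < m := by
        have h2 : 0 < T.card := Finset.card_pos.2 (Finset.nonempty_iff_ne_empty.2 hT0)
        have h3 := Finset.card_sdiff_add_card_eq_card hT
        omega
      rw [ih _ h1, mul_zero]

theorem rf_inv_unique {n : ℕ} {A : Type} [CommRing A] {g gi gi2 : Fin n → Fin n → A}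
    (h : IsMetric g gi) (h2 : IsMetric g gi2) : gi = gi2 := by
  have e1 : Matrix.of g * Matrix.of gi = 1 := by
    ext i j
    rw [Matrix.mul_apply, Matrix.one_apply]
    exact h.inv i j
  have e2 : Matrix.of g * Matrix.of gi2 = 1 := by
    ext i j
    rw [Matrix.mul_apply, Matrix.one_apply]
    exact h2.inv i j
  have e3 : Matrix.of gi * Matrix.of g = 1 := mul_eq_one_comm.1 e1
  have e4 : Matrix.of gi = Matrix.of gi2 := left_inv_eq_right_inv e3 e2
  exact Matrix.of.injective e4

end rfaux

section rfaux2

variable {n r : ℕ}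

noncomputable def rf_gm (h : Finset (Fin r) → Fin n → Fin n → ℂ) (i j : Fin n) : SF (Fin r) :=
  flat _ i j + ⟨fun S => h S i j⟩

noncomputable def rf_cut (T : Finset (Fin r)) (h : Finset (Fin r) → Fin n → Fin n → ℂ) :
    Finset (Fin r) → Fin n → Fin n → ℂ := fun S i j => if S ⊆ T then h S i j else 0

noncomputable def rf_cutp (T : Finset (Fin r)) (h : Finset (Fin r) → Fin n → Fin n → ℂ) :
    Finset (Fin r) → Fin n → Fin n → ℂ := fun S i j => if S ⊂ T then h S i j else 0

theorem rf_res_flat (T : Finset (Fin r)) (i j : Fin n) :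
    rf_res T (flat (SF (Fin r)) i j) = flat _ i j := by
  unfold flat
  split_ifs
  · exact rf_res_one T
  · exact rf_res_zero T

theorem rf_res_gm (T : Finset (Fin r)) (h : Finset (Fin r) → Fin n → Fin n → ℂ) (i j : Fin n) :
    rf_res T (rf_gm h i j) = rf_gm (rf_cut T h) i j := by
  unfold rf_gm
  rw [rf_res_add, rf_res_flat]
  rfl

theorem rf_cut_cutp {S T : Finset (Fin r)} (hST : S ⊂ T)
    (h : Finset (Fin r) → Fin n → Fin n → ℂ) : rf_cut S (rf_cutp T h) = rf_cut S h := by
  funext U i j
  unfold rf_cut rf_cutp
  by_cases hU : U ⊆ S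
  · rw [if_pos hU, if_pos hU, if_pos (lt_of_le_of_lt hU hST)]
  · rw [if_neg hU, if_neg hU]

theorem rf_cut_cutp_self (T : Finset (Fin r))
    (h : Finset (Fin r) → Fin n → Fin n → ℂ) : rf_cut T (rf_cutp T h) = rf_cutp T h := by
  funext U i j
  unfold rf_cut rf_cutp
  by_cases hU : U ⊆ T
  · rw [if_pos hU]
  · rw [if_neg hU, if_neg (fun h' => hU h'.subset)]

theorem rf_exists_inv (h : Finset (Fin r) → Fin n → Fin n → ℂ)
    (hs : ∀ S i j, h S i j = h S j i) (h0 : ∀ i j, h ∅ i j = 0) :
    ∃ gi, IsMetric (rf_gm h) gi := by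
  have hflat : ∀ i j : Fin n, (flat (SF (Fin r)) i j).c ∅ = if i = j then 1 else 0 := by
    intro i j
    unfold flat
    split_ifs
    · rw [SF.c_one, if_pos rfl]
    · rw [SF.c_zero]
  let G : Matrix (Fin n) (Fin n) (SF (Fin r)) := Matrix.of (rf_gm h)
  have h1 : rf_aug G.det = 1 := by
    rw [RingHom.map_det]
    have : rf_aug.mapMatrix G = 1 := by
      ext i j
      rw [RingHom.mapMatrix_apply, Matrix.map_apply, Matrix.one_apply]
      show (rf_gm h i j).c ∅ = _
      unfold rf_gm
      rw [SF.c_add, hflat]
      show _ + h ∅ i j = _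
      rw [h0, add_zero]
    rw [this, Matrix.det_one]
  have h2 : IsNilpotent (G.det - 1) := by
    refine ⟨r + 1, ?_⟩
    ext S
    rw [rf_nil _ _ _ S, SF.c_zero]
    · have := Finset.card_le_univ S
      rw [Fintype.card_fin] at this
      omega
    · rw [SF.c_sub, SF.c_one, if_pos rfl]
      have h1' : G.det.c ∅ = 1 := h1
      rw [h1', sub_self]
  have h3 : IsUnit G.det := by
    have := h2.isUnit_one_add
    rwa [add_sub_cancel] at this
  refine ⟨fun i j => G⁻¹ i j, ?_, ?_⟩
  · intro i j
    unfold rf_gm flat
    have e1 : (⟨fun S => h S i j⟩ : SF (Fin r)) = ⟨fun S => h S j i⟩ := by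
      ext S
      exact hs S i j
    rw [e1]
    by_cases hij : i = j
    · rw [if_pos hij, if_pos hij.symm]
    · rw [if_neg hij, if_neg (fun h => hij h.symm)]
  · intro i j
    have e1 : G * G⁻¹ = 1 := Matrix.mul_nonsing_inv G h3
    have e2 := congrFun (congrFun e1 i) j
    rw [Matrix.mul_apply, Matrix.one_apply] at e2
    exact e2

theorem rf_nat (k : Fin r → Fin n → ℂ) (T : Finset (Fin r))
    (h : Finset (Fin r) → Fin n → Fin n → ℂ) (gi : Fin n → Fin n → SF (Fin r))
    (hg : IsMetric (rf_gm h) gi) :
    IsMetric (rf_gm (rf_cut T h)) (fun i j => rf_res T (gi i j)) ∧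
    ∀ i j, ric (SF.DK k) (rf_gm (rf_cut T h)) (fun i j => rf_res T (gi i j)) i j =
      rf_res T (ric (SF.DK k) (rf_gm h) gi i j) := by
  constructor
  · refine ⟨?_, ?_⟩
    · intro i j
      rw [← rf_res_gm, ← rf_res_gm, hg.symm]
    · intro i j
      have h1 := hg.inv i j
      have hsum : ∀ (s : Finset (Fin n)) (f : Fin n → SF (Fin r)),
          rf_res T (∑ k ∈ s, f k) = ∑ k ∈ s, rf_res T (f k) := by
        intro s f
        induction s using Finset.induction_on with
        | empty => simp [rf_res_zero]
        | insert a s ha ih => rw [Finset.sum_insert ha, Finset.sum_insert ha, rf_res_add, ih]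
      have h2 : rf_res T (∑ k, rf_gm h i k * gi k j) =
          ∑ k, rf_gm (rf_cut T h) i k * rf_res T (gi k j) := by
        rw [hsum]
        apply Finset.sum_congr rfl
        intro x _
        rw [rf_res_mul, rf_res_gm]
      rw [← h2, h1]
      split_ifs
      · exact rf_res_one T
      · exact rf_res_zero T
  · exact (nat_eval (rf_relhom k T) (fun i j => (rf_res_gm T h i j).symm)
      (fun i j => rfl) 0).1

def rf_Good (k : Fin r → Fin n → ℂ) (h : Finset (Fin r) → Fin n → Fin n → ℂ) : Prop :=
  ∃ gi, IsMetric (rf_gm h) gi ∧ ∀ i j, ric (SF.DK k) (rf_gm h) gi i j = 0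

theorem rf_tg_sq (T : Finset (Fin r)) (hT : T.Nonempty) : rf_tg T * rf_tg T = 0 := by
  ext S
  rw [SF.c_mul, SF.c_zero]
  apply Finset.sum_eq_zero
  intro U hU
  show (if U = T then (1:ℂ) else 0) * (if S \ U = T then 1 else 0) = 0
  by_cases h1 : U = T
  · subst h1
    have h2 : ¬ (S \ U = U) := by
      intro h2
      obtain ⟨a, ha⟩ := hT
      have h3 := ha
      rw [← h2, Finset.mem_sdiff] at h3
      exact h3.2 ha
    rw [if_neg h2, mul_zero]
  · rw [if_neg h1, zero_mul]

theorem rf_tg_D (k : Fin r → Fin n → ℂ) (T : Finset (Fin r)) (a : Fin n) :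
    SF.DK k a (rf_tg T) = (∑ i ∈ T, k i a) • rf_tg T := by
  ext S
  rw [SF.c_smul]
  show (∑ i ∈ S, k i a) * (if S = T then 1 else 0) = (∑ i ∈ T, k i a) * (if S = T then 1 else 0)
  by_cases h : S = T
  · rw [h]
  · rw [if_neg h, mul_zero, mul_zero]

theorem rf_tg_mul (T : Finset (Fin r)) (hT : T.Nonempty)
    (h : Finset (Fin r) → Fin n → Fin n → ℂ) (h0 : ∀ i j, h ∅ i j = 0) (i j : Fin n) :
    rf_tg T * rf_gm (rf_cutp T h) i j = rf_tg T * flat _ i j := by
  unfold rf_gm
  rw [mul_add]
  have : rf_tg T * (⟨fun S => rf_cutp T h S i j⟩ : SF (Fin r)) = 0 := by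
    ext S
    rw [SF.c_mul, SF.c_zero]
    apply Finset.sum_eq_zero
    intro U hU
    show (if U = T then (1:ℂ) else 0) * (if S \ U ⊂ T then h (S \ U) i j else 0) = 0
    by_cases h1 : U = T
    · subst h1
      by_cases h2 : S \ U ⊂ U
      · have h3 : S \ U = ∅ := by
          apply Finset.eq_empty_of_forall_notMem
          intro a ha
          exact (Finset.mem_sdiff.1 ha).2 (h2.subset ha)
        rw [h3, h0]
        simp
      · rw [if_neg h2, mul_zero]
    · rw [if_neg h1, zero_mul]
  rw [this, add_zero]

theorem rf_gm_cut (T : Finset (Fin r)) (h : Finset (Fin r) → Fin n → Fin n → ℂ) :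
    rf_gm (rf_cut T h) = fun i j => rf_gm (rf_cutp T h) i j + h T i j • rf_tg T := by
  funext i j
  unfold rf_gm
  rw [add_assoc]
  congr 1
  ext S
  rw [SF.c_add, SF.c_smul]
  show (if S ⊆ T then h S i j else 0) = (if S ⊂ T then h S i j else 0) +
    h T i j * (if S = T then 1 else 0)
  by_cases h1 : S = T
  · subst h1
    rw [if_pos (Finset.Subset.refl _), if_neg (fun h => (ssubset_irrefl _ h)), if_pos rfl]
    ring
  · rw [if_neg h1, mul_zero, add_zero]
    by_cases h2 : S ⊆ T
    · rw [if_pos h2, if_pos (lt_of_le_of_ne h2 h1)]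
    · rw [if_neg h2, if_neg (fun h => h2 h.subset)]

/-- the main step -/
theorem rf_step (k : Fin r → Fin n → ℂ) (T : Finset (Fin r)) (hT : T.Nonempty)
    (h : Finset (Fin r) → Fin n → Fin n → ℂ) (hs : ∀ S i j, h S i j = h S j i)
    (h0 : ∀ i j, h ∅ i j = 0) (hgood : ∀ S, S ⊂ T → rf_Good k (rf_cut S h)) :
    ∃ gi, IsMetric (rf_gm (rf_cutp T h)) gi ∧ ∃ ρ : Fin n → Fin n → ℂ,
      (∀ i j, ric (SF.DK k) (rf_gm (rf_cutp T h)) gi i j = ρ i j • rf_tg T) ∧
      (∀ i j, ρ i j = ρ j i) ∧
      ∀ b, (∑ a, (∑ i ∈ T, k i a) * ρ a b) = 1 / 2 * (∑ i ∈ T, k i b) * ∑ a, ρ a a := by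
  obtain ⟨hD, hDC⟩ := dk_isder (ι := Fin r) k
  have hs' : ∀ S i j, rf_cutp T h S i j = rf_cutp T h S j i := by
    intro S i j
    unfold rf_cutp
    rw [hs]
  have h0' : ∀ i j, rf_cutp T h ∅ i j = 0 := by
    intro i j
    unfold rf_cutp
    rw [h0]
    simp
  obtain ⟨gi, hgi⟩ := rf_exists_inv (rf_cutp T h) hs' h0'
  have hcoef : ∀ i j S, S ≠ T → (ric (SF.DK k) (rf_gm (rf_cutp T h)) gi i j).c S = 0 := by
    intro i j S hST
    by_cases hS : S ⊆ T
    · have hS' : S ⊂ T := lt_of_le_of_ne hS hST
      obtain ⟨n1, n2⟩ := rf_nat k S (rf_cutp T h) gi hgi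
      rw [rf_cut_cutp hS'] at n1 n2
      obtain ⟨gi2, g1, g2⟩ := hgood S hS'
      have e1 := rf_inv_unique n1 g1
      have e2 := n2 i j
      rw [e1, g2 i j] at e2
      have e3 := congrArg (fun x : SF (Fin r) => x.c S) e2
      have e4 : (0 : SF (Fin r)).c S = (if S ⊆ S then
        (ric (SF.DK k) (rf_gm (rf_cutp T h)) gi i j).c S else 0) := e3
      rw [if_pos (Finset.Subset.refl _), SF.c_zero] at e4
      exact e4.symm
    · obtain ⟨n1, n2⟩ := rf_nat k T (rf_cutp T h) gi hgi
      rw [rf_cut_cutp_self] at n1 n2
      have e1 := rf_inv_unique n1 hgi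
      have e2 := n2 i j
      rw [e1] at e2
      have e3 := congrArg (fun x : SF (Fin r) => x.c S) e2
      have e4 : (ric (SF.DK k) (rf_gm (rf_cutp T h)) gi i j).c S = (if S ⊆ T then
        (ric (SF.DK k) (rf_gm (rf_cutp T h)) gi i j).c S else 0) := e3
      rw [e4, if_neg hS]
  refine ⟨gi, hgi, fun i j => (ric (SF.DK k) (rf_gm (rf_cutp T h)) gi i j).c T, ?_, ?_, ?_⟩
  · intro i j
    ext S
    rw [SF.c_smul]
    show _ = _ * (if S = T then 1 else 0)
    by_cases hST : S = T
    · rw [hST, if_pos rfl, mul_one]
    · rw [if_neg hST, mul_zero]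
      exact hcoef i j S hST
  · intro i j
    show (ric (SF.DK k) (rf_gm (rf_cutp T h)) gi i j).c T =
      (ric (SF.DK k) (rf_gm (rf_cutp T h)) gi j i).c T
    rw [ric_symm hD hgi i j]
  · intro b
    have hb := bianchi_sq hD hDC hgi (fun a => ∑ i ∈ T, k i a) (rf_tg T)
      (fun a => rf_tg_D k T a) (fun i j => rf_tg_mul T hT h h0 i j)
      (fun i j => (ric (SF.DK k) (rf_gm (rf_cutp T h)) gi i j).c T) (fun i j => by
        ext S
        rw [SF.c_smul]
        show _ = _ * (if S = T then 1 else 0)
        by_cases hST : S = T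
        · rw [hST, if_pos rfl, mul_one]
        · rw [if_neg hST, mul_zero]
          exact hcoef i j S hST) b
    have hb2 := congrArg (fun x : SF (Fin r) => x.c T) hb
    simp only [SF.c_smul, SF.c_zero] at hb2
    have hb3 : (rf_tg T : SF (Fin r)).c T = 1 := if_pos rfl
    rw [hb3, mul_one] at hb2
    exact sub_eq_zero.1 hb2

theorem rf_flat_good (k : Fin r → Fin n → ℂ) (h : Finset (Fin r) → Fin n → Fin n → ℂ)
    (hz : ∀ S i j, h S i j = 0) : rf_Good k h := by
  have hgm : rf_gm h = flat (SF (Fin r)) := by
    funext i j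
    unfold rf_gm
    have : (⟨fun S => h S i j⟩ : SF (Fin r)) = 0 := by
      ext S
      exact hz S i j
    rw [this, add_zero]
  have hD1 : ∀ a, SF.DK k a (1 : SF (Fin r)) = 0 := by
    intro a
    ext S
    show (∑ i ∈ S, k i a) * (if S = ∅ then 1 else 0) = 0
    by_cases h : S = ∅
    · subst h; simp
    · simp [h]
  have hD0 : ∀ a, SF.DK k a (0 : SF (Fin r)) = 0 := by
    intro a
    ext S
    show (∑ i ∈ S, k i a) * 0 = 0
    rw [mul_zero]
  have hDf : ∀ a (i j : Fin n), SF.DK k a (flat (SF (Fin r)) i j) = 0 := by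
    intro a i j
    unfold flat
    split_ifs
    · exact hD1 a
    · exact hD0 a
  refine ⟨flat _, ?_, ?_⟩
  · rw [hgm]
    refine ⟨?_, ?_⟩
    · intro i j
      unfold flat
      by_cases hij : i = j
      · rw [if_pos hij, if_pos hij.symm]
      · rw [if_neg hij, if_neg (fun h => hij h.symm)]
    · intro i j
      unfold flat
      simp
  · intro i j
    rw [hgm]
    have hchr : ∀ a b c, chr (SF.DK k) (flat (SF (Fin r))) (flat (SF (Fin r))) a b c = 0 := by
      intro a b c
      unfold chr
      have : ∀ l ∈ (Finset.univ : Finset (Fin n)), flat (SF (Fin r)) a l *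
          (SF.DK k b (flat (SF (Fin r)) c l) + SF.DK k c (flat (SF (Fin r)) b l) -
            SF.DK k l (flat (SF (Fin r)) b c)) = 0 := by
        intro l _
        rw [hDf, hDf, hDf, add_zero, sub_zero, mul_zero]
      rw [Finset.sum_eq_zero this, smul_zero]
    unfold ric
    simp only [hchr, hD0, sub_zero, mul_zero, Finset.sum_const_zero, add_zero]

end rfaux2

theorem ricci_flat {n r : ℕ} (k e : Fin r → Fin n → ℂ) (h1 : ∀ i, dot (k i) (k i) = 0)
    (h2 : ∀ i, dot (k i) (e i) = 0) (h3 : ∀ i, dot (e i) (e i) = 0)
    (hS : ∀ S : Finset (Fin r), 2 ≤ S.card → ∑ a, (∑ i ∈ S, k i a) ^ 2 ≠ 0) :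
    ∃ H gi : Fin n → Fin n → SF (Fin r), (∀ i j, H i j = H j i) ∧
      (∀ i j, (H i j).c ∅ = 0) ∧ (∀ i j s, (H i j).c {s} = e s i * e s j) ∧
      IsMetric (met H) gi ∧ ∀ i j, ric (SF.DK k) (met H) gi i j = 0 := by
  classical
  obtain ⟨hD, hDC⟩ := dk_isder (ι := Fin r) k
  have main : ∀ m : ℕ, ∃ h : Finset (Fin r) → Fin n → Fin n → ℂ,
      (∀ S i j, h S i j = h S j i) ∧ (∀ i j, h ∅ i j = 0) ∧
      (∀ s i j, h {s} i j = e s i * e s j) ∧ ∀ T : Finset (Fin r), T.card ≤ m →
        rf_Good k (rf_cut T h) := by
    intro m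
    induction m with
    | zero =>
      refine ⟨fun S i j => if S.card = 1 then ∑ s ∈ S, e s i * e s j else 0, ?_, ?_, ?_, ?_⟩
      · intro S i j
        simp only
        split_ifs
        · apply Finset.sum_congr rfl
          intro s _
          ring
        · rfl
      · intro i j
        simp
      · intro s i j
        simp
      · intro T hT
        have hT0 : T = ∅ := Finset.card_eq_zero.1 (by omega)
        subst hT0
        apply rf_flat_good
        intro S i j
        unfold rf_cut
        by_cases hS : S ⊆ ∅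
        · have : S = ∅ := Finset.subset_empty.1 hS
          subst this
          simp
        · rw [if_neg hS]
    | succ m ih =>
      obtain ⟨h, hs, h0, hsing, hgood⟩ := ih
      by_cases hm : m = 0
      · subst hm
        refine ⟨h, hs, h0, hsing, ?_⟩
        intro T hT
        by_cases hT0 : T.card = 0
        · exact hgood T (by omega)
        · have hT1 : T.card = 1 := by omega
          obtain ⟨s, rfl⟩ := Finset.card_eq_one.1 hT1
          obtain ⟨gi0, hg0, hr0⟩ := hgood ∅ (by simp)
          have hcc : rf_cutp {s} h = rf_cut ∅ h := by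
            funext S i j
            unfold rf_cutp rf_cut
            by_cases hS : S = ∅
            · subst hS
              rw [h0]
              simp
            · have n1 : ¬ (S ⊂ {s}) := by
                intro h'
                rw [Finset.ssubset_singleton_iff] at h'
                exact hS h'
              have n2 : ¬ (S ⊆ ∅) := fun h' => hS (Finset.subset_empty.1 h')
              rw [if_neg n1, if_neg n2]
          rw [← hcc] at hg0 hr0
          have hne : ({s} : Finset (Fin r)).Nonempty := Finset.singleton_nonempty s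
          obtain ⟨a1, a2⟩ := ric_add hD hDC hg0 (fun a => ∑ i ∈ ({s} : Finset (Fin r)), k i a)
            (rf_tg {s}) (rf_tg_sq _ hne) (fun a => rf_tg_D k _ a)
            (fun i j => rf_tg_mul _ hne h h0 i j) (h {s}) (hs {s})
          refine ⟨fun i j => gi0 i j - h {s} i j • rf_tg {s}, ?_, ?_⟩
          · rw [rf_gm_cut]
            exact a1
          · intro i j
            rw [rf_gm_cut, a2 i j, hr0 i j, zero_add]
            have c1 : ∀ j, ∑ a, (∑ i ∈ ({s} : Finset (Fin r)), k i a) * h {s} a j = 0 := by
              intro j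
              have : ∀ a ∈ (Finset.univ : Finset (Fin n)),
                  (∑ i ∈ ({s} : Finset (Fin r)), k i a) * h {s} a j =
                  (k s a * e s a) * e s j := by
                intro a _
                rw [Finset.sum_singleton, hsing]
                ring
              rw [Finset.sum_congr rfl this, ← Finset.sum_mul]
              have h2' := h2 s
              unfold dot at h2'
              rw [h2', zero_mul]
            have c2 : (∑ a, (∑ i ∈ ({s} : Finset (Fin r)), k i a) *
                (∑ i ∈ ({s} : Finset (Fin r)), k i a)) = 0 := by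
              have h1' := h1 s
              unfold dot at h1'
              simp only [Finset.sum_singleton]
              exact h1'
            have c3 : ∑ a, h {s} a a = 0 := by
              have h3' := h3 s
              unfold dot at h3'
              simp only [hsing]
              exact h3'
            simp only [c1, c2, c3, mul_zero, zero_mul, sub_zero, add_zero, zero_smul]
      · -- m ≥ 1
        have hex : ∀ T : Finset (Fin r), ∃ M : Fin n → Fin n → ℂ, T.card = m + 1 →
            (∀ i j, M i j = M j i) ∧ ∃ gi, IsMetric (fun i j => rf_gm (rf_cutp T h) i j +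
              M i j • rf_tg T) gi ∧ ∀ i j, ric (SF.DK k) (fun i j => rf_gm (rf_cutp T h) i j +
              M i j • rf_tg T) gi i j = 0 := by
          intro T
          by_cases hT : T.card = m + 1
          · have hne : T.Nonempty := Finset.card_pos.1 (by omega)
            obtain ⟨gi, hgi, ρ, hρ, hρs, hρb⟩ := rf_step k T hne h hs h0 (fun S hS => by
              apply hgood
              have := Finset.card_lt_card hS
              omega)
            have hκ := hS T (by omega)
            set κ : Fin n → ℂ := fun a => ∑ i ∈ T, k i a with hκdef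
            set K : ℂ := ∑ a, κ a * κ a with hK
            have hK0 : K ≠ 0 := by
              intro h'
              apply hκ
              rw [← h', hK]
              apply Finset.sum_congr rfl
              intro a _
              rw [hκdef]
              ring
            refine ⟨fun i j => 2 / K * ρ i j, fun _ => ⟨?_, ?_⟩⟩
            · intro i j
              simp only
              rw [hρs]
            · obtain ⟨a1, a2⟩ := ric_add hD hDC hgi κ
                (rf_tg T) (rf_tg_sq _ hne) (fun a => rf_tg_D k _ a)
                (fun i j => rf_tg_mul _ hne h h0 i j) (fun i j => 2 / K * ρ i j)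
                (fun i j => by rw [hρs])
              refine ⟨_, a1, ?_⟩
              intro i j
              rw [a2 i j, hρ i j, ← add_smul]
              have c1 : ∀ j, ∑ a, κ a * (2 / K * ρ a j) = κ j * (∑ a, ρ a a) / K := by
                intro j
                have : ∀ a ∈ (Finset.univ : Finset (Fin n)), κ a * (2 / K * ρ a j) =
                    2 / K * (κ a * ρ a j) := fun a _ => by ring
                rw [Finset.sum_congr rfl this, ← Finset.mul_sum]
                have hb := hρb j
                have hb' : ∑ a, κ a * ρ a j = 1 / 2 * κ j * ∑ a, ρ a a := hb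
                rw [hb']
                field_simp
              have c3 : ∑ a, 2 / K * ρ a a = 2 / K * ∑ a, ρ a a := by
                rw [Finset.mul_sum]
              have c4 : ρ i j + 1 / 2 * (κ i * (∑ a, κ a * (2 / K * ρ a j)) +
                  κ j * (∑ a, κ a * (2 / K * ρ a i)) - (∑ a, κ a * κ a) * (2 / K * ρ i j) -
                  κ i * κ j * ∑ a, 2 / K * ρ a a) = 0 := by
                rw [c1, c1, c3, ← hK]
                field_simp
                ring
              rw [c4, zero_smul]
          · exact ⟨fun _ _ => 0, fun h' => absurd h' hT⟩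
        choose M hM using hex
        let h' : Finset (Fin r) → Fin n → Fin n → ℂ := fun S i j =>
          if S.card = m + 1 then M S i j else h S i j
        have hle : ∀ S : Finset (Fin r), S.card ≤ m → ∀ i j, h' S i j = h S i j := by
          intro S hS i j
          simp only [h']
          rw [if_neg (by omega)]
        have heq : ∀ S : Finset (Fin r), S.card = m + 1 → ∀ i j, h' S i j = M S i j := by
          intro S hS i j
          simp only [h']
          rw [if_pos hS]
        refine ⟨h', ?_, ?_, ?_, ?_⟩
        · intro S i j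
          by_cases hS : S.card = m + 1
          · rw [heq S hS, heq S hS]
            exact (hM S hS).1 i j
          · simp only [h']
            rw [if_neg hS, if_neg hS]
            exact hs S i j
        · intro i j
          rw [hle ∅ (by simp), h0]
        · intro s i j
          rw [hle {s} (by simp; omega), hsing]
        · intro T hT
          by_cases hTm : T.card = m + 1
          · obtain ⟨_, gi, g1, g2⟩ := hM T hTm
            have hcp : rf_cutp T h' = rf_cutp T h := by
              funext S i j
              unfold rf_cutp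
              by_cases hST : S ⊂ T
              · rw [if_pos hST, if_pos hST]
                have := Finset.card_lt_card hST
                exact hle S (by omega) i j
              · rw [if_neg hST, if_neg hST]
            have hgm : rf_gm (rf_cut T h') = fun i j => rf_gm (rf_cutp T h) i j +
                M T i j • rf_tg T := by
              rw [rf_gm_cut, hcp]
              funext i j
              rw [heq T hTm]
            refine ⟨gi, ?_, ?_⟩
            · rw [hgm]; exact g1
            · intro i j
              rw [hgm]; exact g2 i j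
          · have hcc : rf_cut T h' = rf_cut T h := by
              funext S i j
              unfold rf_cut
              by_cases hST : S ⊆ T
              · rw [if_pos hST, if_pos hST]
                have := Finset.card_le_card hST
                exact hle S (by omega) i j
              · rw [if_neg hST, if_neg hST]
            rw [hcc]
            exact hgood T (by omega)
  obtain ⟨h, hs, h0, hsing, hgood⟩ := main r
  obtain ⟨gi, hgi, hric⟩ := hgood Finset.univ (by rw [Finset.card_univ, Fintype.card_fin])
  have hcu : rf_cut Finset.univ h = h := by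
    funext S i j
    unfold rf_cut
    rw [if_pos (Finset.subset_univ S)]
  rw [hcu] at hgi hric
  have hmet : met (fun i j => (⟨fun S => h S i j⟩ : SF (Fin r))) = rf_gm h := by
    funext i j
    unfold met rf_gm
    congr 1
    ext S
    rw [SF.c_rsmul, SF.c_add]
    show ((1 / 2 : ℝ) : ℂ) * (h S i j + h S j i) = h S i j
    rw [hs S j i]
    push_cast
    ring
  refine ⟨fun i j => ⟨fun S => h S i j⟩, gi, ?_, ?_, ?_, ?_, ?_⟩
  · intro i j
    ext S
    exact hs S i j
  · intro i j
    exact h0 i j
  · intro i j s
    exact hsing s i j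
  · rw [hmet]; exact hgi
  · intro i j
    rw [hmet]; exact hric i j

end CInv
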