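import Pool.Agent.Helper771.CInv.Defs

set_option linter.all false

open scoped BigOperators

namespace CInv



theorem pdv_lin {n : ℕ} (k : Fin n → ℂ) (i : Fin n) : pdv i (lin k) = MvPolynomial.C (k i) := by
  unfold pdv lin
  rw [map_sum, Finset.sum_eq_single i]
  · rw [MvPolynomial.pderiv_C_mul, MvPolynomial.pderiv_X_self, mul_one]
  · intro j _ hj
    rw [MvPolynomial.pderiv_C_mul, MvPolynomial.pderiv_X_of_ne hj, mul_zero]
  · intro h; exact absurd (Finset.mem_univ i) h

theorem Dw_lin {n : ℕ} (k : Fin n → ℂ) (a : ℕ) (z : ℂ) (w : List (Fin n)) :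
    Dw pdv w (lin k ^ a * MvPolynomial.C z) =
      MvPolynomial.C ((a.descFactorial w.length : ℂ) * (w.map k).prod * z)
        * lin k ^ (a - w.length) := by
  induction w with
  | nil => simp [Dw, mul_comm]
  | cons i w ih =>
    show pdv i (Dw pdv w (lin k ^ a * MvPolynomial.C z)) = _
    rw [ih]
    have h1 : pdv i (lin k ^ (a - w.length)) =
        ((a - w.length : ℕ) : MvPolynomial (Fin n) ℂ) * lin k ^ (a - w.length - 1) *
          MvPolynomial.C (k i) := by
      rw [← pdv_lin]
      unfold pdv
      rw [Derivation.leibniz_pow]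
      simp only [smul_eq_mul, nsmul_eq_mul]
      ring
    have h2 : pdv i (MvPolynomial.C ((a.descFactorial w.length : ℂ) * (w.map k).prod * z)
        * lin k ^ (a - w.length)) =
        MvPolynomial.C ((a.descFactorial w.length : ℂ) * (w.map k).prod * z) *
        pdv i (lin k ^ (a - w.length)) := by
      unfold pdv
      rw [MvPolynomial.pderiv_C_mul]
    rw [h2, h1, List.length_cons, Nat.descFactorial_succ, List.map_cons, List.prod_cons]
    rw [Nat.sub_sub]
    simp only [Nat.cast_mul, map_mul, map_natCast]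
    ring

theorem cc_lin {n : ℕ} (k : Fin n → ℂ) : MvPolynomial.constantCoeff (lin k) = 0 := by
  unfold lin
  simp

theorem j0_tens {n : ℕ} (k e : Fin n → ℂ) (a : ℕ) (v : JV n) :
    J0 (tens (lin k ^ a) e e) v
      = if v.2.2.card = a then (a.factorial : ℂ) * (v.2.2.map k).prod * (e v.1 * e v.2.1) else 0 := by
  unfold J0 tens
  rw [Dw_lin, map_mul, map_pow, cc_lin, MvPolynomial.constantCoeff_C, Multiset.length_toList]
  have hp : (v.2.2.toList.map k).prod = (v.2.2.map k).prod := by
    conv_rhs => rw [← Multiset.coe_toList v.2.2]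
    rw [Multiset.map_coe, Multiset.prod_coe]
  rw [hp]
  split_ifs with h
  · rw [h, Nat.sub_self, pow_zero, mul_one, Nat.descFactorial_self]
  · rcases lt_or_gt_of_ne h with h1 | h1
    · rw [zero_pow (by omega), mul_zero]
    · rw [Nat.descFactorial_eq_zero_iff_lt.2 h1]
      simp

end CInv
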