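import Pool.Agent.Helper771.CInv.Defs
import Pool.Agent.Helper771.CInv.P_polar_multilin
import Pool.Agent.Helper771.CInv.P_exp_top

set_option linter.all false

open scoped BigOperators

namespace CInv



section ewaux

variable {ι : Type} [DecidableEq ι]

theorem ew_gen_mul (i : ι) (x : SF ι) (S : Finset ι) :
    (SF.gen i * x).c S = if i ∈ S then x.c (S.erase i) else 0 := by
  rw [SF.c_mul]
  by_cases h : i ∈ S
  · rw [if_pos h, Finset.sum_eq_single {i}]
    · simp only [SF.gen, if_true, one_mul]
      rw [Finset.erase_eq]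
    · intro T _ hT
      simp only [SF.gen, if_neg hT, zero_mul]
    · intro h'
      exact absurd (Finset.mem_powerset.2 (Finset.singleton_subset_iff.2 h)) h'
  · rw [if_neg h]
    refine Finset.sum_eq_zero fun T hT => ?_
    have : T ≠ {i} := by
      rintro rfl
      exact h (Finset.singleton_subset_iff.1 (Finset.mem_powerset.1 hT))
    simp only [SF.gen, if_neg this, zero_mul]

theorem ew_gen_sq (i : ι) : (SF.gen i * SF.gen i : SF ι) = 0 := by
  ext S
  rw [ew_gen_mul, SF.c_zero]
  by_cases h : i ∈ S
  · rw [if_pos h]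
    have : S.erase i ≠ {i} := by
      intro h'
      have : i ∈ S.erase i := by rw [h']; exact Finset.mem_singleton_self i
      exact (Finset.notMem_erase i S) this
    simp only [SF.gen, if_neg this]
  · rw [if_neg h]

theorem ew_prod (t : Finset ι) (S : Finset ι) :
    (∏ i ∈ t, (SF.gen i : SF ι)).c S = if S = t then 1 else 0 := by
  induction t using Finset.induction_on generalizing S with
  | empty => rw [Finset.prod_empty, SF.c_one]
  | insert a t ha ih =>
    rw [Finset.prod_insert ha, ew_gen_mul]
    by_cases h : a ∈ S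
    · rw [if_pos h, ih]
      by_cases h2 : S.erase a = t
      · rw [if_pos h2, if_pos]
        rw [← h2, Finset.insert_erase h]
      · rw [if_neg h2, if_neg]
        rintro rfl
        exact h2 (Finset.erase_insert ha)
    · rw [if_neg h, if_neg]
      rintro rfl
      exact h (Finset.mem_insert_self a t)

end ewaux

theorem ew_dd {V R R' : Type} [CommRing R] [CommRing R'] (φ : R →+* R') (u : V → R)
    (p : MvPolynomial V R) :
    dd (fun v => φ (u v)) (MvPolynomial.map φ p) = MvPolynomial.map φ (dd u p) := by
  induction p using MvPolynomial.induction_on with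
  | C a =>
    rw [MvPolynomial.map_C, MvPolynomial.derivation_C, MvPolynomial.derivation_C, map_zero]
  | add p q hp hq => rw [map_add, map_add, map_add, map_add, hp, hq]
  | mul_X p v hp =>
    rw [map_mul, Derivation.leibniz, Derivation.leibniz, map_add, smul_eq_mul, smul_eq_mul,
      smul_eq_mul, smul_eq_mul, map_mul, map_mul, hp, MvPolynomial.map_X]
    congr 2
    unfold dd
    rw [MvPolynomial.mkDerivation_X, MvPolynomial.mkDerivation_X, MvPolynomial.map_C]

theorem ew_nat {V R R' : Type} [CommRing R] [CommRing R'] (φ : R →+* R') (r : ℕ)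
    (p : MvPolynomial V R) (u : Fin r → V → R) :
    polar r (MvPolynomial.map φ p) (fun j v => φ (u j v)) = φ (polar r p u) := by
  induction r generalizing p with
  | zero => simp only [polar, MvPolynomial.constantCoeff_map]
  | succ r ih =>
    simp only [polar]
    rw [ew_dd]
    exact ih (dd (u 0) p) (Fin.tail u)

theorem ew_ord {V R R' : Type} [CommRing R] [CommRing R'] (φ : R →+* R') {r : ℕ}
    {p : MvPolynomial V R} (hp : OrdGE r p) : OrdGE r (MvPolynomial.map φ p) := fun m hm =>
  hp m (MvPolynomial.support_map_subset φ p hm)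

theorem ew_lin1 {M R : Type} [CommRing R] [AddCommGroup M] [Module R M] {r : ℕ}
    (B : MultilinearMap R (fun _ : Fin r => M) R) (g : R) (m m' : Fin r → M)
    (t : Finset (Fin r)) :
    ∃ c, B (fun j => if j ∈ t then m j + g • m' j else m j) = B m + g * c := by
  classical
  induction t using Finset.induction_on with
  | empty => exact ⟨0, by simp⟩
  | insert a t ha ih =>
    obtain ⟨c, hc⟩ := ih
    have e1 : (fun j => if j ∈ insert a t then m j + g • m' j else m j)
        = Function.update (fun j => if j ∈ t then m j + g • m' j else m j) a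
          (m a + g • m' a) := by
      funext j
      by_cases h : j = a
      · subst h; simp
      · simp [h]
    have e2 : Function.update (fun j => if j ∈ t then m j + g • m' j else m j) a (m a)
        = (fun j => if j ∈ t then m j + g • m' j else m j) := by
      funext j
      by_cases h : j = a
      · subst h; simp [ha]
      · simp [h]
    rw [e1, B.map_update_add, B.map_update_smul, e2, hc]
    refine ⟨c + B (Function.update (fun j => if j ∈ t then m j + g • m' j else m j) a (m' a)), ?_⟩
    rw [smul_eq_mul]
    ring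

theorem ew_lin2 {M R : Type} [CommRing R] [AddCommGroup M] [Module R M] {r : ℕ}
    (B : MultilinearMap R (fun _ : Fin r => M) R) (g : R) (hg : g * g = 0) (m m' : Fin r → M)
    (t : Finset (Fin r)) :
    B (fun j => if j ∈ t then m j + g • m' j else m j)
      = B m + g * ∑ j ∈ t, B (Function.update m j (m' j)) := by
  classical
  induction t using Finset.induction_on with
  | empty => simp
  | insert a t ha ih =>
    have e1 : (fun j => if j ∈ insert a t then m j + g • m' j else m j)
        = Function.update (fun j => if j ∈ t then m j + g • m' j else m j) a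
          (m a + g • m' a) := by
      funext j
      by_cases h : j = a
      · subst h; simp
      · simp [h]
    have e2 : Function.update (fun j => if j ∈ t then m j + g • m' j else m j) a (m a)
        = (fun j => if j ∈ t then m j + g • m' j else m j) := by
      funext j
      by_cases h : j = a
      · subst h; simp [ha]
      · simp [h]
    have e3 : Function.update (fun j => if j ∈ t then m j + g • m' j else m j) a (m' a)
        = (fun j => if j ∈ t then Function.update m a (m' a) j + g • m' j
            else Function.update m a (m' a) j) := by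
      funext j
      by_cases h : j = a
      · subst h; simp [ha]
      · simp [h]
    obtain ⟨c, hc⟩ := ew_lin1 B g (Function.update m a (m' a)) m' t
    rw [e1, B.map_update_add, B.map_update_smul, e2, ih, e3, hc, Finset.sum_insert ha, smul_eq_mul]
    linear_combination c * hg

theorem exp_ward {V : Type} {r : ℕ} {Φ : MvPolynomial V ℝ} (hΦ : OrdGE r Φ)
    (u u' : Fin r → V → ℂ) :
    (MvPolynomial.aeval (fun v => ∑ j : Fin r, (SF.gen j.succ : SF (Fin (r + 1)))
        * (algebraMap ℂ _ (u j v) + SF.gen 0 * algebraMap ℂ _ (u' j v))) Φ).c Finset.univ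
      = ∑ j, polar r (MvPolynomial.map (algebraMap ℝ ℂ) Φ) (Function.update u j (u' j)) ∧
    ((SF.gen 0 : SF (Fin (r + 1))) * MvPolynomial.aeval (fun v => ∑ j : Fin r,
        (SF.gen j.succ : SF (Fin (r + 1))) * algebraMap ℂ _ (u j v)) Φ).c Finset.univ
      = polar r (MvPolynomial.map (algebraMap ℝ ℂ) Φ) u ∧
    (MvPolynomial.aeval (fun v => ∑ j : Fin r,
        (SF.gen j.succ : SF (Fin (r + 1))) * algebraMap ℂ _ (u j v)) Φ).c Finset.univ = 0 := by
  classical
  have hmap : MvPolynomial.map (algebraMap ℝ (SF (Fin (r + 1)))) Φ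
      = MvPolynomial.map (algebraMap ℂ (SF (Fin (r + 1)))) (MvPolynomial.map (algebraMap ℝ ℂ) Φ) := by
    rw [MvPolynomial.map_map, ← IsScalarTower.algebraMap_eq]
  have hae : ∀ w : V → SF (Fin (r + 1)), MvPolynomial.aeval w Φ
      = MvPolynomial.eval w (MvPolynomial.map (algebraMap ℝ (SF (Fin (r + 1)))) Φ) := by
    intro w
    rw [MvPolynomial.aeval_def, MvPolynomial.eval_map]
  have hord : OrdGE r (MvPolynomial.map (algebraMap ℝ (SF (Fin (r + 1)))) Φ) := ew_ord _ hΦ
  have hs : ∀ i : Fin r, (SF.gen i.succ : SF (Fin (r + 1))) * SF.gen i.succ = 0 :=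
    fun i => ew_gen_sq _
  have hP : (∏ j : Fin r, (SF.gen j.succ : SF (Fin (r + 1)))).c Finset.univ = 0 := by
    have e : (∏ j : Fin r, (SF.gen j.succ : SF (Fin (r + 1))))
        = ∏ i ∈ Finset.univ.map (Fin.succEmb r), (SF.gen i : SF (Fin (r + 1))) := by
      rw [Finset.prod_map]; rfl
    rw [e, ew_prod, if_neg]
    intro h
    have : (0 : Fin (r + 1)) ∈ Finset.univ.map (Fin.succEmb r) := by
      rw [← h]; exact Finset.mem_univ _
    rw [Finset.mem_map] at this
    obtain ⟨j, _, hj⟩ := this
    exact Fin.succ_ne_zero j hj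
  have hP0 : ((SF.gen 0 : SF (Fin (r + 1))) * ∏ j : Fin r, (SF.gen j.succ : SF (Fin (r + 1)))).c
      Finset.univ = 1 := by
    rw [← Fin.prod_univ_succ (fun i => (SF.gen i : SF (Fin (r + 1)))), ew_prod, if_pos rfl]
  have hbase : MvPolynomial.aeval (fun v => ∑ j : Fin r,
        (SF.gen j.succ : SF (Fin (r + 1))) * algebraMap ℂ _ (u j v)) Φ
      = polar r (MvPolynomial.map (algebraMap ℝ ℂ) Φ) u • ∏ j : Fin r, (SF.gen j.succ) := by
    rw [hae, exp_top (fun j : Fin r => (SF.gen j.succ : SF (Fin (r + 1)))) hs _ hord
      (fun j v => algebraMap ℂ _ (u j v)), hmap, ew_nat, Algebra.smul_def, mul_comm]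
  refine ⟨?_, ?_, ?_⟩
  · rw [hae, exp_top (fun j : Fin r => (SF.gen j.succ : SF (Fin (r + 1)))) hs _ hord
      (fun j v => algebraMap ℂ _ (u j v) + SF.gen 0 * algebraMap ℂ _ (u' j v))]
    obtain ⟨B, hB⟩ := polar_multilin r (MvPolynomial.map (algebraMap ℝ (SF (Fin (r + 1)))) Φ)
    rw [← hB]
    have e := ew_lin2 B (SF.gen 0) (ew_gen_sq 0) (fun j v => algebraMap ℂ _ (u j v))
      (fun j v => algebraMap ℂ _ (u' j v)) Finset.univ
    simp only [Finset.mem_univ, if_true] at e
    have e' : (fun (j : Fin r) (v : V) => algebraMap ℂ (SF (Fin (r + 1))) (u j v)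
          + SF.gen 0 * algebraMap ℂ _ (u' j v))
        = (fun j => (fun v => algebraMap ℂ (SF (Fin (r + 1))) (u j v))
          + (SF.gen 0 : SF (Fin (r + 1))) • (fun v => algebraMap ℂ (SF (Fin (r + 1))) (u' j v))) := by
      funext j v
      rfl
    rw [e', e, hB, hmap, ew_nat]
    have e3 : ∀ j, B (Function.update (fun j v => algebraMap ℂ (SF (Fin (r + 1))) (u j v)) j
        (fun v => algebraMap ℂ _ (u' j v)))
        = algebraMap ℂ _ (polar r (MvPolynomial.map (algebraMap ℝ ℂ) Φ)
          (Function.update u j (u' j))) := by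
      intro j
      rw [hB, hmap, ← ew_nat]
      congr 1
      funext i v
      by_cases h : i = j
      · subst h; simp
      · simp [h]
    rw [Finset.sum_congr rfl (fun j _ => e3 j), ← map_sum]
    have e4 : ∀ (P x0 : SF (Fin (r + 1))) (a b : ℂ),
        P * (algebraMap ℂ _ a + x0 * algebraMap ℂ _ b) = a • P + b • (x0 * P) := by
      intro P x0 a b
      rw [Algebra.smul_def, Algebra.smul_def]
      ring
    rw [e4, SF.c_add, SF.c_smul, SF.c_smul, hP, hP0]
    ring
  · rw [hbase, mul_smul_comm, SF.c_smul, hP0, mul_one]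
  · rw [hbase, SF.c_smul, hP, mul_zero]

end CInv
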