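import Pool.Agent.Helper771.CInv.Defs

set_option linter.all false

open scoped BigOperators

namespace CInv



theorem jet_surj_coeff {n : ℕ} (w : List (Fin n)) (m : Fin n →₀ ℕ) :
    ∃ q : ℂ, q ≠ 0 ∧ ∀ p : MvPolynomial (Fin n) ℂ,
      MvPolynomial.coeff m (Dw pdv w p) =
        q * MvPolynomial.coeff (m + Multiset.toFinsupp (w : Multiset (Fin n))) p := by
  induction w generalizing m with
  | nil => exact ⟨1, one_ne_zero, fun p => by simp [Dw]⟩
  | cons i w ih =>
    obtain ⟨q, hq, h⟩ := ih (m + Finsupp.single i 1)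
    refine ⟨((m i : ℂ) + 1) * q, mul_ne_zero (Nat.cast_add_one_ne_zero (m i)) hq, fun p => ?_⟩
    show MvPolynomial.coeff m (MvPolynomial.pderiv i (Dw pdv w p)) = _
    rw [MvPolynomial.coeff_pderiv, h p]
    have h1 : m + Multiset.toFinsupp ((i :: w : List (Fin n)) : Multiset (Fin n)) =
        m + Finsupp.single i 1 + Multiset.toFinsupp (w : Multiset (Fin n)) := by
      rw [← Multiset.cons_coe, ← Multiset.singleton_add, Multiset.toFinsupp_add,
        Multiset.toFinsupp_singleton, add_assoc]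
    rw [h1]
    ring

theorem jet_surj {n : ℕ} [DecidableEq (JV n)] (v : JV n) : ∃ h : Mx n, J0 h = Pi.single v 1 := by
  classical
  obtain ⟨i0, j0, s0⟩ := v
  obtain ⟨q0, hq0, h0⟩ := jet_surj_coeff s0.toList (0 : Fin n →₀ ℕ)
  refine ⟨fun i j => if i = i0 ∧ j = j0 then
    MvPolynomial.monomial (Multiset.toFinsupp s0) q0⁻¹ else 0, ?_⟩
  ext ⟨i, j, s⟩
  obtain ⟨q, hq, h⟩ := jet_surj_coeff s.toList (0 : Fin n →₀ ℕ)
  unfold J0
  rw [MvPolynomial.constantCoeff_eq, h, Multiset.coe_toList, zero_add]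
  by_cases hij : i = i0 ∧ j = j0
  · obtain ⟨rfl, rfl⟩ := hij
    simp only [and_self, if_true, MvPolynomial.coeff_monomial]
    by_cases hs : s = s0
    · subst hs
      rw [if_pos rfl, Pi.single_eq_same]
      have h1 := h0 (MvPolynomial.monomial (Multiset.toFinsupp s) 1)
      have h2 := h (MvPolynomial.monomial (Multiset.toFinsupp s) 1)
      rw [h1, Multiset.coe_toList, zero_add, MvPolynomial.coeff_monomial, if_pos rfl, mul_one,
        mul_one] at h2
      rw [← h2, mul_inv_cancel₀ hq0]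
    · rw [if_neg (fun h' => hs (Multiset.toFinsupp.injective h').symm), mul_zero,
        Pi.single_eq_of_ne]
      intro h'
      simp only [Prod.mk.injEq, true_and] at h'
      exact hs h'
  · have h1 : ((i, j, s) : JV n) ≠ (i0, j0, s0) := by
      intro h'
      simp only [Prod.mk.injEq] at h'
      exact hij ⟨h'.1, h'.2.1⟩
    rw [Pi.single_eq_of_ne h1]
    simp only
    rw [if_neg hij, MvPolynomial.coeff_zero, mul_zero]

end CInv
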