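import Pool.Agent.Helper771.CInv.Defs

set_option linter.all false

open scoped BigOperators

namespace CInv



theorem dd_single_eq {V R : Type} [CommRing R] [DecidableEq V] (v : V) (p : MvPolynomial V R) :
    dd (Pi.single v 1) p = MvPolynomial.pderiv v p := by
  rw [MvPolynomial.pderiv_def]
  unfold dd
  congr 1
  congr 1
  funext w
  by_cases h : w = v
  · subst h; simp
  · rw [Pi.single_eq_of_ne h, Pi.single_eq_of_ne h, MvPolynomial.C_0]

theorem polar_single {V : Type} [DecidableEq V] : ∀ (r : ℕ) (u : Fin r → V),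
    ∃ c : ℕ, c ≠ 0 ∧ ∀ p : MvPolynomial V ℂ, polar r p (fun j => Pi.single (u j) 1)
      = (c : ℂ) * MvPolynomial.coeff (∑ j, Finsupp.single (u j) 1) p := by
  intro r
  induction r with
  | zero =>
    intro u
    refine ⟨1, one_ne_zero, fun p => ?_⟩
    simp [polar, MvPolynomial.constantCoeff_eq]
  | succ r ih =>
    intro u
    obtain ⟨c, hc, h⟩ := ih (Fin.tail u)
    refine ⟨c * ((∑ j, Finsupp.single (Fin.tail u j) 1 : V →₀ ℕ) (u 0) + 1), ?_, fun p => ?_⟩
    · positivity
    · show polar r (dd (Pi.single (u 0) 1) p) (fun j => Pi.single (Fin.tail u j) 1) = _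
      rw [dd_single_eq, h, MvPolynomial.coeff_pderiv, Fin.sum_univ_succ]
      have : (Finsupp.single (u 0) 1 + ∑ i : Fin r, Finsupp.single (u i.succ) 1 : V →₀ ℕ)
        = ∑ j, Finsupp.single (Fin.tail u j) 1 + Finsupp.single (u 0) 1 := add_comm _ _
      rw [this]
      push_cast
      ring

theorem exists_enum {V : Type} [DecidableEq V] : ∀ (r : ℕ) (m : V →₀ ℕ), m.degree = r →
    ∃ u : Fin r → V, ∑ j, Finsupp.single (u j) 1 = m := by
  intro r
  induction r with
  | zero =>
    intro m hm
    rw [Finsupp.degree_eq_zero_iff] at hm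
    subst hm
    exact ⟨Fin.elim0, by simp⟩
  | succ r ih =>
    intro m hm
    have hne : m ≠ 0 := by
      rintro rfl
      simp at hm
    obtain ⟨v, hv⟩ := Finsupp.ne_iff.1 hne
    have hle : Finsupp.single v 1 ≤ m := by
      rw [Finsupp.single_le_iff]
      exact Nat.one_le_iff_ne_zero.2 (by simpa using hv)
    have hadd : m - Finsupp.single v 1 + Finsupp.single v 1 = m := tsub_add_cancel_of_le hle
    have hd : (m - Finsupp.single v 1).degree = r := by
      have := congrArg Finsupp.degree hadd
      rw [map_add, Finsupp.degree_single, hm] at this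
      omega
    obtain ⟨u, hu⟩ := ih _ hd
    refine ⟨Fin.cons v u, ?_⟩
    rw [Fin.sum_univ_succ]
    simp only [Fin.cons_zero, Fin.cons_succ]
    rw [hu, add_comm]
    exact hadd

theorem ord_succ {V : Type} [DecidableEq V] {r : ℕ} {p : MvPolynomial V ℂ} (hp : OrdGE r p)
    (h : ∀ u : Fin r → V, polar r p (fun j => Pi.single (u j) 1) = 0) : OrdGE (r + 1) p := by
  intro m hm
  have h1 := hp m hm
  by_contra hlt
  have hdeg : m.degree = r := by omega
  obtain ⟨u, hu⟩ := exists_enum r m hdeg
  obtain ⟨c, hc, hpol⟩ := polar_single r u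
  have h2 := h u
  rw [hpol p, hu] at h2
  rcases mul_eq_zero.1 h2 with h3 | h3
  · exact hc (by exact_mod_cast h3)
  · exact (MvPolynomial.mem_support_iff.1 hm) h3

end CInv
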