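import Mathlib

set_option linter.all false

open scoped BigOperators

namespace CInv

/-! ### The tensor formulas, over a commutative ring `A` with operators `D 0, ..., D (n-1)`.
They are used with `A` = functions on `ℝ^n` and `D i` = the derivative in the `i`-th coordinate,
and with algebraic differential rings. -/

section Formula

variable {n : ℕ} {A : Type} [CommRing A] [Algebra ℝ A]

/-- Christoffel symbol `Γ^k_{ij}` of the metric `g` with inverse `gi`. -/
noncomputable def chr (D : Fin n → A → A) (g gi : Fin n → Fin n → A) (k i j : Fin n) : A :=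
  (1 / 2 : ℝ) • ∑ l, gi k l * (D i (g j l) + D j (g i l) - D l (g i j))

/-- Ricci tensor `Ric_{ij} = ∂_k Γ^k_{ij} - ∂_j Γ^k_{ik} + Γ^k_{kl} Γ^l_{ij} - Γ^k_{jl} Γ^l_{ik}`. -/
noncomputable def ric (D : Fin n → A → A) (g gi : Fin n → Fin n → A) (i j : Fin n) : A :=
  (∑ k, (D k (chr D g gi k i j) - D j (chr D g gi k i k)))
    + ∑ k, ∑ l, (chr D g gi k k l * chr D g gi l i j - chr D g gi k j l * chr D g gi l i k)

/-- scalar curvature -/
noncomputable def scal (D : Fin n → A → A) (g gi : Fin n → Fin n → A) : A :=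
  ∑ i, ∑ j, gi i j * ric D g gi i j

/-- Schouten tensor `P = (Ric - R g / (2(n-1))) / (n-2)`. -/
noncomputable def schouten (D : Fin n → A → A) (g gi : Fin n → Fin n → A) (i j : Fin n) : A :=
  (1 / ((n : ℝ) - 2)) • (ric D g gi i j - (1 / (2 * ((n : ℝ) - 1))) • (scal D g gi * g i j))

/-- Covariant derivative of a covariant `m`-tensor; the new (derivative) index is index `0`. -/
noncomputable def covD (D : Fin n → A → A) (g gi : Fin n → Fin n → A) {m : ℕ}
    (T : (Fin m → Fin n) → A) (i : Fin (m + 1) → Fin n) : A :=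
  D (i 0) (T (Fin.tail i))
    - ∑ p : Fin m, ∑ k, chr D g gi k (i 0) (i p.succ) * T (Function.update (Fin.tail i) p k)

/-- `∇^l P`, a covariant tensor with `l + 2` indices. -/
noncomputable def nablaP (D : Fin n → A → A) (g gi : Fin n → Fin n → A) :
    (l : ℕ) → (Fin (l + 2) → Fin n) → A
  | 0 => fun i => schouten D g gi (i 0) (i 1)
  | l + 1 => covD D g gi (nablaP D g gi l)

end Formula

/-- The combinatorial data of a complete contraction of `∇^{l_1} P ⊗ ... ⊗ ∇^{l_q} P`:
the number `q ≥ 1` of factors, the orders `l_i` and a pairing `e` of all the indices. -/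
structure Contraction where
  q : ℕ
  pos : 0 < q
  l : Fin q → ℕ
  m : ℕ
  e : Fin m × Fin 2 ≃ (Σ i : Fin q, Fin (l i + 2))

section Formula

variable {n : ℕ} {A : Type} [CommRing A] [Algebra ℝ A]

/-- The value of a complete contraction: all index pairs are contracted with the inverse metric. -/
noncomputable def Contraction.eval (C : Contraction) (D : Fin n → A → A)
    (g gi : Fin n → Fin n → A) : A :=
  ∑ a : ((Σ i : Fin C.q, Fin (C.l i + 2)) → Fin n),
    (∏ j : Fin C.m, gi (a (C.e (j, 0))) (a (C.e (j, 1))))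
      * ∏ i : Fin C.q, nablaP D g gi (C.l i) (fun p => a ⟨i, p⟩)

/-- The value of a real linear combination of complete contractions. -/
noncomputable def inv (c : Contraction →₀ ℝ) (D : Fin n → A → A)
    (g gi : Fin n → Fin n → A) : A :=
  c.sum fun C t => t • C.eval D g gi

/-- `D` is a family of commuting `ℝ`-linear derivations. -/
structure IsDer (D : Fin n → A → A) : Prop where
  add : ∀ i a b, D i (a + b) = D i a + D i b
  mul : ∀ i a b, D i (a * b) = D i a * b + a * D i b
  smul : ∀ i (r : ℝ) a, D i (r • a) = r • D i a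
  comm : ∀ i j a, D i (D j a) = D j (D i a)

/-- `g` is symmetric with inverse `gi`. -/
structure IsMetric (g gi : Fin n → Fin n → A) : Prop where
  symm : ∀ i j, g i j = g j i
  inv : ∀ i j, ∑ k, g i k * gi k j = if i = j then 1 else 0

/-- the flat metric -/
def flat (A : Type) [CommRing A] {n : ℕ} (i j : Fin n) : A := if i = j then 1 else 0

/-- the metric `δ + (H + Hᵀ)/2` -/
noncomputable def met (H : Fin n → Fin n → A) (i j : Fin n) : A :=
  flat A i j + (1 / 2 : ℝ) • (H i j + H j i)

/-- iterated derivative along a word -/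
def Dw (D : Fin n → A → A) : List (Fin n) → A → A
  | [], a => a
  | i :: w, a => D i (Dw D w a)

/-- iterated derivative along a multiset of indices -/
noncomputable def Ds (D : Fin n → A → A) (s : Multiset (Fin n)) (a : A) : A := Dw D s.toList a

/-- jet variables `(i, j, s)` -/
abbrev JV (n : ℕ) : Type := Fin n × Fin n × Multiset (Fin n)

/-- the jet of a matrix -/
noncomputable def jet (D : Fin n → A → A) (H : Fin n → Fin n → A) : JV n → A :=
  fun v => Ds D v.2.2 (H v.1 v.2.1)

end Formula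

/-! ### Metrics on open subsets of `ℝ^n` -/

/-- the coordinate derivative `∂_i f` -/
noncomputable def pd {n : ℕ} (i : Fin n) (f : (Fin n → ℝ) → ℝ) : (Fin n → ℝ) → ℝ :=
  fun x => fderiv ℝ f x (Pi.single i 1)

/-- `g` is a smooth Riemannian metric on the open set `U` of `ℝ^n`. -/
structure IsMetricOn {n : ℕ} (U : Set (Fin n → ℝ))
    (g : (Fin n → ℝ) → Matrix (Fin n) (Fin n) ℝ) : Prop where
  smooth : ∀ i j, ContDiffOn ℝ (⊤ : ℕ∞) (fun x => g x i j) U
  posDef : ∀ x ∈ U, (g x).PosDef

/-- The value at `x` of the linear combination `c` of complete contractions, for the metric `g`. -/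
noncomputable def value {n : ℕ} (c : Contraction →₀ ℝ)
    (g : (Fin n → ℝ) → Matrix (Fin n) (Fin n) ℝ) (x : Fin n → ℝ) : ℝ :=
  inv c pd (fun i j y => g y i j) (fun i j y => (g y)⁻¹ i j) x

/-- conformal invariance of weight `-n` -/
def IsConfInv (n : ℕ) (c : Contraction →₀ ℝ) : Prop :=
  ∀ (U : Set (Fin n → ℝ)), IsOpen U → ∀ g : (Fin n → ℝ) → Matrix (Fin n) (Fin n) ℝ,
    IsMetricOn U g → ∀ ω : (Fin n → ℝ) → ℝ, ContDiffOn ℝ (⊤ : ℕ∞) ω U → ∀ x ∈ U,
      value c (fun y => Real.exp (2 * ω y) • g y) x = Real.exp (-(n : ℝ) * ω x) * value c g x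

/-! ### Naturality -/

/-- a relation between two rings with operators which is compatible with all operations -/
structure RelHom {n : ℕ} {A B : Type} [CommRing A] [Algebra ℝ A] [CommRing B] [Algebra ℝ B]
    (DA : Fin n → A → A) (DB : Fin n → B → B) (Rel : A → B → Prop) : Prop where
  one : Rel 1 1
  add : ∀ {a a' : A} {b b' : B}, Rel a b → Rel a' b' → Rel (a + a') (b + b')
  mul : ∀ {a a' : A} {b b' : B}, Rel a b → Rel a' b' → Rel (a * a') (b * b')
  smul : ∀ (r : ℝ) {a : A} {b : B}, Rel a b → Rel (r • a) (r • b)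
  der : ∀ i {a : A} {b : B}, Rel a b → Rel (DA i a) (DB i b)

/-! ### The universal ring -/

/-- variables: jets of the metric (by words) and the entries of the inverse metric -/
abbrev UV (n : ℕ) : Type := (Fin n × Fin n × List (Fin n)) ⊕ (Fin n × Fin n)

/-- the universal derivations -/
noncomputable def UD {n : ℕ} (a : Fin n) (p : MvPolynomial (UV n) ℝ) : MvPolynomial (UV n) ℝ :=
  MvPolynomial.mkDerivation ℝ (fun v : UV n => match v with
    | Sum.inl (i, j, w) => (MvPolynomial.X (Sum.inl (i, j, a :: w)) : MvPolynomial (UV n) ℝ)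
    | Sum.inr (i, j) => - ∑ k, ∑ l, MvPolynomial.X (Sum.inr (i, k))
        * MvPolynomial.X (Sum.inl (k, l, [a])) * MvPolynomial.X (Sum.inr (l, j))) p

/-- The universal polynomial attached to `c`: for all differential rings, and for smooth metrics. -/
structure GoodPhi (n : ℕ) (c : Contraction →₀ ℝ) (N : ℕ) (Φ : MvPolynomial (JV n) ℝ) : Prop where
  alg : ∀ (A : Type) [CommRing A] [Algebra ℝ A] (D : Fin n → A → A), IsDer D →
    ∀ (H gi : Fin n → Fin n → A), IsMetric (met H) gi →
      MvPolynomial.aeval (jet D H) Φ = (Matrix.of (met H)).det ^ N * inv c D (met H) gi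
  fn : ∀ (U : Set (Fin n → ℝ)), IsOpen U → ∀ g : (Fin n → ℝ) → Matrix (Fin n) (Fin n) ℝ,
    IsMetricOn U g → ∀ x ∈ U,
      MvPolynomial.aeval (fun v : JV n =>
          (Ds pd v.2.2 (fun y => g y v.1 v.2.1 - if v.1 = v.2.1 then 1 else 0) x : ℝ)) Φ
        = (g x).det ^ N * value c g x
  sym : ∀ (A : Type) [CommRing A] [Algebra ℝ A] (y : JV n → A),
    MvPolynomial.aeval (fun v => (1 / 2 : ℝ) • (y v + y (v.2.1, v.1, v.2.2))) Φ
      = MvPolynomial.aeval y Φ

/-! ### Polynomial matrices over a base ring `R` -/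

section Poly

variable {n : ℕ} {R : Type} [CommRing R]

/-- formal coordinate derivatives on `R[x_1..x_n]` -/
noncomputable def pdv (i : Fin n) (p : MvPolynomial (Fin n) R) : MvPolynomial (Fin n) R :=
  MvPolynomial.pderiv i p

/-- the jet at `0` of a polynomial matrix -/
noncomputable def J0 (H : Fin n → Fin n → MvPolynomial (Fin n) R) (v : JV n) : R :=
  MvPolynomial.constantCoeff (Dw pdv v.2.2.toList (H v.1 v.2.1))

/-- Conformal covariance of the polynomial `Φ`, over all base rings. -/
def ConfPhi (n M : ℕ) (Φ : MvPolynomial (JV n) ℝ) : Prop :=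
  ∀ (R : Type) [CommRing R] [Algebra ℝ R] (H : Fin n → Fin n → MvPolynomial (Fin n) R)
    (f : MvPolynomial (Fin n) R),
    MvPolynomial.aeval (J0 (fun i j => (1 + f) * met H i j - flat _ i j)) Φ
      = (1 + MvPolynomial.constantCoeff f) ^ M * MvPolynomial.aeval (J0 H) Φ

end Poly

/-! ### Polarisation -/

section Polar

variable {V R : Type} [CommRing R]

/-- derivative in the constant direction `u` -/
noncomputable def dd (u : V → R) : Derivation R (MvPolynomial V R) (MvPolynomial V R) :=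
  MvPolynomial.mkDerivation R (fun v => MvPolynomial.C (u v))

/-- `r`-th derivative at `0` in the directions `u 0, ..., u (r-1)` -/
noncomputable def polar : (r : ℕ) → MvPolynomial V R → (Fin r → V → R) → R
  | 0, p, _ => MvPolynomial.constantCoeff p
  | r + 1, p, u => polar r (dd (u 0) p) (Fin.tail u)

/-- all monomials of `p` have degree at least `r` -/
def OrdGE (r : ℕ) (p : MvPolynomial V R) : Prop := ∀ m ∈ p.support, r ≤ m.degree

end Polar


/-- Set functions with disjoint-union convolution: the ring `ℂ[e_i]/(e_i^2)`. -/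
@[ext] structure SF (ι : Type) where
  c : Finset ι → ℂ

namespace SF
variable {ι : Type} [DecidableEq ι]

instance : Zero (SF ι) := ⟨⟨fun _ => 0⟩⟩
instance : One (SF ι) := ⟨⟨fun S => if S = ∅ then 1 else 0⟩⟩
instance : Add (SF ι) := ⟨fun x y => ⟨fun S => x.c S + y.c S⟩⟩
instance : Neg (SF ι) := ⟨fun x => ⟨fun S => - x.c S⟩⟩
instance : Sub (SF ι) := ⟨fun x y => ⟨fun S => x.c S - y.c S⟩⟩
instance : Mul (SF ι) := ⟨fun x y => ⟨fun S => ∑ T ∈ S.powerset, x.c T * y.c (S \ T)⟩⟩
instance : SMul ℂ (SF ι) := ⟨fun z x => ⟨fun S => z * x.c S⟩⟩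
instance : SMul ℕ (SF ι) := ⟨fun z x => ⟨fun S => z • x.c S⟩⟩
instance : SMul ℤ (SF ι) := ⟨fun z x => ⟨fun S => z • x.c S⟩⟩

theorem c_zero (S : Finset ι) : (0 : SF ι).c S = 0 := rfl
theorem c_one (S : Finset ι) : (1 : SF ι).c S = if S = ∅ then 1 else 0 := rfl
theorem c_add (x y : SF ι) (S : Finset ι) : (x + y).c S = x.c S + y.c S := rfl
theorem c_neg (x : SF ι) (S : Finset ι) : (-x).c S = - x.c S := rfl
theorem c_sub (x y : SF ι) (S : Finset ι) : (x - y).c S = x.c S - y.c S := rfl
theorem c_mul (x y : SF ι) (S : Finset ι) :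
    (x * y).c S = ∑ T ∈ S.powerset, x.c T * y.c (S \ T) := rfl
theorem c_smul (z : ℂ) (x : SF ι) (S : Finset ι) : (z • x).c S = z * x.c S := rfl

theorem sf_mul_comm (x y : SF ι) : x * y = y * x := by
  ext S
  rw [c_mul, c_mul]
  refine Finset.sum_bij' (fun T _ => S \ T) (fun T _ => S \ T) ?_ ?_ ?_ ?_ ?_
  · intro T _; simp
  · intro T _; simp
  · intro T hT; rw [Finset.mem_powerset] at hT; simp [hT]
  · intro T hT; rw [Finset.mem_powerset] at hT; simp [hT]
  · intro T hT; rw [Finset.mem_powerset] at hT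
    rw [mul_comm]; simp [hT]

theorem sf_mul_assoc (x y z : SF ι) : x * y * z = x * (y * z) := by
  ext S
  simp only [c_mul, Finset.sum_mul, Finset.mul_sum]
  rw [Finset.sum_sigma', Finset.sum_sigma']
  refine Finset.sum_bij' (fun p _ => ⟨p.2, p.1 \ p.2⟩) (fun p _ => ⟨p.1 ∪ p.2, p.1⟩) ?_ ?_ ?_ ?_ ?_
  · rintro ⟨T, U⟩ h
    simp only [Finset.mem_sigma, Finset.mem_powerset] at h ⊢
    exact ⟨h.2.trans h.1, Finset.sdiff_subset_sdiff h.1 le_rfl⟩
  · rintro ⟨T, U⟩ h
    simp only [Finset.mem_sigma, Finset.mem_powerset] at h ⊢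
    exact ⟨Finset.union_subset h.1 (h.2.trans Finset.sdiff_subset), Finset.subset_union_left⟩
  · rintro ⟨T, U⟩ h
    simp only [Finset.mem_sigma, Finset.mem_powerset] at h ⊢
    simp [Finset.union_sdiff_of_subset h.2]
  · rintro ⟨T, U⟩ h
    simp only [Finset.mem_sigma, Finset.mem_powerset] at h ⊢
    have : Disjoint U T := by
      have := Finset.disjoint_sdiff (s := T) (t := S)
      exact (Finset.disjoint_of_subset_right h.2 this).symm
    simp only [Sigma.mk.injEq, true_and, heq_eq_eq]
    rw [Finset.union_sdiff_left, Finset.sdiff_eq_self_of_disjoint this]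
  · rintro ⟨T, U⟩ h
    simp only [Finset.mem_sigma, Finset.mem_powerset] at h ⊢
    have : (S \ U) \ (T \ U) = S \ T := by
      ext a; simp only [Finset.mem_sdiff]
      have h2 := @h.2 a
      tauto
    rw [this, mul_assoc]

theorem sf_one_mul (x : SF ι) : 1 * x = x := by
  ext S
  rw [c_mul, Finset.sum_eq_single ∅]
  · simp [c_one]
  · intro T _ hT; simp [c_one, hT]
  · simp

instance : CommRing (SF ι) where
  add_assoc x y z := by ext S; simp [c_add, add_assoc]
  zero_add x := by ext S; simp [c_add, c_zero]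
  add_zero x := by ext S; simp [c_add, c_zero]
  add_comm x y := by ext S; simp [c_add, add_comm]
  neg_add_cancel x := by ext S; simp [c_add, c_neg, c_zero]
  sub_eq_add_neg x y := by ext S; simp [c_add, c_neg, c_sub, sub_eq_add_neg]
  nsmul n x := n • x
  nsmul_zero x := by ext S; show (0:ℕ) • x.c S = 0; simp
  nsmul_succ n x := by ext S; show (n+1) • x.c S = n • x.c S + x.c S; exact succ_nsmul _ _
  zsmul n x := n • x
  zsmul_zero' x := by ext S; show (0:ℤ) • x.c S = 0; simp
  zsmul_succ' n x := by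
    ext S; show ((n.succ : ℕ) : ℤ) • x.c S = ((n:ℕ):ℤ) • x.c S + x.c S
    simp [add_mul]
  zsmul_neg' n x := by
    ext S; show (Int.negSucc n) • x.c S = -(((n.succ : ℕ) : ℤ) • x.c S)
    simp [Int.negSucc_eq]; ring
  mul_assoc := sf_mul_assoc
  mul_comm := sf_mul_comm
  one_mul := sf_one_mul
  mul_one x := by rw [sf_mul_comm, sf_one_mul]
  zero_mul x := by ext S; simp [c_mul, c_zero]
  mul_zero x := by ext S; simp [c_mul, c_zero]
  left_distrib x y z := by ext S; simp [c_mul, c_add, mul_add, Finset.sum_add_distrib]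
  right_distrib x y z := by ext S; simp [c_mul, c_add, add_mul, Finset.sum_add_distrib]

instance : Module ℂ (SF ι) where
  one_smul x := by ext S; simp [c_smul]
  mul_smul a b x := by ext S; simp [c_smul, mul_assoc]
  smul_zero a := by ext S; simp [c_smul, c_zero]
  smul_add a x y := by ext S; simp [c_smul, c_add, mul_add]
  add_smul a b x := by ext S; simp [c_smul, c_add, add_mul]
  zero_smul x := by ext S; simp [c_smul, c_zero]

noncomputable instance : Algebra ℂ (SF ι) := Algebra.ofModule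
  (by intro r x y; ext S; simp only [c_mul, c_smul, Finset.mul_sum]; exact Finset.sum_congr rfl (fun T _ => by ring))
  (by intro r x y; ext S; simp only [c_mul, c_smul, Finset.mul_sum]; exact Finset.sum_congr rfl (fun T _ => by ring))

noncomputable instance : Algebra ℝ (SF ι) := Algebra.compHom (SF ι) (algebraMap ℝ ℂ)

instance : IsScalarTower ℝ ℂ (SF ι) := ⟨fun r z x => by
  ext S
  show ((r • z : ℂ)) * x.c S = ((r : ℂ) • (z • x)).c S
  rw [c_smul, c_smul]; simp [mul_assoc]⟩

theorem c_rsmul (r : ℝ) (x : SF ι) (S : Finset ι) : (r • x).c S = (r : ℂ) * x.c S := rfl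

/-- coefficient as a linear map -/
noncomputable def cl (S : Finset ι) : SF ι →ₗ[ℂ] ℂ where
  toFun x := x.c S
  map_add' _ _ := rfl
  map_smul' _ _ := rfl

/-- the generator `e_i` -/
noncomputable def gen (i : ι) : SF ι := ⟨fun S => if S = {i} then 1 else 0⟩

/-- the diagonal derivation with momenta `k i` -/
noncomputable def DK {n : ℕ} (k : ι → Fin n → ℂ) (a : Fin n) (x : SF ι) : SF ι :=
  ⟨fun S => (∑ i ∈ S, k i a) * x.c S⟩

end SF

/-! ### The linear-algebra core -/

section Core

/-- matrices of complex polynomials in `x_1..x_n` -/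
abbrev Mx (n : ℕ) : Type := Fin n → Fin n → MvPolynomial (Fin n) ℂ

/-- the bilinear dot product on `ℂ^n` -/
noncomputable def dot {n : ℕ} (u v : Fin n → ℂ) : ℂ := ∑ i, u i * v i

/-- the linear form `k · x` -/
noncomputable def lin {n : ℕ} (k : Fin n → ℂ) : MvPolynomial (Fin n) ℂ :=
  ∑ i, MvPolynomial.C (k i) * MvPolynomial.X i

/-- `(L_X δ)_{ij} = ∂_i X_j + ∂_j X_i` -/
noncomputable def lieEta {n : ℕ} {R : Type} [CommRing R] (X : Fin n → MvPolynomial (Fin n) R) :
    Fin n → Fin n → MvPolynomial (Fin n) R :=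
  fun i j => pdv i (X j) + pdv j (X i)

/-- Lie derivative of a covariant 2-tensor -/
noncomputable def Lie {n : ℕ} {R : Type} [CommRing R] (X : Fin n → MvPolynomial (Fin n) R)
    (h : Fin n → Fin n → MvPolynomial (Fin n) R) : Fin n → Fin n → MvPolynomial (Fin n) R :=
  fun i j => (∑ a, X a * pdv a (h i j)) + (∑ a, pdv i (X a) * h a j) + ∑ a, pdv j (X a) * h i a

/-- `L_X h - 2 lam h` -/
noncomputable def KX {n : ℕ} {R : Type} [CommRing R] (X : Fin n → MvPolynomial (Fin n) R)
    (lam : MvPolynomial (Fin n) R) (h : Fin n → Fin n → MvPolynomial (Fin n) R) :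
    Fin n → Fin n → MvPolynomial (Fin n) R :=
  fun i j => Lie X h i j - 2 * lam * h i j

/-- `x · x` -/
noncomputable def xsq (n : ℕ) : MvPolynomial (Fin n) ℂ := ∑ i, MvPolynomial.X i ^ 2

/-- the special conformal vector field `2 (b·x) x - (x·x) b` -/
noncomputable def scX {n : ℕ} (b : Fin n → ℂ) (a : Fin n) : MvPolynomial (Fin n) ℂ :=
  2 * lin b * MvPolynomial.X a - xsq n * MvPolynomial.C (b a)

/-- the action of the special conformal generator with parameter `b` -/
noncomputable def Kb {n : ℕ} (b : Fin n → ℂ) (h : Mx n) : Mx n := KX (scX b) (2 * lin b) h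

/-- `p (u ⊗ w)` -/
noncomputable def tens {n : ℕ} (p : MvPolynomial (Fin n) ℂ) (u w : Fin n → ℂ) : Mx n :=
  fun i j => p * MvPolynomial.C (u i * w j)

/-- `(k·x)^a (l·x)^m e ⊗ e` -/
noncomputable def nu {n : ℕ} (k l e : Fin n → ℂ) (a m : ℕ) : Mx n :=
  tens (lin k ^ a * lin l ^ m) e e

/-- An adapted frame of `ℂ^n`. -/
structure Frame (n : ℕ) where
  k : Fin n → ℂ
  l : Fin n → ℂ
  e : Fin n → ℂ
  e' : Fin n → ℂ
  f : Fin (n - 4) → Fin n → ℂ
  kk : dot k k = 0
  ll : dot l l = 0
  ee : dot e e = 0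
  ee' : dot e' e' = 0
  kl : dot k l = 1 / 2
  hee' : dot e e' = 1 / 2
  ke : dot k e = 0
  ke' : dot k e' = 0
  le : dot l e = 0
  le' : dot l e' = 0
  kf : ∀ α, dot k (f α) = 0
  lf : ∀ α, dot l (f α) = 0
  ef : ∀ α, dot e (f α) = 0
  e'f : ∀ α, dot e' (f α) = 0
  ff : ∀ α β, dot (f α) (f β) = if α = β then 1 else 0
  compl : ∀ i j, 2 * (k i * l j + l i * k j) + 2 * (e i * e' j + e' i * e j)
    + ∑ α, f α i * f α j = if i = j then 1 else 0

/-- The properties of the lowest order forms that the core argument uses. -/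
structure GoodForm (n r : ℕ) (B : MultilinearMap ℂ (fun _ : Fin r => Mx n) ℂ) : Prop where
  gauge : ∀ (h : Fin r → Mx n) (j : Fin r) (X : Fin n → MvPolynomial (Fin n) ℂ),
    B (Function.update h j (lieEta X)) = 0
  weyl : ∀ (h : Fin r → Mx n) (j : Fin r) (f : MvPolynomial (Fin n) ℂ),
    B (Function.update h j (fun a b => if a = b then f else 0)) = 0
  transp : ∀ (h : Fin r → Mx n) (j : Fin r) (y : Mx n),
    B (Function.update h j (fun a b => y b a)) = B (Function.update h j y)
  ward : ∀ (X : Fin n → MvPolynomial (Fin n) ℂ) (lam : MvPolynomial (Fin n) ℂ),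
    (∀ a, MvPolynomial.constantCoeff (X a) = 0) →
    (∀ i j, pdv i (X j) + pdv j (X i) = if i = j then 2 * lam else 0) →
    ∀ h : Fin r → Mx n, ∑ j, B (Function.update h j (KX X lam (h j)))
      = (n : ℂ) * MvPolynomial.constantCoeff lam * B h
  onshell : ∀ k e : Fin r → Fin n → ℂ, (∀ i, dot (k i) (k i) = 0) → (∀ i, dot (k i) (e i) = 0) →
    (∀ i, dot (e i) (e i) = 0) → (∀ i j, i ≠ j → dot (k i) (k j) ≠ 0) →
    ∀ a : Fin r → ℕ, B (fun i => tens (lin (k i) ^ a i) (e i) (e i)) = 0

end Core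


/-! ### Coordinate changes -/

/-- `φ : A → B` behaves like the pull back by a coordinate change with Jacobian `J`
(inverse Jacobian `K`). -/
structure CoordChange {n : ℕ} {A B : Type} [CommRing A] [Algebra ℝ A] [CommRing B] [Algebra ℝ B]
    (D : Fin n → A → A) (D' : Fin n → B → B) (φ : A →+* B) (J K : Fin n → Fin n → B) : Prop where
  smul : ∀ (r : ℝ) a, φ (r • a) = r • φ a
  jk : ∀ i j, ∑ k, J i k * K k j = if i = j then 1 else 0
  kj : ∀ i j, ∑ k, K i k * J k j = if i = j then 1 else 0
  der : ∀ i a, D' i (φ a) = ∑ j, J i j * φ (D j a)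
  closed : ∀ i j k, D' i (J j k) = D' j (J i k)

/-- pulled back metric -/
noncomputable def pull {n : ℕ} {A B : Type} [CommRing A] [CommRing B] (φ : A →+* B)
    (J : Fin n → Fin n → B) (g : Fin n → Fin n → A) (i j : Fin n) : B :=
  ∑ a, ∑ b, J i a * J j b * φ (g a b)

/-- pulled back inverse metric -/
noncomputable def pullInv {n : ℕ} {A B : Type} [CommRing A] [CommRing B] (φ : A →+* B)
    (K : Fin n → Fin n → B) (gi : Fin n → Fin n → A) (i j : Fin n) : B :=
  ∑ a, ∑ b, K a i * K b j * φ (gi a b)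

/-- the legs `∑_j s_j h_j` as a polynomial matrix over the ring `SF (Fin r)` -/
noncomputable def legs {n r : ℕ} (h : Fin r → Mx n) (a b : Fin n) :
    MvPolynomial (Fin n) (SF (Fin r)) :=
  ∑ j, MvPolynomial.C (SF.gen j) * MvPolynomial.map (algebraMap ℂ (SF (Fin r))) (h j a b)


end CInv
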