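import Pool.Agent.Helper771.CInv.Defs
import Pool.Agent.Helper771.CInv.P_pd_smooth

set_option linter.all false

open scoped BigOperators

namespace CInv



theorem cnf_contDiff {n : ℕ} (p : MvPolynomial (Fin n) ℝ) :
    ContDiff ℝ (⊤ : ℕ∞) (fun y : Fin n → ℝ => MvPolynomial.eval y p) := by
  induction p using MvPolynomial.induction_on with
  | C a => simp only [MvPolynomial.eval_C]; exact contDiff_const
  | add p q hp hq => simp only [map_add]; exact hp.add hq
  | mul_X p i hp => simp only [map_mul, MvPolynomial.eval_X]; exact hp.mul (contDiff_apply ℝ ℝ i)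

theorem cnf_diff {n : ℕ} (p : MvPolynomial (Fin n) ℝ) (x : Fin n → ℝ) :
    DifferentiableAt ℝ (fun y : Fin n → ℝ => MvPolynomial.eval y p) x :=
  ((cnf_contDiff p).differentiable (by simp)).differentiableAt

theorem cnf_pd_eval {n : ℕ} (i : Fin n) (p : MvPolynomial (Fin n) ℝ) :
    pd i (fun y => MvPolynomial.eval y p) = fun y => MvPolynomial.eval y (pdv i p) := by
  funext x
  unfold pd pdv
  induction p using MvPolynomial.induction_on with
  | C a => simp only [MvPolynomial.eval_C]; simp
  | add p q hp hq =>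
    simp only [map_add]
    rw [fderiv_fun_add (cnf_diff p x) (cnf_diff q x), ContinuousLinearMap.add_apply, hp, hq]
  | mul_X p j hp =>
    simp only [map_mul, MvPolynomial.eval_X]
    have hj : HasFDerivAt (fun y : Fin n → ℝ => y j)
        (ContinuousLinearMap.proj (R := ℝ) (φ := fun _ : Fin n => ℝ) j) x :=
      (ContinuousLinearMap.proj (R := ℝ) (φ := fun _ : Fin n => ℝ) j).hasFDerivAt
    rw [fderiv_fun_mul (cnf_diff p x) hj.differentiableAt, hj.fderiv]
    rw [ContinuousLinearMap.add_apply, ContinuousLinearMap.smul_apply,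
      ContinuousLinearMap.smul_apply, hp, MvPolynomial.pderiv_mul]
    rw [MvPolynomial.pderiv_X]
    simp only [map_add, map_mul, MvPolynomial.eval_X, smul_eq_mul, ContinuousLinearMap.proj_apply]
    by_cases h : i = j
    · subst h; simp; ring
    · have h' : j ≠ i := fun e => h e.symm
      simp [Pi.single_apply, h, h']; ring

theorem cnf_Dw_eval {n : ℕ} (w : List (Fin n)) (p : MvPolynomial (Fin n) ℝ) :
    Dw pd w (fun y => MvPolynomial.eval y p) = fun y => MvPolynomial.eval y (Dw pdv w p) := by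
  induction w with
  | nil => rfl
  | cons i w ih =>
    show pd i (Dw pd w _) = _
    rw [ih, cnf_pd_eval]
    rfl

theorem cnf_Dw_congr {n : ℕ} {U : Set (Fin n → ℝ)} (hU : IsOpen U) {F G : (Fin n → ℝ) → ℝ}
    (h : ∀ x ∈ U, F x = G x) (w : List (Fin n)) : ∀ x ∈ U, Dw pd w F x = Dw pd w G x := by
  induction w with
  | nil => exact h
  | cons i w ih =>
    intro x hx
    show fderiv ℝ (Dw pd w F) x (Pi.single i 1) = fderiv ℝ (Dw pd w G) x (Pi.single i 1)
    have : Dw pd w F =ᶠ[nhds x] Dw pd w G := by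
      filter_upwards [hU.mem_nhds hx] with y hy using ih y hy
    rw [Filter.EventuallyEq.fderiv_eq (𝕜 := ℝ) this]

theorem cnf_pdv_lin {n : ℕ} (w : List (Fin n)) (r : ℝ) (p q : MvPolynomial (Fin n) ℝ) :
    Dw pdv w (r • (p + q)) = r • (Dw pdv w p + Dw pdv w q) := by
  induction w with
  | nil => rfl
  | cons i w ih =>
    show pdv i (Dw pdv w (r • (p + q))) = r • (pdv i (Dw pdv w p) + pdv i (Dw pdv w q))
    rw [ih]
    unfold pdv
    rw [(MvPolynomial.pderiv i).map_smul, map_add]

open Matrix in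
theorem cnf_posDef_near {n : ℕ} (g : (Fin n → ℝ) → Matrix (Fin n) (Fin n) ℝ)
    (hc : ∀ i j, Continuous (fun y => g y i j)) (hs : ∀ y, (g y).IsHermitian)
    (h0 : (g 0).PosDef) : ∀ᶠ y in nhds (0 : Fin n → ℝ), (g y).PosDef := by
  have hcont : Continuous (fun z : (Fin n → ℝ) × (Fin n → ℝ) =>
      star z.2 ⬝ᵥ ((g z.1) *ᵥ z.2)) := by
    simp only [dotProduct, Matrix.mulVec]
    apply continuous_finset_sum
    intro i _
    apply Continuous.mul
    · exact (continuous_star.comp ((continuous_apply i).comp continuous_snd))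
    · apply continuous_finset_sum
      intro j _
      exact ((hc i j).comp continuous_fst).mul ((continuous_apply j).comp continuous_snd)
  have hK : IsCompact (Metric.sphere (0 : Fin n → ℝ) 1) := isCompact_sphere _ _
  have key := hK.eventually_forall_of_forall_eventually (x₀ := (0 : Fin n → ℝ))
    (P := fun y x => 0 < star x ⬝ᵥ ((g y) *ᵥ x)) (by
      intro x hx
      have hx0 : x ≠ 0 := by
        rintro rfl
        simp at hx
      have hpos := h0.dotProduct_mulVec_pos hx0
      exact hcont.continuousAt.eventually (lt_mem_nhds hpos))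
  filter_upwards [key] with y hy
  refine Matrix.PosDef.of_dotProduct_mulVec_pos (hs y) ?_
  intro x hx
  have hnx : 0 < ‖x‖ := norm_pos_iff.mpr hx
  have h1 := hy (‖x‖⁻¹ • x) (by simp [norm_smul, hnx.ne'])
  have h2 : star (‖x‖⁻¹ • x) ⬝ᵥ ((g y) *ᵥ (‖x‖⁻¹ • x)) = ‖x‖⁻¹ ^ 2 * (star x ⬝ᵥ ((g y) *ᵥ x)) := by
    rw [star_smul, Matrix.mulVec_smul, smul_dotProduct, dotProduct_smul]
    simp only [star_trivial, smul_eq_mul]
    ring
  rw [h2] at h1
  have h3 : 0 < ‖x‖⁻¹ ^ 2 := by positivity
  exact (mul_pos_iff_of_pos_left h3).mp h1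

theorem conf_real_near {n : ℕ} (hn : Even n) {c : Contraction →₀ ℝ} (hc : IsConfInv n c)
    {N M : ℕ} {Φ : MvPolynomial (JV n) ℝ} (hΦ : GoodPhi n c N Φ) (hM : M + n / 2 = n * N)
    (H : Fin n → Fin n → MvPolynomial (Fin n) ℝ) (f : MvPolynomial (Fin n) ℝ)
    (h1 : (Matrix.of (fun i j => MvPolynomial.constantCoeff (met H i j))).PosDef)
    (h2 : 0 < 1 + MvPolynomial.constantCoeff f) :
    MvPolynomial.aeval (J0 (fun i j => (1 + f) * met H i j - flat _ i j)) Φ
      = (1 + MvPolynomial.constantCoeff f) ^ M * MvPolynomial.aeval (J0 H) Φ := by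
  set g : (Fin n → ℝ) → Matrix (Fin n) (Fin n) ℝ :=
    fun y => Matrix.of (fun i j => MvPolynomial.eval y (met H i j)) with hg
  have hg0 : g 0 = Matrix.of (fun i j => MvPolynomial.constantCoeff (met H i j)) := by
    rw [hg]
    simp only [MvPolynomial.eval_zero]
  have hsymm : ∀ i j, met H i j = met H j i := by
    intro i j
    unfold met flat
    rw [add_comm (H i j)]
    congr 1
    by_cases h : i = j
    · subst h; rfl
    · rw [if_neg h, if_neg (fun e => h e.symm)]
  have hherm : ∀ y, (g y).IsHermitian := by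
    intro y
    ext i j
    rw [Matrix.conjTranspose_apply, star_trivial]
    show MvPolynomial.eval y (met H j i) = MvPolynomial.eval y (met H i j)
    rw [hsymm]
  have hgsm : ∀ i j, ContDiff ℝ (⊤ : ℕ∞) (fun y => g y i j) := fun i j => cnf_contDiff (met H i j)
  have hnear := cnf_posDef_near g (fun i j => (hgsm i j).continuous) hherm (by rw [hg0]; exact h1)
  have hOm : ContDiff ℝ (⊤ : ℕ∞) (fun y : Fin n → ℝ => 1 + MvPolynomial.eval y f) :=
    contDiff_const.add (cnf_contDiff f)
  have hnear2 : ∀ᶠ y in nhds (0 : Fin n → ℝ), 0 < 1 + MvPolynomial.eval y f := by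
    have : 0 < 1 + MvPolynomial.eval (0 : Fin n → ℝ) f := by
      rw [MvPolynomial.eval_zero]; exact h2
    exact hOm.continuous.continuousAt.eventually (lt_mem_nhds this)
  obtain ⟨U, hUsub, hU, h0U⟩ := mem_nhds_iff.mp (hnear.and hnear2)
  have hgU : IsMetricOn U g := ⟨fun i j => (hgsm i j).contDiffOn, fun x hx => (hUsub hx).1⟩
  set om : (Fin n → ℝ) → ℝ := fun y => (1 / 2) * Real.log (1 + MvPolynomial.eval y f) with hom
  have homU : ContDiffOn ℝ (⊤ : ℕ∞) om U := by
    apply ContDiffOn.mul contDiffOn_const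
    exact hOm.contDiffOn.log (fun x hx => (hUsub hx).2.ne')
  have hexp : ∀ y ∈ U, Real.exp (2 * om y) = 1 + MvPolynomial.eval y f := by
    intro y hy
    rw [hom]
    have : 2 * (1 / 2 * Real.log (1 + MvPolynomial.eval y f))
      = Real.log (1 + MvPolynomial.eval y f) := by ring
    simp only [this]
    exact Real.exp_log (hUsub hy).2
  set g2 : (Fin n → ℝ) → Matrix (Fin n) (Fin n) ℝ := fun y => Real.exp (2 * om y) • g y with hg2
  have hg2U : IsMetricOn U g2 := by
    refine ⟨fun i j => ?_, fun x hx => ?_⟩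
    · have : (fun x => g2 x i j) = fun x => Real.exp (2 * om x) * g x i j := by
        funext x; rfl
      rw [this]
      apply ContDiffOn.mul _ (hgsm i j).contDiffOn
      exact (contDiffOn_const.mul homU).exp
    · exact (hgU.posDef x hx).smul (Real.exp_pos _)
  have e1 := hΦ.fn U hU g hgU 0 h0U
  have e2 := hΦ.fn U hU g2 hg2U 0 h0U
  have e3 := hc U hU g hgU om homU 0 h0U
  have e3' : value c g2 0 = Real.exp (-(n : ℝ) * om 0) * value c g 0 := e3
  -- jets
  have j1 : (fun v : JV n => (Ds pd v.2.2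
      (fun y => g y v.1 v.2.1 - if v.1 = v.2.1 then 1 else 0) 0 : ℝ))
      = fun v : JV n => (1 / 2 : ℝ) • (J0 H v + J0 H (v.2.1, v.1, v.2.2)) := by
    funext v
    have hv : (fun y => g y v.1 v.2.1 - if v.1 = v.2.1 then 1 else 0)
        = fun y => MvPolynomial.eval y ((1 / 2 : ℝ) • (H v.1 v.2.1 + H v.2.1 v.1)) := by
      funext y
      show MvPolynomial.eval y (met H v.1 v.2.1) - _ = _
      unfold met flat
      rw [map_add]
      by_cases h : v.1 = v.2.1
      · simp [h]
      · simp [h]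
    rw [hv]
    unfold Ds
    rw [cnf_Dw_eval, cnf_pdv_lin]
    simp only [MvPolynomial.eval_zero]
    unfold J0
    rw [MvPolynomial.smul_eq_C_mul, map_mul, map_add, MvPolynomial.constantCoeff_C, smul_eq_mul]
  have j2 : (fun v : JV n => (Ds pd v.2.2
      (fun y => g2 y v.1 v.2.1 - if v.1 = v.2.1 then 1 else 0) 0 : ℝ))
      = J0 (fun i j => (1 + f) * met H i j - flat _ i j) := by
    funext v
    have hv : ∀ y ∈ U, (g2 y v.1 v.2.1 - if v.1 = v.2.1 then 1 else 0)
        = MvPolynomial.eval y ((1 + f) * met H v.1 v.2.1 - flat _ v.1 v.2.1) := by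
      intro y hy
      have : g2 y v.1 v.2.1 = (1 + MvPolynomial.eval y f) * MvPolynomial.eval y (met H v.1 v.2.1) := by
        rw [← hexp y hy]
        rfl
      rw [this, map_sub, map_mul, map_add, map_one]
      unfold flat
      by_cases h : v.1 = v.2.1
      · simp [h]
      · simp [h]
    unfold Ds
    rw [cnf_Dw_congr hU hv v.2.2.toList 0 h0U, cnf_Dw_eval]
    simp only [MvPolynomial.eval_zero]
    rfl
  rw [j1, hΦ.sym ℝ (J0 H)] at e1
  rw [j2] at e2
  rw [e2, e1, e3']
  have hdet : (g2 0).det = (1 + MvPolynomial.constantCoeff f) ^ n * (g 0).det := by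
    rw [hg2]
    simp only
    rw [Matrix.det_smul, hexp 0 h0U, MvPolynomial.eval_zero, Fintype.card_fin]
  have hexpn : Real.exp (-(n : ℝ) * om 0) * (1 + MvPolynomial.constantCoeff f) ^ (n / 2) = 1 := by
    obtain ⟨k, hk⟩ := hn
    have hk2 : n / 2 = k := by omega
    rw [hk2, hom]
    simp only [MvPolynomial.eval_zero]
    have hk' : (n : ℝ) = k + k := by rw [hk]; push_cast; ring
    have : -(n : ℝ) * (1 / 2 * Real.log (1 + MvPolynomial.constantCoeff f))
        = - (k * Real.log (1 + MvPolynomial.constantCoeff f)) := by rw [hk']; ring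
    rw [this, Real.exp_neg, Real.exp_nat_mul, Real.exp_log h2]
    exact inv_mul_cancel₀ (pow_ne_zero _ h2.ne')
  rw [hdet, mul_pow, ← pow_mul, ← hM, pow_add]
  linear_combination ((1 + MvPolynomial.constantCoeff f) ^ M * (g 0).det ^ N * value c g 0) * hexpn

end CInv
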