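import Pool.Agent.Helper771.CInv.Defs
import Pool.Agent.Helper771.CInv.P_conf_real_near

set_option linter.all false

open scoped BigOperators

namespace CInv



/-- the defect of the conformal covariance identity -/
noncomputable def conf_phi_F {n : ℕ} {R : Type} [CommRing R] [Algebra ℝ R] (M : ℕ)
    (Φ : MvPolynomial (JV n) ℝ) (H : Fin n → Fin n → MvPolynomial (Fin n) R)
    (f : MvPolynomial (Fin n) R) : R :=
  MvPolynomial.aeval (J0 (fun i j => (1 + f) * met H i j - flat _ i j)) Φ
      - (1 + MvPolynomial.constantCoeff f) ^ M * MvPolynomial.aeval (J0 H) Φ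

theorem conf_phi_J0 {n : ℕ} {R R' : Type} [CommRing R] [Algebra ℝ R] [CommRing R'] [Algebra ℝ R']
    (ψ : R →ₐ[ℝ] R') (H : Fin n → Fin n → MvPolynomial (Fin n) R) (v : JV n) :
    J0 (fun i j => MvPolynomial.mapAlgHom ψ (H i j)) v = ψ (J0 H v) := by
  unfold J0
  have h : ∀ (w : List (Fin n)) (p : MvPolynomial (Fin n) R),
      Dw pdv w (MvPolynomial.mapAlgHom ψ p) = MvPolynomial.mapAlgHom ψ (Dw pdv w p) := by
    intro w p
    induction w with
    | nil => rfl
    | cons i w ih =>
      simp only [Dw]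
      rw [ih]
      unfold pdv
      exact MvPolynomial.pderiv_map
  rw [h]
  exact MvPolynomial.constantCoeff_map _ _

theorem conf_phi_nat {n : ℕ} {R R' : Type} [CommRing R] [Algebra ℝ R] [CommRing R'] [Algebra ℝ R']
    (M : ℕ) (Φ : MvPolynomial (JV n) ℝ) (ψ : R →ₐ[ℝ] R')
    (H : Fin n → Fin n → MvPolynomial (Fin n) R) (f : MvPolynomial (Fin n) R) :
    conf_phi_F M Φ (fun i j => MvPolynomial.mapAlgHom ψ (H i j)) (MvPolynomial.mapAlgHom ψ f) =
      ψ (conf_phi_F M Φ H f) := by
  unfold conf_phi_F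
  have haev : ∀ y : JV n → R, MvPolynomial.aeval (fun v => ψ (y v)) Φ =
      ψ (MvPolynomial.aeval y Φ) := by
    intro y
    have := MvPolynomial.comp_aeval (R := ℝ) y ψ
    exact (DFunLike.congr_fun this Φ).symm
  have h1 : MvPolynomial.aeval (J0 (fun i j => MvPolynomial.mapAlgHom ψ (H i j))) Φ =
      ψ (MvPolynomial.aeval (J0 H) Φ) := by
    rw [← haev]
    congr 2
    funext v
    exact conf_phi_J0 ψ H v
  have h2 : (fun i j => (1 + MvPolynomial.mapAlgHom ψ f) *
      met (fun i j => MvPolynomial.mapAlgHom ψ (H i j)) i j - flat _ i j) =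
      (fun i j : Fin n => MvPolynomial.mapAlgHom ψ ((1 + f) * met H i j - flat _ i j)) := by
    funext i j
    unfold met
    have hflat : MvPolynomial.mapAlgHom ψ (flat (MvPolynomial (Fin n) R) i j) =
        flat (MvPolynomial (Fin n) R') i j := by
      unfold flat
      split_ifs
      · exact map_one _
      · exact map_zero _
    rw [map_sub, map_mul, map_add, map_add, map_one, map_smul, map_add, hflat]
  have h3 : MvPolynomial.aeval (J0 (fun i j => (1 + MvPolynomial.mapAlgHom ψ f) *
      met (fun i j => MvPolynomial.mapAlgHom ψ (H i j)) i j - flat _ i j)) Φ =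
      ψ (MvPolynomial.aeval (J0 (fun i j => (1 + f) * met H i j - flat _ i j)) Φ) := by
    rw [h2, ← haev]
    congr 2
    funext v
    exact conf_phi_J0 ψ _ v
  have h4 : MvPolynomial.constantCoeff (MvPolynomial.mapAlgHom ψ f) =
      ψ (MvPolynomial.constantCoeff f) := MvPolynomial.constantCoeff_map _ _
  rw [h1, h3, h4, map_sub, map_mul, map_pow, map_add, map_one]

/-- the metric is positive definite at `0` for small parameters -/
theorem conf_phi_posDef {n : ℕ} (S : Fin n → Fin n → ℝ) (hS : ∀ i j, S i j = S j i) :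
    ∃ δ : ℝ, 0 < δ ∧ ∀ t : ℝ, |t| < δ →
      (Matrix.of (fun i j => (if i = j then (1:ℝ) else 0) + t * S i j)).PosDef := by
  set K : ℝ := ∑ i, ∑ j, |S i j| with hK
  have hK0 : 0 ≤ K := Finset.sum_nonneg fun i _ => Finset.sum_nonneg fun j _ => abs_nonneg _
  refine ⟨1 / (K + 1), by positivity, fun t ht => ?_⟩
  have htK : |t| * K < 1 := by
    rw [lt_div_iff₀ (by positivity)] at ht
    have := abs_nonneg t
    nlinarith
  apply Matrix.PosDef.of_dotProduct_mulVec_pos
  · ext i j
    simp only [Matrix.conjTranspose_apply, Matrix.of_apply, star_trivial]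
    rw [hS j i]
    congr 1
    by_cases h : i = j
    · rw [if_pos h, if_pos h.symm]
    · rw [if_neg h, if_neg (fun h' => h h'.symm)]
  · intro x hx
    have hx2 : 0 < ∑ i, x i ^ 2 := by
      obtain ⟨i, hi⟩ := Function.ne_iff.1 hx
      exact Finset.sum_pos' (fun j _ => sq_nonneg _) ⟨i, Finset.mem_univ _, by
        have : x i ≠ 0 := hi
        positivity⟩
    have hexp : star x ⬝ᵥ (Matrix.of (fun i j => (if i = j then (1:ℝ) else 0) + t * S i j)).mulVec x
        = ∑ i, x i ^ 2 + t * ∑ i, ∑ j, S i j * (x i * x j) := by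
      simp only [dotProduct, Matrix.mulVec, Matrix.of_apply, Pi.star_apply, star_trivial]
      rw [Finset.mul_sum, ← Finset.sum_add_distrib]
      refine Finset.sum_congr rfl fun i _ => ?_
      have : ∑ j, ((if i = j then (1:ℝ) else 0) + t * S i j) * x j =
          x i + ∑ j, t * S i j * x j := by
        simp only [add_mul, Finset.sum_add_distrib, ite_mul, one_mul, zero_mul,
          Finset.sum_ite_eq, Finset.mem_univ, if_true]
      rw [this, mul_add, Finset.mul_sum, Finset.mul_sum]
      congr 1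
      · ring
      · exact Finset.sum_congr rfl fun j _ => by ring
    rw [hexp]
    have hb : |∑ i, ∑ j, S i j * (x i * x j)| ≤ K * ∑ i, x i ^ 2 := by
      calc |∑ i, ∑ j, S i j * (x i * x j)| ≤ ∑ i, ∑ j, |S i j * (x i * x j)| :=
            (Finset.abs_sum_le_sum_abs _ _).trans
              (Finset.sum_le_sum fun i _ => Finset.abs_sum_le_sum_abs _ _)
        _ ≤ ∑ i, ∑ j, |S i j| * ∑ k, x k ^ 2 := by
            refine Finset.sum_le_sum fun i _ => Finset.sum_le_sum fun j _ => ?_
            rw [abs_mul]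
            refine mul_le_mul_of_nonneg_left ?_ (abs_nonneg _)
            have hi : x i ^ 2 ≤ ∑ k, x k ^ 2 :=
              Finset.single_le_sum (f := fun k => x k ^ 2) (fun k _ => sq_nonneg _)
                (Finset.mem_univ i)
            have hj : x j ^ 2 ≤ ∑ k, x k ^ 2 :=
              Finset.single_le_sum (f := fun k => x k ^ 2) (fun k _ => sq_nonneg _)
                (Finset.mem_univ j)
            rw [abs_mul]
            have h1 : |x i| ^ 2 = x i ^ 2 := sq_abs _
            have h2 : |x j| ^ 2 = x j ^ 2 := sq_abs _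
            nlinarith [sq_nonneg (|x i| - |x j|)]
        _ = K * ∑ i, x i ^ 2 := by
            rw [hK, Finset.sum_mul]
            exact Finset.sum_congr rfl fun i _ => by rw [Finset.sum_mul]
    have h3 : -(|t| * (K * ∑ i, x i ^ 2)) ≤ t * ∑ i, ∑ j, S i j * (x i * x j) := by
      have h4 : |t * ∑ i, ∑ j, S i j * (x i * x j)| ≤ |t| * (K * ∑ i, x i ^ 2) := by
        rw [abs_mul]
        exact mul_le_mul_of_nonneg_left hb (abs_nonneg t)
      exact (abs_le.1 h4).1
    have h5 : |t| * (K * ∑ i, x i ^ 2) < ∑ i, x i ^ 2 := by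
      have := mul_lt_mul_of_pos_right htK hx2
      rw [one_mul] at this
      linarith
    linarith

/-- Step 1: real coefficients -/
theorem conf_phi_real {n : ℕ} (hn : Even n) {c : Contraction →₀ ℝ} (hc : IsConfInv n c)
    {N M : ℕ} {Φ : MvPolynomial (JV n) ℝ} (hΦ : GoodPhi n c N Φ) (hM : M + n / 2 = n * N)
    (H : Fin n → Fin n → MvPolynomial (Fin n) ℝ) (f : MvPolynomial (Fin n) ℝ) :
    conf_phi_F M Φ H f = 0 := by
  let Cι : ℝ →ₐ[ℝ] Polynomial ℝ := Algebra.ofId ℝ (Polynomial ℝ)
  let Hτ : Fin n → Fin n → MvPolynomial (Fin n) (Polynomial ℝ) := fun i j =>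
    MvPolynomial.C Polynomial.X * MvPolynomial.mapAlgHom Cι (H i j)
  let fτ : MvPolynomial (Fin n) (Polynomial ℝ) :=
    MvPolynomial.C Polynomial.X * MvPolynomial.mapAlgHom Cι f
  let q : Polynomial ℝ := conf_phi_F M Φ Hτ fτ
  have hev : ∀ t : ℝ, Polynomial.eval t q =
      conf_phi_F M Φ (fun i j => MvPolynomial.C t * H i j) (MvPolynomial.C t * f) := by
    intro t
    let ψ : Polynomial ℝ →ₐ[ℝ] ℝ := Polynomial.aeval t
    have h1 : ∀ p : MvPolynomial (Fin n) ℝ, MvPolynomial.mapAlgHom ψ
        (MvPolynomial.C Polynomial.X * MvPolynomial.mapAlgHom Cι p) = MvPolynomial.C t * p := by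
      intro p
      rw [map_mul]
      congr 1
      · change MvPolynomial.map (ψ : Polynomial ℝ →+* ℝ) (MvPolynomial.C Polynomial.X) = _
        rw [MvPolynomial.map_C]
        congr 1
        exact Polynomial.aeval_X t
      · change MvPolynomial.map (ψ : Polynomial ℝ →+* ℝ)
          (MvPolynomial.map (Cι : ℝ →+* Polynomial ℝ) p) = p
        rw [MvPolynomial.map_map]
        have h2 : ((ψ : Polynomial ℝ →+* ℝ).comp (Cι : ℝ →+* Polynomial ℝ)) = RingHom.id ℝ := by
          ext x
          exact ψ.commutes x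
        rw [h2, MvPolynomial.map_id]
    have h3 := conf_phi_nat M Φ ψ Hτ fτ
    have h4 : ψ q = Polynomial.eval t q := by
      change Polynomial.aeval t q = _
      rw [Polynomial.coe_aeval_eq_eval]
    rw [← h4]
    change ψ (conf_phi_F M Φ Hτ fτ) = _
    rw [← h3]
    simp only [Hτ, fτ, h1]
  -- small parameters
  let S : Fin n → Fin n → ℝ := fun i j => (1/2) * (MvPolynomial.constantCoeff (H i j) +
    MvPolynomial.constantCoeff (H j i))
  obtain ⟨δ, hδ, hpos⟩ := conf_phi_posDef S (fun i j => by simp only [S]; ring)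
  set c0 : ℝ := MvPolynomial.constantCoeff f with hc0
  have hδ2 : 0 < min δ (1 / (|c0| + 1)) := lt_min hδ (by positivity)
  have hroot : ∀ t : ℝ, |t| < min δ (1 / (|c0| + 1)) → Polynomial.eval t q = 0 := by
    intro t ht
    rw [hev t]
    unfold conf_phi_F
    rw [sub_eq_zero]
    apply conf_real_near hn hc hΦ hM
    · have h1 := hpos t (lt_of_lt_of_le ht (min_le_left _ _))
      suffices e : (fun i j : Fin n => MvPolynomial.constantCoeff
          (met (fun i j => MvPolynomial.C t * H i j) i j)) =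
          (fun i j => (if i = j then (1:ℝ) else 0) + t * S i j) by
        rw [e]
        exact h1
      funext i j
      unfold met flat
      rw [map_add]
      congr 1
      · split_ifs
        · exact map_one _
        · exact map_zero _
      · rw [Algebra.smul_def, map_mul]
        change MvPolynomial.constantCoeff (MvPolynomial.C (1/2 : ℝ)) * _ = _
        rw [MvPolynomial.constantCoeff_C, map_add, map_mul, map_mul,
          MvPolynomial.constantCoeff_C]
        simp only [S]
        ring
    · have h1 := lt_of_lt_of_le ht (min_le_right _ _)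
      rw [lt_div_iff₀ (by positivity)] at h1
      rw [map_mul, MvPolynomial.constantCoeff_C, ← hc0]
      have h2 : |t * c0| < 1 := by
        rw [abs_mul]
        nlinarith [abs_nonneg t, abs_nonneg c0]
      linarith [(abs_lt.1 h2).1]
  have hq : q = 0 := by
    apply Polynomial.eq_zero_of_infinite_isRoot
    refine Set.Infinite.mono ?_ (Set.Ioo_infinite (show (0:ℝ) < min δ (1 / (|c0| + 1)) from hδ2))
    intro t ht
    apply hroot
    rw [abs_of_pos ht.1]
    exact ht.2
  have h1 := hev 1
  rw [hq, Polynomial.eval_zero] at h1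
  simp only [map_one, one_mul] at h1
  exact h1.symm

theorem conf_phi {n : ℕ} (hn : Even n) {c : Contraction →₀ ℝ} (hc : IsConfInv n c)
    {N M : ℕ} {Φ : MvPolynomial (JV n) ℝ} (hΦ : GoodPhi n c N Φ) (hM : M + n / 2 = n * N) :
    ConfPhi n M Φ := by
  classical
  intro R _ _ H f
  rw [← sub_eq_zero]
  change conf_phi_F M Φ H f = 0
  -- the universal ring
  let E : Finset (Fin n →₀ ℕ) := (Finset.univ.biUnion fun i => Finset.univ.biUnion fun j =>
    (H i j).support) ∪ f.support
  let Λ : Type := (Fin n × Fin n × (Fin n →₀ ℕ)) ⊕ (Fin n →₀ ℕ)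
  let Hu : Fin n → Fin n → MvPolynomial (Fin n) (MvPolynomial Λ ℝ) := fun i j =>
    ∑ m ∈ E, MvPolynomial.monomial m (MvPolynomial.X (Sum.inl (i, j, m)))
  let fu : MvPolynomial (Fin n) (MvPolynomial Λ ℝ) :=
    ∑ m ∈ E, MvPolynomial.monomial m (MvPolynomial.X (Sum.inr m))
  have hq : conf_phi_F M Φ Hu fu = 0 := by
    apply MvPolynomial.funext
    intro y
    let ψ : MvPolynomial Λ ℝ →ₐ[ℝ] ℝ := MvPolynomial.aeval y
    have h1 := conf_phi_nat M Φ ψ Hu fu
    rw [conf_phi_real hn hc hΦ hM] at h1
    rw [map_zero]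
    have h2 : ψ (conf_phi_F M Φ Hu fu) = MvPolynomial.eval y (conf_phi_F M Φ Hu fu) := by
      exact DFunLike.congr_fun (MvPolynomial.coe_aeval_eq_eval y) _
    rw [← h2, ← h1]
  let ψ : MvPolynomial Λ ℝ →ₐ[ℝ] R := MvPolynomial.aeval (fun l : Λ => match l with
    | Sum.inl (i, j, m) => MvPolynomial.coeff m (H i j)
    | Sum.inr m => MvPolynomial.coeff m f)
  have hmap : ∀ (p : MvPolynomial (Fin n) R) (v : (Fin n →₀ ℕ) → Λ),
      p.support ⊆ E → (∀ m, ψ (MvPolynomial.X (v m)) = MvPolynomial.coeff m p) →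
      MvPolynomial.mapAlgHom ψ (∑ m ∈ E, MvPolynomial.monomial m (MvPolynomial.X (v m))) = p := by
    intro p v hp hv
    rw [map_sum]
    conv_rhs => rw [MvPolynomial.as_sum p]
    rw [← Finset.sum_subset hp]
    · refine Finset.sum_congr rfl fun m _ => ?_
      change MvPolynomial.map (ψ : MvPolynomial Λ ℝ →+* R) _ = _
      rw [MvPolynomial.map_monomial]
      congr 1
      exact hv m
    · intro m _ hm
      change MvPolynomial.map (ψ : MvPolynomial Λ ℝ →+* R) _ = _
      rw [MvPolynomial.map_monomial]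
      have : (ψ : MvPolynomial Λ ℝ →+* R) (MvPolynomial.X (v m)) = 0 := by
        change ψ (MvPolynomial.X (v m)) = 0
        rw [hv m, MvPolynomial.notMem_support_iff.1 hm]
      rw [this, map_zero]
  have hH : (fun i j => MvPolynomial.mapAlgHom ψ (Hu i j)) = H := by
    funext i j
    refine hmap (H i j) (fun m => Sum.inl (i, j, m)) ?_ (fun m => MvPolynomial.aeval_X _ _)
    intro m hm
    refine Finset.mem_union_left _ ?_
    rw [Finset.mem_biUnion]
    refine ⟨i, Finset.mem_univ _, ?_⟩
    rw [Finset.mem_biUnion]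
    exact ⟨j, Finset.mem_univ _, hm⟩
  have hf : MvPolynomial.mapAlgHom ψ fu = f :=
    hmap f (fun m => Sum.inr m) Finset.subset_union_right (fun m => MvPolynomial.aeval_X _ _)
  have h1 := conf_phi_nat M Φ ψ Hu fu
  rw [hq, map_zero, hH, hf] at h1
  exact h1

end CInv
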