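import Pool.Agent.Helper771.CInv.Defs

set_option linter.all false

open scoped BigOperators

namespace CInv



theorem euler_KX {n : ℕ} (h : Mx n) (d : ℕ) (hd : ∀ s t, (h s t).IsHomogeneous d) :
    KX (fun a => (MvPolynomial.X a : MvPolynomial (Fin n) ℂ)) 1 h = (d : ℂ) • h := by
  classical
  funext i j
  have h1 := (hd i j).sum_X_mul_pderiv
  have h2 : ∀ (i : Fin n) (g : Fin n → MvPolynomial (Fin n) ℂ),
      ∑ a, pdv i (MvPolynomial.X a : MvPolynomial (Fin n) ℂ) * g a = g i := by
    intro i g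
    rw [Finset.sum_eq_single i]
    · unfold pdv
      rw [MvPolynomial.pderiv_X_self, one_mul]
    · intro a _ ha
      unfold pdv
      rw [MvPolynomial.pderiv_X_of_ne ha, zero_mul]
    · intro hi
      exact absurd (Finset.mem_univ _) hi
  have h3 : KX (fun a => (MvPolynomial.X a : MvPolynomial (Fin n) ℂ)) 1 h i j =
      (∑ a, MvPolynomial.X a * MvPolynomial.pderiv a (h i j)) + h i j + h i j -
        2 * 1 * h i j := by
    unfold KX Lie
    rw [h2 i (fun a => h a j), h2 j (fun a => h i a)]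
    rfl
  rw [h3, h1]
  have h4 : ((d : ℂ) • h) i j = (d : ℂ) • h i j := rfl
  rw [h4, nsmul_eq_mul, MvPolynomial.smul_eq_C_mul, map_natCast]
  ring

theorem deg_hom {n r : ℕ} {B : MultilinearMap ℂ (fun _ : Fin r => Mx n) ℂ}
    (hB : GoodForm n r B) (h : Fin r → Mx n) (d : Fin r → ℕ)
    (hd : ∀ i s t, (h i s t).IsHomogeneous (d i)) (hs : ∑ i, d i ≠ n) : B h = 0 := by
  classical
  have h1 := hB.ward (fun a => (MvPolynomial.X a : MvPolynomial (Fin n) ℂ)) 1 (by
    intro a
    simp) (by
    intro i j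
    unfold pdv
    by_cases hij : i = j
    · subst hij
      rw [MvPolynomial.pderiv_X_self, if_pos rfl]
      ring
    · rw [MvPolynomial.pderiv_X_of_ne (Ne.symm hij), MvPolynomial.pderiv_X_of_ne hij, if_neg hij,
        add_zero]) h
  have h2 : ∀ j, B (Function.update h j
      (KX (fun a => (MvPolynomial.X a : MvPolynomial (Fin n) ℂ)) 1 (h j))) = (d j : ℂ) * B h := by
    intro j
    rw [euler_KX (h j) (d j) (hd j), B.map_update_smul, Function.update_eq_self, smul_eq_mul]
  rw [Finset.sum_congr rfl fun j _ => h2 j, ← Finset.sum_mul, map_one, mul_one] at h1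
  have h3 : ((∑ j, (d j : ℂ)) - n) * B h = 0 := by
    rw [sub_mul, h1, sub_self]
  rcases mul_eq_zero.1 h3 with h4 | h4
  · exfalso
    apply hs
    have h5 : (((∑ j, d j : ℕ)) : ℂ) = (n : ℂ) := by
      push_cast
      linear_combination h4
    exact_mod_cast h5
  · exact h4

end CInv
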