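import Pool.Agent.Helper771.CInv.Defs
import Pool.Agent.Helper771.CInv.P_fams
import Pool.Agent.Helper771.CInv.P_frame_decomp
import Pool.Agent.Helper771.CInv.P_kb_lin
import Pool.Agent.Helper771.CInv.P_core_K
import Pool.Agent.Helper771.CInv.P_ward_sc
import Pool.Agent.Helper771.CInv.P_deg_bound
import Pool.Agent.Helper771.CInv.P_xi_exists
import Pool.Agent.Helper771.CInv.P_gen_density

set_option linter.all false

open scoped BigOperators

namespace CInv



/-- the map `b ↦ L (Kb b y)` as a linear map -/
noncomputable def csLam {n : ℕ} (L : Mx n →ₗ[ℂ] ℂ) (y : Mx n) : (Fin n → ℂ) →ₗ[ℂ] ℂ where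
  toFun b := L (Kb b y)
  map_add' b b' := by rw [(kb_lin y).1, map_add]
  map_smul' z b := by rw [(kb_lin y).2, map_smul]; rfl

theorem csLam_apply {n : ℕ} (L : Mx n →ₗ[ℂ] ℂ) (y : Mx n) (b : Fin n → ℂ) :
    csLam L y b = L (Kb b y) := rfl

theorem csLam_dec {n : ℕ} (L : Mx n →ₗ[ℂ] ℂ) (y : Mx n) (F : Frame n) (ξ : Fin n → ℂ)
    (h1 : L (Kb F.k y) = 0) (h2 : L (Kb F.e y) = 0) (h3 : ∀ α, L (Kb (F.f α) y) = 0)
    (h4 : dot ξ F.e = 0) : L (Kb ξ y) = (2 * dot ξ F.k) * L (Kb F.l y) := by
  rw [← csLam_apply, ← csLam_apply]
  rw [← csLam_apply] at h1 h2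
  have h3' : ∀ α, csLam L y (F.f α) = 0 := h3
  conv_lhs => rw [frame_decomp F ξ]
  simp only [map_add, map_smul, map_sum, h1, h2, h3', h4, smul_eq_mul, mul_zero, zero_mul,
    zero_add, add_zero, Finset.sum_const_zero, zero_smul]

theorem cs_homog {n : ℕ} (k l e : Fin n → ℂ) (a m : ℕ) (s t : Fin n) :
    (nu k l e a m s t).IsHomogeneous (a + m) := by
  have hlin : ∀ k : Fin n → ℂ, (lin k).IsHomogeneous 1 := by
    intro k
    unfold lin
    apply MvPolynomial.IsHomogeneous.sum
    intro i _
    have h := (MvPolynomial.isHomogeneous_C (Fin n) (k i)).mul (MvPolynomial.isHomogeneous_X ℂ i)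
    simpa using h
  have h1 : (lin k ^ a).IsHomogeneous a := by simpa using (hlin k).pow a
  have h2 : (lin l ^ m).IsHomogeneous m := by simpa using (hlin l).pow m
  have h3 := (h1.mul h2).mul (MvPolynomial.isHomogeneous_C (Fin n) (e s * e t))
  exact h3

theorem cs_low {n r : ℕ} (hn : 6 ≤ n) (hr : 2 ≤ r) (hrn : 2 * r ≤ n)
    {B : MultilinearMap ℂ (fun _ : Fin r => Mx n) ℂ} (hB : GoodForm n r B)
    (J : Finset (Fin r)) (j : Fin r) (hj : j ∉ J)
    (hJ : ∀ h : Fin r → Mx n, (∀ c, c ∉ J → ∃ (F : Frame n) (a : ℕ),
      h c = nu F.k F.l F.e a 0) → B h = 0) (m : ℕ) (hm : 2 * m < n) :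
    ∀ h : Fin r → Mx n, (∀ c, c ∉ insert j J → ∃ (F : Frame n) (a : ℕ),
      h c = nu F.k F.l F.e a 0) → ∀ (F : Frame n) (a : ℕ),
    B (Function.update h j (nu F.k F.l F.e a m)) = 0 := by
  induction m using Nat.strong_induction_on with
  | _ m ih =>
    intro h hh F a
    cases m with
    | zero =>
      apply hJ
      intro c hc
      by_cases hcj : c = j
      · subst hcj
        exact ⟨F, a, by rw [Function.update_self]⟩
      · rw [Function.update_of_ne hcj]
        apply hh
        rw [Finset.mem_insert]
        tauto
    | succ m =>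
      have hm' : 2 * m < n := by omega
      have hClm := ih m (by omega) hm'
      let L : Mx n →ₗ[ℂ] ℂ := B.toLinearMap h j
      have hL : ∀ y : Mx n, L y = B (Function.update h j y) := fun y => rfl
      have hN : ∀ F : Frame n, ∀ j' ≤ m, ∀ b, b + j' = a + m + 1 →
          L (nu F.k F.l F.e b j') = 0 := by
        intro F' j' hj' b _
        rw [hL]
        exact ih j' (by omega) (by omega) h hh F' b
      -- frames of the on-shell legs
      have hch : ∀ c : Fin r, ∃ (G : Frame n) (b : ℕ), c ∉ insert j J →
          h c = nu G.k G.l G.e b 0 := by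
        intro c
        by_cases hc : c ∈ insert j J
        · exact ⟨F, 0, fun hc' => absurd hc hc'⟩
        · obtain ⟨G, b, hG⟩ := hh c hc
          exact ⟨G, b, fun _ => hG⟩
      choose Fr bb hFr using hch
      let s : Finset (Fin r) := Finset.univ \ insert j J
      classical
      let S : Finset (Fin n → ℂ) := (s.image (fun c => (Fr c).k)) ∪ (s.image (fun c => (Fr c).e))
      let Z : Submodule ℂ (Fin n → ℂ) := Submodule.span ℂ (S : Set (Fin n → ℂ))
      have hscard : s.card + 1 ≤ r := by
        have h1 : s ⊆ Finset.univ.erase j := by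
          intro c hc
          rw [Finset.mem_erase]
          refine ⟨?_, Finset.mem_univ _⟩
          intro hcj
          rw [Finset.mem_sdiff] at hc
          apply hc.2
          rw [hcj]
          exact Finset.mem_insert_self _ _
        have h2 := Finset.card_le_card h1
        rw [Finset.card_erase_of_mem (Finset.mem_univ _), Finset.card_univ, Fintype.card_fin] at h2
        have : 1 ≤ r := by omega
        omega
      have hScard : S.card ≤ 2 * s.card := by
        have h1 := Finset.card_union_le (s.image (fun c => (Fr c).k)) (s.image (fun c => (Fr c).e))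
        have h2 := Finset.card_image_le (s := s) (f := fun c => (Fr c).k)
        have h3 := Finset.card_image_le (s := s) (f := fun c => (Fr c).e)
        change ((s.image (fun c => (Fr c).k)) ∪ (s.image (fun c => (Fr c).e))).card ≤ _
        omega
      have hZ : Module.finrank ℂ Z + 2 ≤ n := by
        have h1 : Module.finrank ℂ Z ≤ S.card := finrank_span_finset_le_card (R := ℂ) S
        omega
      rw [← hL]
      apply gen_density (by omega) L a (m + 1) Z hZ
      intro F hF
      obtain ⟨ξ, hξZ, hξe, hξk⟩ := xi_exists Z F hF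
      have hw := ward_sc hB ξ (Function.update h j (nu F.k F.l F.e a m))
      have hterm : ∀ c : Fin r, c ≠ j →
          B (Function.update (Function.update h j (nu F.k F.l F.e a m)) c
            (Kb ξ ((Function.update h j (nu F.k F.l F.e a m)) c))) = 0 := by
        intro c hcj
        rw [Function.update_of_ne hcj]
        by_cases hcJ : c ∈ J
        · rw [Function.update_comm (Ne.symm hcj)]
          apply hClm
          intro d hd
          have hdc : d ≠ c := by
            intro h
            apply hd
            rw [h]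
            exact Finset.mem_insert_of_mem hcJ
          rw [Function.update_of_ne hdc]
          exact hh d hd
        · have hcI : c ∉ insert j J := by
            rw [Finset.mem_insert]
            tauto
          have hcs : c ∈ s := by
            rw [Finset.mem_sdiff]
            exact ⟨Finset.mem_univ _, hcI⟩
          have hkZ : (Fr c).k ∈ Z := by
            apply Submodule.subset_span
            exact Finset.mem_coe.2 (Finset.mem_union_left _ (Finset.mem_image_of_mem _ hcs))
          have heZ : (Fr c).e ∈ Z := by
            apply Submodule.subset_span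
            exact Finset.mem_coe.2 (Finset.mem_union_right _ (Finset.mem_image_of_mem _ hcs))
          let L' : Mx n →ₗ[ℂ] ℂ := B.toLinearMap (Function.update h j (nu F.k F.l F.e a m)) c
          have hL' : ∀ y : Mx n, L' y =
              B (Function.update (Function.update h j (nu F.k F.l F.e a m)) c y) := fun y => rfl
          have hkill : ∀ (G : Frame n) (b : ℕ), L' (nu G.k G.l G.e b 0) = 0 := by
            intro G b
            rw [hL', Function.update_comm (Ne.symm hcj)]
            apply hClm
            intro d hd
            by_cases hdc : d = c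
            · subst hdc
              exact ⟨G, b, by rw [Function.update_self]⟩
            · rw [Function.update_of_ne hdc]
              exact hh d hd
          have hcK := core_K (by omega : 4 ≤ n) L' 0 (bb c) (by
            intro G j' hj' b _
            have : j' = 0 := by omega
            subst this
            exact hkill G b) (Fr c)
          rw [← hL', hFr c hcI]
          have h5 := csLam_dec L' (nu (Fr c).k (Fr c).l (Fr c).e (bb c) 0) (Fr c) ξ hcK.2.1
            hcK.2.2.1 hcK.2.2.2 (hξZ _ heZ)
          rw [h5, hξZ _ hkZ]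
          ring
      rw [Finset.sum_eq_single j (fun c _ hc => hterm c hc)
        (fun hc => absurd (Finset.mem_univ j) hc)] at hw
      rw [Function.update_idem, Function.update_self, ← hL] at hw
      have hcK := core_K (by omega : 4 ≤ n) L m a hN F
      have h5 := csLam_dec L (nu F.k F.l F.e a m) F ξ hcK.2.1 hcK.2.2.1 hcK.2.2.2 hξe
      rw [h5, hξk, hcK.1] at hw
      have h6 : (2 * ((m : ℂ) + 1) - n) ≠ 0 := by
        intro h0
        have h7 : ((2 * (m + 1) : ℕ) : ℂ) = (n : ℂ) := by
          push_cast
          linear_combination h0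
        have h8 : 2 * (m + 1) = n := by exact_mod_cast h7
        omega
      have h9 : (2 * ((m : ℂ) + 1) - n) * L (nu F.k F.l F.e a (m + 1)) = 0 := by
        linear_combination hw
      exact (mul_eq_zero.1 h9).resolve_left h6

theorem core_step {n r : ℕ} (hn : 6 ≤ n) (hr : 2 ≤ r) (hrn : 2 * r ≤ n)
    {B : MultilinearMap ℂ (fun _ : Fin r => Mx n) ℂ} (hB : GoodForm n r B)
    (J : Finset (Fin r)) (j : Fin r) (hj : j ∉ J)
    (hJ : ∀ h : Fin r → Mx n, (∀ c, c ∉ J → ∃ (F : Frame n) (a : ℕ),
      h c = nu F.k F.l F.e a 0) → B h = 0)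
    (h : Fin r → Mx n) (hh : ∀ c, c ∉ insert j J → ∃ (F : Frame n) (a : ℕ),
      h c = nu F.k F.l F.e a 0) (F : Frame n) (a m : ℕ) :
    B (Function.update h j (nu F.k F.l F.e a m)) = 0 := by
  by_cases hm : 2 * m < n
  · exact cs_low hn hr hrn hB J j hj hJ m hm h hh F a
  by_cases ha : 2 * a < n
  · obtain ⟨F', hk, hl, he, -, -⟩ := (fams F 0).2.2.2.2.2
    have h1 : nu F.k F.l F.e a m = nu F'.k F'.l F'.e m a := by
      rw [hk, hl, he]
      unfold nu
      rw [mul_comm]
    rw [h1]
    exact cs_low hn hr hrn hB J j hj hJ a ha h hh F' m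
  · apply deg_bound hB _ j (a + m)
    · intro s t
      rw [Function.update_self]
      exact cs_homog _ _ _ _ _ _ _
    · omega

end CInv
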