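import Pool.Agent.Helper771.CInv.Defs
import Pool.Agent.Helper771.CInv.P_fams
import Pool.Agent.Helper771.CInv.P_frame_decomp
import Pool.Agent.Helper771.CInv.P_curve_poly

set_option linter.all false

open scoped BigOperators

namespace CInv



theorem of_dot_comm {n : ℕ} (u v : Fin n → ℂ) : dot u v = dot v u := by
  unfold dot
  exact Finset.sum_congr rfl fun i _ => mul_comm _ _

theorem of_dot_fam {n : ℕ} (k u w y : Fin n → ℂ) (σ : ℂ) :
    dot (k + σ • u - σ ^ 2 • w) y = dot k y + σ * dot u y - σ ^ 2 * dot w y := by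
  unfold dot
  rw [Finset.mul_sum, Finset.mul_sum, ← Finset.sum_add_distrib, ← Finset.sum_sub_distrib]
  refine Finset.sum_congr rfl fun i _ => ?_
  simp only [Pi.add_apply, Pi.sub_apply, Pi.smul_apply, smul_eq_mul]
  ring

theorem of_lin_fam {n : ℕ} (k u w : Fin n → ℂ) (σ : ℂ) :
    lin (k + σ • u - σ ^ 2 • w) = lin k + MvPolynomial.C σ * lin u
      - (MvPolynomial.C σ) ^ 2 * lin w := by
  unfold lin
  rw [Finset.mul_sum, Finset.mul_sum, ← Finset.sum_add_distrib, ← Finset.sum_sub_distrib]
  refine Finset.sum_congr rfl fun i _ => ?_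
  simp only [Pi.add_apply, Pi.sub_apply, Pi.smul_apply, smul_eq_mul, map_add, map_sub, map_mul,
    map_pow]
  ring

theorem of_fin (A B C : ℂ) (h : A ≠ 0 ∨ B ≠ 0 ∨ C ≠ 0) :
    {σ : ℂ | A + σ * B - σ ^ 2 * C = 0}.Finite := by
  set P : Polynomial ℂ := Polynomial.C A + Polynomial.X * Polynomial.C B
    - Polynomial.X ^ 2 * Polynomial.C C with hP
  have h0 : P.coeff 0 = A := by simp [hP, Polynomial.coeff_X_pow_mul']
  have h1 : P.coeff 1 = B := by
    simp [hP, Polynomial.coeff_X_pow_mul', Polynomial.coeff_C]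
  have h2 : P.coeff 2 = -C := by
    simp [hP, Polynomial.coeff_X_pow_mul', Polynomial.coeff_C]
  have hP0 : P ≠ 0 := by
    rintro h'
    rw [h'] at h0 h1 h2
    simp only [Polynomial.coeff_zero] at h0 h1 h2
    rcases h with h | h | h
    · exact h h0.symm
    · exact h h1.symm
    · exact h (by simpa using h2.symm)
  refine (Polynomial.finite_setOf_isRoot hP0).subset ?_
  intro σ hσ
  show P.eval σ = 0
  rw [hP]
  have hσ' : A + σ * B - σ ^ 2 * C = 0 := hσ
  simp only [Polynomial.eval_add, Polynomial.eval_sub, Polynomial.eval_mul, Polynomial.eval_pow,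
    Polynomial.eval_C, Polynomial.eval_X]
  exact hσ'

/-- the set of bad pairs -/
noncomputable def of_bad {n r : ℕ} (F : Fin r → Frame n) : Finset (Fin r × Fin r) :=
  open Classical in Finset.univ.filter fun p => p.1 ≠ p.2 ∧ dot (F p.1).k (F p.2).k = 0

theorem of_mem_bad {n r : ℕ} (F : Fin r → Frame n) (p : Fin r × Fin r) :
    p ∈ of_bad F ↔ p.1 ≠ p.2 ∧ dot (F p.1).k (F p.2).k = 0 := by
  unfold of_bad
  simp

theorem of_nu0 {n : ℕ} (k l e : Fin n → ℂ) (a : ℕ) : nu k l e a 0 = tens (lin k ^ a) e e := by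
  unfold nu
  rw [pow_zero, mul_one]

theorem of_step {n r : ℕ} {B : MultilinearMap ℂ (fun _ : Fin r => Mx n) ℂ}
    (F : Fin r → Frame n) (a : Fin r → ℕ) (i j : Fin r) (hij : i ≠ j)
    (hbad : dot (F i).k (F j).k = 0) (u w u' : Fin n → ℂ)
    (hfam : ∀ σ : ℂ, ∃ G : Frame n, G.k = (F i).k + σ • u - σ ^ 2 • w ∧ G.e = (F i).e - σ • u')
    (hne : dot u (F j).k ≠ 0 ∨ dot w (F j).k ≠ 0)
    (IH : ∀ G : Fin r → Frame n, (of_bad G).card < (of_bad F).card →
      B (fun i => nu (G i).k (G i).l (G i).e (a i) 0) = 0) :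
    B (fun i => nu (F i).k (F i).l (F i).e (a i) 0) = 0 := by
  classical
  set m : Fin r → Mx n := fun i => nu (F i).k (F i).l (F i).e (a i) 0 with hm
  -- finitely many exceptional parameters
  set E : Set ℂ := ⋃ c : Fin r, {σ : ℂ | (dot (F i).k (F c).k ≠ 0 ∨ c = j) ∧
    dot (F i).k (F c).k + σ * dot u (F c).k - σ ^ 2 * dot w (F c).k = 0} with hE
  have hEfin : E.Finite := by
    refine Set.finite_iUnion fun c => ?_
    by_cases hc : dot (F i).k (F c).k ≠ 0 ∨ c = j
    · refine (of_fin (dot (F i).k (F c).k) (dot u (F c).k) (dot w (F c).k) ?_).subset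
        (fun σ hσ => hσ.2)
      rcases hc with hc | hc
      · exact Or.inl hc
      · rw [hc]; exact Or.inr hne
    · refine Set.Finite.subset Set.finite_empty ?_
      intro σ hσ
      exact absurd hσ.1 hc
  have hgood : ∀ σ ∉ E, (B.toLinearMap m i) (tens (lin ((F i).k + σ • u - σ ^ 2 • w) ^ a i)
      ((F i).e - σ • u') ((F i).e - σ • u')) = 0 := by
    intro σ hσ
    obtain ⟨G, hGk, hGe⟩ := hfam σ
    have hcard : (of_bad (Function.update F i G)).card < (of_bad F).card := by
      apply Finset.card_lt_card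
      rw [Finset.ssubset_iff_of_subset]
      · refine ⟨(i, j), ?_, ?_⟩
        · rw [of_mem_bad]; exact ⟨hij, hbad⟩
        · rw [of_mem_bad]
          rintro ⟨-, h⟩
          simp only [Function.update_self, Function.update_of_ne hij.symm] at h
          rw [hGk, of_dot_fam] at h
          exact hσ (Set.mem_iUnion.2 ⟨j, Or.inr rfl, h⟩)
      · intro p hp
        rw [of_mem_bad] at hp ⊢
        refine ⟨hp.1, ?_⟩
        obtain ⟨hp1, hp2⟩ := hp
        by_cases h1 : p.1 = i
        · have h2 : p.2 ≠ i := fun h => hp1 (h1.trans h.symm)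
          rw [h1, Function.update_self, Function.update_of_ne h2, hGk, of_dot_fam] at hp2
          rw [h1]
          by_contra hcon
          exact hσ (Set.mem_iUnion.2 ⟨p.2, Or.inl hcon, hp2⟩)
        · by_cases h2 : p.2 = i
          · rw [h2, Function.update_self, Function.update_of_ne h1, of_dot_comm, hGk,
              of_dot_fam] at hp2
            rw [h2, of_dot_comm]
            by_contra hcon
            exact hσ (Set.mem_iUnion.2 ⟨p.1, Or.inl hcon, hp2⟩)
          · rwa [Function.update_of_ne h1, Function.update_of_ne h2] at hp2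
    have h3 := IH (Function.update F i G) hcard
    have e : (fun c => nu (Function.update F i G c).k (Function.update F i G c).l
        (Function.update F i G c).e (a c) 0)
        = Function.update m i (tens (lin ((F i).k + σ • u - σ ^ 2 • w) ^ a i)
      ((F i).e - σ • u') ((F i).e - σ • u')) := by
      funext c
      by_cases hc : c = i
      · subst hc
        simp only [Function.update_self]
        rw [of_nu0, hGk, hGe]
      · simp only [Function.update_of_ne hc, hm]
    rw [e] at h3
    exact h3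
  set Θ : Fin n → Fin n → Polynomial (MvPolynomial (Fin n) ℂ) := fun p q =>
    (Polynomial.C (lin (F i).k) + Polynomial.X * Polynomial.C (lin u)
      - Polynomial.X ^ 2 * Polynomial.C (lin w)) ^ a i
    * ((Polynomial.C (MvPolynomial.C ((F i).e p)) - Polynomial.X
        * Polynomial.C (MvPolynomial.C (u' p)))
      * (Polynomial.C (MvPolynomial.C ((F i).e q)) - Polynomial.X
        * Polynomial.C (MvPolynomial.C (u' q)))) with hΘ
  have hev : ∀ σ : ℂ, (fun p q => (Θ p q).eval (MvPolynomial.C σ))
      = tens (lin ((F i).k + σ • u - σ ^ 2 • w) ^ a i)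
      ((F i).e - σ • u') ((F i).e - σ • u') := by
    intro σ
    funext p q
    simp only [hΘ, tens, of_lin_fam, Polynomial.eval_mul, Polynomial.eval_pow, Polynomial.eval_add,
      Polynomial.eval_sub, Polynomial.eval_C, Polynomial.eval_X, Pi.sub_apply, Pi.smul_apply,
      smul_eq_mul, map_mul, map_sub]
  have hinf : {σ : ℂ | (B.toLinearMap m i) (fun p q => (Θ p q).eval (MvPolynomial.C σ)) = 0}.Infinite := by
    refine Set.Infinite.mono ?_ (hEfin.infinite_compl)
    intro σ hσ
    show (B.toLinearMap m i) _ = 0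
    rw [hev]
    exact hgood σ hσ
  have h5 := curve_poly (B.toLinearMap m i) Θ hinf 0
  have e0 : (fun p q => (Θ p q).coeff 0) = m i := by
    funext p q
    rw [Polynomial.coeff_zero_eq_eval_zero]
    simp only [hΘ, hm, of_nu0, tens, Polynomial.eval_mul, Polynomial.eval_pow, Polynomial.eval_add,
      Polynomial.eval_sub, Polynomial.eval_C, Polynomial.eval_X, zero_mul, add_zero, sub_zero,
      map_mul]
    rw [zero_pow two_ne_zero, zero_mul, sub_zero]
  rw [e0] at h5
  have h6 : (B.toLinearMap m i) (m i) = B m := by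
    show B (Function.update m i (m i)) = B m
    rw [Function.update_eq_self]
  rw [← h6]
  exact h5

theorem onshell_frames {n r : ℕ} (hn : 5 ≤ n) {B : MultilinearMap ℂ (fun _ : Fin r => Mx n) ℂ}
    (hB : GoodForm n r B) (F : Fin r → Frame n) (a : Fin r → ℕ) :
    B (fun i => nu (F i).k (F i).l (F i).e (a i) 0) = 0 := by
  classical
  induction hN : (of_bad F).card using Nat.strong_induction_on generalizing F with
  | _ N ih =>
    subst hN
    have IH : ∀ G : Fin r → Frame n, (of_bad G).card < (of_bad F).card →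
        B (fun i => nu (G i).k (G i).l (G i).e (a i) 0) = 0 := fun G hG => ih _ hG G rfl
    by_cases hb : of_bad F = ∅
    · have h := hB.onshell (fun i => (F i).k) (fun i => (F i).e) (fun i => (F i).kk)
        (fun i => (F i).ke) (fun i => (F i).ee) (fun i j hij h0 => by
          have : ((i, j) : Fin r × Fin r) ∈ of_bad F := (of_mem_bad F _).2 ⟨hij, h0⟩
          rw [hb] at this
          exact absurd this (Finset.notMem_empty _)) a
      have e : (fun i => nu (F i).k (F i).l (F i).e (a i) 0)
          = fun i => tens (lin ((F i).k) ^ a i) ((F i).e) ((F i).e) := by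
        funext i
        rw [of_nu0]
      rw [e]
      exact h
    · obtain ⟨p, hp⟩ := Finset.nonempty_iff_ne_empty.2 hb
      rw [of_mem_bad] at hp
      obtain ⟨hij, hbad⟩ := hp
      set i := p.1
      set j := p.2
      by_cases h1 : ∃ α, dot ((F i).f α) (F j).k ≠ 0 ∨ dot (F i).l (F j).k ≠ 0
      · obtain ⟨α, hα⟩ := h1
        refine of_step F a i j hij hbad ((F i).f α) (F i).l 0 (fun σ => ?_) hα IH
        obtain ⟨G, h1, h2, h3, h4⟩ := (fams (F i) σ).1 α
        exact ⟨G, h1, by rw [h3, smul_zero, sub_zero]⟩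
      by_cases h2 : dot (F i).e' (F j).k ≠ 0
      · refine of_step F a i j hij hbad (F i).e' 0 (F i).l (fun σ => ?_) (Or.inl h2) IH
        obtain ⟨G, h1, h2, h3, h4⟩ := (fams (F i) σ).2.1
        exact ⟨G, by rw [h1, smul_zero, sub_zero], h3⟩
      by_cases h3 : dot (F i).e (F j).k ≠ 0
      · refine of_step F a i j hij hbad (F i).e 0 0 (fun σ => ?_) (Or.inl h3) IH
        obtain ⟨G, h1, h2, h3, h4⟩ := (fams (F i) σ).2.2.1
        exact ⟨G, by rw [h1, smul_zero, sub_zero], by rw [h3, smul_zero, sub_zero]⟩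
      exfalso
      push Not at h1 h2 h3
      have hα : ∃ α : Fin (n - 4), True := ⟨⟨0, by omega⟩, trivial⟩
      obtain ⟨α0, -⟩ := hα
      have hy : (F j).k = 0 := by
        rw [frame_decomp (F i) (F j).k, of_dot_comm (F j).k (F i).l, (h1 α0).2,
          of_dot_comm (F j).k (F i).k, hbad, of_dot_comm (F j).k (F i).e', h2,
          of_dot_comm (F j).k (F i).e, h3]
        simp only [mul_zero, zero_smul, add_zero, zero_add]
        refine Finset.sum_eq_zero fun α _ => ?_
        rw [of_dot_comm, (h1 α).1, zero_smul]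
      have h4 := (F j).kl
      rw [hy] at h4
      unfold dot at h4
      simp at h4

end CInv
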