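import Pool.Agent.Helper771.CInv.Defs
import Pool.Agent.Helper771.CInv.P_low_gauge
import Pool.Agent.Helper771.CInv.P_deg_bound
import Pool.Agent.Helper771.CInv.P_onshell_frames
import Pool.Agent.Helper771.CInv.P_core_step
import Pool.Agent.Helper771.CInv.P_core_span
import Pool.Agent.Helper771.CInv.P_core_one

set_option linter.all false

open scoped BigOperators

namespace CInv



theorem core_expand {n : ℕ} (y : Mx n) : ∃ N : ℕ, y = ∑ d ∈ Finset.range N,
    (fun a b => MvPolynomial.homogeneousComponent d (y a b) : Mx n) := by
  classical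
  refine ⟨(Finset.univ.sup fun p : Fin n × Fin n => (y p.1 p.2).totalDegree) + 1, ?_⟩
  funext a b
  rw [Finset.sum_apply, Finset.sum_apply]
  have hle : (y a b).totalDegree ≤
      Finset.univ.sup fun p : Fin n × Fin n => (y p.1 p.2).totalDegree :=
    Finset.le_sup (f := fun p : Fin n × Fin n => (y p.1 p.2).totalDegree)
      (Finset.mem_univ (a, b))
  conv_lhs => rw [← MvPolynomial.sum_homogeneousComponent (y a b)]
  apply Finset.sum_subset
  · intro d hd
    rw [Finset.mem_range] at hd ⊢
    omega
  · intro d _ hd
    rw [Finset.mem_range] at hd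
    exact MvPolynomial.homogeneousComponent_eq_zero _ _ (by omega)

theorem core {n r : ℕ} (hn : 6 ≤ n) (hr : 1 ≤ r)
    {B : MultilinearMap ℂ (fun _ : Fin r => Mx n) ℂ} (hB : GoodForm n r B) : B = 0 := by
  classical
  rcases hr.eq_or_lt with h1 | h1
  · subst h1
    exact core_one hn hB
  rcases Nat.lt_or_ge n (2 * r) with h2 | h2
  · refine MultilinearMap.ext fun h => ?_
    rw [MultilinearMap.zero_apply]
    obtain ⟨N, hN⟩ := core_expand (h ⟨0, by omega⟩)
    have h3 : B h = B (Function.update h ⟨0, by omega⟩ (h ⟨0, by omega⟩)) := by
      rw [Function.update_eq_self]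
    rw [h3, hN, MultilinearMap.map_update_sum]
    refine Finset.sum_eq_zero fun d _ => ?_
    have h4 : ∀ s t, (Function.update h (⟨0, by omega⟩ : Fin r)
        (fun a b => MvPolynomial.homogeneousComponent d (h ⟨0, by omega⟩ a b))
        ⟨0, by omega⟩ s t).IsHomogeneous d := by
      intro s t
      rw [Function.update_self]
      exact MvPolynomial.homogeneousComponent_isHomogeneous d _
    rcases Nat.lt_or_ge 1 d with h5 | h5
    · exact deg_bound hB _ ⟨0, by omega⟩ d h4 (by omega)
    · exact low_gauge hB _ ⟨0, by omega⟩ d h5 h4
  · have key : ∀ J : Finset (Fin r), ∀ h : Fin r → Mx n, (∀ c, c ∉ J → ∃ (F : Frame n) (a : ℕ),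
        h c = nu F.k F.l F.e a 0) → B h = 0 := by
      intro J
      induction J using Finset.induction_on with
      | empty =>
        intro h hh
        choose F a hF using fun c => hh c (Finset.notMem_empty c)
        have e1 : h = fun i => nu (F i).k (F i).l (F i).e (a i) 0 := funext hF
        rw [e1]
        exact onshell_frames (by omega) hB F a
      | insert j J hj ih =>
        intro h hh
        have hL := core_span (n := n) (by omega) (B.toLinearMap h j)
          (fun X => hB.gauge h j X) (fun f => hB.weyl h j f) (fun y => hB.transp h j y)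
          (fun F a m => core_step hn h1 h2 hB J j hj ih h hh F a m)
        have h3 : B.toLinearMap h j (h j) = 0 := by rw [hL]; rfl
        rw [MultilinearMap.toLinearMap_apply, Function.update_eq_self] at h3
        exact h3
    refine MultilinearMap.ext fun h => ?_
    rw [MultilinearMap.zero_apply]
    exact key Finset.univ h fun c hc => absurd (Finset.mem_univ c) hc

end CInv
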