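import Pool.Agent.Helper771.CInv.Defs

set_option linter.all false

open scoped BigOperators

namespace CInv



theorem j0_aeval {n : ℕ} {R : Type} [CommRing R] [Algebra ℝ R]
    (H : Fin n → Fin n → MvPolynomial (Fin n) R) (Φ : MvPolynomial (JV n) ℝ) :
    MvPolynomial.aeval (J0 H) Φ
      = MvPolynomial.constantCoeff (MvPolynomial.aeval (jet (fun i => pdv i) H) Φ) := by
  induction Φ using MvPolynomial.induction_on with
  | C r =>
    simp only [MvPolynomial.aeval_C]
    rw [IsScalarTower.algebraMap_apply ℝ R (MvPolynomial (Fin n) R)]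
    simp [MvPolynomial.algebraMap_eq]
  | add p q hp hq => simp only [map_add, hp, hq]
  | mul_X p v hp =>
    simp only [map_mul, hp, MvPolynomial.aeval_X]
    rfl

end CInv
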