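import Pool.Agent.Helper771.CInv.Defs

set_option linter.all false

open scoped BigOperators

namespace CInv



theorem inv_ricflat {n : ℕ} {A : Type} [CommRing A] [Algebra ℝ A] {D : Fin n → A → A}
    (hD : IsDer D) {g gi : Fin n → Fin n → A} (h : ∀ i j, ric D g gi i j = 0)
    (c : Contraction →₀ ℝ) : inv c D g gi = 0 := by
  have hD0 : ∀ i, D i 0 = 0 := by
    intro i
    have h1 := hD.smul i 0 0
    rwa [zero_smul, zero_smul] at h1
  have hscal : scal D g gi = 0 := by
    unfold scal
    simp only [h, mul_zero, Finset.sum_const_zero]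
  have hsch : ∀ i j, schouten D g gi i j = 0 := by
    intro i j
    unfold schouten
    rw [h, hscal, zero_mul, smul_zero, sub_zero, smul_zero]
  have hnab : ∀ (l : ℕ) (i : Fin (l + 2) → Fin n), nablaP D g gi l i = 0 := by
    intro l
    induction l with
    | zero =>
      intro i
      exact hsch _ _
    | succ l ih =>
      intro i
      show covD D g gi (nablaP D g gi l) i = 0
      unfold covD
      rw [ih, hD0, zero_sub, neg_eq_zero]
      refine Finset.sum_eq_zero fun p _ => Finset.sum_eq_zero fun k _ => ?_
      rw [ih, mul_zero]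
  have heval : ∀ C : Contraction, C.eval D g gi = 0 := by
    intro C
    unfold Contraction.eval
    refine Finset.sum_eq_zero fun a _ => ?_
    rw [Finset.prod_eq_zero (Finset.mem_univ (⟨0, C.pos⟩ : Fin C.q)) (hnab _ _), mul_zero]
  unfold inv
  refine Finset.sum_eq_zero fun C _ => ?_
  show c C • C.eval D g gi = 0
  rw [heval, smul_zero]

end CInv
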