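import Pool.Agent.Helper771.CInv.Defs
import Pool.Agent.Helper771.CInv.P_inv_ricflat
import Pool.Agent.Helper771.CInv.P_dk_isder
import Pool.Agent.Helper771.CInv.P_top_coef
import Pool.Agent.Helper771.CInv.P_ricci_flat

set_option linter.all false

open scoped BigOperators

namespace CInv



theorem dw_coef {n : ℕ} {ι : Type} [DecidableEq ι] (k : ι → Fin n → ℂ) (w : List (Fin n))
    (x : SF ι) (S : Finset ι) :
    (Dw (SF.DK k) w x).c S = (w.map (fun a => ∑ i ∈ S, k i a)).prod * x.c S := by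
  induction w with
  | nil => simp [Dw]
  | cons a w ih =>
    have h1 : (Dw (SF.DK k) (a :: w) x).c S = (∑ i ∈ S, k i a) * (Dw (SF.DK k) w x).c S := rfl
    rw [h1, ih, List.map_cons, List.prod_cons]
    ring

theorem gf_onshell_gen {n r : ℕ} {c : Contraction →₀ ℝ} {N : ℕ} {Φ : MvPolynomial (JV n) ℝ}
    (hΦ : GoodPhi n c N Φ) (ho : OrdGE r Φ)
    (k e : Fin r → Fin n → ℂ) (h1 : ∀ i, dot (k i) (k i) = 0)
    (h2 : ∀ i, dot (k i) (e i) = 0) (h3 : ∀ i, dot (e i) (e i) = 0)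
    (hS : ∀ S : Finset (Fin r), 2 ≤ S.card → ∑ a, (∑ i ∈ S, k i a) ^ 2 ≠ 0) :
    polar r (MvPolynomial.map (algebraMap ℝ ℂ) Φ)
      (fun i (v : JV n) => e i v.1 * e i v.2.1 * (v.2.2.map (k i)).prod) = 0 := by
  obtain ⟨H, gi, hsym, hempty, hsing, hmet, hric⟩ := ricci_flat k e h1 h2 h3 hS
  have hinv := inv_ricflat (dk_isder k).1 hric c
  have halg := hΦ.alg (SF (Fin r)) (SF.DK k) (dk_isder k).1 H gi hmet
  rw [hinv, mul_zero] at halg
  have hy : ∀ v : JV n, (jet (SF.DK k) H v).c ∅ = 0 := by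
    intro v
    unfold jet Ds
    rw [dw_coef, hempty, mul_zero]
  have ht := top_coef ho (jet (SF.DK k) H) hy
  rw [halg, SF.c_zero] at ht
  rw [ht]
  congr 1
  funext j v
  unfold jet Ds
  rw [dw_coef, hsing]
  have hl : (v.2.2.toList.map (fun a => ∑ i ∈ ({j} : Finset (Fin r)), k i a)).prod
      = (v.2.2.map (k j)).prod := by
    simp only [Finset.sum_singleton]
    conv_rhs => rw [← Multiset.coe_toList v.2.2]
    rw [Multiset.map_coe, Multiset.prod_coe]
  rw [hl]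
  ring

end CInv
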