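import Pool.Agent.Helper771.CInv.Defs
import Pool.Agent.Helper771.CInv.P_polar_multilin
import Pool.Agent.Helper771.CInv.P_gf_onshell_gen
import Pool.Agent.Helper771.CInv.P_j0_tens

set_option linter.all false

open scoped BigOperators

namespace CInv



theorem gf_onshell_dd {V R : Type} [CommRing R] (s : Set V) (u : V → R) {p : MvPolynomial V R}
    (hp : p ∈ MvPolynomial.supported R s) : dd u p ∈ MvPolynomial.supported R s := by
  have hp' : p ∈ Algebra.adjoin R (MvPolynomial.X '' s : Set (MvPolynomial V R)) := hp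
  show dd u p ∈ Algebra.adjoin R (MvPolynomial.X '' s : Set (MvPolynomial V R))
  induction hp' using Algebra.adjoin_induction with
  | mem x hx =>
    obtain ⟨v, hv, rfl⟩ := hx
    have h1 : dd u (MvPolynomial.X v) = MvPolynomial.C (u v) := MvPolynomial.mkDerivation_X _ _ _
    rw [h1]
    exact Subalgebra.algebraMap_mem _ (u v)
  | algebraMap r =>
    rw [Derivation.map_algebraMap]
    exact Subalgebra.zero_mem _
  | add x y hx hy h1 h2 =>
    rw [map_add]
    exact Subalgebra.add_mem _ (h1 hx) (h2 hy)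
  | mul x y hx hy h1 h2 =>
    rw [Derivation.leibniz]
    exact Subalgebra.add_mem _ (Subalgebra.mul_mem _ hx (h2 hy)) (Subalgebra.mul_mem _ hy (h1 hx))

theorem gf_onshell_polar_congr {V R : Type} [CommRing R] (r : ℕ) (s : Set V) (p : MvPolynomial V R)
    (hp : p ∈ MvPolynomial.supported R s) (u u' : Fin r → V → R) (h : ∀ i, ∀ v ∈ s, u i v = u' i v) :
    polar r p u = polar r p u' := by
  induction r generalizing p with
  | zero => rfl
  | succ r ih =>
    show polar r (dd (u 0) p) (Fin.tail u) = polar r (dd (u' 0) p) (Fin.tail u')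
    have h1 : dd (u 0) p = dd (u' 0) p := by
      apply MvPolynomial.derivation_eq_of_forall_mem_vars
      intro i hi
      have h2 : dd (u 0) (MvPolynomial.X i) = MvPolynomial.C (u 0 i) := MvPolynomial.mkDerivation_X _ _ _
      have h3 : dd (u' 0) (MvPolynomial.X i) = MvPolynomial.C (u' 0 i) := MvPolynomial.mkDerivation_X _ _ _
      rw [h2, h3, h 0 i (MvPolynomial.mem_supported.1 hp hi)]
    rw [h1]
    exact ih _ (gf_onshell_dd s _ hp) _ _ (fun i v hv => h i.succ v hv)

/-- the legs of pure order -/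
noncomputable def gf_onshell_w {n r : ℕ} (k e : Fin r → Fin n → ℂ) (i : Fin r) (b : ℕ) (v : JV n) : ℂ :=
  if v.2.2.card = b then (v.2.2.map (k i)).prod * (e i v.1 * e i v.2.1) else 0

/-- the quadratic polynomials -/
noncomputable def gf_onshell_Q {n r : ℕ} (k : Fin r → Fin n → ℂ) (S : Finset (Fin r)) : MvPolynomial (Fin r) ℂ :=
  ∑ a, (∑ i ∈ S, MvPolynomial.X i * MvPolynomial.C (k i a)) ^ 2

theorem gf_onshell_Q_eval {n r : ℕ} (k : Fin r → Fin n → ℂ) (S : Finset (Fin r)) (l : Fin r → ℂ) :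
    MvPolynomial.eval l (gf_onshell_Q k S) = ∑ a, (∑ i ∈ S, l i * k i a) ^ 2 := by
  simp [gf_onshell_Q]

theorem gf_onshell_Q_ne {n r : ℕ} (k : Fin r → Fin n → ℂ) (h1 : ∀ i, dot (k i) (k i) = 0)
    (h4 : ∀ i j, i ≠ j → dot (k i) (k j) ≠ 0) (S : Finset (Fin r)) (hS : 2 ≤ S.card) :
    gf_onshell_Q k S ≠ 0 := by
  classical
  obtain ⟨i, hi, j, hj, hij⟩ := Finset.one_lt_card.1 hS
  intro h0
  have h2 := gf_onshell_Q_eval k S (fun t => if t = i ∨ t = j then 1 else 0)
  rw [h0, map_zero] at h2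
  have h3 : ∀ a, ∑ t ∈ S, (if t = i ∨ t = j then (1:ℂ) else 0) * k t a = k i a + k j a := by
    intro a
    have : ∀ t, (if t = i ∨ t = j then (1:ℂ) else 0) * k t a =
        (if t = i then k i a else 0) + (if t = j then k j a else 0) := by
      intro t
      by_cases ht : t = i
      · subst ht; simp [hij]
      · by_cases ht' : t = j
        · subst ht'; simp [ht]
        · simp [ht, ht']
    simp only [this, Finset.sum_add_distrib, Finset.sum_ite_eq', hi, hj, if_true]
  simp only [h3] at h2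
  have h5 : ∑ a, (k i a + k j a) ^ 2 = dot (k i) (k i) + 2 * dot (k i) (k j) + dot (k j) (k j) := by
    unfold dot
    rw [Finset.mul_sum, ← Finset.sum_add_distrib, ← Finset.sum_add_distrib]
    exact Finset.sum_congr rfl fun a _ => by ring
  rw [h5, h1, h1] at h2
  apply h4 i j hij
  linear_combination (-1/2 : ℂ) * h2

theorem gf_onshell_w_sum {n r : ℕ} (k e : Fin r → Fin n → ℂ) (i : Fin r) (l : ℂ) (N : ℕ) (v : JV n)
    (hv : v.2.2.card ≤ N) :
    (∑ b ∈ Finset.range (N + 1), l ^ b • gf_onshell_w k e i b) v =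
      e i v.1 * e i v.2.1 * (v.2.2.map (fun x => l * k i x)).prod := by
  rw [Finset.sum_apply]
  simp only [Pi.smul_apply, smul_eq_mul, gf_onshell_w]
  rw [Finset.sum_eq_single v.2.2.card]
  · rw [if_pos rfl, Multiset.prod_map_mul]
    simp only [Multiset.map_const', Multiset.prod_replicate]
    ring
  · intro b _ hb
    rw [if_neg (Ne.symm hb), mul_zero]
  · intro h
    exact absurd (Finset.mem_range.2 (Nat.lt_succ_of_le hv)) h

theorem gf_onshell_key {n r : ℕ} {c : Contraction →₀ ℝ} {N : ℕ} {Φ : MvPolynomial (JV n) ℝ}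
    (hΦ : GoodPhi n c N Φ) (ho : OrdGE r Φ)
    (k e : Fin r → Fin n → ℂ) (h1 : ∀ i, dot (k i) (k i) = 0)
    (h2 : ∀ i, dot (k i) (e i) = 0) (h3 : ∀ i, dot (e i) (e i) = 0)
    (h4 : ∀ i j, i ≠ j → dot (k i) (k j) ≠ 0) (a : Fin r → ℕ) :
    polar r (MvPolynomial.map (algebraMap ℝ ℂ) Φ) (fun i => gf_onshell_w k e i (a i)) = 0 := by
  classical
  set p := MvPolynomial.map (algebraMap ℝ ℂ) Φ with hp
  obtain ⟨B, hB⟩ := polar_multilin r p
  set M : ℕ := (p.vars.sup fun v => v.2.2.card) + ∑ i, a i with hM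
  have hMv : ∀ v ∈ p.vars, v.2.2.card ≤ M := fun v hv =>
    (Finset.le_sup (f := fun v : JV n => v.2.2.card) hv).trans (Nat.le_add_right _ _)
  have hMa : ∀ i, a i ≤ M := fun i =>
    (Finset.single_le_sum (f := a) (fun _ _ => Nat.zero_le _) (Finset.mem_univ i)).trans (Nat.le_add_left _ _)
  set P : MvPolynomial (Fin r) ℂ := ∑ b ∈ Fintype.piFinset (fun _ : Fin r => Finset.range (M + 1)),
    MvPolynomial.monomial (Finsupp.equivFunOnFinite.symm b) (B (fun i => gf_onshell_w k e i (b i))) with hP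
  have hPeval : ∀ l : Fin r → ℂ, MvPolynomial.eval l P =
      polar r p (fun i (v : JV n) => e i v.1 * e i v.2.1 * (v.2.2.map (fun x => l i * k i x)).prod) := by
    intro l
    have e1 : polar r p (fun i (v : JV n) => e i v.1 * e i v.2.1 * (v.2.2.map (fun x => l i * k i x)).prod) =
        polar r p (fun i => ∑ b ∈ Finset.range (M + 1), l i ^ b • gf_onshell_w k e i b) := by
      apply gf_onshell_polar_congr r (p.vars : Set (JV n)) p (MvPolynomial.mem_supported.2 le_rfl)
      intro i v hv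
      exact (gf_onshell_w_sum k e i (l i) M v (hMv v hv)).symm
    rw [e1, ← hB, MultilinearMap.map_sum_finset, hP, map_sum]
    apply Finset.sum_congr rfl
    intro b _
    rw [MvPolynomial.eval_monomial, Finsupp.prod_fintype _ _ (fun i => pow_zero _)]
    have e2 := B.map_smul_univ (fun i => l i ^ b i) (fun i => gf_onshell_w k e i (b i))
    rw [e2, smul_eq_mul, mul_comm]
    rfl
  have hzero : ∀ l : Fin r → ℂ, (∀ S : Finset (Fin r), 2 ≤ S.card → ∑ x, (∑ i ∈ S, l i * k i x) ^ 2 ≠ 0) →
      MvPolynomial.eval l P = 0 := by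
    intro l hl
    rw [hPeval]
    apply gf_onshell_gen hΦ ho (fun i x => l i * k i x) e
    · intro i
      have : dot (fun x => l i * k i x) (fun x => l i * k i x) = l i ^ 2 * dot (k i) (k i) := by
        unfold dot
        rw [Finset.mul_sum]
        exact Finset.sum_congr rfl fun x _ => by ring
      rw [this, h1, mul_zero]
    · intro i
      have : dot (fun x => l i * k i x) (e i) = l i * dot (k i) (e i) := by
        unfold dot
        rw [Finset.mul_sum]
        exact Finset.sum_congr rfl fun x _ => by ring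
      rw [this, h2, mul_zero]
    · exact h3
    · exact hl
  have hprod : P * ∏ S ∈ (Finset.univ : Finset (Finset (Fin r))).filter (fun S => 2 ≤ S.card), gf_onshell_Q k S = 0 := by
    apply MvPolynomial.funext
    intro l
    rw [map_mul, map_zero, map_prod]
    by_cases hl : ∀ S : Finset (Fin r), 2 ≤ S.card → ∑ x, (∑ i ∈ S, l i * k i x) ^ 2 ≠ 0
    · rw [hzero l hl, zero_mul]
    · push Not at hl
      obtain ⟨S, hS1, hS2⟩ := hl
      rw [Finset.prod_eq_zero (i := S) (by simp [hS1]), mul_zero]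
      rw [gf_onshell_Q_eval, hS2]
  have hPz : P = 0 := by
    rcases mul_eq_zero.1 hprod with h | h
    · exact h
    · exfalso
      rw [Finset.prod_eq_zero_iff] at h
      obtain ⟨S, hS1, hS2⟩ := h
      exact gf_onshell_Q_ne k h1 h4 S (Finset.mem_filter.1 hS1).2 hS2
  have hcoeff : MvPolynomial.coeff (Finsupp.equivFunOnFinite.symm a) P = B (fun i => gf_onshell_w k e i (a i)) := by
    rw [hP, MvPolynomial.coeff_sum, Finset.sum_eq_single a]
    · rw [MvPolynomial.coeff_monomial, if_pos rfl]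
    · intro b _ hb
      rw [MvPolynomial.coeff_monomial, if_neg]
      intro hh
      exact hb (Finsupp.equivFunOnFinite.symm.injective hh)
    · intro h
      exfalso
      apply h
      rw [Fintype.mem_piFinset]
      intro i
      exact Finset.mem_range.2 (Nat.lt_succ_of_le (hMa i))
  rw [hPz, MvPolynomial.coeff_zero] at hcoeff
  rw [← hB]
  exact hcoeff.symm

theorem gf_onshell {n r : ℕ} {c : Contraction →₀ ℝ} {N : ℕ} {Φ : MvPolynomial (JV n) ℝ}
    (hΦ : GoodPhi n c N Φ) (ho : OrdGE r Φ)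
    (k e : Fin r → Fin n → ℂ) (h1 : ∀ i, dot (k i) (k i) = 0)
    (h2 : ∀ i, dot (k i) (e i) = 0) (h3 : ∀ i, dot (e i) (e i) = 0)
    (h4 : ∀ i j, i ≠ j → dot (k i) (k j) ≠ 0) (a : Fin r → ℕ) :
    polar r (MvPolynomial.map (algebraMap ℝ ℂ) Φ)
      (fun i => J0 (tens (lin (k i) ^ a i) (e i) (e i))) = 0 := by
  obtain ⟨B, hB⟩ := polar_multilin r (MvPolynomial.map (algebraMap ℝ ℂ) Φ)
  have h5 : (fun i => (J0 (tens (lin (k i) ^ a i) (e i) (e i)) : JV n → ℂ)) =
      fun i => ((a i).factorial : ℂ) • gf_onshell_w k e i (a i) := by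
    funext i v
    rw [j0_tens, Pi.smul_apply, smul_eq_mul, gf_onshell_w]
    split_ifs
    · ring
    · ring
  rw [h5, ← hB, B.map_smul_univ, hB, gf_onshell_key hΦ ho k e h1 h2 h3 h4 a, smul_zero]

end CInv
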