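import Pool.Agent.Helper771.CInv.Defs
import Pool.Agent.Helper771.CInv.P_top_coef

set_option linter.all false

open scoped BigOperators

namespace CInv



theorem gf_transp_c {r : ℕ} (w : Fin r → ℂ) (S : Finset (Fin r)) :
    (∑ i, w i • SF.gen i : SF (Fin r)).c S = ∑ i, w i * (if S = {i} then 1 else 0) := by
  have h := map_sum (SF.cl S) (fun i => w i • SF.gen i) (Finset.univ : Finset (Fin r))
  exact h

theorem gf_transp_polar {n r : ℕ} {Φ : MvPolynomial (JV n) ℝ} (ho : OrdGE r Φ)
    (u : Fin r → JV n → ℂ) :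
    polar r (MvPolynomial.map (algebraMap ℝ ℂ) Φ) u =
      (MvPolynomial.aeval (fun v => (∑ i, u i v • SF.gen i : SF (Fin r))) Φ).c Finset.univ := by
  rw [top_coef ho]
  · congr 1
    ext j v
    rw [gf_transp_c, Finset.sum_eq_single j]
    · rw [if_pos rfl, mul_one]
    · intro i _ hij
      rw [if_neg, mul_zero]
      intro h
      exact hij (Finset.singleton_injective h).symm
    · intro h
      exact absurd (Finset.mem_univ j) h
  · intro v
    rw [gf_transp_c]
    refine Finset.sum_eq_zero fun i _ => ?_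
    rw [if_neg, mul_zero]
    exact (Finset.singleton_ne_empty i).symm

theorem gf_transp_eq {n r : ℕ} {c : Contraction →₀ ℝ} {N : ℕ} {Φ : MvPolynomial (JV n) ℝ}
    (hΦ : GoodPhi n c N Φ) (ho : OrdGE r Φ) (u1 u2 : Fin r → JV n → ℂ)
    (h : ∀ i v, u1 i v + u1 i (v.2.1, v.1, v.2.2) = u2 i v + u2 i (v.2.1, v.1, v.2.2)) :
    polar r (MvPolynomial.map (algebraMap ℝ ℂ) Φ) u1 =
      polar r (MvPolynomial.map (algebraMap ℝ ℂ) Φ) u2 := by
  have e : (fun v : JV n => (1 / 2 : ℝ) • ((∑ i, u1 i v • SF.gen i : SF (Fin r)) +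
      ∑ i, u1 i (v.2.1, v.1, v.2.2) • SF.gen i)) =
      fun v : JV n => (1 / 2 : ℝ) • ((∑ i, u2 i v • SF.gen i : SF (Fin r)) +
      ∑ i, u2 i (v.2.1, v.1, v.2.2) • SF.gen i) := by
    funext v
    congr 1
    rw [← Finset.sum_add_distrib, ← Finset.sum_add_distrib]
    refine Finset.sum_congr rfl fun i _ => ?_
    rw [← add_smul, ← add_smul, h i v]
  rw [gf_transp_polar ho, gf_transp_polar ho,
    ← hΦ.sym (SF (Fin r)) (fun v => (∑ i, u1 i v • SF.gen i : SF (Fin r))),
    ← hΦ.sym (SF (Fin r)) (fun v => (∑ i, u2 i v • SF.gen i : SF (Fin r)))]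
  exact congrArg (fun y : JV n → SF (Fin r) => (MvPolynomial.aeval y Φ).c Finset.univ) e

theorem gf_transp {n r : ℕ} {c : Contraction →₀ ℝ} {N : ℕ} {Φ : MvPolynomial (JV n) ℝ}
    (hΦ : GoodPhi n c N Φ) (ho : OrdGE r Φ) (h : Fin r → Mx n) (j : Fin r) (y : Mx n) :
    polar r (MvPolynomial.map (algebraMap ℝ ℂ) Φ)
        (fun i => J0 (Function.update h j (fun a b => y b a) i))
      = polar r (MvPolynomial.map (algebraMap ℝ ℂ) Φ)
        (fun i => J0 (Function.update h j y i)) := by
  refine gf_transp_eq hΦ ho _ _ fun i v => ?_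
  by_cases hij : i = j
  · subst hij
    rw [Function.update_self, Function.update_self]
    exact add_comm _ _
  · rw [Function.update_of_ne hij, Function.update_of_ne hij]

end CInv
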