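import Pool.Agent.Helper771.CInv.Defs
import Pool.Agent.Helper771.CInv.P_pdv_isder
import Pool.Agent.Helper771.CInv.P_exp_ward
import Pool.Agent.Helper771.CInv.P_sf_inverse
import Pool.Agent.Helper771.CInv.P_j0_aeval
import Pool.Agent.Helper771.CInv.P_cov_inf

set_option linter.all false

open scoped BigOperators

namespace CInv



/-! helper lemmas for `gf_ward` -/

section GW

variable {n : ℕ} {R : Type} [CommRing R]

theorem gw_pdv_add (i : Fin n) (p q : MvPolynomial (Fin n) R) :
    pdv i (p + q) = pdv i p + pdv i q := by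
  unfold pdv; exact map_add _ _ _

theorem gw_pdv_mul (i : Fin n) (p q : MvPolynomial (Fin n) R) :
    pdv i (p * q) = pdv i p * q + p * pdv i q := by
  unfold pdv; rw [Derivation.leibniz]; simp only [smul_eq_mul]; ring

theorem gw_pdv_C (i : Fin n) (a : R) : pdv i (MvPolynomial.C a) = 0 := by
  unfold pdv; exact MvPolynomial.pderiv_C

theorem gw_pdv_Cmul (i : Fin n) (a : R) (p : MvPolynomial (Fin n) R) :
    pdv i (MvPolynomial.C a * p) = MvPolynomial.C a * pdv i p := by
  rw [gw_pdv_mul, gw_pdv_C, zero_mul, zero_add]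

theorem gw_pdv_zero (i : Fin n) : pdv i (0 : MvPolynomial (Fin n) R) = 0 := by
  unfold pdv; exact map_zero _

theorem gw_pdv_one (i : Fin n) : pdv i (1 : MvPolynomial (Fin n) R) = 0 := by
  have h := gw_pdv_C i (1 : R)
  simpa using h

theorem gw_pdv_sum {κ : Type} (t : Finset κ) (i : Fin n) (f : κ → MvPolynomial (Fin n) R) :
    pdv i (∑ x ∈ t, f x) = ∑ x ∈ t, pdv i (f x) := by
  unfold pdv; exact map_sum _ _ _

theorem gw_pdv_map {S : Type} [CommRing S] (φ : R →+* S) (i : Fin n)
    (p : MvPolynomial (Fin n) R) :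
    pdv i (MvPolynomial.map φ p) = MvPolynomial.map φ (pdv i p) := by
  unfold pdv; exact MvPolynomial.pderiv_map

theorem gw_Dw_add (w : List (Fin n)) (p q : MvPolynomial (Fin n) R) :
    Dw pdv w (p + q) = Dw pdv w p + Dw pdv w q := by
  induction w with
  | nil => rfl
  | cons i w ih => show pdv i _ = pdv i _ + pdv i _; rw [ih, gw_pdv_add]

theorem gw_Dw_Cmul (w : List (Fin n)) (a : R) (p : MvPolynomial (Fin n) R) :
    Dw pdv w (MvPolynomial.C a * p) = MvPolynomial.C a * Dw pdv w p := by
  induction w with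
  | nil => rfl
  | cons i w ih => show pdv i _ = _ * pdv i _; rw [ih, gw_pdv_Cmul]

theorem gw_Dw_zero (w : List (Fin n)) : Dw pdv w (0 : MvPolynomial (Fin n) R) = 0 := by
  have h := gw_Dw_Cmul w (0 : R) (0 : MvPolynomial (Fin n) R)
  simpa using h

theorem gw_Dw_sum {κ : Type} (t : Finset κ) (w : List (Fin n)) (f : κ → MvPolynomial (Fin n) R) :
    Dw pdv w (∑ x ∈ t, f x) = ∑ x ∈ t, Dw pdv w (f x) := by
  classical
  induction t using Finset.induction_on with
  | empty => simp only [Finset.sum_empty, gw_Dw_zero]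
  | insert a t ha ih => rw [Finset.sum_insert ha, Finset.sum_insert ha, gw_Dw_add, ih]

theorem gw_Dw_map {S : Type} [CommRing S] (φ : R →+* S) (w : List (Fin n))
    (p : MvPolynomial (Fin n) R) :
    Dw pdv w (MvPolynomial.map φ p) = MvPolynomial.map φ (Dw pdv w p) := by
  induction w with
  | nil => rfl
  | cons i w ih =>
    show pdv i _ = MvPolynomial.map φ (pdv i _)
    rw [ih, gw_pdv_map]

theorem gw_rsmul [Algebra ℝ R] (t : ℝ) (p : MvPolynomial (Fin n) R) :
    t • p = MvPolynomial.C (algebraMap ℝ R t) * p := by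
  rw [Algebra.smul_def]; rfl

theorem gw_KX_add (X : Fin n → MvPolynomial (Fin n) R) (lam : MvPolynomial (Fin n) R)
    (h h' : Fin n → Fin n → MvPolynomial (Fin n) R) (i j : Fin n) :
    KX X lam (fun a b => h a b + h' a b) i j = KX X lam h i j + KX X lam h' i j := by
  unfold KX Lie
  simp only [gw_pdv_add, mul_add, Finset.sum_add_distrib]
  ring

theorem gw_KX_Cmul (X : Fin n → MvPolynomial (Fin n) R) (lam : MvPolynomial (Fin n) R) (t : R)
    (h : Fin n → Fin n → MvPolynomial (Fin n) R) (i j : Fin n) :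
    KX X lam (fun a b => MvPolynomial.C t * h a b) i j = MvPolynomial.C t * KX X lam h i j := by
  unfold KX Lie
  simp only [gw_pdv_Cmul, mul_sub, mul_add, Finset.mul_sum]
  congr 1
  · congr 1
    · congr 1
      · exact Finset.sum_congr rfl (fun a _ => by ring)
      · exact Finset.sum_congr rfl (fun a _ => by ring)
    · exact Finset.sum_congr rfl (fun a _ => by ring)
  · ring

theorem gw_KX_zero (X : Fin n → MvPolynomial (Fin n) R) (lam : MvPolynomial (Fin n) R)
    (i j : Fin n) : KX X lam (fun _ _ => 0) i j = 0 := by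
  unfold KX Lie
  simp [gw_pdv_zero]

theorem gw_KX_sum {κ : Type} (t : Finset κ) (X : Fin n → MvPolynomial (Fin n) R)
    (lam : MvPolynomial (Fin n) R)
    (h : κ → Fin n → Fin n → MvPolynomial (Fin n) R) (i j : Fin n) :
    KX X lam (fun a b => ∑ x ∈ t, h x a b) i j = ∑ x ∈ t, KX X lam (h x) i j := by
  classical
  induction t using Finset.induction_on with
  | empty => simp only [Finset.sum_empty, gw_KX_zero]
  | insert a t ha ih =>
    rw [Finset.sum_insert ha, ← ih, ← gw_KX_add]
    congr 1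
    funext b c
    rw [Finset.sum_insert ha]

theorem gw_Lie_tr (X : Fin n → MvPolynomial (Fin n) R)
    (h : Fin n → Fin n → MvPolynomial (Fin n) R) (i j : Fin n) :
    Lie X (fun a b => h b a) i j = Lie X h j i := by
  unfold Lie
  ring

theorem gw_KX_tr (X : Fin n → MvPolynomial (Fin n) R) (lam : MvPolynomial (Fin n) R)
    (h : Fin n → Fin n → MvPolynomial (Fin n) R) (i j : Fin n) :
    KX X lam (fun a b => h b a) i j = KX X lam h j i := by
  unfold KX
  rw [gw_Lie_tr]

theorem gw_KX_flat (X : Fin n → MvPolynomial (Fin n) R) (lam : MvPolynomial (Fin n) R)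
    (hl : ∀ i j, pdv i (X j) + pdv j (X i) = if i = j then 2 * lam else 0) (i j : Fin n) :
    KX X lam (fun a b => flat _ a b) i j = 0 := by
  have h1 : ∀ a b c : Fin n, pdv a (flat (MvPolynomial (Fin n) R) b c) = 0 := by
    intro a b c
    unfold flat
    split_ifs
    · exact gw_pdv_one a
    · exact gw_pdv_zero a
  unfold KX Lie
  simp only [h1, mul_zero, Finset.sum_const_zero, zero_add]
  unfold flat
  simp only [mul_ite, mul_one, mul_zero, Finset.sum_ite_eq, Finset.sum_ite_eq', Finset.mem_univ,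
    if_true]
  rw [hl i j]
  split_ifs <;> ring

theorem gw_KX_map {S : Type} [CommRing S] (φ : R →+* S) (X : Fin n → MvPolynomial (Fin n) R)
    (lam : MvPolynomial (Fin n) R)
    (h : Fin n → Fin n → MvPolynomial (Fin n) R) (i j : Fin n) :
    KX (fun a => MvPolynomial.map φ (X a)) (MvPolynomial.map φ lam)
      (fun a b => MvPolynomial.map φ (h a b)) i j = MvPolynomial.map φ (KX X lam h i j) := by
  unfold KX Lie
  simp only [gw_pdv_map, map_sub, map_add, map_sum, map_mul, map_ofNat]

theorem gw_gen_sq {ι : Type} [DecidableEq ι] (a : ι) :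
    (SF.gen a : SF ι) * SF.gen a = 0 := by
  ext S
  rw [SF.c_mul, SF.c_zero]
  refine Finset.sum_eq_zero (fun T hT => ?_)
  by_cases h : T = {a}
  · subst h
    have : S \ {a} ≠ {a} := by
      intro h2
      have h3 : a ∈ S \ {a} := by rw [h2]; simp
      simp at h3
    simp [SF.gen, this]
  · simp [SF.gen, h]

theorem gw_c_empty {ι : Type} [DecidableEq ι] (x y : SF ι) :
    (x * y).c ∅ = x.c ∅ * y.c ∅ := by
  rw [SF.c_mul]; simp

theorem gw_pow {R : Type} [CommRing R] (s t : R) (hs : s * s = 0) (k : ℕ) :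
    (1 + s * t) ^ k = 1 + (k : R) * (s * t) := by
  induction k with
  | zero => simp
  | succ k ih =>
    rw [pow_succ, ih]
    push_cast
    linear_combination ((k : R) * t * t) * hs

theorem gw_J0_sym {n : ℕ} {R : Type} [CommRing R] [Algebra ℝ R]
    (Y : Fin n → Fin n → MvPolynomial (Fin n) R) (v : JV n) :
    J0 (fun i j => (1 / 2 : ℝ) • (Y i j + Y j i)) v
      = (1 / 2 : ℝ) • (J0 Y v + J0 Y (v.2.1, v.1, v.2.2)) := by
  unfold J0
  simp only [gw_rsmul, gw_Dw_Cmul, gw_Dw_add, map_mul, map_add, MvPolynomial.constantCoeff_C]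
  rw [Algebra.smul_def]

theorem gw_step {n : ℕ} {R : Type} [CommRing R] [Algebra ℝ R] (hn : Even n)
    {c : Contraction →₀ ℝ} {N M : ℕ} {Φ : MvPolynomial (JV n) ℝ}
    (hΦ : GoodPhi n c N Φ) (hC : ConfPhi n M Φ) (hM : M + n / 2 = n * N)
    (s : R) (hs : s * s = 0)
    (X : Fin n → MvPolynomial (Fin n) R) (lam : MvPolynomial (Fin n) R)
    (hX : ∀ a, MvPolynomial.constantCoeff (X a) = 0)
    (hl : ∀ i j, pdv i (X j) + pdv j (X i) = if i = j then 2 * lam else 0)
    (H gi : Fin n → Fin n → MvPolynomial (Fin n) R) (hm : IsMetric (met H) gi) :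
    MvPolynomial.aeval (J0 (fun i j => H i j + MvPolynomial.C s * KX X lam H i j)) Φ
      = (1 + s * ((n : R) * MvPolynomial.constantCoeff lam)) * MvPolynomial.aeval (J0 H) Φ := by
  have hc2 : (2 : MvPolynomial (Fin n) R) * MvPolynomial.C (algebraMap ℝ R (1 / 2)) = 1 := by
    have h1 : (2 : MvPolynomial (Fin n) R) = MvPolynomial.C (algebraMap ℝ R 2) := by
      rw [map_ofNat, map_ofNat]
    rw [h1, ← map_mul, ← map_mul]
    norm_num
  set cc : MvPolynomial (Fin n) R := MvPolynomial.C (algebraMap ℝ R (1 / 2)) with hcc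
  -- divergence
  have hdiv : ∀ a, pdv a (X a) = lam := by
    intro a
    have h1 := hl a a
    rw [if_pos rfl] at h1
    calc pdv a (X a) = (2 * cc) * pdv a (X a) := by rw [hc2, one_mul]
      _ = cc * (pdv a (X a) + pdv a (X a)) := by ring
      _ = cc * (2 * lam) := by rw [h1]
      _ = (2 * cc) * lam := by ring
      _ = lam := by rw [hc2, one_mul]
  set S1 : Fin n → Fin n → MvPolynomial (Fin n) R := fun i j => met H i j - flat _ i j
        + MvPolynomial.C s * Lie X (met H) i j with hS1
  have e1 := cov_inf hΦ s hs X H gi hm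
  have e2 : MvPolynomial.aeval (J0 S1) Φ
      = (1 + s * ((n : R) * MvPolynomial.constantCoeff lam)) ^ (2 * N)
        * MvPolynomial.aeval (J0 H) Φ := by
    rw [j0_aeval, j0_aeval, e1]
    simp only [map_mul, map_pow, map_add, map_one, MvPolynomial.constantCoeff_C, map_sum, hX,
      zero_mul, Finset.sum_const_zero, mul_zero, add_zero, hdiv, Finset.sum_const,
      Finset.card_univ, Fintype.card_fin, nsmul_eq_mul, map_natCast]
  have e3 := hC R S1 (MvPolynomial.C s * (-2 * lam))
  have hK : (MvPolynomial.C s : MvPolynomial (Fin n) R) * MvPolynomial.C s = 0 := by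
    rw [← map_mul, hs, map_zero]
  -- the conformal Killing operator on the metric
  have hKm : ∀ i j, KX X lam (met H) i j = cc * (KX X lam H i j + KX X lam H j i) := by
    intro i j
    have h1 : met H = fun a b => flat _ a b + (cc * (H a b + H b a)) := by
      funext a b
      unfold met
      rw [gw_rsmul]
    rw [h1, gw_KX_add, gw_KX_flat X lam hl, zero_add, hcc, gw_KX_Cmul, gw_KX_add,
      gw_KX_tr X lam H i j]
  have hLm : ∀ i j, Lie X (met H) i j
      = cc * (KX X lam H i j + KX X lam H j i) + 2 * lam * met H i j := by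
    intro i j
    rw [← hKm i j]
    unfold KX
    ring
  have hmet : ∀ i j, met H i j = flat _ i j + cc * (H i j + H j i) := by
    intro i j
    unfold met
    rw [gw_rsmul]
  have hfl : ∀ i j : Fin n, flat (MvPolynomial (Fin n) R) j i = flat _ i j := by
    intro i j
    unfold flat
    by_cases h : i = j
    · rw [if_pos h, if_pos h.symm]
    · rw [if_neg h, if_neg (fun h' => h h'.symm)]
  have e4 : (fun i j => (1 + MvPolynomial.C s * (-2 * lam)) * met S1 i j - flat _ i j)
      = fun i j => (1 / 2 : ℝ) • ((H i j + MvPolynomial.C s * KX X lam H i j)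
          + (H j i + MvPolynomial.C s * KX X lam H j i)) := by
    funext i j
    have h1 : met S1 i j = flat _ i j + cc * (S1 i j + S1 j i) := by
      unfold met
      rw [gw_rsmul]
    rw [h1, gw_rsmul, hS1]
    simp only [hLm, hmet, hfl i j]
    linear_combination
      ((1 + MvPolynomial.C s * (-2 * lam)) * (cc * (H i j + H j i) + MvPolynomial.C s *
        (cc * (KX X lam H i j + KX X lam H j i) + 2 * lam * (flat _ i j + cc * (H i j + H j i)))))
        * hc2
      + (-2 * lam * (cc * (KX X lam H i j + KX X lam H j i)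
          + 2 * lam * (flat _ i j + cc * (H i j + H j i)))) * hK
  rw [e4] at e3
  have e5 := hΦ.sym R (J0 (fun i j => H i j + MvPolynomial.C s * KX X lam H i j))
  have e6 : J0 (fun i j => (1 / 2 : ℝ) • ((H i j + MvPolynomial.C s * KX X lam H i j)
          + (H j i + MvPolynomial.C s * KX X lam H j i)))
      = fun v => (1 / 2 : ℝ) • (J0 (fun i j => H i j + MvPolynomial.C s * KX X lam H i j) v
        + J0 (fun i j => H i j + MvPolynomial.C s * KX X lam H i j) (v.2.1, v.1, v.2.2)) := by
    funext v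
    exact gw_J0_sym (fun i j => H i j + MvPolynomial.C s * KX X lam H i j) v
  rw [e6, e5] at e3
  rw [e3, e2, ← mul_assoc]
  congr 1
  rw [map_mul, map_mul, MvPolynomial.constantCoeff_C, gw_pow _ _ hs, gw_pow _ _ hs, map_neg,
    map_ofNat]
  obtain ⟨k, hk⟩ := hn
  have hk2 : n / 2 = k := by omega
  have h1 : (M : R) + (k : R) = ((k : R) + (k : R)) * (N : R) := by
    have h2 : M + k = (k + k) * N := by
      rw [← hk, ← hk2]; exact hM
    exact_mod_cast congrArg (Nat.cast : ℕ → R) h2
  have h3 : (n : R) = (k : R) + k := by rw [hk]; push_cast; ring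
  rw [h3]
  push_cast
  linear_combination (-2 * s * MvPolynomial.constantCoeff lam) * h1
    + (-2 * (M : R) * (2 * (N : R)) * (2 * (k : R)) * MvPolynomial.constantCoeff lam
        * MvPolynomial.constantCoeff lam) * hs

theorem gw_c_map {n : ℕ} {ι : Type} [DecidableEq ι] (x : SF ι) (p : MvPolynomial (Fin n) (SF ι))
    (hx : x.c ∅ = 0) (m : Fin n →₀ ℕ) :
    (MvPolynomial.coeff m (MvPolynomial.C x * p)).c ∅ = 0 := by
  rw [MvPolynomial.coeff_C_mul, gw_c_empty, hx, zero_mul]

theorem gw_c_sum {ι κ : Type} [DecidableEq ι] (S : Finset ι) (t : Finset κ) (f : κ → SF ι) :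
    (∑ x ∈ t, f x).c S = ∑ x ∈ t, (f x).c S := by
  classical
  induction t using Finset.induction_on with
  | empty => simp only [Finset.sum_empty, SF.c_zero]
  | insert a t ha ih => rw [Finset.sum_insert ha, Finset.sum_insert ha, SF.c_add, ih]

theorem gw_cl_mul {ι : Type} [DecidableEq ι] (z : ℂ) (x : SF ι) (S : Finset ι) :
    (algebraMap ℂ (SF ι) z * x).c S = z * x.c S := by
  rw [← Algebra.smul_def, SF.c_smul]

end GW

theorem gf_ward {n r : ℕ} (hn : Even n) {c : Contraction →₀ ℝ} {N M : ℕ}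
    {Φ : MvPolynomial (JV n) ℝ}
    (hΦ : GoodPhi n c N Φ) (hC : ConfPhi n M Φ) (hM : M + n / 2 = n * N) (ho : OrdGE r Φ)
    (X : Fin n → MvPolynomial (Fin n) ℂ) (lam : MvPolynomial (Fin n) ℂ)
    (hX : ∀ a, MvPolynomial.constantCoeff (X a) = 0)
    (hl : ∀ i j, pdv i (X j) + pdv j (X i) = if i = j then 2 * lam else 0)
    (h : Fin r → Mx n) :
    ∑ j, polar r (MvPolynomial.map (algebraMap ℝ ℂ) Φ)
        (fun i => J0 (Function.update h j (KX X lam (h j)) i))
      = (n : ℂ) * MvPolynomial.constantCoeff lam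
        * polar r (MvPolynomial.map (algebraMap ℝ ℂ) Φ) (fun i => J0 (h i)) := by
  classical
  set s : SF (Fin (r + 1)) := SF.gen 0 with hsdef
  have hs2 : s * s = 0 := gw_gen_sq 0
  set φ : ℂ →+* SF (Fin (r + 1)) := algebraMap ℂ (SF (Fin (r + 1))) with hφ
  set H : Fin n → Fin n → MvPolynomial (Fin n) (SF (Fin (r + 1))) := fun a b =>
    ∑ j : Fin r, MvPolynomial.C (SF.gen j.succ) * MvPolynomial.map φ (h j a b) with hH
  obtain ⟨gi, hm⟩ := sf_inverse H (by
    intro i j m
    rw [hH]
    show (MvPolynomial.coeff m (∑ j' : Fin r,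
      MvPolynomial.C (SF.gen j'.succ) * MvPolynomial.map φ (h j' i j))).c ∅ = 0
    rw [MvPolynomial.coeff_sum, gw_c_sum]
    refine Finset.sum_eq_zero (fun j' _ => gw_c_map _ _ ?_ m)
    show (if (∅ : Finset (Fin (r + 1))) = {j'.succ} then (1:ℂ) else 0) = 0
    rw [if_neg]
    intro h'
    exact absurd h'.symm (Finset.singleton_ne_empty _))
  have hstep := gw_step hn hΦ hC hM s hs2 (fun a => MvPolynomial.map φ (X a))
    (MvPolynomial.map φ lam)
    (by intro a; rw [MvPolynomial.constantCoeff_map, hX, map_zero])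
    (by
      intro i j
      rw [gw_pdv_map, gw_pdv_map, ← map_add, hl i j]
      split_ifs
      · rw [map_mul, map_ofNat]
      · rw [map_zero]) H gi hm
  -- jets of the legs
  have hJH : J0 H = fun v => ∑ j : Fin r, (SF.gen j.succ : SF (Fin (r + 1)))
      * algebraMap ℂ _ (J0 (h j) v) := by
    funext v
    unfold J0
    rw [hH]
    show MvPolynomial.constantCoeff (Dw pdv v.2.2.toList (∑ j : Fin r,
      MvPolynomial.C (SF.gen j.succ) * MvPolynomial.map φ (h j v.1 v.2.1))) = _
    rw [gw_Dw_sum, map_sum]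
    refine Finset.sum_congr rfl (fun j _ => ?_)
    rw [gw_Dw_Cmul, map_mul, MvPolynomial.constantCoeff_C, gw_Dw_map,
      MvPolynomial.constantCoeff_map]
  have hKX : ∀ i j, KX (fun a => MvPolynomial.map φ (X a)) (MvPolynomial.map φ lam) H i j
      = ∑ j' : Fin r, MvPolynomial.C (SF.gen j'.succ)
        * MvPolynomial.map φ (KX X lam (h j') i j) := by
    intro i j
    rw [hH, gw_KX_sum]
    refine Finset.sum_congr rfl (fun j' _ => ?_)
    rw [gw_KX_Cmul, gw_KX_map]
  have hJY : J0 (fun i j => H i j + MvPolynomial.C s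
        * KX (fun a => MvPolynomial.map φ (X a)) (MvPolynomial.map φ lam) H i j)
      = fun v => ∑ j : Fin r, (SF.gen j.succ : SF (Fin (r + 1)))
        * (algebraMap ℂ _ (J0 (h j) v) + SF.gen 0 * algebraMap ℂ _ (J0 (KX X lam (h j)) v)) := by
    funext v
    unfold J0
    rw [gw_Dw_add, gw_Dw_Cmul, map_add, map_mul, MvPolynomial.constantCoeff_C, hKX]
    have h1 : MvPolynomial.constantCoeff (Dw pdv v.2.2.toList (H v.1 v.2.1))
        = ∑ j : Fin r, (SF.gen j.succ : SF (Fin (r + 1))) * algebraMap ℂ _ (J0 (h j) v) :=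
      congrFun hJH v
    rw [h1, gw_Dw_sum, map_sum, Finset.mul_sum, ← Finset.sum_add_distrib]
    refine Finset.sum_congr rfl (fun j _ => ?_)
    rw [gw_Dw_Cmul, map_mul, MvPolynomial.constantCoeff_C, gw_Dw_map,
      MvPolynomial.constantCoeff_map]
    unfold J0
    ring
  rw [hJY, hJH, MvPolynomial.constantCoeff_map] at hstep
  obtain ⟨w1, w2, w3⟩ := exp_ward ho (fun j => J0 (h j)) (fun j => J0 (KX X lam (h j)))
  have hfin := congrArg (fun x : SF (Fin (r + 1)) => x.c Finset.univ) hstep
  change (MvPolynomial.aeval (fun v => ∑ j : Fin r, (SF.gen j.succ : SF (Fin (r + 1)))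
        * (algebraMap ℂ _ (J0 (h j) v) + SF.gen 0 * algebraMap ℂ _ (J0 (KX X lam (h j)) v))) Φ).c
          Finset.univ = _ at hfin
  rw [w1] at hfin
  have hR : ((1 + s * ((n : SF (Fin (r + 1))) * φ (MvPolynomial.constantCoeff lam)))
      * MvPolynomial.aeval (fun v => ∑ j : Fin r, (SF.gen j.succ : SF (Fin (r + 1)))
      * algebraMap ℂ _ (J0 (h j) v)) Φ).c Finset.univ
      = (n : ℂ) * MvPolynomial.constantCoeff lam
        * polar r (MvPolynomial.map (algebraMap ℝ ℂ) Φ) (fun i => J0 (h i)) := by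
    have h2 : (1 + s * ((n : SF (Fin (r + 1))) * φ (MvPolynomial.constantCoeff lam)))
      * MvPolynomial.aeval (fun v => ∑ j : Fin r, (SF.gen j.succ : SF (Fin (r + 1)))
      * algebraMap ℂ _ (J0 (h j) v)) Φ
      = MvPolynomial.aeval (fun v => ∑ j : Fin r, (SF.gen j.succ : SF (Fin (r + 1)))
      * algebraMap ℂ _ (J0 (h j) v)) Φ
      + algebraMap ℂ _ ((n : ℂ) * MvPolynomial.constantCoeff lam)
        * (s * MvPolynomial.aeval (fun v => ∑ j : Fin r, (SF.gen j.succ : SF (Fin (r + 1)))
      * algebraMap ℂ _ (J0 (h j) v)) Φ) := by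
      rw [map_mul, map_natCast]
      ring
    rw [h2, SF.c_add, w3, zero_add, gw_cl_mul, w2]
  rw [← hR, ← hfin]
  refine Finset.sum_congr rfl (fun j _ => ?_)
  congr 1
  funext i
  by_cases hij : i = j
  · subst hij
    rw [Function.update_self, Function.update_self]
  · rw [Function.update_of_ne hij, Function.update_of_ne hij]

end CInv
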