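import Pool.Agent.Helper771.CInv.Defs
import Pool.Agent.Helper771.CInv.P_pdv_isder
import Pool.Agent.Helper771.CInv.P_ord_nil
import Pool.Agent.Helper771.CInv.P_top_coef
import Pool.Agent.Helper771.CInv.P_sf_inverse
import Pool.Agent.Helper771.CInv.P_sf_ideal
import Pool.Agent.Helper771.CInv.P_j0_aeval
import Pool.Agent.Helper771.CInv.P_j0_legs

set_option linter.all false

open scoped BigOperators

namespace CInv



section gwaux

variable {ι : Type} [DecidableEq ι]

theorem gw_gen_mul (i : ι) (x : SF ι) (S : Finset ι) :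
    (SF.gen i * x).c S = if i ∈ S then x.c (S.erase i) else 0 := by
  rw [SF.c_mul]
  by_cases h : i ∈ S
  · rw [if_pos h, Finset.sum_eq_single {i}]
    · simp only [SF.gen, if_true, one_mul]
      rw [Finset.erase_eq]
    · intro T _ hT
      simp only [SF.gen, if_neg hT, zero_mul]
    · intro h'
      exact absurd (Finset.mem_powerset.2 (Finset.singleton_subset_iff.2 h)) h'
  · rw [if_neg h]
    refine Finset.sum_eq_zero fun T hT => ?_
    have : T ≠ {i} := by
      rintro rfl
      exact h (Finset.singleton_subset_iff.1 (Finset.mem_powerset.1 hT))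
    simp only [SF.gen, if_neg this, zero_mul]

theorem gw_alg_empty (z : ℂ) : (algebraMap ℂ (SF ι) z).c ∅ = z := by
  rw [Algebra.algebraMap_eq_smul_one, SF.c_smul, SF.c_one, if_pos rfl, mul_one]

theorem gw_sum (κ : Type) (t : Finset κ) (x : κ → SF ι) (S : Finset ι) :
    (∑ k ∈ t, x k).c S = ∑ k ∈ t, (x k).c S :=
  map_sum (SF.cl S) x t

end gwaux

/-- iterated derivatives as a linear map -/
noncomputable def gwD {n : ℕ} {R : Type} [CommRing R] :
    List (Fin n) → (MvPolynomial (Fin n) R →ₗ[R] MvPolynomial (Fin n) R)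
  | [] => LinearMap.id
  | i :: w => (MvPolynomial.pderiv i : Derivation R (MvPolynomial (Fin n) R)
      (MvPolynomial (Fin n) R)).toLinearMap.comp (gwD w)

theorem gw_Dw {n : ℕ} {R : Type} [CommRing R] (w : List (Fin n)) (p : MvPolynomial (Fin n) R) :
    Dw pdv w p = gwD w p := by
  induction w with
  | nil => rfl
  | cons i w ih =>
    show pdv i (Dw pdv w p) = _
    rw [ih]
    rfl

theorem gw_Cmul {n : ℕ} {R : Type} [CommRing R] (w : List (Fin n)) (c : R)
    (p : MvPolynomial (Fin n) R) :
    gwD w (MvPolynomial.C c * p) = MvPolynomial.C c * gwD w p := by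
  rw [← MvPolynomial.smul_eq_C_mul, map_smul, MvPolynomial.smul_eq_C_mul]

theorem gw_half {n : ℕ} {R : Type} [CommRing R] [Algebra ℝ R] (w : List (Fin n)) (c : ℝ)
    (p : MvPolynomial (Fin n) R) :
    gwD w (c • p) = c • gwD w p := by
  have e : ∀ q : MvPolynomial (Fin n) R, c • q = MvPolynomial.C (algebraMap ℝ R c) * q := by
    intro q
    rw [Algebra.smul_def]
    rfl
  rw [e, e, gw_Cmul]

theorem gw_cc_half {n : ℕ} {R : Type} [CommRing R] [Algebra ℝ R] (c : ℝ)
    (p : MvPolynomial (Fin n) R) :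
    MvPolynomial.constantCoeff (c • p) = c • MvPolynomial.constantCoeff p := by
  have e : ∀ q : MvPolynomial (Fin n) R, c • q = MvPolynomial.C (algebraMap ℝ R c) * q := by
    intro q
    rw [Algebra.smul_def]
    rfl
  rw [e, map_mul, MvPolynomial.constantCoeff_C, Algebra.smul_def]

theorem gf_weyl {n r : ℕ} {c : Contraction →₀ ℝ} {N M : ℕ} {Φ : MvPolynomial (JV n) ℝ}
    (hΦ : GoodPhi n c N Φ) (hC : ConfPhi n M Φ) (ho : OrdGE r Φ) (h : Fin r → Mx n) (j : Fin r)
    (f : MvPolynomial (Fin n) ℂ) :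
    polar r (MvPolynomial.map (algebraMap ℝ ℂ) Φ)
      (fun i => J0 (Function.update h j (fun a b => if a = b then f else 0) i)) = 0 := by
  classical
  -- the ingredients
  set fd : Mx n := fun a b => if a = b then f else 0 with hfd
  set h1 : Fin r → Mx n := Function.update h j fd with hh1
  set h0 : Fin r → Mx n := Function.update h j 0 with hh0
  set H : Fin n → Fin n → MvPolynomial (Fin n) (SF (Fin r)) := legs h0 with hH
  set F : MvPolynomial (Fin n) (SF (Fin r)) :=
    MvPolynomial.map (algebraMap ℂ (SF (Fin r))) f with hF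
  have hrpos : 0 < r := j.pos
  -- step 1
  obtain ⟨I, hI, hIm⟩ := sf_ideal (n := n) (ι := Fin r) (Finset.univ.erase j)
  have hcard : (Finset.univ.erase j).card + 1 = r := by
    rw [Finset.card_erase_of_mem (Finset.mem_univ j), Finset.card_univ, Fintype.card_fin]
    omega
  rw [hcard] at hI
  have hHexp : ∀ a b, H a b = ∑ i, MvPolynomial.C (SF.gen i)
      * MvPolynomial.map (algebraMap ℂ (SF (Fin r))) (h0 i a b) := fun a b => rfl
  have hh0j : h0 j = 0 := by rw [hh0, Function.update_self]
  have hz1 : MvPolynomial.aeval (jet (fun i => pdv i) H) Φ = 0 := by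
    refine ord_nil hI ho _ fun v => ?_
    show Dw (fun i => pdv i) v.2.2.toList (H v.1 v.2.1) ∈ I
    have e : Dw (fun i => pdv i) v.2.2.toList (H v.1 v.2.1)
        = gwD v.2.2.toList (H v.1 v.2.1) := gw_Dw _ _
    rw [e, hHexp, map_sum]
    refine I.sum_mem fun i _ => ?_
    rw [gw_Cmul]
    by_cases hi : i = j
    · subst hi
      rw [hh0j]
      have : (0 : Mx n) v.1 v.2.1 = 0 := rfl
      rw [this, map_zero, map_zero, mul_zero]
      exact I.zero_mem
    · exact hIm i (Finset.mem_erase.2 ⟨hi, Finset.mem_univ i⟩) _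
  have hz2 : MvPolynomial.aeval (J0 H) Φ = 0 := by
    rw [j0_aeval, hz1, map_zero]
  -- step 2
  have hz3 := hC (SF (Fin r)) H (MvPolynomial.C (SF.gen j) * F)
  rw [hz2, mul_zero] at hz3
  -- step 3
  set K : Fin n → Fin n → MvPolynomial (Fin n) (SF (Fin r)) :=
    (fun a b => (1 + MvPolynomial.C (SF.gen j) * F) * met H a b - flat _ a b) with hK
  have hlegs : ∀ a b, legs h1 a b = MvPolynomial.C (SF.gen j)
      * MvPolynomial.map (algebraMap ℂ (SF (Fin r))) (fd a b) + H a b := by
    intro a b
    have e : legs h1 a b - H a b = MvPolynomial.C (SF.gen j)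
      * MvPolynomial.map (algebraMap ℂ (SF (Fin r))) (fd a b) := by
      rw [hHexp]
      show (∑ i, MvPolynomial.C (SF.gen i)
        * MvPolynomial.map (algebraMap ℂ (SF (Fin r))) (h1 i a b)) - _ = _
      rw [← Finset.sum_sub_distrib, Finset.sum_eq_single j]
      · have e1 : h1 j a b = fd a b := by rw [hh1, Function.update_self]
        have e2 : h0 j a b = 0 := by rw [hh0j]; rfl
        rw [e1, e2, map_zero, mul_zero, sub_zero]
      · intro i _ hi
        have e1 : h1 i = h i := by rw [hh1, Function.update_of_ne hi]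
        have e2 : h0 i = h i := by rw [hh0, Function.update_of_ne hi]
        rw [e1, e2, sub_self]
      · intro hj
        exact absurd (Finset.mem_univ j) hj
    rw [← e]; ring
  have hhalf : (algebraMap ℝ (MvPolynomial (Fin n) (SF (Fin r))) (1 / 2)) * 2 = 1 := by
    have e : (2 : MvPolynomial (Fin n) (SF (Fin r)))
        = algebraMap ℝ (MvPolynomial (Fin n) (SF (Fin r))) 2 := by
      rw [map_ofNat]
    rw [e, ← map_mul]
    norm_num
  have hKexp : ∀ a b, K a b = (1 / 2 : ℝ) • (legs h1 a b + legs h1 b a)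
      + MvPolynomial.C (SF.gen j) * (F * ((1 / 2 : ℝ) • (H a b + H b a))) := by
    intro a b
    rw [hlegs, hlegs]
    simp only [hK, met, flat, hfd, Algebra.smul_def]
    by_cases hab : a = b
    · subst hab
      simp only [if_true]
      linear_combination (-(MvPolynomial.C (SF.gen j) * F)) * hhalf
    · have hba : ¬ b = a := fun h => hab h.symm
      simp only [if_neg hab, if_neg hba, map_zero, mul_zero]
      ring
  set y' : JV n → SF (Fin r) := fun v => ∑ i, SF.gen i * algebraMap ℂ (SF (Fin r)) (J0 (h1 i) v)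
    with hy'
  have hJl : ∀ v, J0 (legs h1) v = y' v := fun v => j0_legs h1 v
  have hJK : ∀ v : JV n, ∃ z : SF (Fin r), z.c ∅ = 0 ∧
      J0 K v = (1 / 2 : ℝ) • (y' v + y' (v.2.1, v.1, v.2.2)) + SF.gen j * z := by
    intro v
    refine ⟨MvPolynomial.constantCoeff (gwD v.2.2.toList
      (F * ((1 / 2 : ℝ) • (H v.1 v.2.1 + H v.2.1 v.1)))), ?_, ?_⟩
    · have e : F * ((1 / 2 : ℝ) • (H v.1 v.2.1 + H v.2.1 v.1))
          = ∑ i, MvPolynomial.C (SF.gen i) * (F * ((1 / 2 : ℝ) •
            (MvPolynomial.map (algebraMap ℂ (SF (Fin r))) (h0 i v.1 v.2.1)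
            + MvPolynomial.map (algebraMap ℂ (SF (Fin r))) (h0 i v.2.1 v.1)))) := by
        rw [hHexp, hHexp, ← Finset.sum_add_distrib]
        simp only [Algebra.smul_def, Finset.mul_sum]
        refine Finset.sum_congr rfl fun i _ => ?_
        ring
      rw [e, map_sum, map_sum, gw_sum]
      refine Finset.sum_eq_zero fun i _ => ?_
      rw [gw_Cmul, map_mul, MvPolynomial.constantCoeff_C, gw_gen_mul, if_neg (Finset.notMem_empty i)]
    · have e1 : J0 K v = MvPolynomial.constantCoeff (gwD v.2.2.toList (K v.1 v.2.1)) := by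
        unfold J0; rw [gw_Dw]
      have e2 : ∀ v : JV n, y' v = MvPolynomial.constantCoeff
          (gwD v.2.2.toList (legs h1 v.1 v.2.1)) := by
        intro v
        rw [← hJl]
        unfold J0; rw [gw_Dw]
      rw [e1, hKexp, map_add, map_add, gw_Cmul, map_mul, MvPolynomial.constantCoeff_C, gw_half,
        gw_cc_half, map_add, map_add, e2, e2]
  have hc1 : ∀ (v : JV n) (S : Finset (Fin r)), S.card ≤ 1 →
      (J0 K v).c S = ((1 / 2 : ℝ) • (y' v + y' (v.2.1, v.1, v.2.2))).c S := by
    intro v S hS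
    obtain ⟨z, hz, e⟩ := hJK v
    rw [e, SF.c_add, gw_gen_mul]
    by_cases hj : j ∈ S
    · rw [if_pos hj]
      have : S.erase j = ∅ := by
        rw [← Finset.card_eq_zero, Finset.card_erase_of_mem hj]
        omega
      rw [this, hz, add_zero]
    · rw [if_neg hj, add_zero]
  have hye : ∀ v, (y' v).c ∅ = 0 := by
    intro v
    rw [hy', gw_sum]
    exact Finset.sum_eq_zero fun i _ => by rw [gw_gen_mul, if_neg (Finset.notMem_empty i)]
  have hyi : ∀ v (k : Fin r), (y' v).c {k} = J0 (h1 k) v := by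
    intro v k
    rw [hy', gw_sum, Finset.sum_eq_single k]
    · rw [gw_gen_mul, if_pos (Finset.mem_singleton_self k)]
      have : ({k} : Finset (Fin r)).erase k = ∅ := by simp
      rw [this, gw_alg_empty]
    · intro i _ hi
      rw [gw_gen_mul, if_neg (by rw [Finset.mem_singleton]; exact hi)]
    · intro hk
      exact absurd (Finset.mem_univ k) hk
  have hse : ∀ v : JV n, ((1 / 2 : ℝ) • (y' v + y' (v.2.1, v.1, v.2.2))).c ∅ = 0 := by
    intro v
    rw [SF.c_rsmul, SF.c_add, hye, hye, add_zero, mul_zero]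
  have t1 := top_coef ho (J0 K) (fun v => by rw [hc1 v ∅ (by simp)]; exact hse v)
  have t2 := top_coef ho (fun v : JV n => (1 / 2 : ℝ) • (y' v + y' (v.2.1, v.1, v.2.2))) hse
  have t3 := top_coef ho y' hye
  have e12 : (fun (k : Fin r) (v : JV n) => (J0 K v).c {k})
      = (fun (k : Fin r) (v : JV n) =>
        ((1 / 2 : ℝ) • (y' v + y' (v.2.1, v.1, v.2.2))).c {k}) := by
    funext k v
    exact hc1 v {k} (by simp)
  have e3 : (fun (k : Fin r) (v : JV n) => (y' v).c {k}) = (fun k => J0 (h1 k)) := by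
    funext k v
    exact hyi v k
  rw [e3] at t3
  rw [← t3, ← hΦ.sym (SF (Fin r)) y', t2, ← e12, ← t1, hz3]
  rfl

end CInv
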