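import Pool.Agent.Helper771.CInv.Defs
import Pool.Agent.Helper771.CInv.P_polar_multilin
import Pool.Agent.Helper771.CInv.P_gf_gauge
import Pool.Agent.Helper771.CInv.P_gf_weyl
import Pool.Agent.Helper771.CInv.P_gf_transp
import Pool.Agent.Helper771.CInv.P_gf_ward
import Pool.Agent.Helper771.CInv.P_gf_onshell

set_option linter.all false

open scoped BigOperators

namespace CInv



theorem gfx_Dw_add {n : ℕ} (w : List (Fin n)) (p q : MvPolynomial (Fin n) ℂ) :
    Dw pdv w (p + q) = Dw pdv w p + Dw pdv w q := by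
  induction w with
  | nil => rfl
  | cons i w ih => simp only [Dw, ih, pdv, map_add]

theorem gfx_Dw_smul {n : ℕ} (w : List (Fin n)) (z : ℂ) (p : MvPolynomial (Fin n) ℂ) :
    Dw pdv w (z • p) = z • Dw pdv w p := by
  induction w with
  | nil => rfl
  | cons i w ih => simp only [Dw, ih, pdv, Derivation.map_smul]

noncomputable def gfx_L (n : ℕ) : Mx n →ₗ[ℂ] (JV n → ℂ) where
  toFun H := J0 H
  map_add' H H' := by
    funext v
    simp only [J0, Pi.add_apply, gfx_Dw_add, map_add]
  map_smul' z H := by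
    funext v
    simp only [J0, Pi.smul_apply, gfx_Dw_smul, RingHom.id_apply, MvPolynomial.constantCoeff_smul]

theorem good_form {n r : ℕ} (hn : Even n) {c : Contraction →₀ ℝ} {N M : ℕ}
    {Φ : MvPolynomial (JV n) ℝ}
    (hΦ : GoodPhi n c N Φ) (hC : ConfPhi n M Φ) (hM : M + n / 2 = n * N) (ho : OrdGE r Φ) :
    ∃ B : MultilinearMap ℂ (fun _ : Fin r => Mx n) ℂ,
      (∀ h, B h = polar r (MvPolynomial.map (algebraMap ℝ ℂ) Φ) (fun i => J0 (h i))) ∧
      GoodForm n r B := by
  obtain ⟨B0, hB0⟩ := polar_multilin r (MvPolynomial.map (algebraMap ℝ ℂ) Φ)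
  have hB : ∀ h : Fin r → Mx n, (B0.compLinearMap (fun _ => gfx_L n)) h
      = polar r (MvPolynomial.map (algebraMap ℝ ℂ) Φ) (fun i => J0 (h i)) := by
    intro h
    rw [MultilinearMap.compLinearMap_apply, hB0]
    rfl
  refine ⟨B0.compLinearMap (fun _ => gfx_L n), hB, ?_, ?_, ?_, ?_, ?_⟩
  · intro h j X
    rw [hB]
    exact gf_gauge hΦ ho h j X
  · intro h j f
    rw [hB]
    exact gf_weyl hΦ hC ho h j f
  · intro h j y
    rw [hB, hB]
    exact gf_transp hΦ ho h j y
  · intro X lam hX hl h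
    rw [hB]
    simp only [hB]
    exact gf_ward hn hΦ hC hM ho X lam hX hl h
  · intro k e h1 h2 h3 h4 a
    rw [hB]
    exact gf_onshell hΦ ho k e h1 h2 h3 h4 a

end CInv
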