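import Pool.Agent.Helper771.CInv.Defs
import Pool.Agent.Helper771.CInv.P_ord_succ
import Pool.Agent.Helper771.CInv.P_jet_surj
import Pool.Agent.Helper771.CInv.P_good_form
import Pool.Agent.Helper771.CInv.P_core

set_option linter.all false

open scoped BigOperators

namespace CInv



theorem ord_induct {n r : ℕ} (hn : Even n) (h6 : 6 ≤ n) (hr : 1 ≤ r) {c : Contraction →₀ ℝ}
    {N M : ℕ} {Φ : MvPolynomial (JV n) ℝ}
    (hΦ : GoodPhi n c N Φ) (hC : ConfPhi n M Φ) (hM : M + n / 2 = n * N) (ho : OrdGE r Φ) :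
    OrdGE (r + 1) Φ := by
  classical
  obtain ⟨B, hB, hG⟩ := good_form hn hΦ hC hM ho
  have hB0 : B = 0 := core h6 hr hG
  have hsupp : (MvPolynomial.map (algebraMap ℝ ℂ) Φ).support = Φ.support :=
    MvPolynomial.support_map_of_injective Φ (algebraMap ℝ ℂ).injective
  have ho' : OrdGE r (MvPolynomial.map (algebraMap ℝ ℂ) Φ) := by
    intro m hm
    rw [hsupp] at hm
    exact ho m hm
  have h1 : OrdGE (r + 1) (MvPolynomial.map (algebraMap ℝ ℂ) Φ) := by
    refine ord_succ ho' ?_
    intro u
    choose h hh using fun j => jet_surj (u j)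
    have h2 := hB h
    rw [hB0, MultilinearMap.zero_apply] at h2
    have h3 : (fun i => J0 (h i)) = fun j => Pi.single (u j) 1 := funext hh
    rw [h3] at h2
    exact h2.symm
  intro m hm
  exact h1 m (by rw [hsupp]; exact hm)

end CInv
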