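import Pool.Agent.Helper771.CInv.Defs
import Pool.Agent.Helper771.CInv.P_inv_ricflat

set_option linter.all false

open scoped BigOperators

namespace CInv



theorem ord_one {n : ℕ} {c : Contraction →₀ ℝ} {N : ℕ} {Φ : MvPolynomial (JV n) ℝ}
    (hΦ : GoodPhi n c N Φ) : OrdGE 1 Φ := by
  obtain ⟨D, hD⟩ : ∃ D : Fin n → ℝ → ℝ, D = fun _ _ => 0 := ⟨_, rfl⟩
  have hDer : IsDer D := by
    rw [hD]
    exact ⟨fun _ _ _ => by simp, fun _ _ _ => by simp, fun _ _ _ => by simp, fun _ _ _ => rfl⟩
  have hmet : met (fun _ _ => (0 : ℝ)) = (flat ℝ : Fin n → Fin n → ℝ) := by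
    funext i j
    simp [met]
  have hM : IsMetric (met (fun _ _ => (0 : ℝ))) (flat ℝ : Fin n → Fin n → ℝ) := by
    rw [hmet]
    refine ⟨fun i j => ?_, fun i j => ?_⟩
    · unfold flat
      by_cases h : i = j
      · subst h; rfl
      · rw [if_neg h, if_neg (fun h' => h h'.symm)]
    · unfold flat
      simp
  have hric : ∀ i j, ric D (met (fun _ _ => (0 : ℝ))) (flat ℝ : Fin n → Fin n → ℝ) i j = 0 := by
    intro i j
    unfold ric chr
    rw [hD]
    simp
  have h1 := hΦ.alg ℝ D hDer (fun _ _ => 0) (flat ℝ) hM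
  rw [inv_ricflat hDer hric c, mul_zero] at h1
  have hjet : jet D (fun _ _ => (0 : ℝ)) = fun _ : JV n => (0 : ℝ) := by
    funext v
    unfold jet Ds
    have : ∀ w : List (Fin n), Dw D w (0 : ℝ) = 0 := by
      intro w
      cases w with
      | nil => rfl
      | cons i w =>
        show D i _ = 0
        rw [hD]
    exact this _
  rw [hjet, MvPolynomial.aeval_zero'] at h1
  have h2 : MvPolynomial.constantCoeff Φ = 0 := by simpa using h1
  intro m hm
  by_contra hcon
  have h3 : m.degree = 0 := by omega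
  have h4 : m = 0 := by
    rwa [Finsupp.degree_eq_zero_iff] at h3
  rw [h4, MvPolynomial.mem_support_iff] at hm
  exact hm h2

end CInv
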