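import Pool.Agent.Helper771.CInv.Defs

set_option linter.all false

open scoped BigOperators

namespace CInv



section aux14595
variable {n : ℕ} {A : Type} [CommRing A] [Algebra ℝ A] {D : Fin n → A → A}

theorem D_zero14595 (hD : IsDer D) (i : Fin n) : D i 0 = 0 := by
  have h := hD.add i 0 0
  rw [add_zero] at h
  exact left_eq_add.1 h

theorem D_one14595 (hD : IsDer D) (i : Fin n) : D i 1 = 0 := by
  have h := hD.mul i 1 1
  rw [mul_one, mul_one, one_mul] at h
  exact left_eq_add.1 h

theorem D_alg14595 (hD : IsDer D) (i : Fin n) (r : ℝ) : D i (algebraMap ℝ A r) = 0 := by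
  rw [Algebra.algebraMap_eq_smul_one, hD.smul, D_one14595 hD, smul_zero]

theorem D_sum14595 (hD : IsDer D) (i : Fin n) {ι : Type} (s : Finset ι) (f : ι → A) :
    D i (∑ k ∈ s, f k) = ∑ k ∈ s, D i (f k) := by
  classical
  induction s using Finset.induction_on with
  | empty => rw [Finset.sum_empty, Finset.sum_empty, D_zero14595 hD]
  | insert a s ha ih => rw [Finset.sum_insert ha, Finset.sum_insert ha, hD.add, ih]

theorem D_gi14595 (hD : IsDer D) {g gi : Fin n → Fin n → A} (h : IsMetric g gi) (a i j : Fin n) :
    D a (gi i j) = - ∑ k, ∑ l, gi i k * D a (g k l) * gi l j := by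
  -- the inverse on the other side
  have hinv : ∀ p q, ∑ k, gi p k * g k q = if p = q then 1 else 0 := by
    have h1 : Matrix.of g * Matrix.of gi = 1 := by
      ext p q
      rw [Matrix.mul_apply, Matrix.one_apply]
      exact h.inv p q
    have h2 : Matrix.of gi * Matrix.of g = 1 := mul_eq_one_comm.1 h1
    intro p q
    have h3 := congrFun (congrFun h2 p) q
    rw [Matrix.mul_apply, Matrix.one_apply] at h3
    exact h3
  have hd : ∀ p q, ∑ k, (D a (g p k) * gi k q + g p k * D a (gi k q)) = 0 := by
    intro p q
    have h1 := congrArg (D a) (h.inv p q)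
    rw [D_sum14595 hD] at h1
    simp only [hD.mul] at h1
    rw [h1]
    split_ifs
    · exact D_one14595 hD a
    · exact D_zero14595 hD a
  have h1 : ∑ p, gi i p * ∑ k, (D a (g p k) * gi k j + g p k * D a (gi k j)) = 0 := by
    simp only [hd, mul_zero, Finset.sum_const_zero]
  have h2 : ∑ p, gi i p * ∑ k, (D a (g p k) * gi k j + g p k * D a (gi k j)) =
      (∑ p, ∑ k, gi i p * D a (g p k) * gi k j) + ∑ k, (∑ p, gi i p * g p k) * D a (gi k j) := by
    simp only [Finset.sum_add_distrib, mul_add, Finset.mul_sum]
    congr 1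
    · exact Finset.sum_congr rfl fun p _ => Finset.sum_congr rfl fun k _ => by ring
    · rw [Finset.sum_comm]
      refine Finset.sum_congr rfl fun k _ => ?_
      rw [Finset.sum_mul]
      exact Finset.sum_congr rfl fun p _ => by ring
  have h3 : ∑ k, (∑ p, gi i p * g p k) * D a (gi k j) = D a (gi i j) := by
    simp only [hinv, ite_mul, one_mul, zero_mul]
    rw [Finset.sum_ite_eq, if_pos (Finset.mem_univ _)]
  rw [h2, h3] at h1
  exact eq_neg_of_add_eq_zero_right h1

end aux14595

theorem uni_alg {n : ℕ} {A : Type} [CommRing A] [Algebra ℝ A] {D : Fin n → A → A}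
    (hD : IsDer D) {g gi : Fin n → Fin n → A} (h : IsMetric g gi) :
    RelHom (UD (n := n)) D (fun p a => MvPolynomial.aeval
      (Sum.elim (fun v : Fin n × Fin n × List (Fin n) => Dw D v.2.2 (g v.1 v.2.1))
        (fun v : Fin n × Fin n => gi v.1 v.2)) p = a) := by
  obtain ⟨φ, hφ⟩ : ∃ φ, φ = (MvPolynomial.aeval
      (Sum.elim (fun v : Fin n × Fin n × List (Fin n) => Dw D v.2.2 (g v.1 v.2.1))
        (fun v : Fin n × Fin n => gi v.1 v.2)) : MvPolynomial (UV n) ℝ →ₐ[ℝ] A) := ⟨_, rfl⟩
  have hl : ∀ i j w, φ (MvPolynomial.X (Sum.inl (i, j, w))) = Dw D w (g i j) := by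
    intro i j w
    rw [hφ, MvPolynomial.aeval_X]; rfl
  have hr : ∀ i j, φ (MvPolynomial.X (Sum.inr (i, j))) = gi i j := by
    intro i j
    rw [hφ, MvPolynomial.aeval_X]; rfl
  have key : ∀ (a : Fin n) (p : MvPolynomial (UV n) ℝ), φ (UD a p) = D a (φ p) := by
    intro a p
    induction p using MvPolynomial.induction_on with
    | C r =>
      have h1 : UD a (MvPolynomial.C r : MvPolynomial (UV n) ℝ) = 0 := by
        unfold UD
        exact Derivation.map_algebraMap _ _
      rw [h1, map_zero, ← MvPolynomial.algebraMap_eq, AlgHom.commutes, D_alg14595 hD]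
    | add p q hp hq =>
      have h1 : UD a (p + q) = UD a p + UD a q := by
        unfold UD
        exact map_add _ _ _
      rw [h1, map_add, map_add, hp, hq, hD.add]
    | mul_X p v hp =>
      have h1 : UD a (p * MvPolynomial.X v) = p * UD a (MvPolynomial.X v) +
          MvPolynomial.X v * UD a p := by
        unfold UD
        rw [Derivation.leibniz]
        rfl
      have hX : φ (UD a (MvPolynomial.X v)) = D a (φ (MvPolynomial.X v)) := by
        rcases v with ⟨i, j, w⟩ | ⟨i, j⟩
        · have h2 : UD a (MvPolynomial.X (Sum.inl (i, j, w)) : MvPolynomial (UV n) ℝ) =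
              MvPolynomial.X (Sum.inl (i, j, a :: w)) := by
            unfold UD
            rw [MvPolynomial.mkDerivation_X]
          rw [h2, hl, hl]
          rfl
        · have h2 : UD a (MvPolynomial.X (Sum.inr (i, j)) : MvPolynomial (UV n) ℝ) =
              - ∑ k, ∑ l, MvPolynomial.X (Sum.inr (i, k))
                * MvPolynomial.X (Sum.inl (k, l, [a])) * MvPolynomial.X (Sum.inr (l, j)) := by
            unfold UD
            rw [MvPolynomial.mkDerivation_X]
          rw [h2, hr, D_gi14595 hD h, map_neg, map_sum]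
          congr 1
          refine Finset.sum_congr rfl fun k _ => ?_
          rw [map_sum]
          refine Finset.sum_congr rfl fun l _ => ?_
          rw [map_mul, map_mul, hr, hr, hl]
          rfl
      rw [h1, map_add, map_mul, map_mul, map_mul, hX, hp, hD.mul]
      ring
  rw [← hφ]
  constructor
  · exact map_one φ
  · intro a a' b b' h1 h2
    show φ (a + a') = b + b'
    rw [map_add, h1, h2]
  · intro a a' b b' h1 h2
    show φ (a * a') = b * b'
    rw [map_mul, h1, h2]
  · intro r a b h1
    show φ (r • a) = r • b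
    rw [map_smul, h1]
  · intro i a b h1
    show φ (UD i a) = D i b
    rw [key, h1]

end CInv
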