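import Pool.Agent.Helper771.CInv.Defs
import Pool.Agent.Helper771.CInv.P_pd_smooth

set_option linter.all false

open scoped BigOperators

namespace CInv



theorem uf_det {n : ℕ} {M : (Fin n → ℝ) → Matrix (Fin n) (Fin n) ℝ} {y : Fin n → ℝ}
    (h : ∀ i j, DifferentiableAt ℝ (fun x => M x i j) y) :
    DifferentiableAt ℝ (fun x => (M x).det) y := by
  simp only [Matrix.det_apply']
  apply DifferentiableAt.fun_sum
  intro σ _
  apply DifferentiableAt.mul (differentiableAt_const _)
  exact (HasFDerivAt.finsetProd (u := Finset.univ) (g := fun i x => M x (σ i) i)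
    (fun i _ => (h (σ i) i).hasFDerivAt)).differentiableAt

theorem uf_inv {n : ℕ} {M : (Fin n → ℝ) → Matrix (Fin n) (Fin n) ℝ} {y : Fin n → ℝ}
    (h : ∀ i j, DifferentiableAt ℝ (fun x => M x i j) y) (hd : (M y).det ≠ 0) (i j : Fin n) :
    DifferentiableAt ℝ (fun x => (M x)⁻¹ i j) y := by
  have h1 : (fun x => (M x)⁻¹ i j) =
      fun x => ((M x).det)⁻¹ * ((M x).updateRow j (Pi.single i 1)).det := by
    funext x
    rw [Matrix.inv_def, Matrix.smul_apply, Matrix.adjugate_apply, Ring.inverse_eq_inv', smul_eq_mul]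
  rw [h1]
  apply DifferentiableAt.mul ((uf_det h).inv hd)
  apply uf_det
  intro a b
  by_cases ha : a = j
  · subst ha
    simp only [Matrix.updateRow_self]
    exact differentiableAt_const _
  · simp only [Matrix.updateRow_ne ha]
    exact h a b

theorem uf_dmul {n : ℕ} {f h : (Fin n → ℝ) → ℝ} {y v : Fin n → ℝ} (hf : DifferentiableAt ℝ f y)
    (hh : DifferentiableAt ℝ h y) :
    fderiv ℝ (fun x => f x * h x) y v = f y * fderiv ℝ h y v + h y * fderiv ℝ f y v := by
  rw [fderiv_fun_mul hf hh]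
  rfl

theorem uf_dinv {n : ℕ} {U : Set (Fin n → ℝ)} (hU : IsOpen U)
    {g : (Fin n → ℝ) → Matrix (Fin n) (Fin n) ℝ} (hg : IsMetricOn U g) {y : Fin n → ℝ}
    (hy : y ∈ U) (a i j : Fin n) :
    DifferentiableAt ℝ (fun x => (g x)⁻¹ i j) y ∧
      pd a (fun x => (g x)⁻¹ i j) y =
        - ∑ k, ∑ l, (g y)⁻¹ i k * pd a (fun x => g x k l) y * (g y)⁻¹ l j := by
  have hgd : ∀ x ∈ U, ∀ i j, DifferentiableAt ℝ (fun x => g x i j) x := by
    intro x hx i j
    exact ((hg.smooth i j).contDiffAt (hU.mem_nhds hx)).differentiableAt (by simp)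
  have hdet : ∀ x ∈ U, (g x).det ≠ 0 := fun x hx => (hg.posDef x hx).det_pos.ne'
  have hid := uf_inv (hgd y hy) (hdet y hy)
  refine ⟨hid i j, ?_⟩
  set A := g y with hA
  let dA : Matrix (Fin n) (Fin n) ℝ := Matrix.of fun k l => pd a (fun x => g x k l) y
  let dB : Matrix (Fin n) (Fin n) ℝ := Matrix.of fun k l => pd a (fun x => (g x)⁻¹ k l) y
  have hunit : IsUnit A.det := isUnit_iff_ne_zero.mpr (hdet y hy)
  have h1 : A * dB + dA * A⁻¹ = 0 := by
    ext p q
    have h2 : (fun x => ∑ k, g x p k * (g x)⁻¹ k q) =ᶠ[nhds y]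
        fun _ => (1 : Matrix (Fin n) (Fin n) ℝ) p q := by
      filter_upwards [hU.mem_nhds hy] with x hx
      rw [← Matrix.mul_apply, Matrix.mul_nonsing_inv _ (isUnit_iff_ne_zero.mpr (hdet x hx))]
    have h3 := h2.fderiv_eq (𝕜 := ℝ)
    have h4 := DFunLike.congr_fun h3 (Pi.single a 1)
    rw [fderiv_fun_sum (A := fun k x => g x p k * (g x)⁻¹ k q)
      (fun k _ => (hgd y hy p k).mul (hid k q))] at h4
    simp only [fderiv_fun_const, Pi.zero_apply, ContinuousLinearMap.zero_apply,
      ContinuousLinearMap.sum_apply] at h4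
    rw [Matrix.add_apply, Matrix.mul_apply, Matrix.mul_apply, ← Finset.sum_add_distrib,
      Matrix.zero_apply, ← h4]
    apply Finset.sum_congr rfl
    intro k _
    rw [uf_dmul (hgd y hy p k) (hid k q)]
    change A p k * pd a (fun x => (g x)⁻¹ k q) y + pd a (fun x => g x p k) y * A⁻¹ k q = _
    unfold pd
    rw [hA]
    ring
  have h2 : dB = -(A⁻¹ * dA * A⁻¹) := by
    have h3 : A⁻¹ * (A * dB + dA * A⁻¹) = 0 := by rw [h1, Matrix.mul_zero]
    rw [Matrix.mul_add, ← Matrix.mul_assoc, Matrix.nonsing_inv_mul _ hunit, Matrix.one_mul,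
      ← Matrix.mul_assoc] at h3
    exact eq_neg_of_add_eq_zero_left h3
  have h3 : pd a (fun x => (g x)⁻¹ i j) y = dB i j := rfl
  rw [h3, h2, Matrix.neg_apply, Matrix.mul_apply]
  congr 1
  rw [Finset.sum_comm]
  apply Finset.sum_congr rfl
  intro l _
  rw [Matrix.mul_apply, Finset.sum_mul]
  rfl

theorem uni_fn {n : ℕ} {U : Set (Fin n → ℝ)} (hU : IsOpen U)
    {g : (Fin n → ℝ) → Matrix (Fin n) (Fin n) ℝ} (hg : IsMetricOn U g) :
    RelHom (UD (n := n)) pd (fun p (F : (Fin n → ℝ) → ℝ) => ∀ y ∈ U, MvPolynomial.aeval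
      (Sum.elim (fun v : Fin n × Fin n × List (Fin n) => (Dw pd v.2.2 (fun x => g x v.1 v.2.1) y : ℝ))
        (fun v : Fin n × Fin n => (g y)⁻¹ v.1 v.2)) p = F y) := by
  set vals : (Fin n → ℝ) → UV n → ℝ := fun y =>
    Sum.elim (fun v : Fin n × Fin n × List (Fin n) => (Dw pd v.2.2 (fun x => g x v.1 v.2.1) y : ℝ))
        (fun v : Fin n × Fin n => (g y)⁻¹ v.1 v.2) with hvals
  have hvar : ∀ (i : Fin n) (v : UV n), ∀ y ∈ U, DifferentiableAt ℝ (fun x => vals x v) y ∧
      fderiv ℝ (fun x => vals x v) y (Pi.single i 1) =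
        MvPolynomial.aeval (vals y) (UD i (MvPolynomial.X v)) := by
    intro i v y hy
    rcases v with ⟨a, b, w⟩ | ⟨a, b⟩
    · constructor
      · have h1 := (pd_smooth hU (hg.smooth a b) w).1
        exact (h1.contDiffAt (hU.mem_nhds hy)).differentiableAt (by simp)
      · unfold UD
        rw [MvPolynomial.mkDerivation_X]
        simp only [MvPolynomial.aeval_X]
        rfl
    · obtain ⟨h1, h2⟩ := uf_dinv hU hg hy i a b
      refine ⟨h1, ?_⟩
      unfold UD
      rw [MvPolynomial.mkDerivation_X]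
      simp only [map_neg, map_sum, map_mul, MvPolynomial.aeval_X]
      exact h2
  have key : ∀ (i : Fin n) (p : MvPolynomial (UV n) ℝ), ∀ y ∈ U,
      DifferentiableAt ℝ (fun x => MvPolynomial.aeval (vals x) p) y ∧
      fderiv ℝ (fun x => MvPolynomial.aeval (vals x) p) y (Pi.single i 1) =
        MvPolynomial.aeval (vals y) (UD i p) := by
    intro i p
    induction p using MvPolynomial.induction_on with
    | C r =>
      intro y hy
      have h1 : (fun x => MvPolynomial.aeval (vals x) (MvPolynomial.C r : MvPolynomial (UV n) ℝ)) =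
          fun _ => r := by
        funext x
        simp
      rw [h1]
      refine ⟨differentiableAt_const _, ?_⟩
      unfold UD
      rw [MvPolynomial.derivation_C]
      simp
    | add p q ihp ihq =>
      intro y hy
      obtain ⟨h1, h2⟩ := ihp y hy
      obtain ⟨h3, h4⟩ := ihq y hy
      have h5 : (fun x => MvPolynomial.aeval (vals x) (p + q)) =
          fun x => MvPolynomial.aeval (vals x) p + MvPolynomial.aeval (vals x) q := by
        funext x
        rw [map_add]
      rw [h5]
      refine ⟨h1.add h3, ?_⟩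
      rw [fderiv_fun_add h1 h3, ContinuousLinearMap.add_apply, h2, h4]
      unfold UD
      rw [map_add, map_add]
    | mul_X p v ihp =>
      intro y hy
      obtain ⟨h1, h2⟩ := ihp y hy
      obtain ⟨h3, h4⟩ := hvar i v y hy
      have h5 : (fun x => MvPolynomial.aeval (vals x) (p * MvPolynomial.X v)) =
          fun x => MvPolynomial.aeval (vals x) p * vals x v := by
        funext x
        rw [map_mul, MvPolynomial.aeval_X]
      rw [h5]
      refine ⟨h1.mul h3, ?_⟩
      rw [uf_dmul h1 h3, h2, h4]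
      unfold UD
      rw [Derivation.leibniz, smul_eq_mul, smul_eq_mul, map_add, map_mul, map_mul,
        MvPolynomial.aeval_X]
  refine ⟨?_, ?_, ?_, ?_, ?_⟩
  · intro y _
    rw [map_one]
    rfl
  · intro a a' b b' h1 h2 y hy
    rw [map_add, h1 y hy, h2 y hy]
    rfl
  · intro a a' b b' h1 h2 y hy
    rw [map_mul, h1 y hy, h2 y hy]
    rfl
  · intro r a b h1 y hy
    rw [map_smul, h1 y hy]
    rfl
  · intro i a b h1 y hy
    have h2 : b =ᶠ[nhds y] fun x => MvPolynomial.aeval (vals x) a := by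
      filter_upwards [hU.mem_nhds hy] with x hx
      exact (h1 x hx).symm
    unfold pd
    rw [h2.fderiv_eq]
    exact (key i a y hy).2.symm

end CInv
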