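import Pool.Agent.Helper771.CInv.Defs
import Pool.Agent.Helper771.CInv.P_nat_eval
import Pool.Agent.Helper771.CInv.P_gi_symm
import Pool.Agent.Helper771.CInv.P_uni_alg
import Pool.Agent.Helper771.CInv.P_pd_smooth
import Pool.Agent.Helper771.CInv.P_uni_fn
import Pool.Agent.Helper771.CInv.P_uni_clear
import Pool.Agent.Helper771.CInv.P_dw_perm
import Pool.Agent.Helper771.CInv.P_dw_perm_fn

set_option linter.all false

open scoped BigOperators

namespace CInv



section PhiExists

/-- the substitution polynomial for the variable `v` -/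
noncomputable def pe_sub {n : ℕ} (v : JV n) : MvPolynomial (JV n) ℝ :=
  (if v.2.2 = 0 ∧ v.1 = v.2.1 then 1 else 0)
    + (1 / 2 : ℝ) • (MvPolynomial.X v + MvPolynomial.X (v.2.1, v.1, v.2.2))

theorem pe_aeval_sub {n : ℕ} {A : Type} [CommRing A] [Algebra ℝ A] (y : JV n → A)
    (Φ₁ : MvPolynomial (JV n) ℝ) :
    MvPolynomial.aeval y (MvPolynomial.aeval pe_sub Φ₁)
      = MvPolynomial.aeval (fun v : JV n => (if v.2.2 = 0 ∧ v.1 = v.2.1 then (1 : A) else 0)
        + (1 / 2 : ℝ) • (y v + y (v.2.1, v.1, v.2.2))) Φ₁ := by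
  have h : (MvPolynomial.aeval y : MvPolynomial (JV n) ℝ →ₐ[ℝ] A).comp
      (MvPolynomial.aeval pe_sub) =
      MvPolynomial.aeval (fun v : JV n => (if v.2.2 = 0 ∧ v.1 = v.2.1 then (1 : A) else 0)
        + (1 / 2 : ℝ) • (y v + y (v.2.1, v.1, v.2.2))) := by
    apply MvPolynomial.algHom_ext
    intro v
    rw [AlgHom.comp_apply, MvPolynomial.aeval_X, MvPolynomial.aeval_X]
    unfold pe_sub
    rw [map_add, map_smul, map_add, MvPolynomial.aeval_X, MvPolynomial.aeval_X]
    congr 1
    split_ifs
    · rw [map_one]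
    · rw [map_zero]
  exact DFunLike.congr_fun h Φ₁

theorem pe_D_one {n : ℕ} {A : Type} [CommRing A] [Algebra ℝ A] {D : Fin n → A → A}
    (hD : IsDer D) (i : Fin n) : D i 1 = 0 := by
  have h := hD.mul i 1 1
  rw [mul_one, mul_one, one_mul] at h
  exact left_eq_add.mp h

theorem pe_D_zero {n : ℕ} {A : Type} [CommRing A] [Algebra ℝ A] {D : Fin n → A → A}
    (hD : IsDer D) (i : Fin n) : D i 0 = 0 := by
  have h := hD.add i 0 0
  rw [add_zero] at h
  exact left_eq_add.mp h

theorem pe_Dw_add {n : ℕ} {A : Type} [CommRing A] [Algebra ℝ A] {D : Fin n → A → A}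
    (hD : IsDer D) (w : List (Fin n)) (a b : A) : Dw D w (a + b) = Dw D w a + Dw D w b := by
  induction w with
  | nil => rfl
  | cons i w ih => simp only [Dw]; rw [ih, hD.add]

theorem pe_Dw_smul {n : ℕ} {A : Type} [CommRing A] [Algebra ℝ A] {D : Fin n → A → A}
    (hD : IsDer D) (w : List (Fin n)) (r : ℝ) (a : A) : Dw D w (r • a) = r • Dw D w a := by
  induction w with
  | nil => rfl
  | cons i w ih => simp only [Dw]; rw [ih, hD.smul]

theorem pe_Dw_zero {n : ℕ} {A : Type} [CommRing A] [Algebra ℝ A] {D : Fin n → A → A}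
    (hD : IsDer D) (w : List (Fin n)) : Dw D w 0 = 0 := by
  induction w with
  | nil => rfl
  | cons i w ih => simp only [Dw]; rw [ih, pe_D_zero hD]

theorem pe_Dw_one {n : ℕ} {A : Type} [CommRing A] [Algebra ℝ A] {D : Fin n → A → A}
    (hD : IsDer D) (w : List (Fin n)) : Dw D w 1 = if w = [] then 1 else 0 := by
  induction w with
  | nil => simp [Dw]
  | cons i w ih =>
    simp only [Dw]
    rw [ih]
    split_ifs with h1 h2 h2
    · simp at h2
    · exact pe_D_one hD i
    · simp at h2
    · exact pe_D_zero hD i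

theorem pe_Ds_met {n : ℕ} {A : Type} [CommRing A] [Algebra ℝ A] {D : Fin n → A → A}
    (hD : IsDer D) (H : Fin n → Fin n → A) (v : JV n) :
    (if v.2.2 = 0 ∧ v.1 = v.2.1 then (1 : A) else 0)
        + (1 / 2 : ℝ) • (jet D H v + jet D H (v.2.1, v.1, v.2.2))
      = Dw D v.2.2.toList (met H v.1 v.2.1) := by
  obtain ⟨i, j, s⟩ := v
  simp only [jet, Ds, met, flat]
  rw [pe_Dw_add hD, pe_Dw_smul hD, pe_Dw_add hD]
  congr 1
  have hs : s.toList = [] ↔ s = 0 := Multiset.toList_eq_nil
  by_cases hij : i = j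
  · simp only [hij, and_true, if_true]
    rw [pe_Dw_one hD]
    simp only [hs]
  · simp only [hij, and_false, if_false]
    rw [pe_Dw_zero hD]

theorem pe_pd_sub {n : ℕ} (f : (Fin n → ℝ) → ℝ) (c : ℝ) (w : List (Fin n)) :
    Dw pd w (fun y => f y - c) = fun y => Dw pd w f y - (if w = [] then c else 0) := by
  induction w with
  | nil => simp [Dw]
  | cons i w ih =>
    simp only [Dw]
    rw [ih]
    funext x
    simp only [pd]
    rw [fderiv_sub_const]
    simp

theorem pe_pd_congr {n : ℕ} {U : Set (Fin n → ℝ)} (hU : IsOpen U) {f g : (Fin n → ℝ) → ℝ}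
    (h : ∀ x ∈ U, f x = g x) (w : List (Fin n)) : ∀ x ∈ U, Dw pd w f x = Dw pd w g x := by
  induction w with
  | nil => exact h
  | cons i w ih =>
    intro x hx
    simp only [Dw, pd]
    have he : Dw pd w f =ᶠ[nhds x] Dw pd w g := by
      filter_upwards [hU.mem_nhds hx] with y hy
      exact ih y hy
    rw [he.fderiv_eq]

theorem pe_perm {n : ℕ} (w : List (Fin n)) : ((w : Multiset (Fin n)).toList).Perm w :=
  Multiset.coe_eq_coe.mp (Multiset.coe_toList _)

end PhiExists

theorem phi_exists (n : ℕ) (c : Contraction →₀ ℝ) :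
    ∃ (N : ℕ) (Φ : MvPolynomial (JV n) ℝ), 1 ≤ N ∧ GoodPhi n c N Φ := by
  classical
  let gU : Fin n → Fin n → MvPolynomial (UV n) ℝ := fun i j => MvPolynomial.X (Sum.inl (i, j, []))
  let giU : Fin n → Fin n → MvPolynomial (UV n) ℝ := fun i j => MvPolynomial.X (Sum.inr (i, j))
  obtain ⟨N0, Φ0, h0⟩ := uni_clear (inv c (UD (n := n)) gU giU)
  let W : Type := Fin n × Fin n × List (Fin n)
  let dt : MvPolynomial (Fin n × Fin n × List (Fin n)) ℝ :=
    (Matrix.of (fun i j : Fin n => (MvPolynomial.X (i, j, []) :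
      MvPolynomial (Fin n × Fin n × List (Fin n)) ℝ))).det
  have hdt : ∀ (A : Type) [CommRing A] [Algebra ℝ A] (y : Fin n × Fin n × List (Fin n) → A),
      MvPolynomial.aeval y dt = (Matrix.of (fun i j => y (i, j, []))).det := by
    intro A _ _ y
    show MvPolynomial.aeval y ((Matrix.of (fun i j : Fin n => (MvPolynomial.X (i, j, []) :
      MvPolynomial (Fin n × Fin n × List (Fin n)) ℝ))).det) = _
    rw [AlgHom.map_det]
    congr 1
    ext i j
    simp [AlgHom.mapMatrix_apply]
  have h1 : ∀ (A : Type) [CommRing A] [Algebra ℝ A] (y : Fin n × Fin n × List (Fin n) → A)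
        (z : Fin n → Fin n → A),
        (∀ i j, ∑ k, y (i, k, []) * z k j = if i = j then 1 else 0) →
        MvPolynomial.aeval y (Φ0 * dt) = (Matrix.of (fun i j => y (i, j, []))).det ^ (N0 + 1)
          * MvPolynomial.aeval (Sum.elim y (fun v : Fin n × Fin n => z v.1 v.2))
            (inv c (UD (n := n)) gU giU) := by
    intro A _ _ y z hz
    rw [map_mul, h0 A y z hz, hdt, pow_succ]
    ring
  let Φ1 : MvPolynomial (JV n) ℝ := MvPolynomial.rename
    (fun v : Fin n × Fin n × List (Fin n) => ((v.1, v.2.1, (v.2.2 : Multiset (Fin n))) : JV n))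
    (Φ0 * dt)
  have hΦ1 : ∀ (A : Type) [CommRing A] [Algebra ℝ A] (y : JV n → A),
      MvPolynomial.aeval y Φ1 = MvPolynomial.aeval
        (fun v : Fin n × Fin n × List (Fin n) => y (v.1, v.2.1, (v.2.2 : Multiset (Fin n))))
        (Φ0 * dt) := by
    intro A _ _ y
    show MvPolynomial.aeval y (MvPolynomial.rename _ _) = _
    rw [MvPolynomial.aeval_rename]
    rfl
  refine ⟨N0 + 1, MvPolynomial.aeval pe_sub Φ1, by omega, ?_, ?_, ?_⟩
  · intro A _ _ D hD H gi hm
    rw [pe_aeval_sub]
    have e1 : (fun v : JV n => (if v.2.2 = 0 ∧ v.1 = v.2.1 then (1 : A) else 0)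
        + (1 / 2 : ℝ) • (jet D H v + jet D H (v.2.1, v.1, v.2.2)))
        = fun v : JV n => Dw D v.2.2.toList (met H v.1 v.2.1) := by
      funext v
      exact pe_Ds_met hD H v
    rw [e1, hΦ1]
    have e2 : (fun v : Fin n × Fin n × List (Fin n) =>
        Dw D ((v.2.2 : Multiset (Fin n)).toList) (met H v.1 v.2.1))
        = fun v : Fin n × Fin n × List (Fin n) => Dw D v.2.2 (met H v.1 v.2.1) := by
      funext v
      exact dw_perm hD (pe_perm v.2.2) _
    have e3 := h1 A (fun v : Fin n × Fin n × List (Fin n) => Dw D v.2.2 (met H v.1 v.2.1)) gi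
      hm.inv
    have e4 := (nat_eval (uni_alg hD hm) (gA := gU) (giA := giU) (gB := met H) (giB := gi)
      (by
        intro i j
        show MvPolynomial.aeval _ (MvPolynomial.X (Sum.inl (i, j, []))) = _
        rw [MvPolynomial.aeval_X]
        rfl)
      (by
        intro i j
        show MvPolynomial.aeval _ (MvPolynomial.X (Sum.inr (i, j))) = _
        rw [MvPolynomial.aeval_X]
        rfl) c).2
    rw [e4] at e3
    show MvPolynomial.aeval (fun v : Fin n × Fin n × List (Fin n) =>
        Dw D ((v.2.2 : Multiset (Fin n)).toList) (met H v.1 v.2.1)) (Φ0 * dt) = _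
    rw [e2, e3]
    rfl
  · intro U hU g hg x hx
    rw [pe_aeval_sub]
    have hsymm : ∀ i j, ∀ y ∈ U, g y i j = g y j i := by
      intro i j y hy
      have := (hg.posDef y hy).isHermitian.apply i j
      simpa using this.symm
    have e1 : (fun v : JV n => (if v.2.2 = 0 ∧ v.1 = v.2.1 then (1 : ℝ) else 0)
        + (1 / 2 : ℝ) • ((Ds pd v.2.2 (fun y => g y v.1 v.2.1 - if v.1 = v.2.1 then 1 else 0) x : ℝ)
          + Ds pd v.2.2 (fun y => g y v.2.1 v.1 - if v.2.1 = v.1 then 1 else 0) x))
        = fun v : JV n => Dw pd v.2.2.toList (fun y => g y v.1 v.2.1) x := by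
      funext v
      obtain ⟨i, j, s⟩ := v
      simp only [Ds]
      have e5 : Dw pd s.toList (fun y => g y j i) x = Dw pd s.toList (fun y => g y i j) x :=
        pe_pd_congr hU (f := fun y => g y j i) (g := fun y => g y i j) (hsymm j i) s.toList x hx
      rw [pe_pd_sub (fun y => g y i j), pe_pd_sub (fun y => g y j i)]
      beta_reduce
      rw [e5]
      have hs : s.toList = [] ↔ s = 0 := Multiset.toList_eq_nil
      simp only [hs, smul_eq_mul]
      by_cases hij : i = j
      · subst hij
        by_cases hs0 : s = 0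
        · simp only [hs0, and_self, if_true]; ring
        · simp only [hs0, false_and, if_false]; ring
      · have hji : ¬ j = i := fun hh => hij hh.symm
        by_cases hs0 : s = 0
        · simp only [hs0, hij, hji, and_false, if_false, if_true]; ring
        · simp only [hs0, false_and, if_false]; ring
    rw [e1, hΦ1]
    have e2 : (fun v : Fin n × Fin n × List (Fin n) =>
        Dw pd ((v.2.2 : Multiset (Fin n)).toList) (fun y => g y v.1 v.2.1) x)
        = fun v : Fin n × Fin n × List (Fin n) => Dw pd v.2.2 (fun y => g y v.1 v.2.1) x := by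
      funext v
      exact dw_perm_fn hU (hg.smooth v.1 v.2.1) (pe_perm v.2.2) x hx
    have hinv : ∀ i j, ∑ k, g x i k * (g x)⁻¹ k j = if i = j then 1 else 0 := by
      intro i j
      have hdet : IsUnit (g x).det := (hg.posDef x hx).det_pos.ne'.isUnit
      have := congrFun (congrFun (Matrix.mul_nonsing_inv (g x) hdet) i) j
      rw [Matrix.mul_apply, Matrix.one_apply] at this
      exact this
    have e3 := h1 ℝ (fun v : Fin n × Fin n × List (Fin n) => Dw pd v.2.2 (fun y => g y v.1 v.2.1) x)
      (fun i j => (g x)⁻¹ i j) hinv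
    have e4 := (nat_eval (uni_fn hU hg) (gA := gU) (giA := giU) (gB := fun i j y => g y i j)
      (giB := fun i j y => (g y)⁻¹ i j)
      (by
        intro i j y hy
        show MvPolynomial.aeval _ (MvPolynomial.X (Sum.inl (i, j, []))) = _
        rw [MvPolynomial.aeval_X]
        rfl)
      (by
        intro i j y hy
        show MvPolynomial.aeval _ (MvPolynomial.X (Sum.inr (i, j))) = _
        rw [MvPolynomial.aeval_X]
        rfl) c).2 x hx
    rw [e4] at e3
    show MvPolynomial.aeval (fun v : Fin n × Fin n × List (Fin n) =>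
        Dw pd ((v.2.2 : Multiset (Fin n)).toList) (fun y => g y v.1 v.2.1) x) (Φ0 * dt) = _
    rw [e2, e3]
    rfl
  · intro A _ _ y
    rw [pe_aeval_sub, pe_aeval_sub]
    congr 2
    funext v
    obtain ⟨i, j, s⟩ := v
    simp only
    congr 1
    module

end CInv
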