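import Pool.Agent.Helper771.CInv.Defs
import Pool.Agent.Helper771.CInv.P_phi_exists
import Pool.Agent.Helper771.CInv.P_conf_phi
import Pool.Agent.Helper771.CInv.P_ord_one
import Pool.Agent.Helper771.CInv.P_ord_induct

set_option linter.all false

open scoped BigOperators

namespace CInv



theorem main_thm (n : ℕ) (hn : Even n) (h6 : 6 ≤ n) (c : Contraction →₀ ℝ)
    (hc : IsConfInv n c) (U : Set (Fin n → ℝ)) (hU : IsOpen U)
    (g : (Fin n → ℝ) → Matrix (Fin n) (Fin n) ℝ) (hg : IsMetricOn U g)
    (x : Fin n → ℝ) (hx : x ∈ U) : value c g x = 0 := by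
  obtain ⟨N, Φ, hN, hΦ⟩ := phi_exists n c
  have hn2 : n / 2 ≤ n * N := by
    calc n / 2 ≤ n := Nat.div_le_self _ _
      _ = n * 1 := (mul_one n).symm
      _ ≤ n * N := Nat.mul_le_mul_left _ hN
  have hM : (n * N - n / 2) + n / 2 = n * N := Nat.sub_add_cancel hn2
  have hC := conf_phi hn hc hΦ hM
  have hord : ∀ r, OrdGE (r + 1) Φ := by
    intro r
    induction r with
    | zero => exact ord_one hΦ
    | succ r ih => exact ord_induct hn h6 (by omega) hΦ hC hM ih
  have hz : Φ = 0 := by
    rw [← MvPolynomial.support_eq_empty, Finset.eq_empty_iff_forall_notMem]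
    intro m hm
    have := hord m.degree m hm
    omega
  have hf := hΦ.fn U hU g hg x hx
  rw [hz, map_zero] at hf
  have hdet : (g x).det ^ N ≠ 0 := pow_ne_zero _ (ne_of_gt (hg.posDef x hx).det_pos)
  rcases mul_eq_zero.mp hf.symm with h | h
  · exact absurd h hdet
  · exact h

end CInv
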